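import Mathlib
import Pool.Agent.GT.Defs

set_option autoImplicit false

/-!
# GTP: definitions (generic polynomial times along nilpotent polynomial sequences, MP_4d8f14_an)

Paper proof: note 3165 of helper18 on MP_4d8f14_an.
-/

namespace Pool.Agent.GTP

open MeasureTheory Filter Topology Pool.Agent.GT

/-- `e(t) = exp(2 π i t)` -/
noncomputable def ee (t : ℝ) : ℂ := Complex.exp (((2 * Real.pi * t : ℝ) : ℂ) * Complex.I)

/-- Fourier coefficients of a function on `[0, 1]` -/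
noncomputable def cf (b : ℝ → ℂ) (ξ : ℤ) : ℂ := ∫ u in (0 : ℝ)..1, b u * ee (-(ξ * u))

/-- the weight `(1 + |y|)^(-1/2)` -/
noncomputable def tau (y : ℝ) : ℝ := (1 + |y|) ^ (-(1 / 2) : ℝ)

/-- the positive definite kernel `|J⁻¹ ∑_{j<J} e(j L δ)|²` -/
noncomputable def kap (J L : ℕ) (δ : ℝ) : ℝ :=
  ‖(J : ℂ)⁻¹ * ∑ j ∈ Finset.range J, ee ((j : ℝ) * L * δ)‖ ^ 2

/-- iterated differences -/
noncomputable def dl : List ℕ → (ℝ → ℝ) → ℝ → ℝ
  | [], f => f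
  | h :: l, f => dl l (fun x => f (x + h) - f x)

section
variable {X : Type*}

/-- square of a Fourier coefficient of the orbit of `y` on `[0, 1]` -/
noncomputable def AA (φ : ℝ → X → X) (F : X → ℂ) (ξ : ℤ) (y : X) : ℝ := ‖cf (fun u => F (φ u y)) ξ‖ ^ 2

/-- the energy of the orbit on `[0, 1]` -/
noncomputable def mm (φ : ℝ → X → X) (F : X → ℂ) (y : X) : ℝ := ∫ u in (0 : ℝ)..1, ‖F (φ u y)‖ ^ 2

/-- the low frequencies -/
noncomputable def LL (φ : ℝ → X → X) (F : X → ℂ) (R : ℕ) (y : X) : ℝ :=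
  ∑ ξ ∈ Finset.Ioo (-(R : ℤ)) R, AA φ F ξ y

/-- the normalised high frequencies -/
noncomputable def aa (φ : ℝ → X → X) (F : X → ℂ) (R : ℕ) (y : X) (ξ : ℤ) : ℝ :=
  if (R : ℤ) ≤ |ξ| then (Real.sqrt (mm φ F y))⁻¹ * AA φ F ξ y else 0

/-- the Mellin coefficients of the normalised high frequencies -/
noncomputable def VV (φ : ℝ → X → X) (F : X → ℂ) (R : ℕ) (ω : ℝ) (y : X) : ℂ :=
  ∑' ξ : ℤ, (aa φ F R y ξ : ℂ) * ee (ω * Real.log |(ξ : ℝ)|)

/-- the weights `a`, the maps `g`, the times `p`: weighted average over the finite set `I` -/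
noncomputable def BB (φ : ℝ → X → X) (g : ℕ → X → X) (p : ℕ → ℝ) (a : ℕ → X → ℂ) (N : ℕ) (I : Finset ℕ)
    (f : X → ℂ) (β : ℝ) (x : X) : ℂ :=
  (N : ℂ)⁻¹ * ∑ n ∈ I, a n x * f (φ (β * p n) (g n x))

/-- the `L²` maximal inequality for a sequence of maps -/
def MaxP [MeasurableSpace X] (μ : Measure X) (g : ℕ → X → X) : Prop :=
  ∃ C : NNReal, ∀ v : X → ENNReal, Measurable v →
    ∫⁻ x, (⨆ N : ℕ, ((N + 1 : ℕ) : ENNReal)⁻¹ * ∑ n ∈ Finset.range (N + 1), v (g n x)) ^ 2 ∂μ ≤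
      C * ∫⁻ x, v x ^ 2 ∂μ

/-- averages of `e(ω log n) v(g(n) x)` are small -/
def WstP [MeasurableSpace X] (μ : Measure X) (g : ℕ → X → X) : Prop :=
  ∃ c C : ℝ, 0 < c ∧ c ≤ 1 ∧ 1 ≤ C ∧ ∀ N a b : ℕ, 1 ≤ N → N ≤ a → b ≤ 2 * N → ∀ ω : ℝ, 1 ≤ |ω| →
    C * |ω| ≤ N → ∀ v : X → ℂ, Measurable v → (∃ B, ∀ x, ‖v x‖ ≤ B) →
      ∫ x, ‖(N : ℂ)⁻¹ * ∑ n ∈ Finset.Ioc a b, ee (ω * Real.log n) * v (g n x)‖ ^ 2 ∂μ ≤
        C * |ω| ^ (-c) * ∫ x, ‖v x‖ ^ 2 ∂μ

/-- good sequences of maps -/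
structure GG [MeasurableSpace X] (μ : Measure X) (φ : ℝ → X → X) (g : ℕ → X → X) : Prop where
  mp : ∀ n, MeasurePreserving (g n) μ μ
  comm : ∀ n s x, g n (φ s x) = φ s (g n x)
  max : MaxP μ g
  wst : WstP μ g

/-- intervals of integers in the dyadic blocks -/
def IsBlk (I : ℕ → Finset ℕ) : Prop := ∀ k, ∃ a b : ℕ, I k = Finset.Ioc a b ∧ 2 ^ k ≤ a ∧ b ≤ 2 * 2 ^ k

end

theorem ee_add (s t : ℝ) : ee (s + t) = ee s * ee t := by
  unfold ee
  rw [← Complex.exp_add]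
  congr 1
  push_cast
  ring

theorem ee_zero : ee 0 = 1 := by simp [ee]

theorem norm_ee (t : ℝ) : ‖ee t‖ = 1 := by
  unfold ee
  exact Complex.norm_exp_ofReal_mul_I _

theorem ee_ne_zero (t : ℝ) : ee t ≠ 0 := Complex.exp_ne_zero _

theorem ee_neg (t : ℝ) : ee (-t) = (ee t)⁻¹ := by
  have h := ee_add t (-t)
  rw [add_neg_cancel, ee_zero] at h
  exact (eq_inv_of_mul_eq_one_right h.symm)

theorem ee_conj (t : ℝ) : (starRingEnd ℂ) (ee t) = ee (-t) := by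
  unfold ee
  rw [← Complex.exp_conj]
  congr 1
  rw [map_mul, Complex.conj_ofReal, Complex.conj_I]
  push_cast
  ring

theorem ee_int (n : ℤ) : ee n = 1 := by
  unfold ee
  rw [Complex.exp_eq_one_iff]
  refine ⟨n, ?_⟩
  push_cast
  ring

theorem ee_nat (n : ℕ) : ee n = 1 := by exact_mod_cast ee_int n

theorem continuous_ee : Continuous ee := by
  unfold ee
  fun_prop

theorem measurable_ee : Measurable ee := continuous_ee.measurable

theorem norm_ee_sub_one (t : ℝ) : ‖ee t - 1‖ ≤ 2 * Real.pi * |t| := by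
  unfold ee
  rw [mul_comm _ Complex.I]
  refine (Real.norm_exp_I_mul_ofReal_sub_one_le).trans ?_
  rw [Real.norm_eq_abs, abs_mul, abs_of_pos (by positivity : (0 : ℝ) < 2 * Real.pi)]

theorem norm_ee_sub (s t : ℝ) : ‖ee s - ee t‖ ≤ 2 * Real.pi * |s - t| := by
  have h : ee s - ee t = ee t * (ee (s - t) - 1) := by
    rw [mul_sub, ← ee_add, mul_one]
    congr 2
    ring
  rw [h, norm_mul, norm_ee, one_mul]
  exact norm_ee_sub_one _

theorem tau_pos (y : ℝ) : 0 < tau y := by unfold tau; positivity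

theorem tau_le_one (y : ℝ) : tau y ≤ 1 := by
  unfold tau
  exact Real.rpow_le_one_of_one_le_of_nonpos (by linarith [abs_nonneg y]) (by norm_num)

theorem tau_neg (y : ℝ) : tau (-y) = tau y := by unfold tau; rw [abs_neg]

theorem kap_nonneg (J L : ℕ) (δ : ℝ) : 0 ≤ kap J L δ := by unfold kap; positivity

theorem kap_le_one (J L : ℕ) (δ : ℝ) : kap J L δ ≤ 1 := by
  unfold kap
  refine pow_le_one₀ (norm_nonneg _) ?_
  rw [norm_mul, norm_inv, Complex.norm_natCast]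
  have h : ‖∑ j ∈ Finset.range J, ee ((j : ℝ) * L * δ)‖ ≤ J := by
    refine (norm_sum_le _ _).trans ?_
    simp [norm_ee]
  rcases Nat.eq_zero_or_pos J with h0 | h0
  · simp [h0]
  · rw [inv_mul_le_iff₀ (by exact_mod_cast h0)]
    simpa using h

end Pool.Agent.GTP
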