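import Mathlib
import Pool.Agent.GTP.Defs

set_option autoImplicit false

/-!
# GTP/Dbl: the double sum of the positive definite kernel is a sum of squares

PROOF.  `(kap J L δ : ℂ) = J⁻² ∑_{j,j'<J} ee((j - j') L δ)` (`|z|² = z conj z`, `ee_conj`, `ee_add`).  For fixed `j, j'` put `ω = (j - j') L` and `S_n = ∑'_ξ a_n(ξ) ee(ω λ_n(ξ))` (absolutely convergent, `‖ee‖ = 1`).
For `n, m ∈ I`: `∑'_{z} a_n(z.1) a_m(z.2) ee(ω (λ_m(z.2) - λ_n(z.1))) = conj(S_n) S_m` (product of absolutely convergent series, `tsum_mul_tsum_of_summable_norm`, `ee_add`, `ee_conj`, `Complex.conj_tsum`).  Sum over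
`n, m`: `∑_{n,m} conj(S_n) S_m = ‖∑_n S_n‖²`.  The exchange of the finite sums over `j, j'` with the series is `tsum_finsetSum`/`HasSum`-linearity.  Summability of the left side: dominated by `a_n(z.1) a_m(z.2)`
(`kap_nonneg`, `kap_le_one`).
-/

namespace Pool.Agent.GTP

open Finset

theorem dbl (J L : ℕ) (I : Finset ℕ) (a : ℕ → ℤ → ℝ) (ha : ∀ n ξ, 0 ≤ a n ξ) (hs : ∀ n ∈ I, Summable (a n))
    (lam : ℕ → ℤ → ℝ) :
    (∀ n ∈ I, ∀ m ∈ I, Summable (fun z : ℤ × ℤ => a n z.1 * a m z.2 * kap J L (lam m z.2 - lam n z.1))) ∧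
    ∑ n ∈ I, ∑ m ∈ I, ∑' z : ℤ × ℤ, a n z.1 * a m z.2 * kap J L (lam m z.2 - lam n z.1) =
      ((J : ℝ)⁻¹) ^ 2 * ∑ j ∈ range J, ∑ j' ∈ range J,
        ‖∑ n ∈ I, ∑' ξ : ℤ, (a n ξ : ℂ) * ee (((j : ℝ) - j') * L * lam n ξ)‖ ^ 2 := by
  have hk : ∀ δ : ℝ, ((kap J L δ : ℝ) : ℂ) =
      ((J : ℂ)⁻¹) ^ 2 * ∑ j ∈ range J, ∑ j' ∈ range J, ee (((j : ℝ) - j') * L * δ) := by
    intro δ
    unfold kap
    rw [Complex.ofReal_pow, ← Complex.mul_conj', map_mul, map_sum, map_inv₀, Complex.conj_natCast]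
    simp_rw [ee_conj]
    rw [mul_mul_mul_comm, sum_mul_sum, sq]
    congr 1
    refine sum_congr rfl fun j _ => sum_congr rfl fun j' _ => ?_
    rw [← ee_add]
    congr 1
    ring
  have hN : ∀ n ∈ I, ∀ ω : ℝ, Summable fun ξ : ℤ => ‖(a n ξ : ℂ) * ee (ω * lam n ξ)‖ := by
    intro n hn ω
    have e : (fun ξ : ℤ => ‖(a n ξ : ℂ) * ee (ω * lam n ξ)‖) = a n := by
      funext ξ
      rw [norm_mul, norm_ee, mul_one, Complex.norm_real, Real.norm_of_nonneg (ha n ξ)]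
    rw [e]
    exact hs n hn
  have hp : ∀ n ∈ I, ∀ m ∈ I, ∀ ω : ℝ,
      HasSum (fun z : ℤ × ℤ => ((a n z.1 : ℂ) * (a m z.2 : ℂ)) * ee (ω * (lam m z.2 - lam n z.1)))
        ((starRingEnd ℂ) (∑' ξ : ℤ, (a n ξ : ℂ) * ee (ω * lam n ξ)) * ∑' ξ : ℤ, (a m ξ : ℂ) * ee (ω * lam m ξ)) := by
    intro n hn m hm ω
    have h1 := hN n hn ω
    have h2 := hN m hm ω
    have h1' : Summable fun ξ : ℤ => ‖(starRingEnd ℂ) ((a n ξ : ℂ) * ee (ω * lam n ξ))‖ := by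
      simpa only [RCLike.norm_conj] using h1
    rw [Complex.conj_tsum, tsum_mul_tsum_of_summable_norm h1' h2]
    have h3 := (summable_mul_of_summable_norm h1' h2).hasSum
    have e : (fun z : ℤ × ℤ => ((a n z.1 : ℂ) * (a m z.2 : ℂ)) * ee (ω * (lam m z.2 - lam n z.1))) =
        fun z : ℤ × ℤ => (starRingEnd ℂ) ((a n z.1 : ℂ) * ee (ω * lam n z.1)) * ((a m z.2 : ℂ) * ee (ω * lam m z.2)) := by
      funext z
      rw [map_mul, Complex.conj_ofReal, ee_conj, mul_mul_mul_comm, ← ee_add]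
      congr 2
      ring
    rw [e]
    exact h3
  refine ⟨fun n hn m hm => ?_, ?_⟩
  · refine Summable.of_nonneg_of_le (fun z => ?_) (fun z => ?_)
      ((hs n hn).mul_of_nonneg (hs m hm) (ha n) (ha m))
    · exact mul_nonneg (mul_nonneg (ha _ _) (ha _ _)) (kap_nonneg _ _ _)
    · exact mul_le_of_le_one_right (mul_nonneg (ha _ _) (ha _ _)) (kap_le_one _ _ _)
  · have hq : ∀ n ∈ I, ∀ m ∈ I,
        ((∑' z : ℤ × ℤ, a n z.1 * a m z.2 * kap J L (lam m z.2 - lam n z.1) : ℝ) : ℂ) =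
        ((J : ℂ)⁻¹) ^ 2 * ∑ j ∈ range J, ∑ j' ∈ range J,
          (starRingEnd ℂ) (∑' ξ : ℤ, (a n ξ : ℂ) * ee (((j : ℝ) - j') * L * lam n ξ)) *
            ∑' ξ : ℤ, (a m ξ : ℂ) * ee (((j : ℝ) - j') * L * lam m ξ) := by
      intro n hn m hm
      rw [Complex.ofReal_tsum]
      have h1 := (hasSum_sum fun j (_ : j ∈ range J) => hasSum_sum fun j' (_ : j' ∈ range J) =>
        hp n hn m hm (((j : ℝ) - j') * L)).mul_left (((J : ℂ)⁻¹) ^ 2)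
      rw [← h1.tsum_eq]
      refine tsum_congr fun z => ?_
      rw [Complex.ofReal_mul, hk, Complex.ofReal_mul, mul_left_comm]
      congr 1
      simp_rw [mul_sum]
    have hr : ∀ j ∈ range J, ∀ j' ∈ range J,
        ∑ n ∈ I, ∑ m ∈ I, (starRingEnd ℂ) (∑' ξ : ℤ, (a n ξ : ℂ) * ee (((j : ℝ) - j') * L * lam n ξ)) *
            ∑' ξ : ℤ, (a m ξ : ℂ) * ee (((j : ℝ) - j') * L * lam m ξ) =
        ((‖∑ n ∈ I, ∑' ξ : ℤ, (a n ξ : ℂ) * ee (((j : ℝ) - j') * L * lam n ξ)‖ ^ 2 : ℝ) : ℂ) := by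
      intro j _ j' _
      rw [← sum_mul_sum, ← map_sum, Complex.ofReal_pow, Complex.conj_mul']
    apply Complex.ofReal_injective
    rw [Complex.ofReal_sum]
    calc ∑ n ∈ I, ((∑ m ∈ I, ∑' z : ℤ × ℤ, a n z.1 * a m z.2 * kap J L (lam m z.2 - lam n z.1) : ℝ) : ℂ)
        = ∑ n ∈ I, ∑ m ∈ I, ((J : ℂ)⁻¹) ^ 2 * ∑ j ∈ range J, ∑ j' ∈ range J,
          (starRingEnd ℂ) (∑' ξ : ℤ, (a n ξ : ℂ) * ee (((j : ℝ) - j') * L * lam n ξ)) *
            ∑' ξ : ℤ, (a m ξ : ℂ) * ee (((j : ℝ) - j') * L * lam m ξ) := by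
          refine sum_congr rfl fun n hn => ?_
          rw [Complex.ofReal_sum]
          exact sum_congr rfl fun m hm => hq n hn m hm
      _ = ((J : ℂ)⁻¹) ^ 2 * ∑ n ∈ I, ∑ m ∈ I, ∑ j ∈ range J, ∑ j' ∈ range J,
          (starRingEnd ℂ) (∑' ξ : ℤ, (a n ξ : ℂ) * ee (((j : ℝ) - j') * L * lam n ξ)) *
            ∑' ξ : ℤ, (a m ξ : ℂ) * ee (((j : ℝ) - j') * L * lam m ξ) := by
          rw [mul_sum]
          refine sum_congr rfl fun n _ => ?_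
          rw [mul_sum]
      _ = ((J : ℂ)⁻¹) ^ 2 * ∑ j ∈ range J, ∑ j' ∈ range J, ∑ n ∈ I, ∑ m ∈ I,
          (starRingEnd ℂ) (∑' ξ : ℤ, (a n ξ : ℂ) * ee (((j : ℝ) - j') * L * lam n ξ)) *
            ∑' ξ : ℤ, (a m ξ : ℂ) * ee (((j : ℝ) - j') * L * lam m ξ) := by
          congr 1
          have e1 : ∀ n ∈ I, ∑ m ∈ I, ∑ j ∈ range J, ∑ j' ∈ range J,
              (starRingEnd ℂ) (∑' ξ : ℤ, (a n ξ : ℂ) * ee (((j : ℝ) - j') * L * lam n ξ)) *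
                ∑' ξ : ℤ, (a m ξ : ℂ) * ee (((j : ℝ) - j') * L * lam m ξ) =
              ∑ j ∈ range J, ∑ j' ∈ range J, ∑ m ∈ I,
              (starRingEnd ℂ) (∑' ξ : ℤ, (a n ξ : ℂ) * ee (((j : ℝ) - j') * L * lam n ξ)) *
                ∑' ξ : ℤ, (a m ξ : ℂ) * ee (((j : ℝ) - j') * L * lam m ξ) := by
            intro n _
            rw [sum_comm]
            refine sum_congr rfl fun j _ => ?_
            rw [sum_comm]
          rw [sum_congr rfl e1, sum_comm]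
          refine sum_congr rfl fun j _ => ?_
          rw [sum_comm]
      _ = ((J : ℂ)⁻¹) ^ 2 * ∑ j ∈ range J, ∑ j' ∈ range J,
          ((‖∑ n ∈ I, ∑' ξ : ℤ, (a n ξ : ℂ) * ee (((j : ℝ) - j') * L * lam n ξ)‖ ^ 2 : ℝ) : ℂ) := by
          congr 1
          exact sum_congr rfl fun j hj => sum_congr rfl fun j' hj' => hr j hj j' hj'
      _ = ((((J : ℝ)⁻¹) ^ 2 * ∑ j ∈ range J, ∑ j' ∈ range J,
          ‖∑ n ∈ I, ∑' ξ : ℤ, (a n ξ : ℂ) * ee (((j : ℝ) - j') * L * lam n ξ)‖ ^ 2 : ℝ) : ℂ) := by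
          push_cast
          rfl

end Pool.Agent.GTP
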