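import Mathlib
import Pool.Agent.GTP.Defs

set_option autoImplicit false

/-!
# GTP/Four: Fourier coefficients on `[0, 1]`

`cf b ξ = ∫_0^1 b(u) e(-ξ u) du`.

PROOFS.
* `parseval`: Mathlib has the orthonormal basis `fourierBasis` of `L²(AddCircle T, haarAddCircle)` (`T = 1`; `fourierBasis_repr`, `fourierCoeff`, `HilbertBasis.hasSum_inner_mul_inner`,
  `tsum_sq_fourierCoeff`, `hasSum_fourier_series_L2`) and `fourierCoeffOn` for functions on an interval (`fourierCoeffOn_eq_integral`, `fourierCoeff_liftIoc_eq`,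
  `AddCircle.intervalIntegral_preimage`, `AddCircle.measurePreserving_mk`).  Lift `b`, `c` from `(0, 1]` to the circle (`AddCircle.liftIoc 1 0 b`); bounded measurable functions are in `L²`.  The
  inner product formula gives `∑_ξ b̂(ξ) conj(ĉ(ξ)) = ∫_0^1 b conj(c)`.  (See also `Pool/Agent/MRG/Planch.lean` and `Pool/Agent/DyMax/Mult.lean` for similar manipulations.)
* `parseval_sq`: `b = c`, take real parts (`Complex.mul_conj`, `Complex.normSq_eq_norm_sq`).
* `cf_shift`: substitution `u ↦ u + a` and periodicity (`Function.Periodic.intervalIntegral_add_eq`): the function `u ↦ b u * ee (-(ξ u))` is 1-periodic (`ee_int`).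
* `cf_conj`: `conj ∫ = ∫ conj` (`intervalIntegral_conj` or `integral_conj`), `ee_conj`.
* `cf_mul`: `parseval` for `b` and `c'(u) = conj(c u) * ee (ζ u)`: `cf c' ξ = conj (cf c (ζ - ξ))`, `conj (c' u) = c u * ee (-(ζ u))`.
-/

namespace Pool.Agent.GTP

open MeasureTheory

private theorem Four_int {b : ℝ → ℂ} (hb : Measurable b) {B : ℝ} (hbB : ∀ u, ‖b u‖ ≤ B) (s t : ℝ) :
    IntervalIntegrable b volume s t := by
  rw [intervalIntegrable_iff]
  refine Measure.integrableOn_of_bounded (M := B) ?_ hb.aestronglyMeasurable (Filter.Eventually.of_forall hbB)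
  rw [Real.volume_uIoc]
  exact ENNReal.ofReal_ne_top

private theorem Four_ee (ξ : ℤ) : Measurable fun u : ℝ => ee (-(ξ * u)) :=
  measurable_ee.comp (by fun_prop)

private theorem Four_intE {b : ℝ → ℂ} (hb : Measurable b) {B : ℝ} (hbB : ∀ u, ‖b u‖ ≤ B) (ξ : ℤ) (s t : ℝ) :
    IntervalIntegrable (fun u => b u * ee (-(ξ * u))) volume s t := by
  refine Four_int (B := B) (hb.mul (Four_ee ξ)) ?_ s t
  intro u
  change ‖b u * ee (-(ξ * u))‖ ≤ B
  rw [norm_mul, norm_ee, mul_one]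
  exact hbB u

private theorem Four_cf (b : ℝ → ℂ) (ξ : ℤ) :
    fourierCoeffOn (zero_lt_one : (0 : ℝ) < 1) b ξ = cf b ξ := by
  rw [fourierCoeffOn_eq_integral]
  unfold cf
  rw [sub_zero, div_one, one_smul]
  apply intervalIntegral.integral_congr
  intro u _
  simp only
  rw [fourier_coe_apply, smul_eq_mul, mul_comm]
  congr 1
  unfold ee
  congr 1
  push_cast
  ring

private theorem Four_sq {b : ℝ → ℂ} (hb : Measurable b) {B : ℝ} (hbB : ∀ u, ‖b u‖ ≤ B) :
    HasSum (fun ξ : ℤ => ‖cf b ξ‖ ^ 2) (∫ u in (0 : ℝ)..1, ‖b u‖ ^ 2) := by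
  have hL2 : MemLp b 2 (volume.restrict (Set.Ioc (0 : ℝ) 1)) := by
    have : IsFiniteMeasure (volume.restrict (Set.Ioc (0 : ℝ) 1)) :=
      ⟨by rw [Measure.restrict_apply_univ, Real.volume_Ioc]; exact ENNReal.ofReal_lt_top⟩
    exact MemLp.of_bound hb.aestronglyMeasurable B (Filter.Eventually.of_forall hbB)
  have h := hasSum_sq_fourierCoeffOn (zero_lt_one : (0 : ℝ) < 1) hL2
  simp only [Four_cf, sub_zero, inv_one, one_smul] at h
  exact h

private theorem Four_add {b c : ℝ → ℂ} (hb : Measurable b) (hc : Measurable c) {B : ℝ} (hbB : ∀ u, ‖b u‖ ≤ B)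
    (hcB : ∀ u, ‖c u‖ ≤ B) (w : ℂ) (ξ : ℤ) :
    cf (fun u => b u + w * c u) ξ = cf b ξ + w * cf c ξ := by
  unfold cf
  rw [← intervalIntegral.integral_const_mul, ← intervalIntegral.integral_add (Four_intE hb hbB ξ 0 1)
    ((Four_intE hc hcB ξ 0 1).const_mul w)]
  apply intervalIntegral.integral_congr
  intro u _
  simp only
  ring

private theorem Four_pol (z w : ℂ) : z * (starRingEnd ℂ) w =
    (1 / 4 : ℂ) * (((‖z + 1 * w‖ ^ 2 : ℝ) : ℂ) - ((‖z + (-1) * w‖ ^ 2 : ℝ) : ℂ)) +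
    (Complex.I / 4 : ℂ) * (((‖z + Complex.I * w‖ ^ 2 : ℝ) : ℂ) - ((‖z + (-Complex.I) * w‖ ^ 2 : ℝ) : ℂ)) := by
  have h : ∀ v : ℂ, ((‖v‖ ^ 2 : ℝ) : ℂ) = v * (starRingEnd ℂ) v := by
    intro v
    rw [Complex.mul_conj, Complex.normSq_eq_norm_sq]
  rw [h, h, h, h]
  simp only [map_add, map_mul, map_neg, map_one, Complex.conj_I]
  linear_combination ((1 / 2 : ℂ) * z * (starRingEnd ℂ) w - (1 / 2 : ℂ) * w * (starRingEnd ℂ) z) * Complex.I_sq

theorem parseval {b c : ℝ → ℂ} (hb : Measurable b) (hc : Measurable c) {B : ℝ} (hbB : ∀ u, ‖b u‖ ≤ B)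
    (hcB : ∀ u, ‖c u‖ ≤ B) :
    HasSum (fun ξ : ℤ => cf b ξ * (starRingEnd ℂ) (cf c ξ)) (∫ u in (0 : ℝ)..1, b u * (starRingEnd ℂ) (c u)) := by
  have hw : ∀ w : ℂ, ‖w‖ ≤ 1 → Measurable (fun u => b u + w * c u) ∧ ∀ u, ‖b u + w * c u‖ ≤ B + B := by
    intro w hw
    refine ⟨hb.add (hc.const_mul w), fun u => ?_⟩
    refine (norm_add_le _ _).trans (add_le_add (hbB u) ?_)
    rw [norm_mul]
    calc ‖w‖ * ‖c u‖ ≤ 1 * ‖c u‖ := mul_le_mul_of_nonneg_right hw (norm_nonneg _)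
      _ ≤ B := by rw [one_mul]; exact hcB u
  have hs : ∀ w : ℂ, ‖w‖ ≤ 1 → HasSum (fun ξ : ℤ => ((‖cf b ξ + w * cf c ξ‖ ^ 2 : ℝ) : ℂ))
      (∫ u in (0 : ℝ)..1, ((‖b u + w * c u‖ ^ 2 : ℝ) : ℂ)) := by
    intro w h1
    have h2 := Four_sq (hw w h1).1 (hw w h1).2
    simp only [Four_add hb hc hbB hcB w] at h2
    rw [intervalIntegral.integral_ofReal]
    exact Complex.hasSum_ofReal.2 h2
  have hi : ∀ w : ℂ, ‖w‖ ≤ 1 →
      IntervalIntegrable (fun u => ((‖b u + w * c u‖ ^ 2 : ℝ) : ℂ)) volume 0 1 := by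
    intro w h1
    refine Four_int (B := (B + B) ^ 2) ?_ ?_ 0 1
    · exact Complex.measurable_ofReal.comp ((hw w h1).1.norm.pow_const 2)
    · intro u
      rw [Complex.norm_real, Real.norm_of_nonneg (by positivity)]
      exact pow_le_pow_left₀ (norm_nonneg _) ((hw w h1).2 u) 2
  have n1 : ‖(1 : ℂ)‖ ≤ 1 := by simp
  have n2 : ‖(-1 : ℂ)‖ ≤ 1 := by simp
  have n3 : ‖Complex.I‖ ≤ 1 := by simp
  have n4 : ‖-Complex.I‖ ≤ 1 := by simp
  have key := (((hs 1 n1).sub (hs (-1) n2)).mul_left (1 / 4 : ℂ)).add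
    (((hs Complex.I n3).sub (hs (-Complex.I) n4)).mul_left (Complex.I / 4 : ℂ))
  have e1 : (∫ u in (0 : ℝ)..1, b u * (starRingEnd ℂ) (c u)) =
      (1 / 4 : ℂ) * ((∫ u in (0 : ℝ)..1, ((‖b u + 1 * c u‖ ^ 2 : ℝ) : ℂ)) -
        (∫ u in (0 : ℝ)..1, ((‖b u + (-1) * c u‖ ^ 2 : ℝ) : ℂ))) +
      (Complex.I / 4 : ℂ) * ((∫ u in (0 : ℝ)..1, ((‖b u + Complex.I * c u‖ ^ 2 : ℝ) : ℂ)) -
        (∫ u in (0 : ℝ)..1, ((‖b u + (-Complex.I) * c u‖ ^ 2 : ℝ) : ℂ))) := by
    rw [← intervalIntegral.integral_sub (hi 1 n1) (hi (-1) n2),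
      ← intervalIntegral.integral_sub (hi Complex.I n3) (hi (-Complex.I) n4),
      ← intervalIntegral.integral_const_mul, ← intervalIntegral.integral_const_mul,
      ← intervalIntegral.integral_add (((hi 1 n1).sub (hi (-1) n2)).const_mul _)
        (((hi Complex.I n3).sub (hi (-Complex.I) n4)).const_mul _)]
    apply intervalIntegral.integral_congr
    intro u _
    exact Four_pol (b u) (c u)
  rw [e1]
  refine key.congr_fun ?_ |> fun h => h
  intro ξ
  exact Four_pol (cf b ξ) (cf c ξ)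

theorem parseval_sq {b : ℝ → ℂ} (hb : Measurable b) {B : ℝ} (hbB : ∀ u, ‖b u‖ ≤ B) :
    HasSum (fun ξ : ℤ => ‖cf b ξ‖ ^ 2) (∫ u in (0 : ℝ)..1, ‖b u‖ ^ 2) :=
  Four_sq hb hbB

theorem cf_shift {b : ℝ → ℂ} (hb : Measurable b) {B : ℝ} (hbB : ∀ u, ‖b u‖ ≤ B) (hper : ∀ u, b (u + 1) = b u)
    (a : ℝ) (ξ : ℤ) : cf (fun u => b (u + a)) ξ = ee (ξ * a) * cf b ξ := by
  unfold cf
  have h1 : (∫ u in (0 : ℝ)..1, b (u + a) * ee (-(ξ * u))) =
      ∫ u in (0 : ℝ)..1, (fun v => ee (ξ * a) * (b v * ee (-(ξ * v)))) (u + a) := by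
    apply intervalIntegral.integral_congr
    intro u _
    simp only
    have h2 : ee (-(ξ * u)) = ee (ξ * a) * ee (-(ξ * (u + a))) := by
      rw [← ee_add]
      congr 1
      ring
    rw [h2]
    ring
  rw [h1, intervalIntegral.integral_comp_add_right (fun v => ee (ξ * a) * (b v * ee (-(ξ * v)))) a,
    intervalIntegral.integral_const_mul, zero_add, add_comm (1 : ℝ) a]
  congr 1
  have hp : Function.Periodic (fun v : ℝ => b v * ee (-(ξ * v))) 1 := by
    intro v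
    simp only
    rw [hper v]
    congr 1
    have h3 : (-(ξ * (v + 1)) : ℝ) = -(ξ * v) + ((-ξ : ℤ) : ℝ) := by push_cast; ring
    rw [h3, ee_add, ee_int, mul_one]
  have h4 := hp.intervalIntegral_add_eq a 0
  rw [zero_add] at h4
  exact h4

private theorem Four_conj (b : ℝ → ℂ) (ξ : ℤ) :
    cf (fun u => (starRingEnd ℂ) (b u)) ξ = (starRingEnd ℂ) (cf b (-ξ)) := by
  unfold cf
  rw [← intervalIntegral.intervalIntegral_conj]
  apply intervalIntegral.integral_congr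
  intro u _
  simp only
  rw [map_mul, ee_conj]
  congr 2
  push_cast
  ring

theorem cf_conj {b : ℝ → ℂ} (hb : Measurable b) {B : ℝ} (hbB : ∀ u, ‖b u‖ ≤ B) (ξ : ℤ) :
    cf (fun u => (starRingEnd ℂ) (b u)) ξ = (starRingEnd ℂ) (cf b (-ξ)) :=
  Four_conj b ξ

theorem cf_mul {b c : ℝ → ℂ} (hb : Measurable b) (hc : Measurable c) {B : ℝ} (hbB : ∀ u, ‖b u‖ ≤ B)
    (hcB : ∀ u, ‖c u‖ ≤ B) (ζ : ℤ) :
    HasSum (fun ξ : ℤ => cf b ξ * cf c (ζ - ξ)) (cf (fun u => b u * c u) ζ) := by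
  have hc' : Measurable fun u => (starRingEnd ℂ) (c u) * ee (ζ * u) :=
    (Complex.continuous_conj.measurable.comp hc).mul (measurable_ee.comp (by fun_prop))
  have hcB' : ∀ u, ‖(starRingEnd ℂ) (c u) * ee (ζ * u)‖ ≤ B := by
    intro u
    rw [norm_mul, norm_ee, mul_one, RCLike.norm_conj]
    exact hcB u
  have h := parseval hb hc' hbB hcB'
  have e1 : ∀ ξ : ℤ, (starRingEnd ℂ) (cf (fun u => (starRingEnd ℂ) (c u) * ee (ζ * u)) ξ) = cf c (ζ - ξ) := by
    intro ξ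
    have h1 : cf (fun u => (starRingEnd ℂ) (c u) * ee (ζ * u)) ξ =
        cf (fun u => (starRingEnd ℂ) (c u)) (ξ - ζ) := by
      unfold cf
      apply intervalIntegral.integral_congr
      intro u _
      simp only
      rw [mul_assoc, ← ee_add]
      congr 2
      push_cast
      ring
    rw [h1, Four_conj, Complex.conj_conj]
    congr 1
    ring
  have e2 : (∫ u in (0 : ℝ)..1, b u * (starRingEnd ℂ) ((starRingEnd ℂ) (c u) * ee (ζ * u))) =
      cf (fun u => b u * c u) ζ := by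
    unfold cf
    apply intervalIntegral.integral_congr
    intro u _
    simp only
    rw [map_mul, Complex.conj_conj, ee_conj, mul_assoc]
  rw [e2] at h
  simpa only [e1] using h

end Pool.Agent.GTP
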