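import Mathlib
import Pool.Agent.GTP.Defs
import Pool.Agent.GTP.Four

set_option autoImplicit false

/-!
# GTP/Loc: local quantities of an orbit

`F` measurable, bounded by `B`, `φ` a flow (jointly measurable).

PROOFS.  The orbit `u ↦ F(φ u y)` is measurable and bounded by `B`; `(u, y) ↦ F(φ u y)` is jointly measurable, so all parametric integrals are measurable
(`StronglyMeasurable.integral_prod_right`, `MeasureTheory.StronglyMeasurable.integral_prod_left`; interval integrals over `[0,1]` are set integrals over `Ioc 0 1`).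
* `hasSum_AA`: `parseval_sq`.
* `mm_le`: the integrand is at most `B²`.  `integral_mm`: Fubini and `∫ ‖F(φ u y)‖² dμ(y) = ∫ ‖F‖² dμ` (`(hφ.mp u).integral_comp'`-type lemma or `MeasurePreserving.integral_comp` needs an embedding; use
  `(hφ.mp u).map_eq ▸ integral_map`), interval length 1.
* `LL_le`: a finite partial sum of `hasSum_AA` (nonnegative terms).
* `summable_aa`, `tsum_aa_le`: `∑ aa ≤ (√mm)⁻¹ ∑ AA = (√mm)⁻¹ mm ≤ √mm` (if `mm = 0` all terms are `0`, as `(√0)⁻¹ = 0`).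
* `meas_VV`: `VV` is the pointwise limit of the partial sums over a sequence of finite sets exhausting `ℤ` (`Measurable.tsum`-type lemma; or `measurable_of_tendsto_metrizable` with `Finset.Icc (-n) n`, the
  series converges absolutely).
* `VV_le`: `‖VV‖ ≤ ∑ aa ≤ √mm`.
-/

namespace Pool.Agent.GTP

open MeasureTheory Pool.Agent.GT

section

variable {X : Type*} [MeasurableSpace X] {μ : Measure X} {φ : ℝ → X → X} {F : X → ℂ} {B : ℝ}

private theorem Loc_joint (hφ : IsFlow μ φ) (hF : Measurable F) :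
    Measurable (fun p : X × ℝ => F (φ p.2 p.1)) :=
  hF.comp (hφ.meas.comp (measurable_snd.prodMk measurable_fst))

theorem orbit_meas (hφ : IsFlow μ φ) (hF : Measurable F) (y : X) : Measurable (fun u : ℝ => F (φ u y)) := by
  exact hF.comp (hφ.meas.comp (measurable_id.prodMk measurable_const))

theorem AA_nonneg (ξ : ℤ) (y : X) : 0 ≤ AA φ F ξ y := by unfold AA; positivity

theorem meas_AA (hφ : IsFlow μ φ) (hF : Measurable F) (ξ : ℤ) : Measurable (AA φ F ξ) := by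
  have h1 : Measurable (fun p : X × ℝ => F (φ p.2 p.1) * ee (-(ξ * p.2))) :=
    (Loc_joint hφ hF).mul (measurable_ee.comp (by fun_prop))
  have h2 : StronglyMeasurable (fun y : X => ∫ u, F (φ u y) * ee (-(ξ * u)) ∂(volume.restrict (Set.Ioc (0 : ℝ) 1))) :=
    StronglyMeasurable.integral_prod_right (f := fun (y : X) (u : ℝ) => F (φ u y) * ee (-(ξ * u)))
      h1.stronglyMeasurable
  have h3 : AA φ F ξ = fun y : X => ‖∫ u, F (φ u y) * ee (-(ξ * u)) ∂(volume.restrict (Set.Ioc (0 : ℝ) 1))‖ ^ 2 := by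
    funext y
    rw [AA, cf, intervalIntegral.integral_of_le zero_le_one]
  rw [h3]
  exact h2.measurable.norm.pow_const 2

theorem hasSum_AA (hφ : IsFlow μ φ) (hF : Measurable F) (hB : ∀ x, ‖F x‖ ≤ B) (y : X) :
    HasSum (fun ξ : ℤ => AA φ F ξ y) (mm φ F y) := by
  exact parseval_sq (orbit_meas hφ hF y) (fun u => hB _)

theorem mm_nonneg (y : X) : 0 ≤ mm φ F y := by
  exact intervalIntegral.integral_nonneg zero_le_one fun u _ => by positivity

theorem meas_mm (hφ : IsFlow μ φ) (hF : Measurable F) : Measurable (mm φ F) := by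
  have h1 : Measurable (fun p : X × ℝ => ‖F (φ p.2 p.1)‖ ^ 2) := (Loc_joint hφ hF).norm.pow_const 2
  have h2 : StronglyMeasurable (fun y : X => ∫ u, ‖F (φ u y)‖ ^ 2 ∂(volume.restrict (Set.Ioc (0 : ℝ) 1))) :=
    StronglyMeasurable.integral_prod_right (f := fun (y : X) (u : ℝ) => ‖F (φ u y)‖ ^ 2) h1.stronglyMeasurable
  have h3 : mm φ F = fun y : X => ∫ u, ‖F (φ u y)‖ ^ 2 ∂(volume.restrict (Set.Ioc (0 : ℝ) 1)) := by
    funext y
    rw [mm, intervalIntegral.integral_of_le zero_le_one]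
  rw [h3]
  exact h2.measurable

theorem mm_le (hφ : IsFlow μ φ) (hF : Measurable F) (hB : ∀ x, ‖F x‖ ≤ B) (y : X) : mm φ F y ≤ B ^ 2 := by
  have h1 : ‖∫ u in (0 : ℝ)..1, ‖F (φ u y)‖ ^ 2‖ ≤ B ^ 2 * |(1 : ℝ) - 0| := by
    refine intervalIntegral.norm_integral_le_of_norm_le_const fun u _ => ?_
    rw [Real.norm_eq_abs, abs_of_nonneg (by positivity)]
    exact pow_le_pow_left₀ (norm_nonneg _) (hB _) 2
  rw [sub_zero, abs_one, mul_one] at h1
  exact (Real.le_norm_self _).trans h1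

theorem integral_mm [IsFiniteMeasure μ] (hφ : IsFlow μ φ) (hF : Measurable F) (hB : ∀ x, ‖F x‖ ≤ B) :
    ∫ y, mm φ F y ∂μ = ∫ y, ‖F y‖ ^ 2 ∂μ := by
  have h1 : Measurable (fun p : X × ℝ => ‖F (φ p.2 p.1)‖ ^ 2) := (Loc_joint hφ hF).norm.pow_const 2
  have h3 : mm φ F = fun y : X => ∫ u, ‖F (φ u y)‖ ^ 2 ∂(volume.restrict (Set.Ioc (0 : ℝ) 1)) := by
    funext y
    rw [mm, intervalIntegral.integral_of_le zero_le_one]
  have h4 : Integrable (fun p : X × ℝ => ‖F (φ p.2 p.1)‖ ^ 2)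
      (μ.prod (volume.restrict (Set.Ioc (0 : ℝ) 1))) := by
    refine Integrable.of_bound h1.aestronglyMeasurable (B ^ 2) (Filter.Eventually.of_forall fun p => ?_)
    rw [Real.norm_eq_abs, abs_of_nonneg (by positivity)]
    exact pow_le_pow_left₀ (norm_nonneg _) (hB _) 2
  rw [h3]
  have h5 := integral_integral_swap (f := fun (y : X) (u : ℝ) => ‖F (φ u y)‖ ^ 2) h4
  rw [h5]
  have h6 : ∀ u : ℝ, ∫ y, ‖F (φ u y)‖ ^ 2 ∂μ = ∫ y, ‖F y‖ ^ 2 ∂μ := by
    intro u
    have h7 : Measurable (fun y : X => ‖F y‖ ^ 2) := hF.norm.pow_const 2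
    have h8 := integral_map (μ := μ) (hφ.mp u).measurable.aemeasurable (f := fun y : X => ‖F y‖ ^ 2)
      h7.aestronglyMeasurable
    rw [(hφ.mp u).map_eq] at h8
    exact h8.symm
  rw [integral_congr_ae (Filter.Eventually.of_forall h6), integral_const]
  simp

theorem LL_nonneg (R : ℕ) (y : X) : 0 ≤ LL φ F R y := Finset.sum_nonneg fun ξ _ => AA_nonneg ξ y

theorem meas_LL (hφ : IsFlow μ φ) (hF : Measurable F) (R : ℕ) : Measurable (LL φ F R) := by
  exact Finset.measurable_sum _ fun ξ _ => meas_AA hφ hF ξ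

theorem LL_le (hφ : IsFlow μ φ) (hF : Measurable F) (hB : ∀ x, ‖F x‖ ≤ B) (R : ℕ) (y : X) :
    LL φ F R y ≤ mm φ F y := by
  exact sum_le_hasSum _ (fun ξ _ => AA_nonneg ξ y) (hasSum_AA hφ hF hB y)

theorem aa_nonneg (R : ℕ) (y : X) (ξ : ℤ) : 0 ≤ aa φ F R y ξ := by
  unfold aa
  split_ifs
  · exact mul_nonneg (inv_nonneg.2 (Real.sqrt_nonneg _)) (AA_nonneg ξ y)
  · exact le_rfl

theorem meas_aa (hφ : IsFlow μ φ) (hF : Measurable F) (R : ℕ) (ξ : ℤ) : Measurable (fun y => aa φ F R y ξ) := by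
  unfold aa
  split_ifs
  · exact ((meas_mm hφ hF).sqrt.inv).mul (meas_AA hφ hF ξ)
  · exact measurable_const

private theorem Loc_aa_le (R : ℕ) (y : X) (ξ : ℤ) : aa φ F R y ξ ≤ (Real.sqrt (mm φ F y))⁻¹ * AA φ F ξ y := by
  unfold aa
  split_ifs
  · exact le_rfl
  · exact mul_nonneg (inv_nonneg.2 (Real.sqrt_nonneg _)) (AA_nonneg ξ y)

theorem summable_aa (hφ : IsFlow μ φ) (hF : Measurable F) (hB : ∀ x, ‖F x‖ ≤ B) (R : ℕ) (y : X) :
    Summable (aa φ F R y) := by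
  refine Summable.of_nonneg_of_le (aa_nonneg R y) (Loc_aa_le R y)
    ((hasSum_AA hφ hF hB y).summable.mul_left (Real.sqrt (mm φ F y))⁻¹)

theorem tsum_aa_le (hφ : IsFlow μ φ) (hF : Measurable F) (hB : ∀ x, ‖F x‖ ≤ B) (R : ℕ) (y : X) :
    ∑' ξ : ℤ, aa φ F R y ξ ≤ Real.sqrt (mm φ F y) := by
  have h1 := (hasSum_AA hφ hF hB y).mul_left (Real.sqrt (mm φ F y))⁻¹
  have h2 : (Real.sqrt (mm φ F y))⁻¹ * mm φ F y = Real.sqrt (mm φ F y) := by
    rw [mul_comm, ← div_eq_mul_inv, Real.div_sqrt]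
  rw [h2] at h1
  rw [← h1.tsum_eq]
  exact (summable_aa hφ hF hB R y).tsum_le_tsum (Loc_aa_le R y) h1.summable

private theorem Loc_norm (R : ℕ) (ω : ℝ) (y : X) (ξ : ℤ) :
    ‖(aa φ F R y ξ : ℂ) * ee (ω * Real.log |(ξ : ℝ)|)‖ = aa φ F R y ξ := by
  rw [norm_mul, norm_ee, mul_one, Complex.norm_real, Real.norm_eq_abs, abs_of_nonneg (aa_nonneg R y ξ)]

private theorem Loc_summable (hφ : IsFlow μ φ) (hF : Measurable F) (hB : ∀ x, ‖F x‖ ≤ B) (R : ℕ) (ω : ℝ)
    (y : X) : Summable (fun ξ : ℤ => (aa φ F R y ξ : ℂ) * ee (ω * Real.log |(ξ : ℝ)|)) := by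
  refine Summable.of_norm ?_
  simp only [Loc_norm]
  exact summable_aa hφ hF hB R y

theorem meas_VV (hφ : IsFlow μ φ) (hF : Measurable F) (hB : ∀ x, ‖F x‖ ≤ B) (R : ℕ) (ω : ℝ) :
    Measurable (VV φ F R ω) := by
  have h1 : ∀ s : Finset ℤ, Measurable (fun y => ∑ ξ ∈ s, (aa φ F R y ξ : ℂ) * ee (ω * Real.log |(ξ : ℝ)|)) := by
    intro s
    exact Finset.measurable_sum _ fun ξ _ =>
      (Complex.measurable_ofReal.comp (meas_aa hφ hF R ξ)).mul measurable_const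
  refine measurable_of_tendsto_metrizable' Filter.atTop h1 (tendsto_pi_nhds.2 fun y => ?_)
  exact (Loc_summable hφ hF hB R ω y).hasSum

theorem VV_le (hφ : IsFlow μ φ) (hF : Measurable F) (hB : ∀ x, ‖F x‖ ≤ B) (R : ℕ) (ω : ℝ) (y : X) :
    ‖VV φ F R ω y‖ ^ 2 ≤ mm φ F y := by
  have h1 : ‖VV φ F R ω y‖ ≤ Real.sqrt (mm φ F y) := by
    refine (norm_tsum_le_tsum_norm (Loc_summable hφ hF hB R ω y).norm).trans ?_
    simp only [Loc_norm]
    exact tsum_aa_le hφ hF hB R y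
  calc ‖VV φ F R ω y‖ ^ 2 ≤ Real.sqrt (mm φ F y) ^ 2 := pow_le_pow_left₀ (norm_nonneg _) h1 2
    _ = mm φ F y := Real.sq_sqrt (mm_nonneg y)

end

end Pool.Agent.GTP
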