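import Mathlib
import Pool.Agent.GTP.Defs
import Pool.Agent.GTP.Loc

set_option autoImplicit false

/-!
# GTP/Low: low frequencies of `f - f ∘ φ_t`

PROOF.  `F = f - f ∘ φ_t`, `t ≥ 0`, `h(u) = f(φ_u y)`, so `F(φ_u y) = h(u) - h(u + t)`.  Substitution: `∫_0^1 h(u + t) e(-ξ u) du = e(ξ t) ∫_t^{1+t} h(u) e(-ξ u) du`, hence
`cf (orbit of F) ξ = (1 - e(ξ t)) cf h ξ + e(ξ t) (∫_0^t h(u) e(-ξ u) du - ∫_1^{1+t} h(u) e(-ξ u) du)`.
So `AA φ F ξ y ≤ 2 ‖1 - e(ξ t)‖² AA φ f ξ y + 4 t (∫_0^t ‖h‖² + ∫_1^{1+t} ‖h‖²)` (`‖∫_0^t h‖² ≤ t ∫_0^t ‖h‖²`, Cauchy–Schwarz; `(x + y)² ≤ 2x² + 2y²` twice), `‖1 - e(ξ t)‖ ≤ 2π R t` for `|ξ| < R`.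
Sum over the `2R - 1 ≤ 2R` frequencies `|ξ| < R` and integrate over `y` (`∫ ‖f(φ_u y)‖² dμ(y) = ∫ ‖f‖²`; `∑_{|ξ| < R} AA φ f ξ ≤ mm φ f`, `integral_mm`):
`∫ LL ≤ 2 (2π R t)² E + 2R · 4 t · 2 t E = (8π² R² + 16 R) t² E ≤ 100 (R t)² E` with `E = ∫ ‖f‖²` (`8 π² ≤ 80`, `16 R ≤ 16 R²`; `π² ≤ 10`).
-/

namespace Pool.Agent.GTP

open MeasureTheory Pool.Agent.GT

private theorem Low_ii {h : ℝ → ℂ} (hm : Measurable h) {B : ℝ} (hb : ∀ u, ‖h u‖ ≤ B) (a b : ℝ) :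
    IntervalIntegrable h volume a b :=
  (intervalIntegrable_const (c := B)).mono_fun' hm.aestronglyMeasurable
    (Filter.Eventually.of_forall hb)

/-- Cauchy-Schwarz -/
private theorem Low_cs {h : ℝ → ℂ} (hm : Measurable h) {B : ℝ} (hb : ∀ u, ‖h u‖ ≤ B) {a b : ℝ}
    (hab : a ≤ b) (ξ : ℤ) :
    ‖∫ u in a..b, h u * ee (-(ξ * u))‖ ^ 2 ≤ (b - a) * ∫ u in a..b, ‖h u‖ ^ 2 := by
  have h1 : ‖∫ u in a..b, h u * ee (-(ξ * u))‖ ≤ ∫ u in a..b, ‖h u‖ := by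
    refine (intervalIntegral.norm_integral_le_integral_norm hab).trans (le_of_eq ?_)
    refine intervalIntegral.integral_congr fun u _ => ?_
    show ‖h u * ee (-(ξ * u))‖ = ‖h u‖
    rw [norm_mul, norm_ee, mul_one]
  have i1 : IntervalIntegrable (fun u => ‖h u‖) volume a b := (Low_ii hm hb a b).norm
  have i2 : IntervalIntegrable (fun u => ‖h u‖ ^ 2) volume a b :=
    (intervalIntegrable_const (c := B ^ 2)).mono_fun' (hm.norm.pow_const 2).aestronglyMeasurable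
      (Filter.Eventually.of_forall fun u => by
        show ‖‖h u‖ ^ 2‖ ≤ B ^ 2
        rw [Real.norm_of_nonneg (sq_nonneg _)]
        exact pow_le_pow_left₀ (norm_nonneg _) (hb u) 2)
  set I1 : ℝ := ∫ u in a..b, ‖h u‖ with hI1
  set I2 : ℝ := ∫ u in a..b, ‖h u‖ ^ 2 with hI2
  have h2 : 0 ≤ ∫ u in a..b, ((b - a) * ‖h u‖ - I1) ^ 2 :=
    intervalIntegral.integral_nonneg hab fun u _ => sq_nonneg _
  have h3 : ∫ u in a..b, ((b - a) * ‖h u‖ - I1) ^ 2 =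
      (b - a) ^ 2 * I2 - 2 * (b - a) * I1 * I1 + (b - a) * I1 ^ 2 := by
    have e : (fun u => ((b - a) * ‖h u‖ - I1) ^ 2) =
        fun u => ((b - a) ^ 2 * ‖h u‖ ^ 2 - 2 * (b - a) * I1 * ‖h u‖) + I1 ^ 2 := by
      funext u
      ring
    rw [e, intervalIntegral.integral_add ((i2.const_mul _).sub (i1.const_mul _))
      intervalIntegrable_const, intervalIntegral.integral_sub (i2.const_mul _) (i1.const_mul _),
      intervalIntegral.integral_const_mul, intervalIntegral.integral_const_mul,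
      intervalIntegral.integral_const, smul_eq_mul]
  have h0 : 0 ≤ I1 := intervalIntegral.integral_nonneg hab fun u _ => norm_nonneg _
  rcases hab.eq_or_lt with hab0 | hab0
  · subst hab0
    simp
  · have h4 : 0 < b - a := sub_pos.2 hab0
    have h5 : I1 ^ 2 ≤ (b - a) * I2 := by
      refine le_of_mul_le_mul_left ?_ h4
      rw [h3] at h2
      nlinarith
    exact (pow_le_pow_left₀ (norm_nonneg _) h1 2).trans h5

/-- the shifted orbit -/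
private theorem Low_id {h : ℝ → ℂ} (hm : Measurable h) {B : ℝ} (hb : ∀ u, ‖h u‖ ≤ B) (t : ℝ) (ξ : ℤ) :
    cf (fun u => h u - h (u + t)) ξ = (1 - ee (ξ * t)) * cf h ξ + ee (ξ * t) *
      ((∫ u in (0 : ℝ)..t, h u * ee (-(ξ * u))) - ∫ u in (1 : ℝ)..(1 + t), h u * ee (-(ξ * u))) := by
  have hkm : Measurable fun u : ℝ => h u * ee (-(ξ * u)) :=
    hm.mul (measurable_ee.comp (measurable_id.const_mul (ξ : ℝ)).neg)
  have hkb : ∀ u, ‖h u * ee (-(ξ * u))‖ ≤ B := fun u => by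
    rw [norm_mul, norm_ee, mul_one]
    exact hb u
  have hk := Low_ii hkm hkb
  have hk' : IntervalIntegrable (fun u => h (u + t) * ee (-(ξ * (u + t)))) volume 0 1 :=
    Low_ii (hkm.comp (measurable_id.add_const t)) (fun u => hkb (u + t)) 0 1
  unfold cf
  have e1 : ∫ u in (0 : ℝ)..1, (h u - h (u + t)) * ee (-(ξ * u)) =
      ∫ u in (0 : ℝ)..1, (h u * ee (-(ξ * u)) -
        ee (ξ * t) * (h (u + t) * ee (-(ξ * (u + t))))) := by
    refine intervalIntegral.integral_congr fun u _ => ?_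
    show (h u - h (u + t)) * ee (-(ξ * u)) = h u * ee (-(ξ * u)) -
        ee (ξ * t) * (h (u + t) * ee (-(ξ * (u + t))))
    have e2 : ee (-(ξ * u)) = ee (ξ * t) * ee (-(ξ * (u + t))) := by
      rw [← ee_add]
      congr 1
      ring
    calc (h u - h (u + t)) * ee (-(ξ * u)) = h u * ee (-(ξ * u)) - h (u + t) * ee (-(ξ * u)) := by ring
      _ = h u * ee (-(ξ * u)) - h (u + t) * (ee (ξ * t) * ee (-(ξ * (u + t)))) := by rw [← e2]
      _ = _ := by ring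
  have e3 := intervalIntegral.integral_comp_add_right (a := (0 : ℝ)) (b := 1)
    (fun u => h u * ee (-(ξ * u))) t
  have e4 := intervalIntegral.integral_add_adjacent_intervals (hk 0 t) (hk t (1 + t))
  have e5 := intervalIntegral.integral_add_adjacent_intervals (hk 0 1) (hk 1 (1 + t))
  rw [e1, intervalIntegral.integral_sub (hk 0 1) (hk'.const_mul _),
    intervalIntegral.integral_const_mul, e3, zero_add]
  linear_combination (-ee (ξ * t)) * e4 + ee (ξ * t) * e5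

private theorem Low_sq (a b : ℂ) : ‖a + b‖ ^ 2 ≤ 2 * ‖a‖ ^ 2 + 2 * ‖b‖ ^ 2 := by
  have h2 := norm_add_le a b
  have h3 := pow_le_pow_left₀ (norm_nonneg _) h2 2
  nlinarith [sq_nonneg (‖a‖ - ‖b‖)]

/-- the estimate of one coefficient -/
private theorem Low_AA {X : Type*} [MeasurableSpace X] {μ : Measure X} {φ : ℝ → X → X} (hφ : IsFlow μ φ)
    {f : X → ℂ} {B : ℝ} (hf : Measurable f) (hB : ∀ x, ‖f x‖ ≤ B) {t : ℝ} (ht : 0 ≤ t) {R : ℕ} {ξ : ℤ}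
    (hξ : |(ξ : ℝ)| ≤ R) (y : X) :
    AA φ (fun y => f y - f (φ t y)) ξ y ≤ 2 * (2 * Real.pi * (R * t)) ^ 2 * AA φ f ξ y +
      4 * t * ((∫ u in (0 : ℝ)..t, ‖f (φ u y)‖ ^ 2) + ∫ u in (1 : ℝ)..(1 + t), ‖f (φ u y)‖ ^ 2) := by
  have hm : Measurable fun u : ℝ => f (φ u y) := orbit_meas hφ hf y
  have hb : ∀ u : ℝ, ‖f (φ u y)‖ ≤ B := fun u => hB _
  have e1 : (fun u => (fun y => f y - f (φ t y)) (φ u y)) =
      fun u => (fun u => f (φ u y)) u - (fun u => f (φ u y)) (u + t) := by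
    funext u
    show f (φ u y) - f (φ t (φ u y)) = f (φ u y) - f (φ (u + t) y)
    rw [← hφ.add, add_comm t u]
  unfold AA
  rw [e1, Low_id hm hb t ξ]
  have h1 := Low_cs hm hb ht ξ
  have h2 := Low_cs hm hb (show (1 : ℝ) ≤ 1 + t by linarith) ξ
  rw [sub_zero] at h1
  rw [show (1 : ℝ) + t - 1 = t by ring] at h2
  set P : ℂ := ∫ u in (0 : ℝ)..t, f (φ u y) * ee (-(ξ * u)) with hP
  set Q : ℂ := ∫ u in (1 : ℝ)..(1 + t), f (φ u y) * ee (-(ξ * u)) with hQ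
  set c : ℂ := cf (fun u => f (φ u y)) ξ with hc
  have h3 := Low_sq ((1 - ee (ξ * t)) * c) (ee (ξ * t) * (P - Q))
  have h4 : ‖(1 - ee (ξ * t)) * c‖ ^ 2 ≤ (2 * Real.pi * (R * t)) ^ 2 * ‖c‖ ^ 2 := by
    rw [norm_mul, mul_pow]
    refine mul_le_mul_of_nonneg_right ?_ (sq_nonneg _)
    refine pow_le_pow_left₀ (norm_nonneg _) ?_ 2
    rw [norm_sub_rev]
    refine (norm_ee_sub_one _).trans ?_
    refine mul_le_mul_of_nonneg_left ?_ (by positivity)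
    rw [abs_mul, abs_of_nonneg ht]
    exact mul_le_mul_of_nonneg_right hξ ht
  have h5 : ‖ee (ξ * t) * (P - Q)‖ ^ 2 ≤ 2 * ‖P‖ ^ 2 + 2 * ‖Q‖ ^ 2 := by
    rw [norm_mul, norm_ee, one_mul, sub_eq_add_neg]
    have := Low_sq P (-Q)
    rwa [norm_neg] at this
  linarith

/-- the integral of the energy of the orbit -/
private theorem Low_G {X : Type*} [MeasurableSpace X] {μ : Measure X} [IsFiniteMeasure μ] {φ : ℝ → X → X}
    (hφ : IsFlow μ φ) {f : X → ℂ} {B : ℝ} (hf : Measurable f) (hB : ∀ x, ‖f x‖ ≤ B) {a b : ℝ}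
    (hab : a ≤ b) : Integrable (fun y => ∫ u in a..b, ‖f (φ u y)‖ ^ 2) μ ∧
    ∫ y, (∫ u in a..b, ‖f (φ u y)‖ ^ 2) ∂μ = (b - a) * ∫ y, ‖f y‖ ^ 2 ∂μ := by
  have hg : Measurable fun x => ‖f x‖ ^ 2 := hf.norm.pow_const 2
  have hmeas : Measurable (Function.uncurry fun (x : X) (t : ℝ) => ‖f (φ t x)‖ ^ 2) :=
    hg.comp (hφ.meas.comp measurable_swap)
  have hint : Integrable (Function.uncurry fun (x : X) (t : ℝ) => ‖f (φ t x)‖ ^ 2)
      (μ.prod (volume.restrict (Set.Ioc a b))) := by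
    refine Integrable.of_bound hmeas.aestronglyMeasurable (B ^ 2)
      (Filter.Eventually.of_forall fun z => ?_)
    show ‖‖f (φ z.2 z.1)‖ ^ 2‖ ≤ B ^ 2
    rw [Real.norm_of_nonneg (sq_nonneg _)]
    exact pow_le_pow_left₀ (norm_nonneg _) (hB _) 2
  simp only [intervalIntegral.integral_of_le hab]
  refine ⟨hint.integral_prod_left, ?_⟩
  calc ∫ y, (∫ u in Set.Ioc a b, ‖f (φ u y)‖ ^ 2) ∂μ
      = ∫ u in Set.Ioc a b, (∫ y, ‖f (φ u y)‖ ^ 2 ∂μ) := by rw [integral_integral_swap hint]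
    _ = ∫ u in Set.Ioc a b, (∫ y, ‖f y‖ ^ 2 ∂μ) := by
        refine integral_congr_ae (Filter.Eventually.of_forall fun u => ?_)
        have h1 := integral_map (μ := μ) (φ := φ u) (hφ.mp u).measurable.aemeasurable
          (f := fun x => ‖f x‖ ^ 2) hg.aestronglyMeasurable
        rw [(hφ.mp u).map_eq] at h1
        exact h1.symm
    _ = (b - a) * ∫ y, ‖f y‖ ^ 2 ∂μ := by
        rw [setIntegral_const, Measure.real, Real.volume_Ioc,
          ENNReal.toReal_ofReal (sub_nonneg.2 hab), smul_eq_mul]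

theorem low {X : Type*} [MeasurableSpace X] {μ : Measure X} [IsFiniteMeasure μ] {φ : ℝ → X → X} (hφ : IsFlow μ φ)
    {f : X → ℂ} {B : ℝ} (hf : Measurable f) (hB : ∀ x, ‖f x‖ ≤ B) {t : ℝ} (ht : 0 ≤ t) {R : ℕ} (hR : 1 ≤ R) :
    ∫ y, LL φ (fun y => f y - f (φ t y)) R y ∂μ ≤ 100 * ((R : ℝ) * t) ^ 2 * ∫ y, ‖f y‖ ^ 2 ∂μ := by
  obtain ⟨i1, e1⟩ := Low_G hφ hf hB (zero_le_one (α := ℝ))
  obtain ⟨i2, e2⟩ := Low_G hφ hf hB ht
  obtain ⟨i3, e3⟩ := Low_G hφ hf hB (show (1 : ℝ) ≤ 1 + t by linarith)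
  rw [sub_zero, one_mul] at e1
  rw [sub_zero] at e2
  rw [show (1 : ℝ) + t - 1 = t by ring] at e3
  set E : ℝ := ∫ y, ‖f y‖ ^ 2 ∂μ with hE
  have hE0 : 0 ≤ E := integral_nonneg fun y => sq_nonneg _
  set K : ℝ := 2 * (2 * Real.pi * (R * t)) ^ 2 with hK
  have hK0 : 0 ≤ K := by positivity
  have hpt : ∀ y, LL φ (fun y => f y - f (φ t y)) R y ≤ K * (∫ u in (0 : ℝ)..1, ‖f (φ u y)‖ ^ 2) +
      2 * R * (4 * t) * ((∫ u in (0 : ℝ)..t, ‖f (φ u y)‖ ^ 2) +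
        ∫ u in (1 : ℝ)..(1 + t), ‖f (φ u y)‖ ^ 2) := by
    intro y
    set G : ℝ := (∫ u in (0 : ℝ)..t, ‖f (φ u y)‖ ^ 2) + ∫ u in (1 : ℝ)..(1 + t), ‖f (φ u y)‖ ^ 2 with hG
    have hG0 : 0 ≤ G := add_nonneg (intervalIntegral.integral_nonneg ht fun u _ => sq_nonneg _)
      (intervalIntegral.integral_nonneg (by linarith) fun u _ => sq_nonneg _)
    have h1 : LL φ (fun y => f y - f (φ t y)) R y ≤
        ∑ ξ ∈ Finset.Ioo (-(R : ℤ)) R, (K * AA φ f ξ y + 4 * t * G) := by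
      unfold LL
      refine Finset.sum_le_sum fun ξ hξ => ?_
      rw [Finset.mem_Ioo] at hξ
      refine Low_AA hφ hf hB ht ?_ y
      rw [abs_le]
      constructor
      · have : (-(R : ℤ) : ℤ) ≤ ξ := hξ.1.le
        exact_mod_cast this
      · exact_mod_cast hξ.2.le
    rw [Finset.sum_add_distrib, ← Finset.mul_sum, Finset.sum_const, Int.card_Ioo, nsmul_eq_mul] at h1
    have h2 : ∑ ξ ∈ Finset.Ioo (-(R : ℤ)) R, AA φ f ξ y ≤ ∫ u in (0 : ℝ)..1, ‖f (φ u y)‖ ^ 2 :=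
      LL_le hφ hf hB R y
    have h3 : ((((R : ℤ) - -(R : ℤ) - 1).toNat : ℕ) : ℝ) ≤ 2 * R := by
      have : ((R : ℤ) - -(R : ℤ) - 1).toNat ≤ 2 * R := by omega
      exact_mod_cast this
    have h4 : K * ∑ ξ ∈ Finset.Ioo (-(R : ℤ)) R, AA φ f ξ y ≤
        K * ∫ u in (0 : ℝ)..1, ‖f (φ u y)‖ ^ 2 := mul_le_mul_of_nonneg_left h2 hK0
    have h5 : ((((R : ℤ) - -(R : ℤ) - 1).toNat : ℕ) : ℝ) * (4 * t * G) ≤ 2 * R * (4 * t * G) :=
      mul_le_mul_of_nonneg_right h3 (by positivity)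
    calc LL φ (fun y => f y - f (φ t y)) R y ≤ _ := h1
      _ ≤ K * (∫ u in (0 : ℝ)..1, ‖f (φ u y)‖ ^ 2) + 2 * R * (4 * t * G) := add_le_add h4 h5
      _ = _ := by ring
  have hi : Integrable (fun y => K * (∫ u in (0 : ℝ)..1, ‖f (φ u y)‖ ^ 2) +
      2 * R * (4 * t) * ((∫ u in (0 : ℝ)..t, ‖f (φ u y)‖ ^ 2) +
        ∫ u in (1 : ℝ)..(1 + t), ‖f (φ u y)‖ ^ 2)) μ :=
    (i1.const_mul K).add ((i2.add i3).const_mul _)
  have hmono := integral_mono_of_nonneg (μ := μ)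
    (Filter.Eventually.of_forall fun y => LL_nonneg (φ := φ) (F := fun y => f y - f (φ t y)) R y) hi
    (Filter.Eventually.of_forall hpt)
  refine hmono.trans ?_
  have j1 : Integrable (fun y => K * ∫ u in (0 : ℝ)..1, ‖f (φ u y)‖ ^ 2) μ := i1.const_mul K
  have j2 : Integrable (fun y => 2 * R * (4 * t) * ((∫ u in (0 : ℝ)..t, ‖f (φ u y)‖ ^ 2) +
        ∫ u in (1 : ℝ)..(1 + t), ‖f (φ u y)‖ ^ 2)) μ := (i2.add i3).const_mul _
  rw [integral_add j1 j2, integral_const_mul, integral_const_mul, integral_add i2 i3, e1, e2, e3]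
  have hpi : Real.pi ^ 2 ≤ 10 := by
    have h1 := Real.pi_lt_d2
    have h2 := Real.pi_pos
    nlinarith
  have hR1 : (1 : ℝ) ≤ R := by exact_mod_cast hR
  have k1 : K * E ≤ 80 * (R * t) ^ 2 * E := by
    refine mul_le_mul_of_nonneg_right ?_ hE0
    rw [hK]
    have : 2 * (2 * Real.pi * (R * t)) ^ 2 = 8 * Real.pi ^ 2 * (R * t) ^ 2 := by ring
    rw [this]
    exact mul_le_mul_of_nonneg_right (by linarith) (sq_nonneg _)
  have k2 : 2 * R * (4 * t) * (t * E + t * E) ≤ 16 * (R * t) ^ 2 * E := by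
    have h1 : 2 * R * (4 * t) * (t * E + t * E) = 16 * (R * t ^ 2) * E := by ring
    have h2 : (R : ℝ) * t ^ 2 ≤ (R * t) ^ 2 := by
      rw [mul_pow]
      refine mul_le_mul_of_nonneg_right ?_ (sq_nonneg _)
      nlinarith
    rw [h1]
    exact mul_le_mul_of_nonneg_right (mul_le_mul_of_nonneg_left h2 (by norm_num)) hE0
  have k3 : 0 ≤ (R * t) ^ 2 * E := by positivity
  calc K * E + 2 * R * (4 * t) * (t * E + t * E) ≤ 80 * (R * t) ^ 2 * E + 16 * (R * t) ^ 2 * E :=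
        add_le_add k1 k2
    _ ≤ 100 * (R * t) ^ 2 * E := by linarith

end Pool.Agent.GTP
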