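import Mathlib
import Pool.Agent.GTP.Defs

set_option autoImplicit false

/-!
# GTP/Latt: a lattice sum

`∑_{ξ ∈ ℤ} (1 + |ξ δ + θ|)^(-3/2) ≤ C / |δ|` for `0 < |δ| ≤ 1` and all real `θ`.

PROOF.  Replacing `ξ` by `-ξ` we may assume `δ > 0` (reindexing of the sum by `Equiv.neg ℤ`).  With `m = ⌊θ / δ⌋`, `θ' = θ - m δ ∈ [0, δ)` and `ξ ↦ ξ - m` (`Equiv.subRight`) we may assume `0 ≤ θ < δ`.
Then `|ξ δ + θ| ≥ δ (|ξ| - 1)` for all integers `ξ`.  For `k ≥ 1` put `b_k = 1 + δ k`: `b_k^(-3/2) ≤ (2/δ) (b_(k-1)^(-1/2) - b_k^(-1/2))`, because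
`b_(k-1)^(-1/2) - b_k^(-1/2) = (√b_k - √b_(k-1)) / √(b_k b_(k-1)) = δ / ((√b_k + √b_(k-1)) √(b_k b_(k-1))) ≥ δ / (2 b_k^(3/2))`.  Telescoping: `∑_{k=1}^K (1 + δ k)^(-3/2) ≤ 2/δ`.
The sum over `ξ ∈ ℤ` is at most (terms `|ξ| ≤ 1`: 3) `3 + 2 ∑_{k ≥ 1} (1 + δ k)^(-3/2) ≤ 3 + 4/δ ≤ 7/δ`.  (`Summable.of_nat_of_neg_add_one`, `summable_of_sum_range_le`, `tsum_of_nat_of_neg_add_one`, or bound all finite sums:
`summable_of_sum_le`, `Real.tsum_le_of_sum_le`.)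
-/

namespace Pool.Agent.GTP

private lemma Latt_rpow {x : ℝ} (hx : 0 ≤ x) : x ^ (-(3 / 2) : ℝ) = ((Real.sqrt x) ^ 3)⁻¹ := by
  rw [Real.rpow_neg hx, Real.sqrt_eq_rpow, ← Real.rpow_natCast, ← Real.rpow_mul hx]
  norm_num

private lemma Latt_step {a δ : ℝ} (ha : 0 < a) (hδ : 0 < δ) :
    ((Real.sqrt (a + δ)) ^ 3)⁻¹ + 2 / δ * (Real.sqrt (a + δ))⁻¹ ≤ 2 / δ * (Real.sqrt a)⁻¹ := by
  have hs : 0 < Real.sqrt a := Real.sqrt_pos.2 ha
  have hst : Real.sqrt a ≤ Real.sqrt (a + δ) := Real.sqrt_le_sqrt (by linarith)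
  have ht : 0 < Real.sqrt (a + δ) := lt_of_lt_of_le hs hst
  have h1 : Real.sqrt a ^ 2 = a := Real.sq_sqrt ha.le
  have h2 : Real.sqrt (a + δ) ^ 2 = a + δ := Real.sq_sqrt (by linarith)
  generalize Real.sqrt a = s at *
  generalize Real.sqrt (a + δ) = t at *
  have hd : δ = t ^ 2 - s ^ 2 := by linarith
  have hts : 0 < t - s := by
    rcases hst.lt_or_eq with h | h
    · linarith
    · rw [h] at hd; linarith
  have h3 : 2 / δ * s⁻¹ - 2 / δ * t⁻¹ = 2 / ((t + s) * s * t) := by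
    have : δ = (t - s) * (t + s) := by rw [hd]; ring
    rw [this]
    have h5 : t - s ≠ 0 := hts.ne'
    have h6 : t + s ≠ 0 := by positivity
    field_simp
  have h4 : (t ^ 3)⁻¹ ≤ 2 / ((t + s) * s * t) := by
    rw [inv_eq_one_div, div_le_div_iff₀ (by positivity) (by positivity)]
    have h5 : (t + s) * s ≤ (t + t) * t :=
      mul_le_mul (by linarith) hst hs.le (by positivity)
    nlinarith [mul_le_mul_of_nonneg_right h5 ht.le]
  linarith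

private lemma Latt_nat {δ : ℝ} (hδ : 0 < δ) (K : ℕ) :
    ∑ n ∈ Finset.range K, ((Real.sqrt (1 + n * δ)) ^ 3)⁻¹ ≤ 1 + 2 / δ := by
  have key : ∀ K : ℕ, ∑ n ∈ Finset.range (K + 1), ((Real.sqrt (1 + n * δ)) ^ 3)⁻¹ +
      2 / δ * (Real.sqrt (1 + K * δ))⁻¹ ≤ 1 + 2 / δ := by
    intro K
    induction K with
    | zero => simp
    | succ K ih =>
      rw [Finset.sum_range_succ]
      have h := Latt_step (a := 1 + K * δ) (by positivity) hδ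
      have h2 : 1 + ((K + 1 : ℕ) : ℝ) * δ = 1 + K * δ + δ := by push_cast; ring
      rw [h2]
      linarith
  cases K with
  | zero => simp; positivity
  | succ K =>
    have := key K
    have h2 : 0 ≤ 2 / δ * (Real.sqrt (1 + K * δ))⁻¹ := by positivity
    linarith

private lemma Latt_pos {δ θ : ℝ} (hδ : 0 < δ) (h1 : δ ≤ 1) :
    Summable (fun ξ : ℤ => (1 + |ξ * δ + θ|) ^ (-(3 / 2) : ℝ)) ∧
      ∑' ξ : ℤ, (1 + |ξ * δ + θ|) ^ (-(3 / 2) : ℝ) ≤ 6 / δ := by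
  set m : ℤ := ⌈-θ / δ⌉ with hm
  have hm1 : 0 ≤ m * δ + θ := by
    have := Int.le_ceil (-θ / δ)
    rw [div_le_iff₀ hδ] at this
    linarith
  have hm2 : (m - 1) * δ + θ ≤ 0 := by
    have := Int.ceil_lt_add_one (-θ / δ)
    have h2 : ((m : ℝ) - 1) < -θ / δ := by linarith
    rw [lt_div_iff₀ hδ] at h2
    linarith
  set G : ℤ → ℝ := fun ξ => (1 + |((ξ + m : ℤ) : ℝ) * δ + θ|) ^ (-(3 / 2) : ℝ) with hG
  have hG0 : ∀ ξ, 0 ≤ G ξ := fun ξ => by rw [hG]; positivity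
  have hle : ∀ (n : ℕ) (y : ℝ), n * δ ≤ |y| → (1 + |y|) ^ (-(3 / 2) : ℝ) ≤ ((Real.sqrt (1 + n * δ)) ^ 3)⁻¹ := by
    intro n y hy
    rw [Latt_rpow (by positivity)]
    have hp : 0 < Real.sqrt (1 + n * δ) := Real.sqrt_pos.2 (by positivity)
    exact inv_anti₀ (by positivity) (pow_le_pow_left₀ hp.le (Real.sqrt_le_sqrt (by linarith)) 3)
  have hGp : ∀ n : ℕ, G n ≤ ((Real.sqrt (1 + n * δ)) ^ 3)⁻¹ := by
    intro n
    refine hle n _ (le_trans ?_ (le_abs_self _))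
    push_cast
    nlinarith
  have hGn : ∀ n : ℕ, G (-(n + 1)) ≤ ((Real.sqrt (1 + n * δ)) ^ 3)⁻¹ := by
    intro n
    refine hle n _ (le_trans ?_ (neg_le_abs _))
    push_cast
    nlinarith
  have hb : Summable fun n : ℕ => ((Real.sqrt (1 + n * δ)) ^ 3)⁻¹ :=
    summable_of_sum_range_le (fun n => by positivity) (Latt_nat hδ)
  have hb2 : ∑' n : ℕ, ((Real.sqrt (1 + n * δ)) ^ 3)⁻¹ ≤ 1 + 2 / δ :=
    Real.tsum_le_of_sum_range_le (fun n => by positivity) (Latt_nat hδ)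
  have s1 : Summable fun n : ℕ => G n := Summable.of_nonneg_of_le (fun n => hG0 _) hGp hb
  have s2 : Summable fun n : ℕ => G (-(n + 1)) := Summable.of_nonneg_of_le (fun n => hG0 _) hGn hb
  have s3 : Summable G := Summable.of_nat_of_neg_add_one s1 s2
  have s4 : ∑' ξ, G ξ ≤ 6 / δ := by
    rw [tsum_of_nat_of_neg_add_one s1 s2]
    have t1 := s1.tsum_le_tsum hGp hb
    have t2 := s2.tsum_le_tsum hGn hb
    have t3 : 1 ≤ 1 / δ := by rw [le_div_iff₀ hδ]; linarith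
    have t4 : 6 / δ = 2 * (1 / δ) + 2 * (2 / δ) := by ring
    linarith
  constructor
  · exact (Equiv.addRight m).summable_iff.1 s3
  · rw [← (Equiv.addRight m).tsum_eq]
    exact s4

theorem latt : ∃ C : ℝ, 0 < C ∧ ∀ δ θ : ℝ, 0 < |δ| → |δ| ≤ 1 →
    Summable (fun ξ : ℤ => (1 + |ξ * δ + θ|) ^ (-(3 / 2) : ℝ)) ∧
      ∑' ξ : ℤ, (1 + |ξ * δ + θ|) ^ (-(3 / 2) : ℝ) ≤ C / |δ| := by
  refine ⟨6, by norm_num, fun δ θ h0 h1 => ?_⟩
  rcases lt_or_gt_of_ne (abs_pos.1 h0) with h | h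
  · rw [abs_of_neg h] at h1 ⊢
    have key := Latt_pos (δ := -δ) (θ := -θ) (by linarith) h1
    have e : ∀ ξ : ℤ, (1 + |(ξ : ℝ) * δ + θ|) = (1 + |(ξ : ℝ) * (-δ) + (-θ)|) := by
      intro ξ
      rw [← abs_neg]
      congr 2
      ring
    simp only [e]
    exact key
  · rw [abs_of_pos h] at h1 ⊢
    exact Latt_pos h h1

end Pool.Agent.GTP
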