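import Mathlib
import Pool.Agent.GTP.Defs
import Pool.Agent.GTP.Four
import Pool.Agent.GTP.Latt

set_option autoImplicit false

/-!
# GTP/Bil: the bilinear Plancherel estimate

`b`, `c` 1-periodic, measurable, bounded; `G(s) = ∫_1^2 b(s + β p) c(s + β q) dβ`, `0 < |p - q| ≤ 1`.

PROOF.  `G` is measurable (parametric integral of a jointly measurable bounded function), bounded by `B²` and 1-periodic.  For fixed `β` the function `h_β(s) = b(s + β p) c(s + β q)` has by `cf_mul` and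
`cf_shift` the coefficients `cf h_β ζ = ∑_ξ (ee (ξ β p) cf b ξ) (ee ((ζ - ξ) β q) cf c (ζ - ξ))`.  By Fubini `cf G ζ = ∫_1^2 cf h_β ζ dβ`, and, since `∑_ξ ‖cf b ξ‖ ‖cf c (ζ - ξ)‖ < ∞` (Cauchy–Schwarz,
`parseval_sq`), the sum and the integral may be exchanged (`intervalIntegral.hasSum_integral_of_summable_norm` or `hasSum_integral_of_summable_integral_norm`):
`cf G ζ = ∑_ξ cf b ξ cf c (ζ - ξ) w(y_ξ)`, `y_ξ = ξ p + (ζ - ξ) q = ξ (p - q) + ζ q`, `w(y) = ∫_1^2 ee (β y) dβ`.  Here `‖w(y)‖ ≤ 1` and `‖w(y)‖ ≤ 1/(π |y|)` for `y ≠ 0` (explicit integral,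
`integral_exp_mul_complex`), so `‖w(y)‖ ≤ 2/(1 + |y|)` and `‖w(y)‖² ≤ 4 tau(y) (1 + |y|)^(-3/2)`.  Cauchy–Schwarz for series (`inner_le_Lp_mul_Lq_tsum`-type lemmas, or through finite sums):
`‖cf G ζ‖² ≤ 4 (∑_ξ ‖cf b ξ‖² ‖cf c (ζ - ξ)‖² tau(y_ξ)) (∑_ξ (1 + |y_ξ|)^(-3/2)) ≤ (4 C_latt/|p - q|) ∑_ξ ‖cf b ξ‖² ‖cf c (ζ - ξ)‖² tau(ξ p + (ζ - ξ) q)` (`Latt.latt` with `δ = p - q`, `θ = ζ q`).
Sum over `ζ` (`parseval_sq` for `G`) and reindex `(ξ, ζ) ↦ (ξ, η) = (ξ, ζ - ξ)` (`tsum` over `ℤ × ℤ`, the family is summable because it is dominated by `‖cf b ξ‖² ‖cf c η‖²`; it may be convenient to do the last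
step in `ENNReal`).
-/

namespace Pool.Agent.GTP

open MeasureTheory

/-- the oscillating integral -/
private noncomputable def Bil_w (y : ℝ) : ℂ := ∫ β in (1 : ℝ)..2, ee (β * y)

private theorem Bil_w_le_one (y : ℝ) : ‖Bil_w y‖ ≤ 1 := by
  unfold Bil_w
  have h := intervalIntegral.norm_integral_le_of_norm_le_const (a := (1 : ℝ)) (b := 2) (C := 1)
    (f := fun β => ee (β * y)) (fun x _ => (norm_ee _).le)
  exact h.trans (by norm_num)

private theorem Bil_w_le {y : ℝ} (hy : 1 < |y|) : ‖Bil_w y‖ ≤ 2 / (1 + |y|) := by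
  have hy0 : y ≠ 0 := by
    rintro rfl
    rw [abs_zero] at hy
    linarith
  have hc : ((2 * Real.pi * y : ℝ) : ℂ) * Complex.I ≠ 0 := by
    refine mul_ne_zero ?_ Complex.I_ne_zero
    rw [Ne, Complex.ofReal_eq_zero]
    exact mul_ne_zero (mul_ne_zero two_ne_zero Real.pi_ne_zero) hy0
  have h3 : ∀ β : ℝ, ee (β * y) = Complex.exp (((2 * Real.pi * y : ℝ) : ℂ) * Complex.I * β) := by
    intro β
    unfold ee
    congr 1
    push_cast
    ring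
  have h1 : Bil_w y = (ee (2 * y) - ee (1 * y)) / (((2 * Real.pi * y : ℝ) : ℂ) * Complex.I) := by
    have h2 := integral_exp_mul_complex (a := 1) (b := 2) hc
    unfold Bil_w
    simp only [h3]
    exact h2
  have h4 : ‖(((2 * Real.pi * y : ℝ) : ℂ) * Complex.I)‖ = 2 * Real.pi * |y| := by
    rw [norm_mul, Complex.norm_I, mul_one, Complex.norm_real, Real.norm_eq_abs, abs_mul,
      abs_of_pos (by positivity : (0 : ℝ) < 2 * Real.pi)]
  have h5 : ‖ee (2 * y) - ee (1 * y)‖ ≤ 2 := by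
    refine (norm_sub_le _ _).trans ?_
    rw [norm_ee, norm_ee]
    norm_num
  rw [h1, norm_div, h4]
  have h6 : 1 + |y| ≤ 2 * Real.pi * |y| := by
    have h7 := Real.pi_gt_three
    nlinarith
  have h8 : 0 < 1 + |y| := by linarith
  exact div_le_div₀ zero_le_two h5 h8 h6

private theorem Bil_w_sq (y : ℝ) : ‖Bil_w y‖ ^ 2 ≤ tau y * (4 * (1 + |y|) ^ (-(3 / 2) : ℝ)) := by
  have h0 : 0 < 1 + |y| := by linarith [abs_nonneg y]
  have h1 : ‖Bil_w y‖ ≤ 2 / (1 + |y|) := by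
    rcases le_or_gt |y| 1 with h | h
    · refine (Bil_w_le_one y).trans ?_
      rw [le_div_iff₀ h0]
      linarith
    · exact Bil_w_le h
  have h2 : tau y * (4 * (1 + |y|) ^ (-(3 / 2) : ℝ)) = (2 / (1 + |y|)) ^ 2 := by
    have h3 : (1 + |y|) ^ (-(1 / 2) : ℝ) * (1 + |y|) ^ (-(3 / 2) : ℝ) = ((1 + |y|) ^ 2)⁻¹ := by
      rw [← Real.rpow_add h0, show (-(1 / 2) + -(3 / 2) : ℝ) = -2 by norm_num, Real.rpow_neg h0.le,
        Real.rpow_two]
    unfold tau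
    rw [mul_left_comm, h3, div_pow]
    ring
  rw [h2]
  exact pow_le_pow_left₀ (norm_nonneg _) h1 2

private theorem Bil_cs {t : ℤ → ℂ} {S : ℂ} (h : HasSum t S) {f g : ℤ → ℝ} (hf : ∀ i, 0 ≤ f i)
    (hg : ∀ i, 0 ≤ g i) (hfs : Summable f) (hgs : Summable g) (htfg : ∀ i, ‖t i‖ ^ 2 ≤ f i * g i) :
    ‖S‖ ^ 2 ≤ (∑' i, f i) * ∑' i, g i := by
  have h1 : Filter.Tendsto (fun s : Finset ℤ => ‖∑ i ∈ s, t i‖ ^ 2) Filter.atTop
      (nhds (‖S‖ ^ 2)) := (Filter.Tendsto.norm h).pow 2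
  refine le_of_tendsto h1 (Filter.Eventually.of_forall fun s => ?_)
  calc ‖∑ i ∈ s, t i‖ ^ 2 ≤ (∑ i ∈ s, ‖t i‖) ^ 2 :=
        pow_le_pow_left₀ (norm_nonneg _) (norm_sum_le _ _) 2
    _ ≤ (∑ i ∈ s, f i) * ∑ i ∈ s, g i :=
        Finset.sum_sq_le_sum_mul_sum_of_sq_le_mul s (fun i _ => hf i) (fun i _ => hg i)
          (fun i _ => htfg i)
    _ ≤ (∑' i, f i) * ∑' i, g i :=
        mul_le_mul (hfs.sum_le_tsum s (fun i _ => hf i)) (hgs.sum_le_tsum s (fun i _ => hg i))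
          (Finset.sum_nonneg fun i _ => hg i) (tsum_nonneg hf)

private theorem Bil_meas2 {b c : ℝ → ℂ} (hb : Measurable b) (hc : Measurable c) (p q : ℝ) :
    Measurable (fun z : ℝ × ℝ => b (z.1 + z.2 * p) * c (z.1 + z.2 * q)) := by
  have h1 : Measurable (fun z : ℝ × ℝ => z.1 + z.2 * p) := by fun_prop
  have h2 : Measurable (fun z : ℝ × ℝ => z.1 + z.2 * q) := by fun_prop
  exact (hb.comp h1).mul (hc.comp h2)

private theorem Bil_meas {b c : ℝ → ℂ} (hb : Measurable b) (hc : Measurable c) (p q : ℝ) :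
    Measurable (fun s : ℝ => ∫ β in (1 : ℝ)..2, b (s + β * p) * c (s + β * q)) := by
  have h1 := (Bil_meas2 hb hc p q).stronglyMeasurable
  have h2 := h1.integral_prod_right' (ν := volume.restrict (Set.Ioc (1 : ℝ) 2))
  have h3 : (fun s : ℝ => ∫ β in (1 : ℝ)..2, b (s + β * p) * c (s + β * q)) =
      fun s : ℝ => ∫ β in Set.Ioc (1 : ℝ) 2, b (s + β * p) * c (s + β * q) := by
    funext s
    exact intervalIntegral.integral_of_le one_le_two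
  rw [h3]
  exact h2.measurable

private theorem Bil_bd {b c : ℝ → ℂ} {B : ℝ} (hbB : ∀ u, ‖b u‖ ≤ B) (hcB : ∀ u, ‖c u‖ ≤ B)
    (p q s : ℝ) : ‖∫ β in (1 : ℝ)..2, b (s + β * p) * c (s + β * q)‖ ≤ B * B := by
  have hB : 0 ≤ B := (norm_nonneg _).trans (hbB 0)
  have h := intervalIntegral.norm_integral_le_of_norm_le_const (a := (1 : ℝ)) (b := 2) (C := B * B)
    (f := fun β => b (s + β * p) * c (s + β * q)) (fun x _ => by
      rw [norm_mul]
      exact mul_le_mul (hbB _) (hcB _) (norm_nonneg _) hB)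
  refine h.trans ?_
  rw [show |(2 : ℝ) - 1| = 1 by norm_num, mul_one]

private theorem Bil_fub {b c : ℝ → ℂ} {B : ℝ} (hb : Measurable b) (hc : Measurable c)
    (hbB : ∀ u, ‖b u‖ ≤ B) (hcB : ∀ u, ‖c u‖ ≤ B) (p q : ℝ) (ζ : ℤ) :
    cf (fun s => ∫ β in (1 : ℝ)..2, b (s + β * p) * c (s + β * q)) ζ =
      ∫ β in Set.Ioc (1 : ℝ) 2, cf (fun u => b (u + β * p) * c (u + β * q)) ζ := by
  have hB : 0 ≤ B := (norm_nonneg _).trans (hbB 0)
  have hint : Integrable (Function.uncurry fun u β : ℝ =>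
      b (u + β * p) * c (u + β * q) * ee (-(ζ * u)))
      ((volume.restrict (Set.Ioc (0 : ℝ) 1)).prod (volume.restrict (Set.Ioc (1 : ℝ) 2))) := by
    refine Integrable.of_bound (C := B * B) ?_ (Filter.Eventually.of_forall ?_)
    · have h1 : Measurable (fun z : ℝ × ℝ => ee (-(ζ * z.1))) := by
        apply measurable_ee.comp
        fun_prop
      exact ((Bil_meas2 hb hc p q).mul h1).aestronglyMeasurable
    · rintro ⟨u, β⟩
      change ‖b (u + β * p) * c (u + β * q) * ee (-(ζ * u))‖ ≤ B * B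
      rw [norm_mul, norm_ee, mul_one, norm_mul]
      exact mul_le_mul (hbB _) (hcB _) (norm_nonneg _) hB
  have hsw := integral_integral_swap hint
  have h1 : cf (fun s => ∫ β in (1 : ℝ)..2, b (s + β * p) * c (s + β * q)) ζ =
      ∫ u in Set.Ioc (0 : ℝ) 1, ∫ β in Set.Ioc (1 : ℝ) 2,
        b (u + β * p) * c (u + β * q) * ee (-(ζ * u)) := by
    unfold cf
    rw [intervalIntegral.integral_of_le zero_le_one]
    refine integral_congr_ae (Filter.Eventually.of_forall fun u => ?_)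
    change (∫ β in (1 : ℝ)..2, b (u + β * p) * c (u + β * q)) * ee (-(ζ * u)) =
      ∫ β in Set.Ioc (1 : ℝ) 2, b (u + β * p) * c (u + β * q) * ee (-(ζ * u))
    rw [intervalIntegral.integral_of_le one_le_two, ← integral_mul_const]
  rw [h1, hsw]
  refine integral_congr_ae (Filter.Eventually.of_forall fun β => ?_)
  change (∫ u in Set.Ioc (0 : ℝ) 1, b (u + β * p) * c (u + β * q) * ee (-(ζ * u))) =
    cf (fun u => b (u + β * p) * c (u + β * q)) ζ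
  unfold cf
  rw [intervalIntegral.integral_of_le zero_le_one]

private theorem Bil_hasSum {b c : ℝ → ℂ} {B : ℝ} (hb : Measurable b) (hc : Measurable c)
    (hbB : ∀ u, ‖b u‖ ≤ B) (hcB : ∀ u, ‖c u‖ ≤ B) (hbp : ∀ u, b (u + 1) = b u)
    (hcp : ∀ u, c (u + 1) = c u) (p q : ℝ) (ζ : ℤ) :
    HasSum (fun ξ : ℤ => cf b ξ * cf c (ζ - ξ) * Bil_w (ξ * p + ((ζ - ξ : ℤ) : ℝ) * q))
      (cf (fun s => ∫ β in (1 : ℝ)..2, b (s + β * p) * c (s + β * q)) ζ) := by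
  have hS : Summable (fun ξ : ℤ => ‖cf b ξ‖ * ‖cf c (ζ - ξ)‖) := by
    have h1 := (parseval_sq hb hbB).summable
    have h2 : Summable (fun ξ : ℤ => ‖cf c (ζ - ξ)‖ ^ 2) :=
      ((Equiv.subLeft ζ).summable_iff (f := fun ξ => ‖cf c ξ‖ ^ 2)).2
        (parseval_sq hc hcB).summable
    refine Summable.of_nonneg_of_le (fun ξ => by positivity) (fun ξ => ?_) (h1.add h2)
    nlinarith [sq_nonneg (‖cf b ξ‖ - ‖cf c (ζ - ξ)‖), sq_nonneg (‖cf b ξ‖ + ‖cf c (ζ - ξ)‖)]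
  have hβ : ∀ β : ℝ, HasSum (fun ξ : ℤ => cf b ξ * cf c (ζ - ξ) *
      ee (β * (ξ * p + ((ζ - ξ : ℤ) : ℝ) * q))) (cf (fun u => b (u + β * p) * c (u + β * q)) ζ) := by
    intro β
    have h := cf_mul (b := fun u => b (u + β * p)) (c := fun u => c (u + β * q))
      (hb.comp (measurable_id.add_const (β * p))) (hc.comp (measurable_id.add_const (β * q)))
      (fun u => hbB _) (fun u => hcB _) ζ
    have e : (fun ξ : ℤ => cf b ξ * cf c (ζ - ξ) * ee (β * (ξ * p + ((ζ - ξ : ℤ) : ℝ) * q))) =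
        fun ξ : ℤ => cf (fun u => b (u + β * p)) ξ * cf (fun u => c (u + β * q)) (ζ - ξ) := by
      funext ξ
      rw [cf_shift hb hbB hbp, cf_shift hc hcB hcp,
        show β * (ξ * p + ((ζ - ξ : ℤ) : ℝ) * q) =
          (ξ : ℝ) * (β * p) + ((ζ - ξ : ℤ) : ℝ) * (β * q) by ring, ee_add]
      ring
    rw [e]
    exact h
  have hms : ∀ y : ℝ, Integrable (fun β : ℝ => ee (β * y)) (volume.restrict (Set.Ioc (1 : ℝ) 2)) := by
    intro y
    refine Integrable.of_bound (C := 1) ?_ (Filter.Eventually.of_forall fun β => (norm_ee _).le)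
    exact (measurable_ee.comp (measurable_id.mul_const y)).aestronglyMeasurable
  have hsum := hasSum_integral_of_summable_integral_norm
    (μ := volume.restrict (Set.Ioc (1 : ℝ) 2))
    (F := fun (ξ : ℤ) (β : ℝ) => cf b ξ * cf c (ζ - ξ) *
      ee (β * (ξ * p + ((ζ - ξ : ℤ) : ℝ) * q))) (fun ξ => (hms _).const_mul _) (by
      have e : (fun ξ : ℤ => ∫ β in Set.Ioc (1 : ℝ) 2, ‖cf b ξ * cf c (ζ - ξ) *
          ee (β * (ξ * p + ((ζ - ξ : ℤ) : ℝ) * q))‖) =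
          fun ξ : ℤ => ‖cf b ξ‖ * ‖cf c (ζ - ξ)‖ := by
        funext ξ
        simp only [norm_mul, norm_ee, mul_one]
        rw [setIntegral_const, Measure.real, Real.volume_Ioc]
        norm_num
      rw [e]
      exact hS)
  rw [Bil_fub hb hc hbB hcB p q ζ]
  have e1 : (fun β : ℝ => ∑' ξ : ℤ, cf b ξ * cf c (ζ - ξ) *
      ee (β * (ξ * p + ((ζ - ξ : ℤ) : ℝ) * q))) =
      fun β : ℝ => cf (fun u => b (u + β * p) * c (u + β * q)) ζ := by
    funext β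
    exact (hβ β).tsum_eq
  have e2 : (fun ξ : ℤ => cf b ξ * cf c (ζ - ξ) * Bil_w (ξ * p + ((ζ - ξ : ℤ) : ℝ) * q)) =
      fun ξ : ℤ => ∫ β in Set.Ioc (1 : ℝ) 2, cf b ξ * cf c (ζ - ξ) *
        ee (β * (ξ * p + ((ζ - ξ : ℤ) : ℝ) * q)) := by
    funext ξ
    rw [integral_const_mul, Bil_w, intervalIntegral.integral_of_le one_le_two]
  rw [e2]
  rw [e1] at hsum
  exact hsum

/-- `(ζ, ξ) ↦ (ξ, ζ - ξ)` -/
private def Bil_eqv : ℤ × ℤ ≃ ℤ × ℤ where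
  toFun z := (z.2, z.1 - z.2)
  invFun z := (z.1 + z.2, z.1)
  left_inv z := by
    ext
    · change z.2 + (z.1 - z.2) = z.1
      ring
    · rfl
  right_inv z := by
    ext
    · rfl
    · change z.1 + z.2 - z.1 = z.2
      ring

theorem bil : ∃ C : ℝ, 0 < C ∧ ∀ (b c : ℝ → ℂ) (B : ℝ), Measurable b → Measurable c → (∀ u, ‖b u‖ ≤ B) →
    (∀ u, ‖c u‖ ≤ B) → (∀ u, b (u + 1) = b u) → (∀ u, c (u + 1) = c u) → ∀ p q : ℝ, 0 < |p - q| → |p - q| ≤ 1 →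
      Summable (fun z : ℤ × ℤ => ‖cf b z.1‖ ^ 2 * ‖cf c z.2‖ ^ 2 * tau (z.1 * p + z.2 * q)) ∧
      ∫ s in (0 : ℝ)..1, ‖∫ β in (1 : ℝ)..2, b (s + β * p) * c (s + β * q)‖ ^ 2 ≤
        C / |p - q| * ∑' z : ℤ × ℤ, ‖cf b z.1‖ ^ 2 * ‖cf c z.2‖ ^ 2 * tau (z.1 * p + z.2 * q) := by
  obtain ⟨C, hC, hlatt⟩ := latt
  refine ⟨4 * C, by positivity, ?_⟩
  intro b c B hb hc hbB hcB hbp hcp p q hpq0 hpq1
  have hsb := (parseval_sq hb hbB).summable
  have hsc := (parseval_sq hc hcB).summable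
  have hF : Summable (fun z : ℤ × ℤ => ‖cf b z.1‖ ^ 2 * ‖cf c z.2‖ ^ 2 *
      tau (z.1 * p + z.2 * q)) := by
    have h1 : Summable (fun z : ℤ × ℤ => ‖cf b z.1‖ ^ 2 * ‖cf c z.2‖ ^ 2) :=
      hsb.mul_of_nonneg hsc (fun i => by positivity) (fun i => by positivity)
    refine Summable.of_nonneg_of_le (fun z => ?_) (fun z => ?_) h1
    · exact mul_nonneg (by positivity) (tau_pos _).le
    · exact mul_le_of_le_one_right (by positivity) (tau_le_one _)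
  refine ⟨hF, ?_⟩
  have hG := parseval_sq (Bil_meas hb hc p q) (fun s => Bil_bd hbB hcB p q s)
  have hFe : Summable (fun z : ℤ × ℤ => ‖cf b z.2‖ ^ 2 * ‖cf c (z.1 - z.2)‖ ^ 2 *
      tau (z.2 * p + ((z.1 - z.2 : ℤ) : ℝ) * q)) := (Bil_eqv.summable_iff).2 hF
  have hFt : ∑' z : ℤ × ℤ, ‖cf b z.1‖ ^ 2 * ‖cf c z.2‖ ^ 2 * tau (z.1 * p + z.2 * q) =
      ∑' ζ : ℤ, ∑' ξ : ℤ, ‖cf b ξ‖ ^ 2 * ‖cf c (ζ - ξ)‖ ^ 2 *
        tau (ξ * p + ((ζ - ξ : ℤ) : ℝ) * q) := by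
    rw [← hFe.tsum_prod]
    exact (Bil_eqv.tsum_eq (fun z : ℤ × ℤ => ‖cf b z.1‖ ^ 2 * ‖cf c z.2‖ ^ 2 *
      tau (z.1 * p + z.2 * q))).symm
  have hζ : ∀ ζ : ℤ, ‖cf (fun s => ∫ β in (1 : ℝ)..2, b (s + β * p) * c (s + β * q)) ζ‖ ^ 2 ≤
      4 * C / |p - q| * ∑' ξ : ℤ, ‖cf b ξ‖ ^ 2 * ‖cf c (ζ - ξ)‖ ^ 2 *
        tau (ξ * p + ((ζ - ξ : ℤ) : ℝ) * q) := by
    intro ζ
    obtain ⟨hl1, hl2⟩ := hlatt (p - q) (ζ * q) hpq0 hpq1
    have hy : ∀ ξ : ℤ, (ξ : ℝ) * (p - q) + ζ * q = ξ * p + ((ζ - ξ : ℤ) : ℝ) * q := by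
      intro ξ
      push_cast
      ring
    simp only [hy] at hl1 hl2
    have h1 := Bil_cs (Bil_hasSum hb hc hbB hcB hbp hcp p q ζ)
      (f := fun ξ : ℤ => ‖cf b ξ‖ ^ 2 * ‖cf c (ζ - ξ)‖ ^ 2 * tau (ξ * p + ((ζ - ξ : ℤ) : ℝ) * q))
      (g := fun ξ : ℤ => 4 * (1 + |ξ * p + ((ζ - ξ : ℤ) : ℝ) * q|) ^ (-(3 / 2) : ℝ))
      (fun ξ => mul_nonneg (by positivity) (tau_pos _).le) (fun ξ => by positivity)
      (hFe.prod_factor ζ) (hl1.mul_left 4) (fun ξ => by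
        rw [norm_mul, norm_mul, mul_pow, mul_pow, mul_assoc (‖cf b ξ‖ ^ 2 * ‖cf c (ζ - ξ)‖ ^ 2)]
        exact mul_le_mul_of_nonneg_left (Bil_w_sq _) (by positivity))
    refine h1.trans ?_
    rw [tsum_mul_left, mul_comm]
    refine mul_le_mul_of_nonneg_right ?_
      (tsum_nonneg fun ξ => mul_nonneg (by positivity) (tau_pos _).le)
    rw [mul_div_assoc]
    exact mul_le_mul_of_nonneg_left hl2 (by norm_num)
  rw [← hG.tsum_eq, hFt, ← tsum_mul_left]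
  exact hG.summable.tsum_le_tsum hζ (hFe.prod.mul_left _)

end Pool.Agent.GTP
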