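import Mathlib
import Pool.Agent.GTP.Defs

set_option autoImplicit false

/-!
# GTP/Ker: the kernel `tau(ξ p - η q)` is dominated by a positive definite kernel in the logarithmic frequency

PROOF.  Let `x1 = |ξ p|`, `x2 = |η q|`, both `≥ c R > 0`, `δ = log x2 - log x1` (the argument of `kap`).
(1) If `|δ| ≤ 1/(16 J L)`: `‖J⁻¹ ∑_{j<J} ee(j L δ)‖ ≥ 1 - J⁻¹ ∑_{j<J} ‖ee(j L δ) - 1‖ ≥ 1 - 2 π J L |δ| ≥ 1 - π/8 ≥ 6/10` (`norm_ee_sub_one`), so `kap J L δ ≥ 36/100 ≥ 1/3` and `tau ≤ 1 ≤ 3 kap`.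
(2) If `|δ| > 1/(16 J L)`: `|ξ p - η q| ≥ | |ξ p| - |η q| | = |x1 - x2| = min(x1, x2) (e^|δ| - 1) ≥ c R |δ| ≥ c R / (16 J L)`, so
`tau = (1 + |ξ p - η q|)^(-1/2) ≤ (c R/(16 J L))^(-1/2) = 4 √(J L/(c R))`.
-/

namespace Pool.Agent.GTP

private theorem Ker_log {x y m : ℝ} (hm : 0 < m) (hx : m ≤ x) (hy : m ≤ y) :
    m * |Real.log y - Real.log x| ≤ |x - y| := by
  have hx0 : 0 < x := hm.trans_le hx
  have hy0 : 0 < y := hm.trans_le hy
  have main : ∀ u v : ℝ, m ≤ u → m ≤ v → m * (Real.log v - Real.log u) ≤ |x - y| ∨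
      |v - u| ≠ |x - y| := by
    intro u v hu hv
    by_cases h : |v - u| = |x - y|
    · left
      have hu0 : 0 < u := hm.trans_le hu
      have hv0 : 0 < v := hm.trans_le hv
      rw [← Real.log_div hv0.ne' hu0.ne', ← h]
      have h1 : Real.log (v / u) ≤ v / u - 1 := Real.log_le_sub_one_of_pos (div_pos hv0 hu0)
      have h2 : v / u - 1 = (v - u) / u := by field_simp
      rw [h2] at h1
      have h3 : (v - u) / u ≤ |v - u| / u := div_le_div_of_nonneg_right (le_abs_self _) hu0.le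
      have h4 : |v - u| / u ≤ |v - u| / m :=
        div_le_div_of_nonneg_left (abs_nonneg _) hm hu
      have h5 : Real.log (v / u) ≤ |v - u| / m := h1.trans (h3.trans h4)
      rw [le_div_iff₀ hm] at h5
      linarith
    · exact Or.inr h
  rw [← abs_of_pos hm, ← abs_mul, abs_le']
  constructor
  · exact (main x y hx hy).resolve_right (by rw [abs_sub_comm]; simp)
  · have h1 := (main y x hy hx).resolve_right (by simp)
    linarith

private theorem Ker_kap {J L : ℕ} (hJ : 1 ≤ J) {δ : ℝ} (h : |δ| * (16 * (J * L)) ≤ 1) :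
    1 ≤ 3 * kap J L δ := by
  have hJ0 : (0 : ℝ) < J := by exact_mod_cast hJ
  have hpi := Real.pi_lt_d2
  have hpi0 := Real.pi_pos
  have h1 : ∀ j ∈ Finset.range J, ‖ee ((j : ℝ) * L * δ) - 1‖ ≤ 4 / 10 := by
    intro j hj
    refine (norm_ee_sub_one _).trans ?_
    rw [abs_mul, abs_mul, abs_of_nonneg (Nat.cast_nonneg j), abs_of_nonneg (Nat.cast_nonneg L)]
    have hjJ : (j : ℝ) ≤ J := by exact_mod_cast (Finset.mem_range.mp hj).le
    have h2 : (j : ℝ) * L * |δ| ≤ J * L * |δ| := by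
      have : (0 : ℝ) ≤ L * |δ| := mul_nonneg (Nat.cast_nonneg L) (abs_nonneg _)
      nlinarith
    have h3 : (J : ℝ) * L * |δ| ≤ 1 / 16 := by linarith
    have h4 : (j : ℝ) * L * |δ| ≤ 1 / 16 := h2.trans h3
    nlinarith
  have h2 : ‖(J : ℂ)⁻¹ * ∑ j ∈ Finset.range J, ee ((j : ℝ) * L * δ) - 1‖ ≤ 4 / 10 := by
    have hJc : (J : ℂ) ≠ 0 := by
      have : J ≠ 0 := by omega
      exact_mod_cast this
    have e1 : (J : ℂ)⁻¹ * ∑ j ∈ Finset.range J, ee ((j : ℝ) * L * δ) - 1 =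
        (J : ℂ)⁻¹ * ∑ j ∈ Finset.range J, (ee ((j : ℝ) * L * δ) - 1) := by
      rw [Finset.sum_sub_distrib, mul_sub, Finset.sum_const, Finset.card_range, nsmul_eq_mul,
        mul_one, inv_mul_cancel₀ hJc]
    rw [e1, norm_mul, norm_inv, Complex.norm_natCast]
    have h3 : ‖∑ j ∈ Finset.range J, (ee ((j : ℝ) * L * δ) - 1)‖ ≤ J * (4 / 10) := by
      refine (norm_sum_le _ _).trans ((Finset.sum_le_card_nsmul _ _ _ h1).trans ?_)
      rw [Finset.card_range, nsmul_eq_mul]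
    calc (J : ℝ)⁻¹ * ‖∑ j ∈ Finset.range J, (ee ((j : ℝ) * L * δ) - 1)‖
        ≤ (J : ℝ)⁻¹ * (J * (4 / 10)) := mul_le_mul_of_nonneg_left h3 (by positivity)
      _ = 4 / 10 := by field_simp
  unfold kap
  set z := (J : ℂ)⁻¹ * ∑ j ∈ Finset.range J, ee ((j : ℝ) * L * δ) with hz
  have h3 : (6 : ℝ) / 10 ≤ ‖z‖ := by
    have h4 : ‖(1 : ℂ)‖ ≤ ‖z‖ + ‖z - 1‖ := by
      have : (1 : ℂ) = z - (z - 1) := by ring
      calc ‖(1 : ℂ)‖ = ‖z - (z - 1)‖ := by rw [← this]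
        _ ≤ ‖z‖ + ‖z - 1‖ := norm_sub_le _ _
    rw [norm_one] at h4
    linarith
  nlinarith [norm_nonneg z]

theorem ker {J L : ℕ} (hJ : 1 ≤ J) (hL : 1 ≤ L) {c R p q : ℝ} (hc : 0 < c) (hR : 0 < R) (hp : c ≤ |p|) (hq : c ≤ |q|)
    {ξ η : ℤ} (hξ : R ≤ |(ξ : ℝ)|) (hη : R ≤ |(η : ℝ)|) :
    tau (ξ * p - η * q) ≤ 3 * kap J L ((Real.log |(η : ℝ)| + Real.log |q|) - (Real.log |(ξ : ℝ)| + Real.log |p|)) +
      4 * Real.sqrt (J * L / (c * R)) := by
  have hJ0 : (0 : ℝ) < J := by exact_mod_cast hJ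
  have hL0 : (0 : ℝ) < L := by exact_mod_cast hL
  have hcR : 0 < c * R := mul_pos hc hR
  have hξ0 : 0 < |(ξ : ℝ)| := hR.trans_le hξ
  have hη0 : 0 < |(η : ℝ)| := hR.trans_le hη
  have hp0 : 0 < |p| := hc.trans_le hp
  have hq0 : 0 < |q| := hc.trans_le hq
  have hx1 : c * R ≤ |(ξ : ℝ) * p| := by
    rw [abs_mul, mul_comm c R]
    exact mul_le_mul hξ hp hc.le hξ0.le
  have hx2 : c * R ≤ |(η : ℝ) * q| := by
    rw [abs_mul, mul_comm c R]
    exact mul_le_mul hη hq hc.le hη0.le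
  set δ : ℝ := (Real.log |(η : ℝ)| + Real.log |q|) - (Real.log |(ξ : ℝ)| + Real.log |p|) with hδ
  have hδ' : δ = Real.log |(η : ℝ) * q| - Real.log |(ξ : ℝ) * p| := by
    rw [abs_mul, abs_mul, Real.log_mul hη0.ne' hq0.ne', Real.log_mul hξ0.ne' hp0.ne']
  have hs := Real.sqrt_nonneg ((J : ℝ) * L / (c * R))
  by_cases hsm : |δ| * (16 * (J * L)) ≤ 1
  · have h1 := Ker_kap hJ hsm
    have h2 := tau_le_one (ξ * p - η * q)
    linarith
  · rw [not_le] at hsm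
    have h1 : c * R * |δ| ≤ |ξ * p - η * q| := by
      have h2 := Ker_log hcR hx1 hx2
      rw [← hδ'] at h2
      exact h2.trans (abs_abs_sub_abs_le _ _)
    have h3 := kap_nonneg J L δ
    have h4 : tau (ξ * p - η * q) ≤ 4 * Real.sqrt (J * L / (c * R)) := by
      unfold tau
      rw [Real.rpow_neg (by positivity), ← Real.sqrt_eq_rpow]
      have hpos : 0 < Real.sqrt (1 + |ξ * p - η * q|) := Real.sqrt_pos.mpr (by positivity)
      rw [inv_le_iff_one_le_mul₀ hpos]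
      have h5 : 4 * Real.sqrt (J * L / (c * R)) * Real.sqrt (1 + |ξ * p - η * q|) =
          Real.sqrt (16 * (J * L / (c * R)) * (1 + |ξ * p - η * q|)) := by
        have h16 : Real.sqrt 16 = 4 := by
          rw [show (16 : ℝ) = 4 ^ 2 by norm_num, Real.sqrt_sq (by norm_num)]
        rw [Real.sqrt_mul (by positivity), Real.sqrt_mul (by norm_num), h16]
      rw [h5, Real.one_le_sqrt]
      have h6 : 1 ≤ 16 * (J * L / (c * R)) * (c * R * |δ|) := by
        have e1 : 16 * (J * L / (c * R)) * (c * R * |δ|) = |δ| * (16 * (J * L)) := by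
          field_simp
        rw [e1]
        exact hsm.le
      refine h6.trans (mul_le_mul_of_nonneg_left ?_ (by positivity))
      linarith
    linarith

end Pool.Agent.GTP
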