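import Mathlib
import Pool.Agent.GTP.Defs
import Pool.Agent.GTP.Loc
import Pool.Agent.GTP.Bil
import Pool.Agent.GTP.Ker

set_option autoImplicit false

/-!
# GTP/Pair: the pointwise estimate for a pair

PROOF.  Let `b(u) = F(φ (fract u) y)`, `c'(u) = conj F(φ (fract u) z)`: 1-periodic, measurable, bounded.  For `s ∈ [1/4, 3/4]`, `β ∈ [1, 2]` the numbers `s + β p`, `s + β q` lie in `[1/4 - 2/9, 3/4 + 2/9] ⊂ (0, 1)`, so
there `b`, `c'` may be used instead.  `cf b ξ` = the coefficient of the orbit of `y` (they agree on `[0, 1)`), `‖cf c' η‖² = AA φ F (-η) z` (`cf_conj`).  Write `m_y = mm φ F y`, `D = √m_y √m_z`,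
`Q = ∑'_{w ∈ ℤ × ℤ} AA_y(w.1) AA_z(w.2) tau(w.1 p - w.2 q)`.  `Bil.bil` (reindex `w.2 ↦ -w.2`): `∫_{1/4}^{3/4} ‖G(s)‖² ds ≤ ∫_0^1 ‖G‖² ≤ C_b/|p - q| · Q`, `G(s) = ∫_1^2 b(s + β p) c'(s + β q) dβ`.
If `D = 0` then `Q = 0` (`AA_y = 0` or `AA_z = 0` because `∑ AA = mm`), so `G = 0` almost everywhere on `[1/4, 3/4]` and the left side is `0` (the right side is nonnegative).
If `D > 0`: AM-GM `2‖G‖ ≤ 2 e D + ‖G‖²/(2 e D)` on an interval of length `1/2`: `2 ∫ ‖G‖ ≤ e D + ∫ ‖G‖² / (2 e D) ≤ e D + C_b Q/(2 e |p - q| D)`.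
Splitting of `Q`: the terms with `|w.1| < R` sum to at most `LL_y m_z`, those with `|w.2| < R` to at most `m_y LL_z` (`tau ≤ 1`), for the other ones `Ker.ker` (with `L = J`, `R`, `c`):
`tau ≤ 3 kap + 4 √(J²/(cR))`.  `LL_y m_z / D = (LL_y/√m_y) √m_z ≤ √LL_y √m_z` because `LL_y ≤ m_y` (`LL_le`); `AA_y(w.1) AA_z(w.2)/D = aa_y(w.1) aa_z(w.2)` for `|w.1|, |w.2| ≥ R`; the rest sums to
`4 √(J²/(cR)) m_y m_z / D = 4 √(J²/(cR)) D`.
-/

namespace Pool.Agent.GTP

open MeasureTheory Pool.Agent.GT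

universe u

private theorem Pair_meas2 {b c : ℝ → ℂ} (hb : Measurable b) (hc : Measurable c) (p q : ℝ) :
    Measurable (fun z : ℝ × ℝ => b (z.1 + z.2 * p) * c (z.1 + z.2 * q)) := by
  have h1 : Measurable (fun z : ℝ × ℝ => z.1 + z.2 * p) := by fun_prop
  have h2 : Measurable (fun z : ℝ × ℝ => z.1 + z.2 * q) := by fun_prop
  exact (hb.comp h1).mul (hc.comp h2)

private theorem Pair_meas {b c : ℝ → ℂ} (hb : Measurable b) (hc : Measurable c) (p q : ℝ) :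
    Measurable (fun s : ℝ => ∫ β in (1 : ℝ)..2, b (s + β * p) * c (s + β * q)) := by
  have h1 := (Pair_meas2 hb hc p q).stronglyMeasurable
  have h2 := h1.integral_prod_right' (ν := volume.restrict (Set.Ioc (1 : ℝ) 2))
  have h3 : (fun s : ℝ => ∫ β in (1 : ℝ)..2, b (s + β * p) * c (s + β * q)) =
      fun s : ℝ => ∫ β in Set.Ioc (1 : ℝ) 2, b (s + β * p) * c (s + β * q) := by
    funext s
    exact intervalIntegral.integral_of_le one_le_two
  rw [h3]
  exact h2.measurable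

private theorem Pair_bd {b c : ℝ → ℂ} {B : ℝ} (hbB : ∀ u, ‖b u‖ ≤ B) (hcB : ∀ u, ‖c u‖ ≤ B)
    (p q s : ℝ) : ‖∫ β in (1 : ℝ)..2, b (s + β * p) * c (s + β * q)‖ ≤ B * B := by
  have hB : 0 ≤ B := (norm_nonneg _).trans (hbB 0)
  have h := intervalIntegral.norm_integral_le_of_norm_le_const (a := (1 : ℝ)) (b := 2) (C := B * B)
    (f := fun β => b (s + β * p) * c (s + β * q)) (fun x _ => by
      rw [norm_mul]
      exact mul_le_mul (hbB _) (hcB _) (norm_nonneg _) hB)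
  refine h.trans ?_
  rw [show |(2 : ℝ) - 1| = 1 by norm_num, mul_one]

/-- the arithmetic-geometric mean inequality on an interval of length `1/2` -/
private theorem Pair_amgm {G : ℝ → ℂ} {M : ℝ} (hG : Measurable G) (hGM : ∀ s, ‖G s‖ ≤ M) {t : ℝ} (ht : 0 < t) :
    2 * ∫ s in (1 / 4 : ℝ)..(3 / 4), ‖G s‖ ≤ t + (∫ s in (0 : ℝ)..1, ‖G s‖ ^ 2) / (2 * t) := by
  have hint : ∀ a b : ℝ, IntervalIntegrable (fun s => ‖G s‖) volume a b := by
    intro a b
    refine intervalIntegrable_const (c := M).mono_fun hG.norm.aestronglyMeasurable ?_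
    refine Filter.Eventually.of_forall fun s => ?_
    simp only [norm_norm]
    exact (hGM s).trans (le_abs_self M)
  have hint2 : ∀ a b : ℝ, IntervalIntegrable (fun s => ‖G s‖ ^ 2) volume a b := by
    intro a b
    refine intervalIntegrable_const (c := M ^ 2).mono_fun (hG.norm.pow_const 2).aestronglyMeasurable ?_
    refine Filter.Eventually.of_forall fun s => ?_
    simp only [norm_pow, norm_norm]
    exact pow_le_pow_left₀ (norm_nonneg _) ((hGM s).trans (le_abs_self M)) 2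
  have h1 : ∫ s in (1 / 4 : ℝ)..(3 / 4), 2 * ‖G s‖ ≤
      ∫ s in (1 / 4 : ℝ)..(3 / 4), (2 * t + (2 * t)⁻¹ * ‖G s‖ ^ 2) := by
    refine intervalIntegral.integral_mono_on (by norm_num) ((hint _ _).const_mul 2)
      (intervalIntegrable_const.add ((hint2 _ _).const_mul _)) ?_
    intro s _
    have h2 : 0 ≤ (2 * t)⁻¹ * (‖G s‖ - 2 * t) ^ 2 := by positivity
    have h3 : (2 * t)⁻¹ * (‖G s‖ - 2 * t) ^ 2 =
        (2 * t)⁻¹ * ‖G s‖ ^ 2 - 2 * ‖G s‖ + 2 * t := by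
      field_simp
      ring
    rw [h3] at h2
    linarith
  have h4 : ∫ s in (1 / 4 : ℝ)..(3 / 4), (2 * t + (2 * t)⁻¹ * ‖G s‖ ^ 2) =
      t + (2 * t)⁻¹ * ∫ s in (1 / 4 : ℝ)..(3 / 4), ‖G s‖ ^ 2 := by
    rw [intervalIntegral.integral_add intervalIntegrable_const ((hint2 _ _).const_mul _),
      intervalIntegral.integral_const, intervalIntegral.integral_const_mul, smul_eq_mul]
    ring
  have h5 : ∫ s in (1 / 4 : ℝ)..(3 / 4), ‖G s‖ ^ 2 ≤ ∫ s in (0 : ℝ)..1, ‖G s‖ ^ 2 :=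
    intervalIntegral.integral_mono_interval (by norm_num) (by norm_num) (by norm_num)
      (Filter.Eventually.of_forall fun s => by positivity) (hint2 _ _)
  rw [intervalIntegral.integral_const_mul] at h1
  rw [h4] at h1
  refine h1.trans ?_
  have h6 : (2 * t)⁻¹ * ∫ s in (1 / 4 : ℝ)..(3 / 4), ‖G s‖ ^ 2 ≤
      (2 * t)⁻¹ * ∫ s in (0 : ℝ)..1, ‖G s‖ ^ 2 :=
    mul_le_mul_of_nonneg_left h5 (by positivity)
  rw [div_eq_inv_mul (∫ s in (0 : ℝ)..1, ‖G s‖ ^ 2) (2 * t)]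
  linarith

/-- splitting into low and high frequencies -/
private theorem Pair_split {f g : ℤ → ℝ} (hf : ∀ i, 0 ≤ f i) (hg : ∀ i, 0 ≤ g i) {mf mg : ℝ}
    (hfs : HasSum f mf) (hgs : HasSum g mg) (R : ℕ) {T K : ℤ × ℤ → ℝ} {S : ℝ} (hT0 : ∀ w, 0 ≤ T w)
    (hT1 : ∀ w, T w ≤ 1) (hK0 : ∀ w, 0 ≤ K w) (hK1 : ∀ w, K w ≤ 1) (hS : 0 ≤ S)
    (hTK : ∀ w : ℤ × ℤ, (R : ℤ) ≤ |w.1| → (R : ℤ) ≤ |w.2| → T w ≤ 3 * K w + 4 * S) :
    ∑' w : ℤ × ℤ, f w.1 * g w.2 * T w ≤
      (∑ ξ ∈ Finset.Ioo (-(R : ℤ)) R, f ξ) * mg + mf * (∑ ξ ∈ Finset.Ioo (-(R : ℤ)) R, g ξ) +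
      3 * (∑' w : ℤ × ℤ, (if (R : ℤ) ≤ |w.1| then f w.1 else 0) * (if (R : ℤ) ≤ |w.2| then g w.2 else 0) * K w) +
      4 * S * (mf * mg) := by
  have hlo : ∀ h : ℤ → ℝ, HasSum (fun ξ : ℤ => if (R : ℤ) ≤ |ξ| then 0 else h ξ)
      (∑ ξ ∈ Finset.Ioo (-(R : ℤ)) R, h ξ) := by
    intro h
    have h1 : ∑ ξ ∈ Finset.Ioo (-(R : ℤ)) R, h ξ =
        ∑ ξ ∈ Finset.Ioo (-(R : ℤ)) R, (if (R : ℤ) ≤ |ξ| then 0 else h ξ) := by
      refine Finset.sum_congr rfl fun ξ hξ => ?_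
      rw [Finset.mem_Ioo] at hξ
      rw [if_neg]
      rw [not_le]
      exact abs_lt.2 hξ
    rw [h1]
    refine hasSum_sum_of_ne_finset_zero fun ξ hξ => ?_
    rw [if_pos]
    by_contra hcon
    rw [not_le] at hcon
    exact hξ (Finset.mem_Ioo.2 (abs_lt.1 hcon))
  have hlo0 : ∀ h : ℤ → ℝ, (∀ i, 0 ≤ h i) → ∀ ξ : ℤ, 0 ≤ (if (R : ℤ) ≤ |ξ| then 0 else h ξ) := by
    intro h hh ξ
    split_ifs
    · exact le_rfl
    · exact hh ξ
  have hhi0 : ∀ h : ℤ → ℝ, (∀ i, 0 ≤ h i) → ∀ ξ : ℤ, 0 ≤ (if (R : ℤ) ≤ |ξ| then h ξ else 0) := by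
    intro h hh ξ
    split_ifs
    · exact hh ξ
    · exact le_rfl
  have hhi1 : ∀ h : ℤ → ℝ, (∀ i, 0 ≤ h i) → ∀ ξ : ℤ, (if (R : ℤ) ≤ |ξ| then h ξ else 0) ≤ h ξ := by
    intro h hh ξ
    split_ifs
    · exact le_rfl
    · exact hh ξ
  have hfg : HasSum (fun w : ℤ × ℤ => f w.1 * g w.2) (mf * mg) :=
    hfs.mul hgs (hfs.summable.mul_of_nonneg hgs.summable hf hg)
  have h1 : HasSum (fun w : ℤ × ℤ => (if (R : ℤ) ≤ |w.1| then 0 else f w.1) * g w.2)
      ((∑ ξ ∈ Finset.Ioo (-(R : ℤ)) R, f ξ) * mg) :=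
    (hlo f).mul hgs ((hlo f).summable.mul_of_nonneg hgs.summable (hlo0 f hf) hg)
  have h2 : HasSum (fun w : ℤ × ℤ => f w.1 * (if (R : ℤ) ≤ |w.2| then 0 else g w.2))
      (mf * (∑ ξ ∈ Finset.Ioo (-(R : ℤ)) R, g ξ)) :=
    hfs.mul (hlo g) (hfs.summable.mul_of_nonneg (hlo g).summable hf (hlo0 g hg))
  have h3 : Summable (fun w : ℤ × ℤ => (if (R : ℤ) ≤ |w.1| then f w.1 else 0) *
      (if (R : ℤ) ≤ |w.2| then g w.2 else 0) * K w) := by
    refine Summable.of_nonneg_of_le (fun w => ?_) (fun w => ?_) hfg.summable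
    · exact mul_nonneg (mul_nonneg (hhi0 f hf _) (hhi0 g hg _)) (hK0 w)
    · have h4 := mul_le_mul (hhi1 f hf w.1) (hhi1 g hg w.2) (hhi0 g hg _) (hf _)
      have h5 := mul_le_mul h4 (hK1 w) (hK0 w) (mul_nonneg (hf _) (hg _))
      rwa [mul_one] at h5
  have h4 : Summable (fun w : ℤ × ℤ => f w.1 * g w.2 * T w) := by
    refine Summable.of_nonneg_of_le (fun w => ?_) (fun w => ?_) hfg.summable
    · exact mul_nonneg (mul_nonneg (hf _) (hg _)) (hT0 w)
    · exact mul_le_of_le_one_right (mul_nonneg (hf _) (hg _)) (hT1 w)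
  have h5 := ((h1.add h2).add (h3.hasSum.mul_left 3)).add (hfg.mul_left (4 * S))
  refine hasSum_le ?_ h4.hasSum h5
  intro w
  have hfw := hf w.1
  have hgw := hg w.2
  have hfgw := mul_nonneg hfw hgw
  have hA : f w.1 * g w.2 * T w ≤ f w.1 * g w.2 := mul_le_of_le_one_right hfgw (hT1 w)
  have hSfg : 0 ≤ 4 * S * (f w.1 * g w.2) := by positivity
  by_cases ha : (R : ℤ) ≤ |w.1|
  · by_cases hb : (R : ℤ) ≤ |w.2|
    · simp only [if_pos ha, if_pos hb]
      have h6 := mul_le_mul_of_nonneg_left (hTK w ha hb) hfgw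
      have h7 : f w.1 * g w.2 * (3 * K w + 4 * S) =
          3 * (f w.1 * g w.2 * K w) + 4 * S * (f w.1 * g w.2) := by ring
      rw [h7] at h6
      linarith
    · simp only [if_pos ha, if_neg hb]
      linarith
  · by_cases hb : (R : ℤ) ≤ |w.2|
    · simp only [if_neg ha, if_pos hb]
      linarith
    · simp only [if_neg ha, if_neg hb]
      linarith

theorem pair : ∃ C : ℝ, 0 < C ∧ ∀ {X : Type u} [MeasurableSpace X] (μ : Measure X) (φ : ℝ → X → X), IsFlow μ φ →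
    ∀ (F : X → ℂ) (B : ℝ), Measurable F → (∀ x, ‖F x‖ ≤ B) → ∀ J : ℕ, 1 ≤ J → ∀ R : ℕ, 1 ≤ R → ∀ c p q : ℝ, 0 < c →
      c ≤ |p| → |p| ≤ 1 / 9 → c ≤ |q| → |q| ≤ 1 / 9 → p ≠ q → ∀ e : ℝ, 0 < e → ∀ y z : X,
        2 * ∫ s in (1 / 4 : ℝ)..(3 / 4), ‖∫ β in (1 : ℝ)..2, F (φ (s + β * p) y) * (starRingEnd ℂ) (F (φ (s + β * q) z))‖ ≤
          e * (Real.sqrt (mm φ F y) * Real.sqrt (mm φ F z)) +
          C / (e * |p - q|) * (Real.sqrt (LL φ F R y) * Real.sqrt (mm φ F z) + Real.sqrt (mm φ F y) * Real.sqrt (LL φ F R z) +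
            (∑' w : ℤ × ℤ, aa φ F R y w.1 * aa φ F R z w.2 * kap J J ((Real.log |(w.2 : ℝ)| + Real.log |q|) -
              (Real.log |(w.1 : ℝ)| + Real.log |p|))) +
            Real.sqrt ((J : ℝ) * J / (c * R)) * (Real.sqrt (mm φ F y) * Real.sqrt (mm φ F z))) := by
  obtain ⟨Cb, hCb, hbil⟩ := bil
  refine ⟨2 * Cb, by positivity, ?_⟩
  intro X _ μ φ hφ F B hF hB J hJ R hR c p q hc hp hp9 hq hq9 hpq e he y z
  -- periodic extensions
  set b : ℝ → ℂ := fun u => F (φ (Int.fract u) y) with hb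
  set bz : ℝ → ℂ := fun u => F (φ (Int.fract u) z) with hbz
  set cz : ℝ → ℂ := fun u => (starRingEnd ℂ) (bz u) with hcz
  have hbm : Measurable b := (orbit_meas hφ hF y).comp measurable_fract
  have hbzm : Measurable bz := (orbit_meas hφ hF z).comp measurable_fract
  have hczm : Measurable cz := Complex.continuous_conj.measurable.comp hbzm
  have hbB : ∀ u, ‖b u‖ ≤ B := fun u => hB _
  have hbzB : ∀ u, ‖bz u‖ ≤ B := fun u => hB _
  have hczB : ∀ u, ‖cz u‖ ≤ B := fun u => by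
    rw [hcz]
    simp only [RCLike.norm_conj]
    exact hB _
  have hbp : ∀ u, b (u + 1) = b u := fun u => by
    simp only [hb, Int.fract_add_one]
  have hczp : ∀ u, cz (u + 1) = cz u := fun u => by
    simp only [hcz, hbz, Int.fract_add_one]
  have hcf : ∀ (w : X) (ξ : ℤ), cf (fun u => F (φ (Int.fract u) w)) ξ = cf (fun u => F (φ u w)) ξ := by
    intro w ξ
    unfold cf
    rw [intervalIntegral.integral_of_le zero_le_one, intervalIntegral.integral_of_le zero_le_one,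
      integral_Ioc_eq_integral_Ioo, integral_Ioc_eq_integral_Ioo]
    refine setIntegral_congr_fun measurableSet_Ioo fun u hu => ?_
    have h1 : Int.fract u = u := Int.fract_eq_self.2 ⟨hu.1.le, hu.2⟩
    simp only [h1]
  have hcb : ∀ ξ : ℤ, ‖cf b ξ‖ ^ 2 = AA φ F ξ y := by
    intro ξ
    rw [hb, hcf]
    rfl
  have hcc : ∀ ξ : ℤ, ‖cf cz ξ‖ ^ 2 = AA φ F (-ξ) z := by
    intro ξ
    rw [hcz, cf_conj hbzm hbzB, RCLike.norm_conj, hbz, hcf]
    rfl
  have hpq0 : 0 < |p - q| := abs_pos.2 (sub_ne_zero.2 hpq)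
  have hpq1 : |p - q| ≤ 1 := by
    have h1 : |p - q| ≤ |p| + |q| := abs_sub p q
    linarith
  obtain ⟨hsum, hint⟩ := hbil b cz B hbm hczm hbB hczB hbp hczp p q hpq0 hpq1
  set G : ℝ → ℂ := fun s => ∫ β in (1 : ℝ)..2, b (s + β * p) * cz (s + β * q) with hG
  have hGm : Measurable G := Pair_meas hbm hczm p q
  have hGB : ∀ s, ‖G s‖ ≤ B * B := fun s => Pair_bd hbB hczB p q s
  -- the left side
  have hfr : ∀ s ∈ Set.Icc (1 / 4 : ℝ) (3 / 4), ∀ β ∈ Set.Icc (1 : ℝ) 2, ∀ r : ℝ, |r| ≤ 1 / 9 →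
      Int.fract (s + β * r) = s + β * r := by
    intro s hs β hβ r hr
    have h1 : |β * r| ≤ 2 / 9 := by
      rw [abs_mul, abs_of_nonneg (by linarith [hβ.1])]
      have h2 := mul_le_mul hβ.2 hr (abs_nonneg r) (by norm_num)
      linarith
    rw [abs_le] at h1
    exact Int.fract_eq_self.2 ⟨by linarith [hs.1, h1.1], by linarith [hs.2, h1.2]⟩
  have hleft : ∫ s in (1 / 4 : ℝ)..(3 / 4),
      ‖∫ β in (1 : ℝ)..2, F (φ (s + β * p) y) * (starRingEnd ℂ) (F (φ (s + β * q) z))‖ =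
      ∫ s in (1 / 4 : ℝ)..(3 / 4), ‖G s‖ := by
    refine intervalIntegral.integral_congr fun s hs => ?_
    rw [Set.uIcc_of_le (by norm_num)] at hs
    simp only [hG]
    congr 1
    refine intervalIntegral.integral_congr fun β hβ => ?_
    rw [Set.uIcc_of_le one_le_two] at hβ
    simp only [hb, hcz, hbz]
    rw [hfr s hs β hβ p hp9, hfr s hs β hβ q hq9]
  rw [hleft]
  -- the sum
  set my := mm φ F y with hmy
  set mz := mm φ F z with hmz
  have hmy0 : 0 ≤ my := mm_nonneg y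
  have hmz0 : 0 ≤ mz := mm_nonneg z
  set Q : ℝ := ∑' w : ℤ × ℤ, AA φ F w.1 y * AA φ F w.2 z * tau (w.1 * p - w.2 * q) with hQ
  have hQe : ∑' w : ℤ × ℤ, ‖cf b w.1‖ ^ 2 * ‖cf cz w.2‖ ^ 2 * tau (w.1 * p + w.2 * q) = Q := by
    rw [hQ, ← (Equiv.prodCongr (Equiv.refl ℤ) (Equiv.neg ℤ)).tsum_eq
      (fun w : ℤ × ℤ => AA φ F w.1 y * AA φ F w.2 z * tau (w.1 * p - w.2 * q))]
    refine tsum_congr fun w => ?_
    rw [hcb, hcc]
    simp only [Equiv.prodCongr_apply, Prod.map_fst, Prod.map_snd, Equiv.refl_apply, Equiv.neg_apply, Int.cast_neg]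
    rw [show (w.1 : ℝ) * p - -(w.2 : ℝ) * q = w.1 * p + w.2 * q by ring]
  rw [hQe] at hint
  have hamgm : ∀ t : ℝ, 0 < t → 2 * ∫ s in (1 / 4 : ℝ)..(3 / 4), ‖G s‖ ≤
      t + (Cb / |p - q| * Q) / (2 * t) := by
    intro t ht
    refine (Pair_amgm hGm hGB ht).trans ?_
    have h1 := div_le_div_of_nonneg_right hint (by positivity : 0 ≤ 2 * t)
    linarith
  set S : ℝ := Real.sqrt ((J : ℝ) * J / (c * R)) with hS
  have hS0 : 0 ≤ S := Real.sqrt_nonneg _
  set K : ℤ × ℤ → ℝ := fun w => kap J J ((Real.log |(w.2 : ℝ)| + Real.log |q|) -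
              (Real.log |(w.1 : ℝ)| + Real.log |p|)) with hK
  have hsplit := Pair_split (f := fun ξ => AA φ F ξ y) (g := fun ξ => AA φ F ξ z)
    (fun ξ => AA_nonneg ξ y) (fun ξ => AA_nonneg ξ z) (hasSum_AA hφ hF hB y) (hasSum_AA hφ hF hB z) R
    (T := fun w => tau (w.1 * p - w.2 * q)) (K := K) (S := S) (fun w => (tau_pos _).le)
    (fun w => tau_le_one _) (fun w => kap_nonneg _ _ _) (fun w => kap_le_one _ _ _) hS0 (by
      intro w h1 h2
      have hR0 : (0 : ℝ) < R := by exact_mod_cast hR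
      have h1' : (R : ℝ) ≤ |(w.1 : ℝ)| := by exact_mod_cast h1
      have h2' : (R : ℝ) ≤ |(w.2 : ℝ)| := by exact_mod_cast h2
      exact ker hJ hJ hc hR0 hp hq h1' h2')
  have haa0 : 0 ≤ ∑' w : ℤ × ℤ, aa φ F R y w.1 * aa φ F R z w.2 * K w :=
    tsum_nonneg fun w => mul_nonneg (mul_nonneg (aa_nonneg _ _ _) (aa_nonneg _ _ _)) (kap_nonneg _ _ _)
  set Sa : ℝ := ∑' w : ℤ × ℤ, aa φ F R y w.1 * aa φ F R z w.2 * K w with hSa
  have hQ0 : Q ≤ LL φ F R y * mz + my * LL φ F R z + 3 * (∑' w : ℤ × ℤ,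
      (if (R : ℤ) ≤ |w.1| then AA φ F w.1 y else 0) * (if (R : ℤ) ≤ |w.2| then AA φ F w.2 z else 0) * K w) +
      4 * S * (my * mz) := hsplit
  have hLy0 : 0 ≤ LL φ F R y := LL_nonneg R y
  have hLz0 : 0 ≤ LL φ F R z := LL_nonneg R z
  have hLy : LL φ F R y ≤ my := LL_le hφ hF hB R y
  have hLz : LL φ F R z ≤ mz := LL_le hφ hF hB R z
  set a1 := Real.sqrt my with ha1
  set a2 := Real.sqrt mz with ha2
  set l1 := Real.sqrt (LL φ F R y) with hl1
  set l2 := Real.sqrt (LL φ F R z) with hl2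
  have ha10 : 0 ≤ a1 := Real.sqrt_nonneg _
  have ha20 : 0 ≤ a2 := Real.sqrt_nonneg _
  have hl10 : 0 ≤ l1 := Real.sqrt_nonneg _
  have hl20 : 0 ≤ l2 := Real.sqrt_nonneg _
  have ha1s : a1 * a1 = my := Real.mul_self_sqrt hmy0
  have ha2s : a2 * a2 = mz := Real.mul_self_sqrt hmz0
  have hl1s : l1 * l1 = LL φ F R y := Real.mul_self_sqrt hLy0
  have hl2s : l2 * l2 = LL φ F R z := Real.mul_self_sqrt hLz0
  have hla1 : l1 ≤ a1 := Real.sqrt_le_sqrt hLy
  have hla2 : l2 ≤ a2 := Real.sqrt_le_sqrt hLz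
  have hRHS0 : 0 ≤ l1 * a2 + a1 * l2 + Sa + S * (a1 * a2) := by positivity
  rcases (mul_nonneg ha10 ha20).eq_or_lt with hD | hD
  · -- degenerate case
    have hQz : Q ≤ 0 := by
      have hm : my = 0 ∨ mz = 0 := by
        rcases mul_eq_zero.1 hD.symm with h | h
        · left
          rw [← ha1s, h, mul_zero]
        · right
          rw [← ha2s, h, mul_zero]
      have hz : ∀ w : ℤ × ℤ, AA φ F w.1 y * AA φ F w.2 z = 0 := by
        intro w
        rcases hm with h | h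
        · have h1 := hasSum_AA hφ hF hB y
          have h2 := le_hasSum h1 w.1 (fun j _ => AA_nonneg j y)
          have h3 : AA φ F w.1 y = 0 := le_antisymm (h2.trans h.le) (AA_nonneg _ _)
          rw [h3, zero_mul]
        · have h1 := hasSum_AA hφ hF hB z
          have h2 := le_hasSum h1 w.2 (fun j _ => AA_nonneg j z)
          have h3 : AA φ F w.2 z = 0 := le_antisymm (h2.trans h.le) (AA_nonneg _ _)
          rw [h3, mul_zero]
      rw [hQ]
      simp only [hz, zero_mul, tsum_zero]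
      exact le_rfl
    have h1 : 2 * ∫ s in (1 / 4 : ℝ)..(3 / 4), ‖G s‖ ≤ 0 := by
      refine le_of_forall_pos_le_add fun t ht => ?_
      refine (hamgm t ht).trans ?_
      have h2 : (Cb / |p - q| * Q) / (2 * t) ≤ 0 := by
        refine div_nonpos_of_nonpos_of_nonneg ?_ (by positivity)
        exact mul_nonpos_of_nonneg_of_nonpos (by positivity) hQz
      linarith
    refine h1.trans ?_
    rw [← hD]
    positivity
  · -- main case
    have ha1p : 0 < a1 := by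
      rcases ha10.eq_or_lt with h | h
      · rw [← h, zero_mul] at hD
        exact absurd hD (lt_irrefl _)
      · exact h
    have ha2p : 0 < a2 := by
      rcases ha20.eq_or_lt with h | h
      · rw [← h, mul_zero] at hD
        exact absurd hD (lt_irrefl _)
      · exact h
    have hhi : (∑' w : ℤ × ℤ, (if (R : ℤ) ≤ |w.1| then AA φ F w.1 y else 0) *
        (if (R : ℤ) ≤ |w.2| then AA φ F w.2 z else 0) * K w) = a1 * a2 * Sa := by
      rw [hSa, ← tsum_mul_left]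
      refine tsum_congr fun w => ?_
      have h1 : (if (R : ℤ) ≤ |w.1| then AA φ F w.1 y else 0) = a1 * aa φ F R y w.1 := by
        unfold aa
        split_ifs
        · rw [← hmy, ← ha1, ← mul_assoc, mul_inv_cancel₀ ha1p.ne', one_mul]
        · rw [mul_zero]
      have h2 : (if (R : ℤ) ≤ |w.2| then AA φ F w.2 z else 0) = a2 * aa φ F R z w.2 := by
        unfold aa
        split_ifs
        · rw [← hmz, ← ha2, ← mul_assoc, mul_inv_cancel₀ ha2p.ne', one_mul]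
        · rw [mul_zero]
      rw [h1, h2]
      ring
    have hQ1 : Q ≤ (a1 * a2) * (4 * (l1 * a2 + a1 * l2 + Sa + S * (a1 * a2))) := by
      rw [hhi] at hQ0
      have h1 : LL φ F R y * mz ≤ (a1 * a2) * (l1 * a2) := by
        rw [← hl1s, ← ha2s]
        have h2 : l1 * l1 ≤ a1 * l1 := mul_le_mul_of_nonneg_right hla1 hl10
        calc l1 * l1 * (a2 * a2) ≤ a1 * l1 * (a2 * a2) :=
              mul_le_mul_of_nonneg_right h2 (mul_nonneg ha20 ha20)
          _ = (a1 * a2) * (l1 * a2) := by ring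
      have h2 : my * LL φ F R z ≤ (a1 * a2) * (a1 * l2) := by
        rw [← hl2s, ← ha1s]
        have h3 : l2 * l2 ≤ a2 * l2 := mul_le_mul_of_nonneg_right hla2 hl20
        calc a1 * a1 * (l2 * l2) ≤ a1 * a1 * (a2 * l2) :=
              mul_le_mul_of_nonneg_left h3 (mul_nonneg ha10 ha10)
          _ = (a1 * a2) * (a1 * l2) := by ring
      have h3 : 4 * S * (my * mz) = (a1 * a2) * (4 * (S * (a1 * a2))) := by
        rw [← ha1s, ← ha2s]
        ring
      rw [h3] at hQ0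
      have h4 : 0 ≤ (a1 * a2) * (l1 * a2) := by positivity
      have h5 : 0 ≤ (a1 * a2) * (a1 * l2) := by positivity
      have h6 : 0 ≤ (a1 * a2) * Sa := by positivity
      have h7 : (a1 * a2) * (4 * (l1 * a2 + a1 * l2 + Sa + S * (a1 * a2))) =
          4 * ((a1 * a2) * (l1 * a2)) + 4 * ((a1 * a2) * (a1 * l2)) + 4 * ((a1 * a2) * Sa) +
            (a1 * a2) * (4 * (S * (a1 * a2))) := by ring
      rw [h7]
      linarith
    refine (hamgm (e * (a1 * a2)) (by positivity)).trans ?_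
    have h1 : (Cb / |p - q| * Q) / (2 * (e * (a1 * a2))) ≤
        (Cb / |p - q| * ((a1 * a2) * (4 * (l1 * a2 + a1 * l2 + Sa + S * (a1 * a2))))) /
          (2 * (e * (a1 * a2))) := by
      refine div_le_div_of_nonneg_right ?_ (by positivity)
      exact mul_le_mul_of_nonneg_left hQ1 (by positivity)
    have h2 : (Cb / |p - q| * ((a1 * a2) * (4 * (l1 * a2 + a1 * l2 + Sa + S * (a1 * a2))))) /
          (2 * (e * (a1 * a2))) =
        2 * Cb / (e * |p - q|) * (l1 * a2 + a1 * l2 + Sa + S * (a1 * a2)) := by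
      field_simp
      ring
    rw [h2] at h1
    linarith

end Pool.Agent.GTP
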