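import Mathlib
import Pool.Agent.GTP.Defs
import Pool.Agent.GTP.Loc
import Pool.Agent.GTP.Low
import Pool.Agent.GTP.Pair
import Pool.Agent.GTP.Dbl

set_option autoImplicit false

/-!
# GTP/Basic: the basic estimate (window of length 1)

`F = f - f ∘ φ_t`, `E = ∫ ‖f‖²`; `∫ ‖F‖² ≤ 4 E`.  `#I ≤ N + 1 ≤ 2 N`.

PROOF.
(0) Fubini and, for every `x`, expansion of the square: `∫_1^2 ‖BB‖² dβ = N⁻² ∑_{n,m ∈ I} a_n conj(a_m) J_nm(x) ≤ N⁻² ∑_{n,m ∈ I} ‖J_nm(x)‖`,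
`J_nm(x) = ∫_1^2 F(φ(β p_n) g_n x) conj F(φ(β p_m) g_m x) dβ` (the weights have norm at most 1).  So the left side is at most `N⁻² ∑_{n,m} ∫ ‖J_nm‖ dμ`.
(1) Near pairs `|n - m| < e N`: `∫ ‖J_nm‖ dμ ≤ ∫_1^2 ∫ (‖F(φ(β p_n) g_n x)‖² + ‖F(φ(β p_m) g_m x)‖²)/2 dμ dβ = ∫ ‖F‖² ≤ 4E`; their number is at most `2N (2 e N + 1)`, contribution `≤ (16 e + 8/N) E`.
(2) Far pairs `|n - m| ≥ e N`: `|p_n - p_m| ≥ c₂ e`.  By invariance of `μ` under `φ_s`: `∫ ‖J_nm‖ dμ = ∫ 2 ∫_{1/4}^{3/4} ‖J_nm(φ_s x)‖ ds dμ` and, as `g_n` commutes with the flow,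
`J_nm(φ_s x) = ∫_1^2 F(φ(s + β p_n) g_n x) conj F(φ(s + β p_m) g_m x) dβ`.  `Pair.pair` with `R = J^4`, `c = c₁`, `y = g_n x`, `z = g_m x` and `e`: pointwise
`≤ e s_n s_m + (C/(c₂ e²)) (√L_n s_m + s_n √L_m + K_nm + √(J²/(c₁ J⁴)) s_n s_m)`, `s_n = √(mm φ F (g_n x))`, `L_n = LL φ F R (g_n x)`, `K_nm` = the sum with `kap`.  All these terms are nonnegative; sum over ALL
pairs `n, m ∈ I`, times `N⁻²`, integrate over `x`:
 `∫ s_n s_m ≤ (∫ mm(g_n x) + ∫ mm(g_m x))/2 = ∫ mm = ∫ ‖F‖² ≤ 4E` (`integral_mm`), total `≤ 16 E`;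
 `∫ √L_n s_m ≤ (J ∫ L_n + J⁻¹ ∫ mm(g_m x))/2 ≤ (J · 100 (J⁴ t)² E + 4E/J)/2 ≤ 52 E/J` (`Low.low`, `J⁴ t ≤ 1/J`), total `≤ 208 E/J`, twice;
 `K_nm`: `Dbl.dbl` with `a n ξ = aa φ F R (g_n x) ξ`, `lam n ξ = log|ξ| + log|p_n|`, `L = J`: `N⁻² ∑_{n,m} K_nm(x) = J⁻² ∑_{j,j'<J} ‖N⁻¹ ∑_{n ∈ I} e((j-j') J log|p_n|) VV φ F R ((j-j')J) (g_n x)‖²`.  For `j = j'` the
 integral is at most `(#I/N)² ∫ ‖VV‖² ≤ 4 ∫ mm ≤ 16 E`; for `j ≠ j'` it is at most `w ∫ ‖VV‖² ≤ w ∫ mm ≤ 4 w E` (hypothesis for `v = VV φ F R ((j-j')J)`, which is measurable and bounded by `VV_le`, `mm_le`).  Total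
 `≤ 16 E/J + 4 w E`;
 the last term: `√(J²/(c₁J⁴)) = 1/(√c₁ J)`, total `≤ 16 E/(√c₁ J)`.
So the sum over the far pairs is `≤ 16 e E + C' (1/J + w)/e² · E`.
-/

namespace Pool.Agent.GTP

open MeasureTheory Pool.Agent.GT

universe u

section aux

variable {X : Type*} [MeasurableSpace X] {μ : Measure X} [IsFiniteMeasure μ] {φ : ℝ → X → X}

private theorem Basic_int {α : Type*} [MeasurableSpace α] {ν : Measure α} [IsFiniteMeasure ν] {k : α → ℝ}
    (hk : Measurable k) {C : ℝ} (h : ∀ x, |k x| ≤ C) : Integrable k ν :=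
  Integrable.of_bound hk.aestronglyMeasurable C (Filter.Eventually.of_forall fun x => by
    rw [Real.norm_eq_abs]
    exact h x)

private theorem Basic_intC {α : Type*} [MeasurableSpace α] {ν : Measure α} [IsFiniteMeasure ν] {k : α → ℂ}
    (hk : Measurable k) {C : ℝ} (h : ∀ x, ‖k x‖ ≤ C) : Integrable k ν :=
  Integrable.of_bound hk.aestronglyMeasurable C (Filter.Eventually.of_forall h)

private theorem Basic_ii {k : ℝ → ℝ} (hk : Measurable k) {C : ℝ} (h : ∀ x, |k x| ≤ C) {a b : ℝ} (hab : a ≤ b) :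
    IntervalIntegrable k volume a b := by
  rw [intervalIntegrable_iff_integrableOn_Ioc_of_le hab]
  exact Basic_int hk h

private theorem Basic_inv {T : X → X} (hT : MeasurePreserving T μ μ) {k : X → ℝ} (hk : Measurable k) :
    ∫ x, k (T x) ∂μ = ∫ x, k x ∂μ := by
  conv_rhs => rw [← hT.map_eq]
  rw [integral_map hT.measurable.aemeasurable hk.aestronglyMeasurable]

private theorem Basic_fub {h : ℝ → X → ℝ} (hm : Measurable (Function.uncurry h)) {C : ℝ}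
    (hC : ∀ s x, |h s x| ≤ C) {a b : ℝ} (hab : a ≤ b) :
    ∫ x, (∫ s in a..b, h s x) ∂μ = ∫ s in a..b, (∫ x, h s x ∂μ) := by
  simp_rw [intervalIntegral.integral_of_le hab]
  rw [integral_integral_swap]
  exact Basic_int (hm.comp measurable_swap) (C := C) fun z => hC z.2 z.1

private theorem Basic_avg (hφ : IsFlow μ φ) {k : X → ℝ} (hk : Measurable k) {C : ℝ} (hC : ∀ x, |k x| ≤ C) :
    ∫ x, k x ∂μ = ∫ x, 2 * (∫ s in (1 / 4 : ℝ)..(3 / 4), k (φ s x)) ∂μ := by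
  rw [integral_const_mul, Basic_fub (h := fun s x => k (φ s x)) (hk.comp hφ.meas) (fun s x => hC _)
    (by norm_num)]
  have h1 : ∀ s, ∫ x, k (φ s x) ∂μ = ∫ x, k x ∂μ := fun s => Basic_inv (hφ.mp s) hk
  simp_rw [h1]
  rw [intervalIntegral.integral_const, smul_eq_mul]
  ring

private theorem Basic_meas2 (hφ : IsFlow μ φ) {T : X → X} (hT : Measurable T) {F : X → ℂ} (hF : Measurable F)
    (q : ℝ) : Measurable (fun z : ℝ × X => F (φ (z.1 * q) (T z.2))) :=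
  hF.comp (hφ.meas.comp ((measurable_fst.mul_const q).prodMk (hT.comp measurable_snd)))

private theorem Basic_G (hφ : IsFlow μ φ) {T : X → X} (hT : MeasurePreserving T μ μ) {F : X → ℂ}
    (hF : Measurable F) {B : ℝ} (hB : ∀ x, ‖F x‖ ≤ B) (q : ℝ) :
    ∫ x, (∫ β in (1 : ℝ)..2, ‖F (φ (β * q) (T x))‖ ^ 2) ∂μ = ∫ x, ‖F x‖ ^ 2 ∂μ := by
  rw [Basic_fub (h := fun β x => ‖F (φ (β * q) (T x))‖ ^ 2)
    ((Basic_meas2 hφ hT.measurable hF q).norm.pow_const 2) (C := B ^ 2) (fun s x => ?_) (by norm_num)]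
  · have h1 : ∀ β : ℝ, ∫ x, ‖F (φ (β * q) (T x))‖ ^ 2 ∂μ = ∫ x, ‖F x‖ ^ 2 ∂μ := by
      intro β
      have hk : Measurable fun x => ‖F x‖ ^ 2 := hF.norm.pow_const 2
      rw [← Basic_inv (hφ.mp (β * q)) hk]
      exact Basic_inv hT (k := fun x => ‖F (φ (β * q) x)‖ ^ 2) (hk.comp (hφ.mp (β * q)).measurable)
    simp_rw [h1]
    rw [intervalIntegral.integral_const, smul_eq_mul]
    ring
  · rw [abs_of_nonneg (by positivity)]
    exact pow_le_pow_left₀ (norm_nonneg _) (hB _) 2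

/-- the correlation of two orbits -/
private noncomputable def Basic_J (φ : ℝ → X → X) (F : X → ℂ) (T T' : X → X) (q q' : ℝ) (x : X) : ℂ :=
  ∫ β in (1 : ℝ)..2, F (φ (β * q) (T x)) * (starRingEnd ℂ) (F (φ (β * q') (T' x)))

private theorem Basic_J_meas (hφ : IsFlow μ φ) {F : X → ℂ} (hF : Measurable F) {T T' : X → X}
    (hT : Measurable T) (hT' : Measurable T') (q q' : ℝ) : Measurable (Basic_J φ F T T' q q') := by
  unfold Basic_J
  simp_rw [intervalIntegral.integral_of_le (one_le_two : (1 : ℝ) ≤ 2)]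
  have h1 : Measurable (fun z : X × ℝ => F (φ (z.2 * q) (T z.1)) *
      (starRingEnd ℂ) (F (φ (z.2 * q') (T' z.1)))) :=
    ((Basic_meas2 hφ hT hF q).comp measurable_swap).mul
      (Complex.continuous_conj.measurable.comp ((Basic_meas2 hφ hT' hF q').comp measurable_swap))
  exact (h1.stronglyMeasurable.integral_prod_right').measurable

private theorem Basic_one (hφ : IsFlow μ φ) {F : X → ℂ} (hF : Measurable F) (q : ℝ) (y : X) :
    Measurable (fun β : ℝ => F (φ (β * q) y)) :=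
  (Basic_meas2 hφ measurable_id hF q).comp (measurable_id.prodMk measurable_const)

private theorem Basic_J_le (hφ : IsFlow μ φ) {F : X → ℂ} (hF : Measurable F) {B : ℝ} (hB : ∀ x, ‖F x‖ ≤ B)
    (T T' : X → X) (q q' : ℝ) (x : X) : ‖Basic_J φ F T T' q q' x‖ ≤
      ((∫ β in (1 : ℝ)..2, ‖F (φ (β * q) (T x))‖ ^ 2) + ∫ β in (1 : ℝ)..2, ‖F (φ (β * q') (T' x))‖ ^ 2) / 2 := by
  have hi : ∀ (r : ℝ) (y : X), IntervalIntegrable (fun β : ℝ => ‖F (φ (β * r) y)‖ ^ 2) volume 1 2 := by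
    intro r y
    refine Basic_ii (((Basic_one hφ hF r y).norm).pow_const 2) (C := B ^ 2) (fun β => ?_) one_le_two
    rw [abs_of_nonneg (by positivity)]
    exact pow_le_pow_left₀ (norm_nonneg _) (hB _) 2
  unfold Basic_J
  refine (intervalIntegral.norm_integral_le_integral_norm one_le_two).trans ?_
  have h1 : ((∫ β in (1 : ℝ)..2, ‖F (φ (β * q) (T x))‖ ^ 2) +
      ∫ β in (1 : ℝ)..2, ‖F (φ (β * q') (T' x))‖ ^ 2) / 2 =
      ∫ β in (1 : ℝ)..2, (‖F (φ (β * q) (T x))‖ ^ 2 + ‖F (φ (β * q') (T' x))‖ ^ 2) / 2 := by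
    rw [intervalIntegral.integral_div, intervalIntegral.integral_add (hi q (T x)) (hi q' (T' x))]
  rw [h1]
  refine intervalIntegral.integral_mono_on one_le_two ?_ ?_ fun β _ => ?_
  · refine Basic_ii (((Basic_one hφ hF q (T x)).mul (Complex.continuous_conj.measurable.comp
      (Basic_one hφ hF q' (T' x)))).norm) (C := B * B) (fun β => ?_) one_le_two
    show |‖F (φ (β * q) (T x)) * (starRingEnd ℂ) (F (φ (β * q') (T' x)))‖| ≤ B * B
    rw [abs_of_nonneg (norm_nonneg _), norm_mul, RCLike.norm_conj]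
    exact mul_le_mul (hB _) (hB _) (norm_nonneg _) ((norm_nonneg _).trans (hB x))
  · exact ((hi q (T x)).add (hi q' (T' x))).div_const 2
  · rw [norm_mul, RCLike.norm_conj]
    have := two_mul_le_add_sq ‖F (φ (β * q) (T x))‖ ‖F (φ (β * q') (T' x))‖
    linarith

private theorem Basic_sq (hφ : IsFlow μ φ) {F : X → ℂ} (hF : Measurable F) {B : ℝ} (hB : ∀ x, ‖F x‖ ≤ B)
    {T : X → X} (hT : Measurable T) (q : ℝ) :
    Measurable (fun x => ∫ β in (1 : ℝ)..2, ‖F (φ (β * q) (T x))‖ ^ 2) ∧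
    ∀ x, |∫ β in (1 : ℝ)..2, ‖F (φ (β * q) (T x))‖ ^ 2| ≤ B ^ 2 := by
  constructor
  · simp_rw [intervalIntegral.integral_of_le (one_le_two : (1 : ℝ) ≤ 2)]
    have h1 : Measurable (fun z : X × ℝ => ‖F (φ (z.2 * q) (T z.1))‖ ^ 2) :=
      (((Basic_meas2 hφ hT hF q).comp measurable_swap).norm).pow_const 2
    exact (h1.stronglyMeasurable.integral_prod_right').measurable
  · intro x
    have h1 := intervalIntegral.norm_integral_le_of_norm_le_const (a := (1 : ℝ)) (b := 2)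
      (f := fun β => ‖F (φ (β * q) (T x))‖ ^ 2) (C := B ^ 2) (fun β _ => by
        rw [Real.norm_of_nonneg (by positivity)]
        exact pow_le_pow_left₀ (norm_nonneg _) (hB _) 2)
    rw [Real.norm_eq_abs] at h1
    refine h1.trans (le_of_eq ?_)
    norm_num

private theorem Basic_near (hφ : IsFlow μ φ) {F : X → ℂ} (hF : Measurable F) {B : ℝ} (hB : ∀ x, ‖F x‖ ≤ B)
    {T T' : X → X} (hT : MeasurePreserving T μ μ) (hT' : MeasurePreserving T' μ μ) (q q' : ℝ) :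
    ∫ x, ‖Basic_J φ F T T' q q' x‖ ∂μ ≤ ∫ x, ‖F x‖ ^ 2 ∂μ := by
  obtain ⟨m1, b1⟩ := Basic_sq hφ hF hB hT.measurable q
  obtain ⟨m2, b2⟩ := Basic_sq hφ hF hB hT'.measurable q'
  have i1 := Basic_int (ν := μ) m1 b1
  have i2 := Basic_int (ν := μ) m2 b2
  refine (integral_mono_of_nonneg (Filter.Eventually.of_forall fun x => norm_nonneg _)
    ((i1.add i2).div_const 2) (Filter.Eventually.of_forall fun x =>
      Basic_J_le hφ hF hB T T' q q' x)).trans ?_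
  have h1 : ∫ x, ((fun x => ∫ β in (1 : ℝ)..2, ‖F (φ (β * q) (T x))‖ ^ 2) + fun x =>
      ∫ β in (1 : ℝ)..2, ‖F (φ (β * q') (T' x))‖ ^ 2) x / 2 ∂μ = ∫ x, ‖F x‖ ^ 2 ∂μ := by
    rw [integral_div, integral_add' i1 i2, Basic_G hφ hT hF hB, Basic_G hφ hT' hF hB]
    ring
  exact h1.le

/-- expansion of the square -/
private theorem Basic_exp {I : Finset ℕ} {v : ℕ → ℝ → ℂ} (hv : ∀ n, Measurable (v n)) {B : ℝ}
    (hB : ∀ n β, ‖v n β‖ ≤ B) {a : ℕ → ℂ} (ha : ∀ n, ‖a n‖ ≤ 1) :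
    ∫ β in Set.Icc (1 : ℝ) 2, ‖∑ n ∈ I, a n * v n β‖ ^ 2 ≤
      ∑ n ∈ I, ∑ m ∈ I, ‖∫ β in (1 : ℝ)..2, v n β * (starRingEnd ℂ) (v m β)‖ := by
  have hi : ∀ n m, Integrable (fun β => v n β * (starRingEnd ℂ) (v m β))
      (volume.restrict (Set.Icc (1 : ℝ) 2)) := by
    intro n m
    refine Basic_intC ((hv n).mul (Complex.continuous_conj.measurable.comp (hv m))) (C := B * B) fun β => ?_
    rw [norm_mul, RCLike.norm_conj]
    exact mul_le_mul (hB _ _) (hB _ _) (norm_nonneg _) ((norm_nonneg _).trans (hB n β))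
  have h1 : ((∫ β in Set.Icc (1 : ℝ) 2, ‖∑ n ∈ I, a n * v n β‖ ^ 2 : ℝ) : ℂ) =
      ∑ n ∈ I, ∑ m ∈ I, a n * (starRingEnd ℂ) (a m) *
        ∫ β in Set.Icc (1 : ℝ) 2, v n β * (starRingEnd ℂ) (v m β) := by
    rw [← integral_complex_ofReal]
    have h2 : ∀ β : ℝ, ((‖∑ n ∈ I, a n * v n β‖ ^ 2 : ℝ) : ℂ) =
        ∑ n ∈ I, ∑ m ∈ I, a n * (starRingEnd ℂ) (a m) * (v n β * (starRingEnd ℂ) (v m β)) := by
      intro β
      rw [Complex.ofReal_pow, ← Complex.mul_conj', map_sum, Finset.sum_mul_sum]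
      refine Finset.sum_congr rfl fun n _ => Finset.sum_congr rfl fun m _ => ?_
      rw [map_mul]
      ring
    simp_rw [h2]
    rw [integral_finsetSum _ fun n _ => integrable_finsetSum _ fun m _ => (hi n m).const_mul _]
    refine Finset.sum_congr rfl fun n _ => ?_
    rw [integral_finsetSum _ fun m _ => (hi n m).const_mul _]
    refine Finset.sum_congr rfl fun m _ => ?_
    rw [integral_const_mul]
  have h3 : ∫ β in Set.Icc (1 : ℝ) 2, ‖∑ n ∈ I, a n * v n β‖ ^ 2 =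
      ‖((∫ β in Set.Icc (1 : ℝ) 2, ‖∑ n ∈ I, a n * v n β‖ ^ 2 : ℝ) : ℂ)‖ := by
    rw [Complex.norm_real, Real.norm_of_nonneg (integral_nonneg fun β => by positivity)]
  rw [h3, h1]
  refine (norm_sum_le _ _).trans (Finset.sum_le_sum fun n _ => ?_)
  refine (norm_sum_le _ _).trans (Finset.sum_le_sum fun m _ => ?_)
  rw [intervalIntegral.integral_of_le one_le_two, ← integral_Icc_eq_integral_Ioc, norm_mul, norm_mul,
    RCLike.norm_conj]
  have h4 : ‖a n‖ * ‖a m‖ ≤ 1 := mul_le_one₀ (ha n) (norm_nonneg _) (ha m)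
  exact mul_le_of_le_one_left (norm_nonneg _) h4

private theorem Basic_J_bd (hφ : IsFlow μ φ) {F : X → ℂ} (hF : Measurable F) {B : ℝ} (hB : ∀ x, ‖F x‖ ≤ B)
    {T T' : X → X} (hT : Measurable T) (hT' : Measurable T') (q q' : ℝ) (x : X) :
    ‖Basic_J φ F T T' q q' x‖ ≤ B ^ 2 := by
  have h1 := Basic_J_le hφ hF hB T T' q q' x
  have h2 := (Basic_sq hφ hF hB hT q).2 x
  have h3 := (Basic_sq hφ hF hB hT' q').2 x
  have h4 := le_abs_self (∫ β in (1 : ℝ)..2, ‖F (φ (β * q) (T x))‖ ^ 2)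
  have h5 := le_abs_self (∫ β in (1 : ℝ)..2, ‖F (φ (β * q') (T' x))‖ ^ 2)
  linarith

private theorem Basic_J_shift (hφ : IsFlow μ φ) {F : X → ℂ} {T T' : X → X}
    (hc : ∀ s x, T (φ s x) = φ s (T x)) (hc' : ∀ s x, T' (φ s x) = φ s (T' x)) (q q' s : ℝ) (x : X) :
    Basic_J φ F T T' q q' (φ s x) =
      ∫ β in (1 : ℝ)..2, F (φ (s + β * q) (T x)) * (starRingEnd ℂ) (F (φ (s + β * q') (T' x))) := by
  unfold Basic_J
  congr 1
  funext β
  rw [hc, hc', ← hφ.add, ← hφ.add, add_comm (β * q) s, add_comm (β * q') s]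

private theorem Basic_EF (hφ : IsFlow μ φ) {f : X → ℂ} (hf : Measurable f) {B : ℝ} (hB : ∀ x, ‖f x‖ ≤ B)
    (t : ℝ) : ∫ x, ‖f x - f (φ t x)‖ ^ 2 ∂μ ≤ 4 * ∫ x, ‖f x‖ ^ 2 ∂μ := by
  have hk : Measurable fun x => ‖f x‖ ^ 2 := hf.norm.pow_const 2
  have hb : ∀ x, |‖f x‖ ^ 2| ≤ B ^ 2 := fun x => by
    rw [abs_of_nonneg (by positivity)]
    exact pow_le_pow_left₀ (norm_nonneg _) (hB _) 2
  have i1 := Basic_int (ν := μ) hk hb
  have i2 := Basic_int (ν := μ) (hk.comp (hφ.mp t).measurable) (fun x => hb (φ t x))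
  refine (integral_mono_of_nonneg (Filter.Eventually.of_forall fun x => by positivity)
    ((i1.const_mul 2).add (i2.const_mul 2)) (Filter.Eventually.of_forall fun x => ?_)).trans ?_
  · show ‖f x - f (φ t x)‖ ^ 2 ≤ 2 * ‖f x‖ ^ 2 + 2 * ‖f (φ t x)‖ ^ 2
    have h1 := norm_sub_le (f x) (f (φ t x))
    have h2 : ‖f x - f (φ t x)‖ ^ 2 ≤ (‖f x‖ + ‖f (φ t x)‖) ^ 2 :=
      pow_le_pow_left₀ (norm_nonneg _) h1 2
    nlinarith [sq_nonneg (‖f x‖ - ‖f (φ t x)‖)]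
  · have h1 : ∫ x, (((fun x => 2 * ‖f x‖ ^ 2) + fun x => 2 * ((fun x => ‖f x‖ ^ 2) ∘ φ t) x) : X → ℝ) x ∂μ =
        4 * ∫ x, ‖f x‖ ^ 2 ∂μ := by
      rw [integral_add' (i1.const_mul 2) (i2.const_mul 2), integral_const_mul, integral_const_mul]
      have h2 : ∫ x, ((fun x => ‖f x‖ ^ 2) ∘ φ t) x ∂μ = ∫ x, ‖f x‖ ^ 2 ∂μ := Basic_inv (hφ.mp t) hk
      rw [h2]
      ring
    exact h1.le

private theorem Basic_diag {g : ℕ → X → X} (hg : ∀ n, MeasurePreserving (g n) μ μ) {I : Finset ℕ}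
    {b : ℕ → ℂ} (hb : ∀ n, ‖b n‖ ≤ 1) {v : X → ℂ} (hv : Measurable v) {B : ℝ} (hB : ∀ x, ‖v x‖ ≤ B) :
    ∫ x, ‖∑ n ∈ I, b n * v (g n x)‖ ^ 2 ∂μ ≤ (I.card : ℝ) ^ 2 * ∫ x, ‖v x‖ ^ 2 ∂μ := by
  have hk : Measurable fun x => ‖v x‖ ^ 2 := hv.norm.pow_const 2
  have hbd : ∀ x, |‖v x‖ ^ 2| ≤ B ^ 2 := fun x => by
    rw [abs_of_nonneg (by positivity)]
    exact pow_le_pow_left₀ (norm_nonneg _) (hB _) 2
  have ii : ∀ n ∈ I, Integrable (fun x => ‖v (g n x)‖ ^ 2) μ := fun n _ =>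
    Basic_int (hk.comp (hg n).measurable) fun x => hbd (g n x)
  refine (integral_mono_of_nonneg (Filter.Eventually.of_forall fun x => by positivity)
    ((integrable_finsetSum I ii).const_mul (I.card : ℝ)) (Filter.Eventually.of_forall fun x => ?_)).trans ?_
  · show ‖∑ n ∈ I, b n * v (g n x)‖ ^ 2 ≤ (I.card : ℝ) * ∑ n ∈ I, ‖v (g n x)‖ ^ 2
    have h1 : ‖∑ n ∈ I, b n * v (g n x)‖ ≤ ∑ n ∈ I, ‖v (g n x)‖ := by
      refine (norm_sum_le _ _).trans (Finset.sum_le_sum fun n _ => ?_)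
      rw [norm_mul]
      exact mul_le_of_le_one_left (norm_nonneg _) (hb n)
    exact (pow_le_pow_left₀ (norm_nonneg _) h1 2).trans sq_sum_le_card_mul_sum_sq
  · rw [integral_const_mul, integral_finsetSum I ii]
    have h1 : ∀ n ∈ I, ∫ x, ‖v (g n x)‖ ^ 2 ∂μ = ∫ x, ‖v x‖ ^ 2 ∂μ := fun n _ => Basic_inv (hg n) hk
    rw [Finset.sum_congr rfl h1, Finset.sum_const, nsmul_eq_mul]
    exact le_of_eq (by ring)

private theorem Basic_alg {I : Finset ℕ} {M L : ℕ → ℝ} {K T d : ℕ → ℕ → ℝ} (hM : ∀ n, 0 ≤ M n)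
    (hL : ∀ n, 0 ≤ L n) (hK : ∀ n m, 0 ≤ K n m) {far : ℕ → ℕ → Prop} [∀ n m, Decidable (far n m)]
    {e C c₂ ρ J : ℝ} (he : 0 < e) (hC : 0 < C) (hc : 0 < c₂) (hρ : 0 ≤ ρ) (hJ : 0 < J)
    (hd : ∀ n ∈ I, ∀ m ∈ I, far n m → c₂ * e ≤ d n m)
    (hT : ∀ n ∈ I, ∀ m ∈ I, far n m → T n m ≤ e * (Real.sqrt (M n) * Real.sqrt (M m)) + C / (e * d n m) *
      (Real.sqrt (L n) * Real.sqrt (M m) + Real.sqrt (M n) * Real.sqrt (L m) + K n m +
        ρ * (Real.sqrt (M n) * Real.sqrt (M m)))) :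
    ∑ n ∈ I, ∑ m ∈ I, (if far n m then T n m else 0) ≤
      (e + C / (c₂ * e ^ 2) * ρ) * (I.card * ∑ n ∈ I, M n) +
      C / (c₂ * e ^ 2) * (I.card * (J * ∑ n ∈ I, L n + J⁻¹ * ∑ n ∈ I, M n)) +
      C / (c₂ * e ^ 2) * ∑ n ∈ I, ∑ m ∈ I, K n m := by
  set D : ℝ := C / (c₂ * e ^ 2) with hD
  have hD0 : 0 < D := by positivity
  have hJ' : 0 < J⁻¹ := inv_pos.mpr hJ
  have am : ∀ x y : ℝ, 0 ≤ x → 0 ≤ y → Real.sqrt x * Real.sqrt y ≤ (x + y) / 2 := by
    intro x y hx hy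
    have h1 := two_mul_le_add_sq (Real.sqrt x) (Real.sqrt y)
    rw [Real.sq_sqrt hx, Real.sq_sqrt hy] at h1
    linarith
  have am2 : ∀ x y : ℝ, 0 ≤ x → 0 ≤ y → Real.sqrt x * Real.sqrt y ≤ (J * x + J⁻¹ * y) / 2 := by
    intro x y hx hy
    have h1 := am (J * x) (J⁻¹ * y) (by positivity) (by positivity)
    rw [Real.sqrt_mul hJ.le, Real.sqrt_mul hJ'.le, Real.sqrt_inv] at h1
    have h2 : Real.sqrt J * Real.sqrt x * ((Real.sqrt J)⁻¹ * Real.sqrt y) = Real.sqrt x * Real.sqrt y := by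
      have : Real.sqrt J ≠ 0 := (Real.sqrt_pos.mpr hJ).ne'
      field_simp
    rw [h2] at h1
    exact h1
  have key : ∀ n ∈ I, ∀ m ∈ I, (if far n m then T n m else 0) ≤
      (e + D * ρ) * ((M n + M m) / 2) + D * ((J * L n + J⁻¹ * M m) / 2 + (J * L m + J⁻¹ * M n) / 2) +
        D * K n m := by
    intro n hn m hm
    have h1 := hM n
    have h2 := hM m
    have h3 := hL n
    have h4 := hL m
    have h5 := hK n m
    split_ifs with hf
    · refine (hT n hn m hm hf).trans ?_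
      have hdn := hd n hn m hm hf
      have hce : 0 < c₂ * e := mul_pos hc he
      have h6 : C / (e * d n m) ≤ D := by
        rw [hD]
        refine div_le_div_of_nonneg_left hC.le (by positivity) ?_
        nlinarith
      have a1 := am (M n) (M m) h1 h2
      have a2 := am2 (L n) (M m) h3 h2
      have a3 := am2 (L m) (M n) h4 h1
      have s0 : 0 ≤ Real.sqrt (M n) * Real.sqrt (M m) := by positivity
      have hbr : 0 ≤ Real.sqrt (L n) * Real.sqrt (M m) + Real.sqrt (M n) * Real.sqrt (L m) + K n m +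
          ρ * (Real.sqrt (M n) * Real.sqrt (M m)) := by positivity
      have h7 := mul_le_mul_of_nonneg_right h6 hbr
      have h8 : Real.sqrt (L n) * Real.sqrt (M m) + Real.sqrt (M n) * Real.sqrt (L m) + K n m +
          ρ * (Real.sqrt (M n) * Real.sqrt (M m)) ≤ (J * L n + J⁻¹ * M m) / 2 + (J * L m + J⁻¹ * M n) / 2 +
          K n m + ρ * ((M n + M m) / 2) := by
        have h9 := mul_le_mul_of_nonneg_left a1 hρ
        rw [mul_comm (Real.sqrt (M n)) (Real.sqrt (L m))]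
        linarith
      have h10 := mul_le_mul_of_nonneg_left h8 hD0.le
      have h11 := mul_le_mul_of_nonneg_left a1 he.le
      calc e * (Real.sqrt (M n) * Real.sqrt (M m)) + C / (e * d n m) *
          (Real.sqrt (L n) * Real.sqrt (M m) + Real.sqrt (M n) * Real.sqrt (L m) + K n m +
            ρ * (Real.sqrt (M n) * Real.sqrt (M m)))
          ≤ e * ((M n + M m) / 2) + D * ((J * L n + J⁻¹ * M m) / 2 + (J * L m + J⁻¹ * M n) / 2 +
          K n m + ρ * ((M n + M m) / 2)) := add_le_add h11 (h7.trans h10)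
        _ = _ := by ring
    · positivity
  refine (Finset.sum_le_sum fun n hn => Finset.sum_le_sum fun m hm => key n hn m hm).trans
    (le_of_eq ?_)
  have e1 : ∀ n m, (e + D * ρ) * ((M n + M m) / 2) +
      D * ((J * L n + J⁻¹ * M m) / 2 + (J * L m + J⁻¹ * M n) / 2) + D * K n m =
      ((e + D * ρ) / 2 * M n + D / 2 * (J * L n) + D / 2 * (J⁻¹ * M n)) +
      ((e + D * ρ) / 2 * M m + D / 2 * (J⁻¹ * M m) + D / 2 * (J * L m)) + D * K n m := by
    intro n m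
    ring
  simp_rw [e1, Finset.sum_add_distrib, Finset.sum_const, nsmul_eq_mul, ← Finset.mul_sum]
  ring

private theorem Basic_count {I : Finset ℕ} {r : ℝ} (hr : 0 ≤ r) (n : ℕ) :
    ((I.filter fun m : ℕ => ¬ r ≤ |(n : ℝ) - m|).card : ℝ) ≤ 2 * r + 1 := by
  have h1 : ((I.filter fun m : ℕ => ¬ r ≤ |(n : ℝ) - m|).image fun m : ℕ => (m : ℤ)) ⊆
      Finset.Icc ((n : ℤ) - ⌊r⌋) ((n : ℤ) + ⌊r⌋) := by
    intro z hz
    rw [Finset.mem_image] at hz
    obtain ⟨m, hm, rfl⟩ := hz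
    rw [Finset.mem_filter, not_le] at hm
    have h2 : |(n : ℤ) - m| ≤ ⌊r⌋ := by
      rw [Int.le_floor]
      push_cast
      exact hm.2.le
    rw [abs_le] at h2
    rw [Finset.mem_Icc]
    constructor <;> linarith [h2.1, h2.2]
  have h2 := Finset.card_le_card h1
  rw [Finset.card_image_of_injective _ Nat.cast_injective, Int.card_Icc] at h2
  have hf0 : 0 ≤ ⌊r⌋ := Int.floor_nonneg.mpr hr
  have h3 : ((n : ℤ) + ⌊r⌋ + 1 - ((n : ℤ) - ⌊r⌋)).toNat = (2 * ⌊r⌋ + 1).toNat := by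
    congr 1
    ring
  rw [h3] at h2
  have h4 : ((I.filter fun m : ℕ => ¬ r ≤ |(n : ℝ) - m|).card : ℤ) ≤ 2 * ⌊r⌋ + 1 := by
    have h5 : ((2 * ⌊r⌋ + 1).toNat : ℤ) = 2 * ⌊r⌋ + 1 := Int.toNat_of_nonneg (by omega)
    rw [← h5]
    exact_mod_cast h2
  have h5 : ((I.filter fun m : ℕ => ¬ r ≤ |(n : ℝ) - m|).card : ℝ) ≤ 2 * (⌊r⌋ : ℝ) + 1 := by
    exact_mod_cast h4
  have h6 := Int.floor_le r
  linarith

/-- the average of the norm of the correlation along the orbit -/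
private noncomputable def Basic_A (φ : ℝ → X → X) (F : X → ℂ) (T T' : X → X) (q q' : ℝ) (x : X) : ℝ :=
  2 * ∫ s in (1 / 4 : ℝ)..(3 / 4), ‖Basic_J φ F T T' q q' (φ s x)‖

private theorem Basic_A_nonneg (F : X → ℂ) (T T' : X → X) (q q' : ℝ) (x : X) :
    0 ≤ Basic_A φ F T T' q q' x := by
  unfold Basic_A
  have h1 : (0 : ℝ) ≤ ∫ s in (1 / 4 : ℝ)..(3 / 4), ‖Basic_J φ F T T' q q' (φ s x)‖ :=
    intervalIntegral.integral_nonneg (by norm_num) fun s _ => norm_nonneg _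
  linarith

private theorem Basic_A_meas (hφ : IsFlow μ φ) {F : X → ℂ} (hF : Measurable F) {T T' : X → X}
    (hT : Measurable T) (hT' : Measurable T') (q q' : ℝ) : Measurable (Basic_A φ F T T' q q') := by
  unfold Basic_A
  refine Measurable.const_mul ?_ 2
  simp_rw [intervalIntegral.integral_of_le (by norm_num : (1 / 4 : ℝ) ≤ 3 / 4)]
  have h1 : Measurable (fun z : X × ℝ => ‖Basic_J φ F T T' q q' (φ z.2 z.1)‖) :=
    ((Basic_J_meas hφ hF hT hT' q q').comp (hφ.meas.comp measurable_swap)).norm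
  exact (h1.stronglyMeasurable.integral_prod_right').measurable

private theorem Basic_A_bd (hφ : IsFlow μ φ) {F : X → ℂ} (hF : Measurable F) {B : ℝ} (hB : ∀ x, ‖F x‖ ≤ B)
    {T T' : X → X} (hT : Measurable T) (hT' : Measurable T') (q q' : ℝ) (x : X) :
    |Basic_A φ F T T' q q' x| ≤ B ^ 2 := by
  have h1 := intervalIntegral.norm_integral_le_of_norm_le_const (a := (1 / 4 : ℝ)) (b := 3 / 4)
    (f := fun s => ‖Basic_J φ F T T' q q' (φ s x)‖) (C := B ^ 2) (fun s _ => by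
      rw [norm_norm]
      exact Basic_J_bd hφ hF hB hT hT' q q' _)
  rw [Real.norm_eq_abs] at h1
  unfold Basic_A
  rw [abs_mul, abs_of_pos (by norm_num : (0 : ℝ) < 2)]
  have h2 : |(3 / 4 : ℝ) - 1 / 4| = 1 / 2 := by norm_num
  rw [h2] at h1
  linarith

private theorem Basic_A_int (hφ : IsFlow μ φ) {F : X → ℂ} (hF : Measurable F) {B : ℝ} (hB : ∀ x, ‖F x‖ ≤ B)
    {T T' : X → X} (hT : Measurable T) (hT' : Measurable T') (q q' : ℝ) :
    ∫ x, ‖Basic_J φ F T T' q q' x‖ ∂μ = ∫ x, Basic_A φ F T T' q q' x ∂μ :=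
  Basic_avg hφ (k := fun x => ‖Basic_J φ F T T' q q' x‖) (Basic_J_meas hφ hF hT hT' q q').norm
    (C := B ^ 2) fun x => by
      rw [abs_of_nonneg (norm_nonneg _)]
      exact Basic_J_bd hφ hF hB hT hT' q q' x

end aux

section aux2

variable {X : Type*} [MeasurableSpace X] {μ : Measure X} {φ : ℝ → X → X}

private theorem Basic_K (hφ : IsFlow μ φ) {F : X → ℂ} (hF : Measurable F) {B : ℝ} (hB : ∀ x, ‖F x‖ ≤ B)
    (I : Finset ℕ) (p : ℕ → ℝ) (g : ℕ → X → X) (R J : ℕ) (x : X) :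
    ∑ n ∈ I, ∑ m ∈ I, (∑' w : ℤ × ℤ, aa φ F R (g n x) w.1 * aa φ F R (g m x) w.2 *
      kap J J ((Real.log |(w.2 : ℝ)| + Real.log |p m|) - (Real.log |(w.1 : ℝ)| + Real.log |p n|))) =
    ((J : ℝ)⁻¹) ^ 2 * ∑ j ∈ Finset.range J, ∑ j' ∈ Finset.range J,
      ‖∑ n ∈ I, ee (((j : ℝ) - j') * J * Real.log |p n|) * VV φ F R (((j : ℝ) - j') * J) (g n x)‖ ^ 2 := by
  have h1 := (dbl J J I (fun n ξ => aa φ F R (g n x) ξ) (fun n ξ => aa_nonneg R (g n x) ξ)
    (fun n _ => summable_aa hφ hF hB R (g n x)) (fun n ξ => Real.log |(ξ : ℝ)| + Real.log |p n|)).2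
  rw [h1]
  congr 1
  refine Finset.sum_congr rfl fun j _ => Finset.sum_congr rfl fun j' _ => ?_
  congr 2
  refine Finset.sum_congr rfl fun n _ => ?_
  unfold VV
  rw [← tsum_mul_left]
  refine tsum_congr fun ξ => ?_
  rw [mul_add, ee_add]
  ring

end aux2

theorem basic (c₁ c₂ : ℝ) (hc₁ : 0 < c₁) (hc₂ : 0 < c₂) : ∃ C : ℝ, 0 < C ∧
    ∀ {X : Type u} [MeasurableSpace X] (μ : Measure X) [IsFiniteMeasure μ] (φ : ℝ → X → X), IsFlow μ φ →
    ∀ g : ℕ → X → X, (∀ n, MeasurePreserving (g n) μ μ) → (∀ n s x, g n (φ s x) = φ s (g n x)) →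
    ∀ (f : X → ℂ) (B : ℝ), Measurable f → (∀ x, ‖f x‖ ≤ B) → ∀ (N : ℕ) (I : Finset ℕ), 1 ≤ N →
    (∀ n ∈ I, N ≤ n ∧ n ≤ 2 * N) → ∀ p : ℕ → ℝ, (∀ n ∈ I, c₁ ≤ |p n| ∧ |p n| ≤ 1 / 9) →
    (∀ n ∈ I, ∀ m ∈ I, c₂ * |(n : ℝ) - m| / N ≤ |p n - p m|) → ∀ J : ℕ, 1 ≤ J → ∀ t : ℝ, 0 ≤ t → (J : ℝ) ^ 5 * t ≤ 1 →
    ∀ w : ℝ, 0 ≤ w → (∀ j j' : ℕ, j < J → j' < J → j ≠ j' → ∀ v : X → ℂ, Measurable v → (∃ B, ∀ x, ‖v x‖ ≤ B) →
      ∫ x, ‖(N : ℂ)⁻¹ * ∑ n ∈ I, ee (((j : ℝ) - j') * J * Real.log |p n|) * v (g n x)‖ ^ 2 ∂μ ≤ w * ∫ x, ‖v x‖ ^ 2 ∂μ) →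
    ∀ e : ℝ, 0 < e → ∀ a : ℕ → X → ℂ, (∀ n, Measurable (a n)) → (∀ n x, ‖a n x‖ ≤ 1) →
      ∫ z, ‖BB φ g p a N I (fun y => f y - f (φ t y)) z.2 z.1‖ ^ 2 ∂(μ.prod (volume.restrict (Set.Icc (1 : ℝ) 2))) ≤
        C * (1 / N + e + (1 / J + w) / e ^ 2) * ∫ x, ‖f x‖ ^ 2 ∂μ := by
  classical
  obtain ⟨Cp, hCp, hpair⟩ := pair.{u}
  refine ⟨32 + Cp / c₂ * (16 / Real.sqrt c₁ + 432), by positivity, ?_⟩
  intro X _ μ _ φ hφ g hg hgc f B hf hB N I hN hI p hp hpp J hJ t ht hJt w hw hW e he a ha ha1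
  set F : X → ℂ := fun y => f y - f (φ t y) with hFdef
  have hF : Measurable F := hf.sub (hf.comp (hφ.mp t).measurable)
  obtain ⟨BF, hBF⟩ : ∃ BF : ℝ, ∀ x, ‖F x‖ ≤ BF :=
    ⟨B + B, fun x => (norm_sub_le _ _).trans (add_le_add (hB _) (hB _))⟩
  set E := ∫ x, ‖f x‖ ^ 2 ∂μ with hEdef
  have hE : 0 ≤ E := integral_nonneg fun x => by positivity
  set EF := ∫ x, ‖F x‖ ^ 2 ∂μ with hEFdef
  have hEF0 : 0 ≤ EF := integral_nonneg fun x => by positivity
  have hEF : EF ≤ 4 * E := Basic_EF hφ hf hB t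
  have hN0 : (0 : ℝ) < N := by exact_mod_cast hN
  have hJ0 : (0 : ℝ) < J := by exact_mod_cast hJ
  set R : ℕ := J ^ 4 with hRdef
  have hR : 1 ≤ R := Nat.one_le_pow _ _ hJ
  have hcard : (I.card : ℝ) ≤ 2 * N := by
    have h1 : I ⊆ Finset.Icc N (2 * N) := fun n hn => Finset.mem_Icc.mpr (hI n hn)
    have h2 := Finset.card_le_card h1
    rw [Nat.card_Icc] at h2
    have h3 : I.card ≤ 2 * N := by omega
    exact_mod_cast h3
  have hc0 : (0 : ℝ) ≤ I.card := Nat.cast_nonneg _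
  set T : ℕ → ℕ → ℝ := fun n m => ∫ x, ‖Basic_J φ F (g n) (g m) (p n) (p m) x‖ ∂μ with hT
  have hJint : ∀ n m, Integrable (fun x => ‖Basic_J φ F (g n) (g m) (p n) (p m) x‖) μ := fun n m =>
    Basic_int (Basic_J_meas hφ hF (hg n).measurable (hg m).measurable _ _).norm (C := BF ^ 2) fun x => by
      rw [abs_of_nonneg (norm_nonneg _)]
      exact Basic_J_bd hφ hF hBF (hg n).measurable (hg m).measurable _ _ x
  -- (0) expansion of the square
  have step0 : ∫ z, ‖BB φ g p a N I F z.2 z.1‖ ^ 2 ∂(μ.prod (volume.restrict (Set.Icc (1 : ℝ) 2))) ≤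
      ((N : ℝ)⁻¹) ^ 2 * ∑ n ∈ I, ∑ m ∈ I, T n m := by
    have hmeas : Measurable (fun z : X × ℝ => BB φ g p a N I F z.2 z.1) := by
      unfold BB
      refine Measurable.const_mul (Finset.measurable_fun_sum _ fun n _ => ?_) _
      exact ((ha n).comp measurable_fst).mul
        ((Basic_meas2 hφ (hg n).measurable hF (p n)).comp measurable_swap)
    have hbd : ∀ z : X × ℝ, |‖BB φ g p a N I F z.2 z.1‖ ^ 2| ≤ ((N : ℝ)⁻¹ * (I.card * BF)) ^ 2 := by
      intro z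
      rw [abs_of_nonneg (by positivity)]
      refine pow_le_pow_left₀ (norm_nonneg _) ?_ 2
      unfold BB
      rw [norm_mul, norm_inv, Complex.norm_natCast]
      refine mul_le_mul_of_nonneg_left ?_ (by positivity)
      refine (norm_sum_le _ _).trans ((Finset.sum_le_card_nsmul _ _ BF fun n _ => ?_).trans
        (by rw [nsmul_eq_mul]))
      rw [norm_mul]
      exact (mul_le_of_le_one_left (norm_nonneg _) (ha1 _ _)).trans (hBF _)
    rw [integral_prod _ (Basic_int (hmeas.norm.pow_const 2) hbd)]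
    have hI1 : Integrable (fun x => ((N : ℝ)⁻¹) ^ 2 * ∑ n ∈ I, ∑ m ∈ I,
        ‖Basic_J φ F (g n) (g m) (p n) (p m) x‖) μ :=
      (integrable_finsetSum _ fun n _ => integrable_finsetSum _ fun m _ => hJint n m).const_mul _
    refine (integral_mono_of_nonneg (Filter.Eventually.of_forall fun x =>
      integral_nonneg fun β => by positivity) hI1 (Filter.Eventually.of_forall fun x => ?_)).trans ?_
    · show ∫ β in Set.Icc (1 : ℝ) 2, ‖BB φ g p a N I F β x‖ ^ 2 ≤ _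
      have h1 : ∀ β : ℝ, ‖BB φ g p a N I F β x‖ ^ 2 = ((N : ℝ)⁻¹) ^ 2 *
          ‖∑ n ∈ I, a n x * F (φ (β * p n) (g n x))‖ ^ 2 := by
        intro β
        unfold BB
        rw [norm_mul, norm_inv, Complex.norm_natCast, mul_pow]
      simp_rw [h1]
      rw [integral_const_mul]
      refine mul_le_mul_of_nonneg_left ?_ (by positivity)
      exact Basic_exp (v := fun n β => F (φ (β * p n) (g n x))) (fun n => Basic_one hφ hF (p n) (g n x))
        (B := BF) (fun n β => hBF _) (fun n => ha1 n x)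
    · rw [integral_const_mul, integral_finsetSum _ fun n _ => integrable_finsetSum _ fun m _ => hJint n m]
      refine le_of_eq ?_
      congr 1
      refine Finset.sum_congr rfl fun n _ => ?_
      rw [integral_finsetSum _ fun m _ => hJint n m]
  have hsplit : ∑ n ∈ I, ∑ m ∈ I, T n m =
      (∑ n ∈ I, ∑ m ∈ I, if e * N ≤ |(n : ℝ) - m| then T n m else 0) +
      ∑ n ∈ I, ∑ m ∈ I, if e * N ≤ |(n : ℝ) - m| then 0 else T n m := by
    rw [← Finset.sum_add_distrib]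
    refine Finset.sum_congr rfl fun n _ => ?_
    rw [← Finset.sum_add_distrib]
    refine Finset.sum_congr rfl fun m _ => ?_
    split_ifs <;> ring
  -- (1) near pairs
  have hnear : (∑ n ∈ I, ∑ m ∈ I, if e * N ≤ |(n : ℝ) - m| then 0 else T n m) ≤
      (2 * N) * (4 * E * (2 * (e * N) + 1)) := by
    have h1 : ∀ n ∈ I, (∑ m ∈ I, if e * N ≤ |(n : ℝ) - m| then 0 else T n m) ≤
        4 * E * (2 * (e * N) + 1) := by
      intro n _
      have h2 : (∑ m ∈ I, if e * N ≤ |(n : ℝ) - m| then 0 else T n m) ≤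
          ∑ m ∈ I, if ¬ e * N ≤ |(n : ℝ) - m| then EF else 0 := by
        refine Finset.sum_le_sum fun m _ => ?_
        by_cases h : e * N ≤ |(n : ℝ) - m|
        · rw [if_pos h, if_neg (not_not.mpr h)]
        · rw [if_neg h, if_pos h]
          exact Basic_near hφ hF hBF (hg n) (hg m) _ _
      refine h2.trans ?_
      rw [← Finset.sum_filter, Finset.sum_const, nsmul_eq_mul]
      have h3 := Basic_count (I := I) (r := e * N) (by positivity) n
      calc ((I.filter fun m : ℕ => ¬ e * N ≤ |(n : ℝ) - m|).card : ℝ) * EF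
          ≤ (2 * (e * N) + 1) * (4 * E) := mul_le_mul h3 hEF hEF0 (by positivity)
        _ = 4 * E * (2 * (e * N) + 1) := by ring
    refine (Finset.sum_le_card_nsmul _ _ _ h1).trans ?_
    rw [nsmul_eq_mul]
    exact mul_le_mul_of_nonneg_right hcard (by positivity)
  -- (2) far pairs
  set ρ : ℝ := Real.sqrt ((J : ℝ) * J / (c₁ * R)) with hρ
  have hρ0 : 0 ≤ ρ := Real.sqrt_nonneg _
  set D : ℝ := Cp / (c₂ * e ^ 2) with hD
  have hD0 : 0 < D := by positivity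
  have hpt : ∀ x, (∑ n ∈ I, ∑ m ∈ I, if e * N ≤ |(n : ℝ) - m| then
        Basic_A φ F (g n) (g m) (p n) (p m) x else 0) ≤
      (e + D * ρ) * (I.card * ∑ n ∈ I, mm φ F (g n x)) +
      D * (I.card * ((J : ℝ) * ∑ n ∈ I, LL φ F R (g n x) + (J : ℝ)⁻¹ * ∑ n ∈ I, mm φ F (g n x))) +
      D * (((J : ℝ)⁻¹) ^ 2 * ∑ j ∈ Finset.range J, ∑ j' ∈ Finset.range J,
        ‖∑ n ∈ I, ee (((j : ℝ) - j') * J * Real.log |p n|) *
          VV φ F R (((j : ℝ) - j') * J) (g n x)‖ ^ 2) := by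
    intro x
    rw [← Basic_K hφ hF hBF I p g R J x]
    refine Basic_alg (M := fun n => mm φ F (g n x)) (L := fun n => LL φ F R (g n x))
      (K := fun n m => ∑' w : ℤ × ℤ, aa φ F R (g n x) w.1 * aa φ F R (g m x) w.2 *
        kap J J ((Real.log |(w.2 : ℝ)| + Real.log |p m|) - (Real.log |(w.1 : ℝ)| + Real.log |p n|)))
      (T := fun n m => Basic_A φ F (g n) (g m) (p n) (p m) x) (d := fun n m => |p n - p m|)
      (far := fun n m => e * N ≤ |(n : ℝ) - m|)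
      (fun n => mm_nonneg _) (fun n => LL_nonneg _ _) (fun n m => tsum_nonneg fun z =>
        mul_nonneg (mul_nonneg (aa_nonneg _ _ _) (aa_nonneg _ _ _)) (kap_nonneg _ _ _))
      he hCp hc₂ hρ0 hJ0 ?_ ?_
    · intro n hn m hm hfar
      have h1 := hpp n hn m hm
      refine le_trans ?_ h1
      rw [le_div_iff₀ hN0, mul_assoc]
      exact mul_le_mul_of_nonneg_left hfar hc₂.le
    · intro n hn m hm hfar
      have hne : p n ≠ p m := by
        intro h0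
        have h1 := hpp n hn m hm
        rw [h0, sub_self, abs_zero, div_le_iff₀ hN0, zero_mul] at h1
        have h2 : 0 < |(n : ℝ) - m| := lt_of_lt_of_le (by positivity) hfar
        have h3 : 0 < c₂ * |(n : ℝ) - m| := mul_pos hc₂ h2
        linarith
      have h1 := hpair μ φ hφ F BF hF hBF J hJ R hR c₁ (p n) (p m) hc₁ (hp n hn).1 (hp n hn).2
        (hp m hm).1 (hp m hm).2 hne e he (g n x) (g m x)
      refine le_trans (le_of_eq ?_) h1
      show Basic_A φ F (g n) (g m) (p n) (p m) x = _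
      unfold Basic_A
      simp_rw [Basic_J_shift hφ (hgc n) (hgc m)]
  have hmM := meas_mm hφ hF
  have hmL := meas_LL hφ hF (R := R)
  have hmV := fun ω => meas_VV hφ hF hBF R ω
  have hVb : ∀ ω x, ‖VV φ F R ω x‖ ≤ BF ^ 2 + 1 := by
    intro ω x
    have h1 := VV_le hφ hF hBF R ω x
    have h2 := mm_le hφ hF hBF x
    nlinarith [norm_nonneg (VV φ F R ω x), sq_nonneg (‖VV φ F R ω x‖ - 1)]
  have hMb : ∀ x, |mm φ F x| ≤ BF ^ 2 := fun x => by
    rw [abs_of_nonneg (mm_nonneg _)]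
    exact mm_le hφ hF hBF x
  have hLb : ∀ x, |LL φ F R x| ≤ BF ^ 2 := fun x => by
    rw [abs_of_nonneg (LL_nonneg _ _)]
    exact (LL_le hφ hF hBF R x).trans (mm_le hφ hF hBF x)
  have iM : ∀ n ∈ I, Integrable (fun x => mm φ F (g n x)) μ := fun n _ =>
    Basic_int (hmM.comp (hg n).measurable) fun x => hMb _
  have iL : ∀ n ∈ I, Integrable (fun x => LL φ F R (g n x)) μ := fun n _ =>
    Basic_int (hmL.comp (hg n).measurable) fun x => hLb _
  have iW : ∀ j j' : ℕ, Integrable (fun x => ‖∑ n ∈ I, ee (((j : ℝ) - j') * J * Real.log |p n|) *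
      VV φ F R (((j : ℝ) - j') * J) (g n x)‖ ^ 2) μ := by
    intro j j'
    have h1 : Measurable (fun x => ∑ n ∈ I, ee (((j : ℝ) - j') * J * Real.log |p n|) *
        VV φ F R (((j : ℝ) - j') * J) (g n x)) :=
      Finset.measurable_fun_sum _ fun n _ => Measurable.const_mul ((hmV _).comp (hg n).measurable) _
    refine Basic_int (h1.norm.pow_const 2) (C := (I.card * (BF ^ 2 + 1)) ^ 2) fun x => ?_
    rw [abs_of_nonneg (by positivity)]
    refine pow_le_pow_left₀ (norm_nonneg _) ?_ 2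
    refine (norm_sum_le _ _).trans ((Finset.sum_le_card_nsmul _ _ (BF ^ 2 + 1) fun n _ => ?_).trans
      (by rw [nsmul_eq_mul]))
    rw [norm_mul, norm_ee, one_mul]
    exact hVb _ _
  have hVE : ∀ ω, ∫ x, ‖VV φ F R ω x‖ ^ 2 ∂μ ≤ EF := by
    intro ω
    rw [hEFdef, ← integral_mm hφ hF hBF]
    exact integral_mono_of_nonneg (Filter.Eventually.of_forall fun x => by positivity)
      (Basic_int hmM hMb) (Filter.Eventually.of_forall fun x => VV_le hφ hF hBF R ω x)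
  set Λ : ℝ := ∫ x, LL φ F R x ∂μ with hΛ
  have hΛ0 : 0 ≤ Λ := integral_nonneg fun x => LL_nonneg _ _
  have hΛle : Λ ≤ 100 * ((R : ℝ) * t) ^ 2 * E := low hφ hf hB ht hR
  have eM : ∫ x, ∑ n ∈ I, mm φ F (g n x) ∂μ = I.card * EF := by
    rw [integral_finsetSum _ iM]
    have h1 : ∀ n ∈ I, ∫ x, mm φ F (g n x) ∂μ = EF := fun n _ => by
      rw [Basic_inv (hg n) hmM, integral_mm hφ hF hBF]
    rw [Finset.sum_congr rfl h1, Finset.sum_const, nsmul_eq_mul]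
  have eL : ∫ x, ∑ n ∈ I, LL φ F R (g n x) ∂μ = I.card * Λ := by
    rw [integral_finsetSum _ iL]
    have h1 : ∀ n ∈ I, ∫ x, LL φ F R (g n x) ∂μ = Λ := fun n _ => by
      rw [Basic_inv (hg n) hmL]
    rw [Finset.sum_congr rfl h1, Finset.sum_const, nsmul_eq_mul]
  have eW : ∫ x, ∑ j ∈ Finset.range J, ∑ j' ∈ Finset.range J,
      ‖∑ n ∈ I, ee (((j : ℝ) - j') * J * Real.log |p n|) *
        VV φ F R (((j : ℝ) - j') * J) (g n x)‖ ^ 2 ∂μ ≤
      J * (4 * (N : ℝ) ^ 2 * EF) + (J : ℝ) ^ 2 * ((N : ℝ) ^ 2 * (w * EF)) := by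
    rw [integral_finsetSum _ fun j _ => integrable_finsetSum _ fun j' _ => iW j j']
    have h1 : ∀ j ∈ Finset.range J, ∫ x, ∑ j' ∈ Finset.range J,
        ‖∑ n ∈ I, ee (((j : ℝ) - j') * J * Real.log |p n|) *
          VV φ F R (((j : ℝ) - j') * J) (g n x)‖ ^ 2 ∂μ ≤
        4 * (N : ℝ) ^ 2 * EF + J * ((N : ℝ) ^ 2 * (w * EF)) := by
      intro j hj
      rw [integral_finsetSum _ fun j' _ => iW j j', ← Finset.add_sum_erase _ _ hj]
      refine add_le_add ?_ ?_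
      · refine (Basic_diag hg (fun n => by rw [norm_ee]) (hmV _) (hVb _)).trans ?_
        have h2 : (I.card : ℝ) ^ 2 ≤ 4 * (N : ℝ) ^ 2 := by nlinarith
        exact mul_le_mul h2 (hVE _) (integral_nonneg fun x => by positivity) (by positivity)
      · have h2 : ∀ j' ∈ (Finset.range J).erase j, ∫ x,
            ‖∑ n ∈ I, ee (((j : ℝ) - j') * J * Real.log |p n|) *
              VV φ F R (((j : ℝ) - j') * J) (g n x)‖ ^ 2 ∂μ ≤ (N : ℝ) ^ 2 * (w * EF) := by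
          intro j' hj'
          rw [Finset.mem_erase] at hj'
          have h3 := hW j j' (Finset.mem_range.mp hj) (Finset.mem_range.mp hj'.2) (Ne.symm hj'.1)
            (VV φ F R (((j : ℝ) - j') * J)) (hmV _) ⟨_, hVb _⟩
          have h4 : ∀ x, ‖∑ n ∈ I, ee (((j : ℝ) - j') * J * Real.log |p n|) *
              VV φ F R (((j : ℝ) - j') * J) (g n x)‖ ^ 2 = (N : ℝ) ^ 2 *
              ‖(N : ℂ)⁻¹ * ∑ n ∈ I, ee (((j : ℝ) - j') * J * Real.log |p n|) *
              VV φ F R (((j : ℝ) - j') * J) (g n x)‖ ^ 2 := by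
            intro x
            rw [norm_mul, norm_inv, Complex.norm_natCast, mul_pow, ← mul_assoc, ← mul_pow,
              mul_inv_cancel₀ hN0.ne', one_pow, one_mul]
          simp_rw [h4]
          rw [integral_const_mul]
          refine mul_le_mul_of_nonneg_left (h3.trans ?_) (by positivity)
          exact mul_le_mul_of_nonneg_left (hVE _) hw
        refine (Finset.sum_le_card_nsmul _ _ _ h2).trans ?_
        rw [nsmul_eq_mul]
        refine mul_le_mul_of_nonneg_right ?_ (by positivity)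
        have h5 := Finset.card_le_card (Finset.erase_subset j (Finset.range J))
        rw [Finset.card_range] at h5
        exact_mod_cast h5
    refine (Finset.sum_le_card_nsmul _ _ _ h1).trans (le_of_eq ?_)
    rw [Finset.card_range, nsmul_eq_mul]
    ring
  have hfar : (∑ n ∈ I, ∑ m ∈ I, if e * N ≤ |(n : ℝ) - m| then T n m else 0) ≤
      (e + D * ρ) * (I.card * (I.card * EF)) +
      D * (I.card * ((J : ℝ) * (I.card * Λ) + (J : ℝ)⁻¹ * (I.card * EF))) +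
      D * (((J : ℝ)⁻¹) ^ 2 * (J * (4 * (N : ℝ) ^ 2 * EF) + (J : ℝ) ^ 2 * ((N : ℝ) ^ 2 * (w * EF)))) := by
    have iA : ∀ n m, Integrable (Basic_A φ F (g n) (g m) (p n) (p m)) μ := fun n m =>
      Basic_int (Basic_A_meas hφ hF (hg n).measurable (hg m).measurable _ _)
        (Basic_A_bd hφ hF hBF (hg n).measurable (hg m).measurable _ _)
    have iA' : ∀ n m : ℕ, Integrable (fun x => if e * N ≤ |(n : ℝ) - m| then
        Basic_A φ F (g n) (g m) (p n) (p m) x else 0) μ := by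
      intro n m
      by_cases h : e * N ≤ |(n : ℝ) - m|
      · simp only [if_pos h]
        exact iA n m
      · simp only [if_neg h]
        exact integrable_zero _ _ _
    have h1 : (∑ n ∈ I, ∑ m ∈ I, if e * N ≤ |(n : ℝ) - m| then T n m else 0) =
        ∫ x, ∑ n ∈ I, ∑ m ∈ I, (if e * N ≤ |(n : ℝ) - m| then
          Basic_A φ F (g n) (g m) (p n) (p m) x else 0) ∂μ := by
      rw [integral_finsetSum _ fun n _ => integrable_finsetSum _ fun m _ => iA' n m]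
      refine Finset.sum_congr rfl fun n _ => ?_
      rw [integral_finsetSum _ fun m _ => iA' n m]
      refine Finset.sum_congr rfl fun m _ => ?_
      by_cases h : e * N ≤ |(n : ℝ) - m|
      · simp only [if_pos h]
        exact Basic_A_int hφ hF hBF (hg n).measurable (hg m).measurable _ _
      · simp only [if_neg h]
        rw [integral_zero]
    rw [h1]
    have jM := integrable_finsetSum _ iM
    have jL := integrable_finsetSum _ iL
    have jW := integrable_finsetSum (Finset.range J) fun j _ =>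
      integrable_finsetSum (Finset.range J) fun j' _ => iW j j'
    have k1 := (jM.const_mul (I.card : ℝ)).const_mul (e + D * ρ)
    have k2 := (((jL.const_mul (J : ℝ)).add (jM.const_mul ((J : ℝ)⁻¹))).const_mul (I.card : ℝ)).const_mul D
    have k3 := (jW.const_mul (((J : ℝ)⁻¹) ^ 2)).const_mul D
    refine (integral_mono_of_nonneg (Filter.Eventually.of_forall fun x => ?_) ((k1.add k2).add k3)
      (Filter.Eventually.of_forall fun x => hpt x)).trans ?_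
    · refine Finset.sum_nonneg fun n _ => Finset.sum_nonneg fun m _ => ?_
      split_ifs
      · exact Basic_A_nonneg _ _ _ _ _ _
      · exact le_rfl
    · rw [integral_add' (k1.add k2) k3, integral_add' k1 k2, integral_const_mul, integral_const_mul,
        integral_const_mul, integral_const_mul, integral_const_mul, integral_const_mul,
        integral_add' (jL.const_mul (J : ℝ)) (jM.const_mul ((J : ℝ)⁻¹)), integral_const_mul,
        integral_const_mul, eM, eL]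
      refine add_le_add le_rfl (mul_le_mul_of_nonneg_left ?_ hD0.le)
      exact mul_le_mul_of_nonneg_left eW (by positivity)
  -- the final estimate
  set i : ℝ := (J : ℝ)⁻¹ with hi
  have hi0 : 0 < i := by positivity
  have hJi : (J : ℝ) * i = 1 := mul_inv_cancel₀ hJ0.ne'
  set c : ℝ := (I.card : ℝ) with hcdef
  have hcc : c * c ≤ 4 * (N : ℝ) ^ 2 := by nlinarith
  have hρe : ρ = i / Real.sqrt c₁ := by
    have h1 : (J : ℝ) * J / (c₁ * R) = i ^ 2 / c₁ := by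
      rw [hRdef, hi]
      push_cast
      field_simp
    rw [hρ, h1, Real.sqrt_div (sq_nonneg i), Real.sqrt_sq hi0.le]
  have hRt : (R : ℝ) * t ≤ i := by
    rw [hi, ← one_div, le_div_iff₀ hJ0, hRdef]
    push_cast
    refine le_trans (le_of_eq ?_) hJt
    ring
  have hΛJ : (J : ℝ) * Λ ≤ 100 * (i * E) := by
    have h1 : ((R : ℝ) * t) ^ 2 ≤ i ^ 2 := pow_le_pow_left₀ (by positivity) hRt 2
    have h2 : Λ ≤ 100 * i ^ 2 * E := hΛle.trans (mul_le_mul_of_nonneg_right (by linarith) hE)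
    calc (J : ℝ) * Λ ≤ J * (100 * i ^ 2 * E) := mul_le_mul_of_nonneg_left h2 hJ0.le
      _ = 100 * (J * i) * (i * E) := by ring
      _ = 100 * (i * E) := by rw [hJi, mul_one]
  have hDρ : 0 ≤ e + D * ρ := by positivity
  have b1 : (e + D * ρ) * (c * (c * EF)) ≤ (N : ℝ) ^ 2 * (16 * (e + D * ρ) * E) := by
    have h1 : c * (c * EF) ≤ 4 * (N : ℝ) ^ 2 * (4 * E) := by
      rw [← mul_assoc]
      exact mul_le_mul hcc hEF hEF0 (by positivity)
    exact (mul_le_mul_of_nonneg_left h1 hDρ).trans (le_of_eq (by ring))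
  have b2 : D * (c * ((J : ℝ) * (c * Λ) + i * (c * EF))) ≤ (N : ℝ) ^ 2 * (416 * D * i * E) := by
    have h1 : (J : ℝ) * Λ + i * EF ≤ 104 * (i * E) := by
      have h2 := mul_le_mul_of_nonneg_left hEF hi0.le
      linarith
    have h3 : 0 ≤ (J : ℝ) * Λ + i * EF := by positivity
    have h2 : c * ((J : ℝ) * (c * Λ) + i * (c * EF)) ≤ 4 * (N : ℝ) ^ 2 * (104 * (i * E)) := by
      have h4 : c * ((J : ℝ) * (c * Λ) + i * (c * EF)) = c * c * ((J : ℝ) * Λ + i * EF) := by ring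
      rw [h4]
      exact mul_le_mul hcc h1 h3 (by positivity)
    exact (mul_le_mul_of_nonneg_left h2 hD0.le).trans (le_of_eq (by ring))
  have b3 : D * (i ^ 2 * (J * (4 * (N : ℝ) ^ 2 * EF) + (J : ℝ) ^ 2 * ((N : ℝ) ^ 2 * (w * EF)))) ≤
      (N : ℝ) ^ 2 * (D * (16 * i + 4 * w) * E) := by
    have h1 : i ^ 2 * (J * (4 * (N : ℝ) ^ 2 * EF) + (J : ℝ) ^ 2 * ((N : ℝ) ^ 2 * (w * EF))) =
        (N : ℝ) ^ 2 * ((4 * i * (J * i) + w * (J * i) ^ 2) * EF) := by ring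
    rw [h1, hJi]
    have h2 : (4 * i * 1 + w * 1 ^ 2) * EF ≤ (4 * i * 1 + w * 1 ^ 2) * (4 * E) :=
      mul_le_mul_of_nonneg_left hEF (by positivity)
    have h3 := mul_le_mul_of_nonneg_left (mul_le_mul_of_nonneg_left h2 (sq_nonneg (N : ℝ))) hD0.le
    exact h3.trans (le_of_eq (by ring))
  have hS : ∑ n ∈ I, ∑ m ∈ I, T n m ≤ (N : ℝ) ^ 2 * (16 * e * E + 8 * E * (N : ℝ)⁻¹ +
      (16 * (e + D * ρ) * E + 416 * D * i * E + D * (16 * i + 4 * w) * E)) := by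
    rw [hsplit]
    have h1 : (2 * (N : ℝ)) * (4 * E * (2 * (e * N) + 1)) =
        (N : ℝ) ^ 2 * (16 * e * E + 8 * E * (N : ℝ)⁻¹) := by
      field_simp
      ring
    rw [h1] at hnear
    have h2 := hfar.trans (add_le_add (add_le_add b1 b2) b3)
    linarith
  refine step0.trans ((mul_le_mul_of_nonneg_left hS (by positivity)).trans ?_)
  rw [← mul_assoc, ← mul_pow, inv_mul_cancel₀ hN0.ne', one_pow, one_mul, hρe, one_div, one_div]
  have hc1 : 0 < Real.sqrt c₁ := Real.sqrt_pos.mpr hc₁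
  have hDe : D = Cp / c₂ / e ^ 2 := by rw [hD, div_div]
  have hNi : 0 < (N : ℝ)⁻¹ := by positivity
  have hκ : 0 < Cp / c₂ := by positivity
  have hDi : 0 ≤ D * i * E := by positivity
  have hDw : 0 ≤ D * w * E := by positivity
  have e1 : 16 * e * E + 8 * E * (N : ℝ)⁻¹ + (16 * (e + D * (i / Real.sqrt c₁)) * E + 416 * D * i * E +
      D * (16 * i + 4 * w) * E) = 32 * e * E + 8 * (N : ℝ)⁻¹ * E +
      (16 / Real.sqrt c₁ + 432) * (D * i * E) + 4 * (D * w * E) := by ring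
  have e2 : (32 + Cp / c₂ * (16 / Real.sqrt c₁ + 432)) * ((N : ℝ)⁻¹ + e + (i + w) / e ^ 2) * E =
      32 * e * E + 32 * (N : ℝ)⁻¹ * E + 32 * ((i + w) / e ^ 2) * E +
      Cp / c₂ * (16 / Real.sqrt c₁ + 432) * (((N : ℝ)⁻¹ + e) * E) +
      (16 / Real.sqrt c₁ + 432) * (D * i * E) + (16 / Real.sqrt c₁ + 432) * (D * w * E) := by
    rw [hDe]
    ring
  rw [e1, e2]
  have p1 : 0 ≤ 32 * ((i + w) / e ^ 2) * E := by positivity
  have p2 : 0 ≤ Cp / c₂ * (16 / Real.sqrt c₁ + 432) * (((N : ℝ)⁻¹ + e) * E) := by positivity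
  have p3 : 8 * (N : ℝ)⁻¹ * E ≤ 32 * (N : ℝ)⁻¹ * E := by nlinarith [mul_nonneg hNi.le hE]
  have p4 : 4 * (D * w * E) ≤ (16 / Real.sqrt c₁ + 432) * (D * w * E) := by
    refine mul_le_mul_of_nonneg_right ?_ hDw
    have : 0 < 16 / Real.sqrt c₁ := by positivity
    linarith
  linarith

end Pool.Agent.GTP
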