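import Mathlib
import Pool.Agent.GTP.Defs

set_option autoImplicit false

/-!
# GTP/Poly: a real polynomial on dyadic blocks

`D = natDegree q ≥ 1`, leading coefficient `c ≠ 0`.

PROOF.  `q(x) = c x^D + r(x)` with `deg r < D`; for `x ≥ 1`: `|r(x)| ≤ S x^(D-1)`, `S` the sum of the absolute values of the coefficients (`Polynomial.eval_eq_sum_range`, `Polynomial.eraseLead`).  For `x ≥ N ≥ N₀`, `N₀` large:
`|r(x)| ≤ (|c|/2) x^D`, so `(|c|/2) x^D ≤ |q(x)| ≤ (3|c|/2) x^D` and `N^D ≤ n^D ≤ 2^D N^D`.  `q(x)/(c x^D) = 1 + ρ`, `|ρ| ≤ (S/|c|)/x ≤ 1/2`, and `|log(1 + ρ)| ≤ 2|ρ|` for `|ρ| ≤ 1/2`, which gives the statement for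
the logarithm with `κ = log|c|`.  The derivative `q'` has degree `D - 1` and leading coefficient `D c`; as before (if `D ≥ 2`; for `D = 1` it is constant) `q'(x) c ≥ (D c²/2) x^(D-1) > 0` for `x ≥ N₀`, so by the mean
value theorem `|q(n) - q(m)| ≥ (D |c|/2) N^(D-1) |n - m|` for `n, m ≥ N`.
-/

namespace Pool.Agent.GTP

theorem poly_rem (q : Polynomial ℝ) (_hq : 1 ≤ q.natDegree) : ∃ S : ℝ, 0 ≤ S ∧ ∀ x : ℝ, 1 ≤ x →
    |q.eval x - q.leadingCoeff * x ^ q.natDegree| ≤ S * x ^ q.natDegree / x := by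
  refine ⟨∑ i ∈ Finset.range q.natDegree, |q.coeff i|, Finset.sum_nonneg fun i _ => abs_nonneg _, ?_⟩
  intro x hx
  have hx0 : 0 < x := by linarith
  rw [Polynomial.eval_eq_sum_range, Finset.sum_range_succ, Polynomial.coeff_natDegree, add_sub_cancel_right,
    mul_div_assoc, Finset.sum_mul]
  refine (Finset.abs_sum_le_sum_abs _ _).trans (Finset.sum_le_sum fun i hi => ?_)
  rw [abs_mul, abs_of_nonneg (pow_nonneg hx0.le i)]
  refine mul_le_mul_of_nonneg_left ?_ (abs_nonneg _)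
  rw [le_div_iff₀ hx0, ← pow_succ]
  exact pow_le_pow_right₀ hx (by simpa using hi)

theorem poly_diff (q : Polynomial ℝ) (_hq : 1 ≤ q.natDegree) : ∃ S : ℝ, 0 ≤ S ∧ ∀ N x y : ℝ, 1 ≤ N → N ≤ x →
    x ≤ 2 * N → N ≤ y → y ≤ 2 * N → |(q.eval x - q.leadingCoeff * x ^ q.natDegree) -
      (q.eval y - q.leadingCoeff * y ^ q.natDegree)| ≤ S * |x - y| * N ^ (q.natDegree - 1) / N := by
  refine ⟨(∑ i ∈ Finset.range q.natDegree, |q.coeff i|) * (q.natDegree * 2 ^ q.natDegree), by positivity, ?_⟩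
  intro N x y hN h1 h2 h3 h4
  have hN0 : 0 < N := by linarith
  rw [Polynomial.eval_eq_sum_range, Polynomial.eval_eq_sum_range, Finset.sum_range_succ, Finset.sum_range_succ,
    Polynomial.coeff_natDegree, add_sub_cancel_right, add_sub_cancel_right, ← Finset.sum_sub_distrib]
  have key : ∀ i ∈ Finset.range q.natDegree, |q.coeff i * x ^ i - q.coeff i * y ^ i| ≤
      |q.coeff i| * ((q.natDegree * 2 ^ q.natDegree) * (|x - y| * (N ^ (q.natDegree - 1) / N))) := by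
    intro i hi
    have hi' : i < q.natDegree := by simpa using hi
    rw [← mul_sub, abs_mul]
    refine mul_le_mul_of_nonneg_left ?_ (abs_nonneg _)
    rcases Nat.eq_zero_or_pos i with rfl | hpos
    · simp only [pow_zero, sub_self, abs_zero]
      positivity
    have e1 := abs_pow_sub_pow_le x y i
    have e2 : max |x| |y| ≤ 2 * N := by
      rw [abs_of_nonneg (by linarith : (0:ℝ) ≤ x), abs_of_nonneg (by linarith : (0:ℝ) ≤ y)]
      exact max_le h2 h4
    have e3 : max |x| |y| ^ (i - 1) ≤ (2 * N) ^ (i - 1) :=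
      pow_le_pow_left₀ (le_max_of_le_left (abs_nonneg _)) e2 _
    have e4 : (2 * N) ^ (i - 1) ≤ 2 ^ q.natDegree * (N ^ (q.natDegree - 1) / N) := by
      rw [mul_pow]
      refine mul_le_mul ?_ ?_ (by positivity) (by positivity)
      · exact pow_le_pow_right₀ (by norm_num) (by omega)
      · rw [le_div_iff₀ hN0, ← pow_succ]
        exact pow_le_pow_right₀ hN (by omega)
    have e5 : (i : ℝ) ≤ q.natDegree := by exact_mod_cast hi'.le
    calc |x ^ i - y ^ i| ≤ |x - y| * i * max |x| |y| ^ (i - 1) := e1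
      _ ≤ |x - y| * q.natDegree * (2 ^ q.natDegree * (N ^ (q.natDegree - 1) / N)) := by
          refine mul_le_mul (mul_le_mul_of_nonneg_left e5 (abs_nonneg _)) (e3.trans e4) ?_ (by positivity)
          positivity
      _ = _ := by ring
  refine (Finset.abs_sum_le_sum_abs _ _).trans ((Finset.sum_le_sum key).trans (le_of_eq ?_))
  rw [← Finset.sum_mul]
  ring

theorem pow_diff_ge {N x y : ℝ} (D : ℕ) (hD : 1 ≤ D) (hN : 1 ≤ N) (h1 : N ≤ x) (h3 : N ≤ y) :
    |x - y| * N ^ (D - 1) ≤ |x ^ D - y ^ D| := by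
  have main : ∀ x y : ℝ, N ≤ x → N ≤ y → y ≤ x → (x - y) * N ^ (D - 1) ≤ x ^ D - y ^ D := by
    intro x y h1 h3 hxy
    obtain ⟨d, rfl⟩ : ∃ d, D = d + 1 := ⟨D - 1, by omega⟩
    simp only [Nat.add_sub_cancel]
    have hN0 : 0 < N := by linarith
    have e1 : y ^ d ≤ x ^ d := pow_le_pow_left₀ (by linarith) hxy d
    have e2 : N ^ d ≤ x ^ d := pow_le_pow_left₀ (by linarith) h1 d
    have e3 : (x - y) * N ^ d ≤ (x - y) * x ^ d := mul_le_mul_of_nonneg_left e2 (by linarith)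
    have e4 : y * y ^ d ≤ y * x ^ d := mul_le_mul_of_nonneg_left e1 (by linarith)
    rw [pow_succ, pow_succ]
    nlinarith
  rcases le_total y x with h | h
  · rw [abs_of_nonneg (by linarith : (0:ℝ) ≤ x - y)]
    exact (main x y h1 h3 h).trans (le_abs_self _)
  · rw [abs_sub_comm x y, abs_sub_comm (x ^ D), abs_of_nonneg (by linarith : (0:ℝ) ≤ y - x)]
    exact (main y x h3 h1 h).trans (le_abs_self _)

theorem log_small {r : ℝ} (h : |r| ≤ 1 / 2) : |Real.log (1 + r)| ≤ 2 * |r| := by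
  have h1 := abs_le.1 h
  have hp : 0 < 1 + r := by linarith [h1.1]
  have e1 := Real.log_le_sub_one_of_pos hp
  have e2 := Real.one_sub_inv_le_log_of_pos hp
  have e3 : -(2 * |r|) ≤ 1 - (1 + r)⁻¹ := by
    have : 1 - (1 + r)⁻¹ = r / (1 + r) := by field_simp; ring
    rw [this, le_div_iff₀ hp]
    rcases abs_cases r with ⟨h5, h6⟩ | ⟨h5, h6⟩ <;> rw [h5] <;> nlinarith [h1.1, h1.2]
  rw [abs_le]
  constructor
  · linarith
  · have := le_abs_self r
    have := abs_nonneg r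
    linarith

theorem poly (q : Polynomial ℝ) (hq : 1 ≤ q.natDegree) : ∃ C κ : ℝ, 1 ≤ C ∧ ∃ N₀ : ℕ, ∀ N : ℕ, N₀ ≤ N → 1 ≤ N →
    (∀ n : ℕ, N ≤ n → n ≤ 2 * N → C⁻¹ * (N : ℝ) ^ q.natDegree ≤ |q.eval (n : ℝ)| ∧
      |q.eval (n : ℝ)| ≤ C * (N : ℝ) ^ q.natDegree ∧
      |Real.log |q.eval (n : ℝ)| - q.natDegree * Real.log n - κ| ≤ C / N) ∧
    ∀ n m : ℕ, N ≤ n → n ≤ 2 * N → N ≤ m → m ≤ 2 * N →
      C⁻¹ * |(n : ℝ) - m| * (N : ℝ) ^ (q.natDegree - 1) ≤ |q.eval (n : ℝ) - q.eval (m : ℝ)| := by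
  obtain ⟨S, hS0, hS⟩ := poly_rem q hq
  obtain ⟨S', hS'0, hS'⟩ := poly_diff q hq
  have hc : q.leadingCoeff ≠ 0 := by
    rw [Polynomial.leadingCoeff_ne_zero]
    rintro rfl
    simp at hq
  set c := q.leadingCoeff with hcdef
  set D := q.natDegree with hDdef
  have hca : 0 < |c| := abs_pos.2 hc
  set C : ℝ := max 1 (max (2 * |c|⁻¹) (max (3 / 2 * |c| * 2 ^ D) (2 * (S / |c|)))) with hC
  have hC1 : 1 ≤ C := le_max_left _ _
  have hC2 : 2 * |c|⁻¹ ≤ C := (le_max_left _ _).trans (le_max_right _ _)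
  have hC3 : 3 / 2 * |c| * 2 ^ D ≤ C :=
    (le_max_left _ _).trans ((le_max_right _ _).trans (le_max_right _ _))
  have hC4 : 2 * (S / |c|) ≤ C := (le_max_right _ _).trans ((le_max_right _ _).trans (le_max_right _ _))
  have hC0 : 0 < C := by linarith
  have hCi : C⁻¹ ≤ |c| / 2 := by
    rw [inv_le_comm₀ hC0 (by positivity)]
    refine le_trans (le_of_eq ?_) hC2
    field_simp
  obtain ⟨N₀, hN₀⟩ := exists_nat_ge (max (2 * S / |c|) (2 * S' / |c|))
  refine ⟨C, Real.log |c|, hC1, N₀, fun N hN hN1 => ?_⟩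
  have hNr : (1 : ℝ) ≤ N := by exact_mod_cast hN1
  have hN0 : (0 : ℝ) < N := by linarith
  have hNN : ((N₀ : ℕ) : ℝ) ≤ N := by exact_mod_cast hN
  have hNS : 2 * S ≤ |c| * N := by
    have : 2 * S / |c| ≤ N := (le_max_left _ _).trans (hN₀.trans hNN)
    rw [div_le_iff₀ hca] at this
    linarith
  have hNS' : 2 * S' ≤ |c| * N := by
    have : 2 * S' / |c| ≤ N := (le_max_right _ _).trans (hN₀.trans hNN)
    rw [div_le_iff₀ hca] at this
    linarith
  refine ⟨fun n hn1 hn2 => ?_, fun n m hn1 hn2 hm1 hm2 => ?_⟩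
  · have hnN : (N : ℝ) ≤ n := by exact_mod_cast hn1
    have hn2N : (n : ℝ) ≤ 2 * N := by exact_mod_cast hn2
    have hn1' : (1 : ℝ) ≤ n := hNr.trans hnN
    have hn0 : (0 : ℝ) < n := by linarith
    have hr := hS n hn1'
    have hp : (0 : ℝ) < (n : ℝ) ^ D := by positivity
    have hr2 : S * (n : ℝ) ^ D / n ≤ |c| / 2 * (n : ℝ) ^ D := by
      rw [div_le_iff₀ hn0]
      have : S ≤ |c| / 2 * n := by nlinarith
      nlinarith
    have hcn : |c * (n : ℝ) ^ D| = |c| * (n : ℝ) ^ D := by rw [abs_mul, abs_of_pos hp]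
    have hlow : |c| / 2 * (n : ℝ) ^ D ≤ |q.eval (n : ℝ)| := by
      have := abs_sub_abs_le_abs_sub (c * (n : ℝ) ^ D) (q.eval (n : ℝ))
      rw [abs_sub_comm, hcn] at this
      linarith
    have hup : |q.eval (n : ℝ)| ≤ 3 / 2 * |c| * (n : ℝ) ^ D := by
      have := abs_sub_abs_le_abs_sub (q.eval (n : ℝ)) (c * (n : ℝ) ^ D)
      rw [hcn] at this
      linarith
    have hpl : (N : ℝ) ^ D ≤ (n : ℝ) ^ D := pow_le_pow_left₀ hN0.le hnN D
    have hpu : (n : ℝ) ^ D ≤ 2 ^ D * (N : ℝ) ^ D := by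
      rw [← mul_pow]
      exact pow_le_pow_left₀ hn0.le hn2N D
    have hqpos : 0 < |q.eval (n : ℝ)| := lt_of_lt_of_le (by positivity) hlow
    refine ⟨?_, ?_, ?_⟩
    · calc C⁻¹ * (N : ℝ) ^ D ≤ |c| / 2 * (n : ℝ) ^ D :=
            mul_le_mul hCi hpl (by positivity) (by positivity)
        _ ≤ _ := hlow
    · calc |q.eval (n : ℝ)| ≤ 3 / 2 * |c| * (n : ℝ) ^ D := hup
        _ ≤ 3 / 2 * |c| * (2 ^ D * (N : ℝ) ^ D) := mul_le_mul_of_nonneg_left hpu (by positivity)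
        _ = 3 / 2 * |c| * 2 ^ D * (N : ℝ) ^ D := by ring
        _ ≤ C * (N : ℝ) ^ D := mul_le_mul_of_nonneg_right hC3 (by positivity)
    · set r : ℝ := (q.eval (n : ℝ) - c * (n : ℝ) ^ D) / (c * (n : ℝ) ^ D) with hrdef
      have hcp : c * (n : ℝ) ^ D ≠ 0 := mul_ne_zero hc hp.ne'
      have hrabs : |r| ≤ S / |c| / n := by
        rw [hrdef, abs_div, hcn, div_le_iff₀ (by positivity)]
        refine hr.trans (le_of_eq ?_)
        field_simp
      have hrN : |r| ≤ S / |c| / N :=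
        hrabs.trans (div_le_div_of_nonneg_left (by positivity) hN0 hnN)
      have hrh : |r| ≤ 1 / 2 := by
        refine hrN.trans ?_
        rw [div_div, div_le_iff₀ (by positivity)]
        linarith
      have hq1 : q.eval (n : ℝ) = c * (n : ℝ) ^ D * (1 + r) := by
        rw [hrdef]
        field_simp
        ring
      have h1r : 0 < 1 + r := by linarith [(abs_le.1 hrh).1]
      have hlog : Real.log |q.eval (n : ℝ)| = Real.log |c| + D * Real.log n + Real.log (1 + r) := by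
        rw [hq1, abs_mul, hcn, abs_of_pos h1r, Real.log_mul (by positivity) h1r.ne',
          Real.log_mul hca.ne' hp.ne', Real.log_pow]
      rw [hlog]
      have : Real.log |c| + D * Real.log n + Real.log (1 + r) - D * Real.log n - Real.log |c| = Real.log (1 + r) := by
        ring
      rw [this]
      refine (log_small hrh).trans ?_
      rw [le_div_iff₀ hN0]
      have : |r| * N ≤ S / |c| := by
        rw [le_div_iff₀ hN0] at hrN
        exact hrN
      linarith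
  · have hnN : (N : ℝ) ≤ n := by exact_mod_cast hn1
    have hn2N : (n : ℝ) ≤ 2 * N := by exact_mod_cast hn2
    have hmN : (N : ℝ) ≤ m := by exact_mod_cast hm1
    have hm2N : (m : ℝ) ≤ 2 * N := by exact_mod_cast hm2
    have e1 := hS' N n m hNr hnN hn2N hmN hm2N
    have e2 := pow_diff_ge (N := (N : ℝ)) (x := (n : ℝ)) (y := (m : ℝ)) D hq hNr hnN hmN
    have hpw : (0 : ℝ) < (N : ℝ) ^ (D - 1) := by positivity
    have e3 : S' * |(n : ℝ) - m| * (N : ℝ) ^ (D - 1) / N ≤ |c| / 2 * (|(n : ℝ) - m| * (N : ℝ) ^ (D - 1)) := by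
      rw [div_le_iff₀ hN0]
      have : S' ≤ |c| / 2 * N := by linarith
      have h0 : 0 ≤ |(n : ℝ) - m| * (N : ℝ) ^ (D - 1) := by positivity
      nlinarith
    have e4 : |c| * |(n : ℝ) ^ D - (m : ℝ) ^ D| ≤ |q.eval (n : ℝ) - q.eval (m : ℝ)| +
        |(q.eval (n : ℝ) - c * (n : ℝ) ^ D) - (q.eval (m : ℝ) - c * (m : ℝ) ^ D)| := by
      rw [← abs_mul]
      have : c * ((n : ℝ) ^ D - (m : ℝ) ^ D) = (q.eval (n : ℝ) - q.eval (m : ℝ)) -
          ((q.eval (n : ℝ) - c * (n : ℝ) ^ D) - (q.eval (m : ℝ) - c * (m : ℝ) ^ D)) := by ring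
      rw [this]
      exact abs_sub _ _
    have e5 : |c| * (|(n : ℝ) - m| * (N : ℝ) ^ (D - 1)) ≤ |c| * |(n : ℝ) ^ D - (m : ℝ) ^ D| :=
      mul_le_mul_of_nonneg_left e2 hca.le
    calc C⁻¹ * |(n : ℝ) - m| * (N : ℝ) ^ (D - 1) = C⁻¹ * (|(n : ℝ) - m| * (N : ℝ) ^ (D - 1)) := by ring
      _ ≤ |c| / 2 * (|(n : ℝ) - m| * (N : ℝ) ^ (D - 1)) := mul_le_mul_of_nonneg_right hCi (by positivity)
      _ ≤ _ := by linarith

end Pool.Agent.GTP
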