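import Mathlib
import Pool.Agent.GTP.Defs
import Pool.Agent.GTP.Basic
import Pool.Agent.GTP.Poly

set_option autoImplicit false

/-!
# GTP/BasQ: the basic estimate for polynomial times and good sequences of maps

PROOF.  `D = natDegree q`; `C_q, κ, N_q` from `Poly.poly`.  Put `W = 9 C_q N^D > 0`, `φ'(s) = φ(W s)` (`IsFlow.scale`), `p n = q(n)/W`, `t = M/W`.  Then `BB φ' g p a N I (f - f ∘ φ'_t) = BB φ g q a N I (f - f ∘ φ_M)` (`W (β p n) = β q(n)`,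
`W t = M`).  For `n ∈ I = Ioc a' b'`: `c₁ ≤ |p n| ≤ 1/9` with `c₁ = 1/(9 C_q²)`; `|p n - p m| ≥ C_q⁻¹ |n - m| N^(D-1)/(9 C_q N^D) = c₂ |n - m|/N`, `c₂ = 1/(9 C_q²)`; `J^5 t ≤ N^D/W ≤ 1`.
`log|p n| = log|q(n)| - log W = D log n + κ' + ρ_n`, `κ' = κ - log W`, `|ρ_n| ≤ C_q/N`.  For `ω = (j - j') J`, `j ≠ j'`, `j, j' < J`: `J ≤ |ω| ≤ J²`;
`e(ω log|p n|) = e(ω κ') e(ω D log n) e(ω ρ_n)`, `‖e(ω ρ_n) - 1‖ ≤ 2π |ω| C_q/N ≤ 2π C_q J²/N`.  So with `(x + y)² ≤ 2x² + 2y²`: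
`∫ ‖N⁻¹ ∑ e(ω log|p n|) v(g_n x)‖² ≤ 2 ∫ ‖N⁻¹ ∑ e(ω D log n) v(g_n x)‖² + 2 (2π C_q J²/N)² ∫ (N⁻¹ ∑ ‖v(g_n x)‖)²`.  The first term: `hg.wst` for the real number `ω D` (`1 ≤ |ω D|`; `C_w |ω D| ≤ C_w D J² ≤ C_w D J³ ≤ N`):
`≤ 2 C_w |ω D|^(-c) ∫‖v‖² ≤ 2 C_w J^(-c) ∫ ‖v‖²`.  The second: `∫ (N⁻¹ ∑ ‖v(g_n x)‖)² ≤ (#I/N)² ∫ ‖v‖² ≤ 4 ∫ ‖v‖²` and `J²/N ≤ 1/J` (as `J³ ≤ N`), `J^(-2) ≤ J^(-c)` (`c ≤ 1`).  So the hypothesis of `Basic.basic` holds with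
`w = C' J^(-c)`.  Take `e = J^(-c/3)`: `1/N ≤ J^(-3) ≤ J^(-c/3)`, `(1/J + w)/e² ≤ (1 + C') J^(-c) J^(2c/3) = (1 + C') J^(-c/3)`.  So the exponent of the theorem is `c/3`.
-/

namespace Pool.Agent.GTP

open MeasureTheory Pool.Agent.GT

private theorem BasQ_mp {X : Type*} [MeasurableSpace X] {μ : Measure X} {g : X → X}
    (hg : MeasurePreserving g μ μ) {v : X → ℂ} (hv : Measurable v) :
    ∫ x, ‖v (g x)‖ ^ 2 ∂μ = ∫ x, ‖v x‖ ^ 2 ∂μ := by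
  have hm : AEStronglyMeasurable (fun x => ‖v x‖ ^ 2) (Measure.map g μ) :=
    (hv.norm.pow_const 2).aestronglyMeasurable
  have h1 := integral_map hg.measurable.aemeasurable hm
  rw [hg.map_eq] at h1
  exact h1.symm

private theorem BasQ_int {X : Type*} [MeasurableSpace X] {μ : Measure X} [IsFiniteMeasure μ]
    {v : X → ℂ} (hv : Measurable v) {B : ℝ} (hB : ∀ x, ‖v x‖ ≤ B) :
    Integrable (fun x => ‖v x‖ ^ 2) μ := by
  refine Integrable.of_bound (hv.norm.pow_const 2).aestronglyMeasurable (B ^ 2)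
    (Filter.Eventually.of_forall fun x => ?_)
  rw [Real.norm_of_nonneg (by positivity)]
  exact pow_le_pow_left₀ (norm_nonneg _) (hB x) 2

private theorem BasQ_w {X : Type*} [MeasurableSpace X] {μ : Measure X} [IsFiniteMeasure μ]
    {g : ℕ → X → X} (hmp : ∀ n, MeasurePreserving (g n) μ μ) {cw Cw Cq D : ℝ} (hcw : 0 < cw)
    (hcw1 : cw ≤ 1) (hCw : 1 ≤ Cw) (hCq : 0 ≤ Cq) (hD : 1 ≤ D)
    (hw : ∀ N a b : ℕ, 1 ≤ N → N ≤ a → b ≤ 2 * N → ∀ ω : ℝ, 1 ≤ |ω| →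
      Cw * |ω| ≤ N → ∀ v : X → ℂ, Measurable v → (∃ B, ∀ x, ‖v x‖ ≤ B) →
      ∫ x, ‖(N : ℂ)⁻¹ * ∑ n ∈ Finset.Ioc a b, ee (ω * Real.log n) * v (g n x)‖ ^ 2 ∂μ ≤
        Cw * |ω| ^ (-cw) * ∫ x, ‖v x‖ ^ 2 ∂μ)
    {N a b : ℕ} (hN : 1 ≤ N) (ha : N ≤ a) (hb : b ≤ 2 * N) {J : ℕ} (hJ : 1 ≤ J)
    (hJN : (J : ℝ) ^ 3 ≤ N) (hJN' : Cw * D * (J : ℝ) ^ 3 ≤ N) (L : ℕ → ℝ) (κ : ℝ)
    (hL : ∀ n ∈ Finset.Ioc a b, |L n - D * Real.log n - κ| ≤ Cq / N) {ω : ℝ} (hω : (J : ℝ) ≤ |ω|)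
    (hω' : |ω| ≤ (J : ℝ) ^ 2) {v : X → ℂ} (hv : Measurable v) (hvb : ∃ B, ∀ x, ‖v x‖ ≤ B) :
    ∫ x, ‖(N : ℂ)⁻¹ * ∑ n ∈ Finset.Ioc a b, ee (ω * L n) * v (g n x)‖ ^ 2 ∂μ ≤
      (2 * Cw + 8 * Real.pi ^ 2 * Cq ^ 2) * (J : ℝ) ^ (-cw) * ∫ x, ‖v x‖ ^ 2 ∂μ := by
  have hN0 : (0 : ℝ) < N := by exact_mod_cast hN
  have hJ1 : (1 : ℝ) ≤ J := by exact_mod_cast hJ
  have hJ0 : (0 : ℝ) < J := by linarith
  have hpi := Real.pi_pos
  obtain ⟨B, hB⟩ := hvb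
  set E : ℝ := ∫ x, ‖v x‖ ^ 2 ∂μ with hE
  have hE0 : 0 ≤ E := integral_nonneg fun x => by positivity
  set S1 : X → ℂ := fun x => (N : ℂ)⁻¹ * ∑ n ∈ Finset.Ioc a b, ee (ω * D * Real.log n) * v (g n x)
    with hS1
  set T : X → ℝ := fun x => ∑ n ∈ Finset.Ioc a b, ‖v (g n x)‖ ^ 2 with hT
  set K : ℝ := 2 * Real.pi * |ω| * (Cq / N) with hK
  have hK0 : 0 ≤ K := by positivity
  set m : ℝ := ((Finset.Ioc a b).card : ℝ) with hm
  have hmN : m ≤ N := by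
    rw [hm, Nat.card_Ioc]
    have : b - a ≤ N := by omega
    exact_mod_cast this
  have hm0 : 0 ≤ m := Nat.cast_nonneg _
  have hS1m : Measurable S1 := by
    refine measurable_const.mul (Finset.measurable_fun_sum _ fun n _ => ?_)
    exact measurable_const.mul (hv.comp (hmp n).measurable)
  have hS1b : ∀ x, ‖S1 x‖ ≤ (N : ℝ)⁻¹ * ∑ n ∈ Finset.Ioc a b, B := by
    intro x
    rw [hS1]
    dsimp only
    rw [norm_mul, norm_inv, Complex.norm_natCast]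
    refine mul_le_mul_of_nonneg_left ((norm_sum_le _ _).trans (Finset.sum_le_sum fun n _ => ?_))
      (by positivity)
    rw [norm_mul, norm_ee, one_mul]
    exact hB _
  have hS1i := BasQ_int (μ := μ) hS1m hS1b
  have hvi : ∀ n, Integrable (fun x => ‖v (g n x)‖ ^ 2) μ := fun n =>
    BasQ_int (hv.comp (hmp n).measurable) fun x => hB _
  have hTi : Integrable T μ := integrable_finsetSum _ fun n _ => hvi n
  have hTint : ∫ x, T x ∂μ = m * E := by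
    rw [hT, integral_finsetSum _ fun n _ => hvi n]
    simp only [BasQ_mp (hmp _) hv]
    rw [Finset.sum_const, nsmul_eq_mul]
  -- pointwise
  have hpt : ∀ x, ‖(N : ℂ)⁻¹ * ∑ n ∈ Finset.Ioc a b, ee (ω * L n) * v (g n x)‖ ^ 2 ≤
      2 * ‖S1 x‖ ^ 2 + 2 * (K ^ 2 * ((N : ℝ)⁻¹ ^ 2 * m)) * T x := by
    intro x
    have e1 : (N : ℂ)⁻¹ * ∑ n ∈ Finset.Ioc a b, ee (ω * L n) * v (g n x) =
        ee (ω * κ) * S1 x + (N : ℂ)⁻¹ * ∑ n ∈ Finset.Ioc a b,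
          (ee (ω * L n) - ee (ω * (D * Real.log n + κ))) * v (g n x) := by
      rw [hS1]
      dsimp only
      rw [mul_left_comm, ← mul_add, Finset.mul_sum (a := ee (ω * κ)), ← Finset.sum_add_distrib]
      congr 1
      refine Finset.sum_congr rfl fun n _ => ?_
      have : ee (ω * (D * Real.log n + κ)) = ee (ω * κ) * ee (ω * D * Real.log n) := by
        rw [← ee_add]
        congr 1
        ring
      rw [this]
      ring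
    have e2 : ‖(N : ℂ)⁻¹ * ∑ n ∈ Finset.Ioc a b,
          (ee (ω * L n) - ee (ω * (D * Real.log n + κ))) * v (g n x)‖ ≤
        (N : ℝ)⁻¹ * (K * ∑ n ∈ Finset.Ioc a b, ‖v (g n x)‖) := by
      rw [norm_mul, norm_inv, Complex.norm_natCast, Finset.mul_sum]
      refine mul_le_mul_of_nonneg_left ((norm_sum_le _ _).trans (Finset.sum_le_sum fun n hn => ?_))
        (by positivity)
      rw [norm_mul]
      refine mul_le_mul_of_nonneg_right ?_ (norm_nonneg _)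
      refine (norm_ee_sub _ _).trans ?_
      rw [hK, mul_assoc (2 * Real.pi)]
      refine mul_le_mul_of_nonneg_left ?_ (by positivity)
      have : ω * L n - ω * (D * Real.log n + κ) = ω * (L n - D * Real.log n - κ) := by ring
      rw [this, abs_mul]
      exact mul_le_mul_of_nonneg_left (hL n hn) (abs_nonneg _)
    have e3 : (∑ n ∈ Finset.Ioc a b, ‖v (g n x)‖) ^ 2 ≤ m * T x :=
      sq_sum_le_card_mul_sum_sq
    have e4 : ‖(N : ℂ)⁻¹ * ∑ n ∈ Finset.Ioc a b, ee (ω * L n) * v (g n x)‖ ≤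
        ‖S1 x‖ + (N : ℝ)⁻¹ * (K * ∑ n ∈ Finset.Ioc a b, ‖v (g n x)‖) := by
      rw [e1]
      refine (norm_add_le _ _).trans (add_le_add ?_ e2)
      rw [norm_mul, norm_ee, one_mul]
    have e5 : 0 ≤ (N : ℝ)⁻¹ * (K * ∑ n ∈ Finset.Ioc a b, ‖v (g n x)‖) := by positivity
    calc _ ≤ (‖S1 x‖ + (N : ℝ)⁻¹ * (K * ∑ n ∈ Finset.Ioc a b, ‖v (g n x)‖)) ^ 2 :=
          pow_le_pow_left₀ (norm_nonneg _) e4 2
      _ ≤ 2 * ‖S1 x‖ ^ 2 + 2 * ((N : ℝ)⁻¹ * (K * ∑ n ∈ Finset.Ioc a b, ‖v (g n x)‖)) ^ 2 := by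
          have := add_sq_le (a := ‖S1 x‖) (b := (N : ℝ)⁻¹ * (K * ∑ n ∈ Finset.Ioc a b, ‖v (g n x)‖))
          linarith
      _ = 2 * ‖S1 x‖ ^ 2 + 2 * (K ^ 2 * (N : ℝ)⁻¹ ^ 2) * (∑ n ∈ Finset.Ioc a b, ‖v (g n x)‖) ^ 2 := by
          ring
      _ ≤ 2 * ‖S1 x‖ ^ 2 + 2 * (K ^ 2 * (N : ℝ)⁻¹ ^ 2) * (m * T x) := by
          gcongr
      _ = _ := by ring
  have hbig : ∫ x, ‖(N : ℂ)⁻¹ * ∑ n ∈ Finset.Ioc a b, ee (ω * L n) * v (g n x)‖ ^ 2 ∂μ ≤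
      2 * ∫ x, ‖S1 x‖ ^ 2 ∂μ + 2 * (K ^ 2 * ((N : ℝ)⁻¹ ^ 2 * m)) * (m * E) := by
    rw [← hTint, ← integral_const_mul, ← integral_const_mul, ← integral_add (hS1i.const_mul 2)
      (hTi.const_mul _)]
    refine integral_mono_of_nonneg (Filter.Eventually.of_forall fun x => by positivity)
      ((hS1i.const_mul 2).add (hTi.const_mul _)) (Filter.Eventually.of_forall hpt)
  -- first term
  have hωD : (J : ℝ) ≤ |ω * D| := by
    rw [abs_mul, abs_of_pos (by linarith : (0 : ℝ) < D)]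
    nlinarith [abs_nonneg ω]
  have hωD1 : Cw * |ω * D| ≤ N := by
    refine le_trans ?_ hJN'
    rw [abs_mul, abs_of_pos (by linarith : (0 : ℝ) < D)]
    have h1 : (J : ℝ) ^ 2 ≤ (J : ℝ) ^ 3 := pow_le_pow_right₀ hJ1 (by norm_num)
    calc Cw * (|ω| * D) = Cw * D * |ω| := by ring
      _ ≤ Cw * D * (J : ℝ) ^ 3 := mul_le_mul_of_nonneg_left (hω'.trans h1) (by positivity)
  have hfirst : ∫ x, ‖S1 x‖ ^ 2 ∂μ ≤ Cw * (J : ℝ) ^ (-cw) * E := by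
    have h1 := hw N a b hN ha hb (ω * D) (hJ1.trans hωD) hωD1 v hv ⟨B, hB⟩
    refine h1.trans (mul_le_mul_of_nonneg_right (mul_le_mul_of_nonneg_left ?_ (by linarith)) hE0)
    exact Real.rpow_le_rpow_of_nonpos hJ0 hωD (by linarith)
  -- second term
  have hsec : K ^ 2 * ((N : ℝ)⁻¹ ^ 2 * m) * (m * E) ≤ (4 * Real.pi ^ 2 * Cq ^ 2) * (J : ℝ) ^ (-cw) * E := by
    have h1 : K ≤ 2 * Real.pi * Cq * (J : ℝ)⁻¹ := by
      rw [hK]
      have h2 : |ω| * (Cq / N) ≤ Cq * (J : ℝ)⁻¹ := by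
        rw [mul_div_assoc', div_le_iff₀ hN0, mul_assoc, inv_mul_eq_div]
        have h3 : (J : ℝ) ^ 2 ≤ N / J := by
          rw [le_div_iff₀ hJ0]
          have h4 : (J : ℝ) ^ 2 * J = (J : ℝ) ^ 3 := by ring
          rw [h4]
          exact hJN
        calc |ω| * Cq ≤ (N / J) * Cq := mul_le_mul_of_nonneg_right (hω'.trans h3) hCq
          _ = Cq * (N / J) := by ring
      calc 2 * Real.pi * |ω| * (Cq / N) = 2 * Real.pi * (|ω| * (Cq / N)) := by ring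
        _ ≤ 2 * Real.pi * (Cq * (J : ℝ)⁻¹) := mul_le_mul_of_nonneg_left h2 (by positivity)
        _ = _ := by ring
    have h2 : K ^ 2 ≤ (2 * Real.pi * Cq * (J : ℝ)⁻¹) ^ 2 := pow_le_pow_left₀ hK0 h1 2
    have h3 : (N : ℝ)⁻¹ ^ 2 * m * m ≤ 1 := by
      have h4 : (N : ℝ)⁻¹ * m ≤ 1 := by
        rw [inv_mul_le_iff₀ hN0, mul_one]
        exact hmN
      calc (N : ℝ)⁻¹ ^ 2 * m * m = ((N : ℝ)⁻¹ * m) ^ 2 := by ring
        _ ≤ 1 := pow_le_one₀ (by positivity) h4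
    have h5 : (J : ℝ)⁻¹ ^ 2 ≤ (J : ℝ) ^ (-cw) := by
      have h6 : (J : ℝ)⁻¹ ^ 2 = (J : ℝ) ^ (-2 : ℝ) := by
        rw [Real.rpow_neg hJ0.le, inv_pow]
        norm_num
      rw [h6]
      exact Real.rpow_le_rpow_of_exponent_le hJ1 (by linarith)
    calc K ^ 2 * ((N : ℝ)⁻¹ ^ 2 * m) * (m * E) = K ^ 2 * ((N : ℝ)⁻¹ ^ 2 * m * m) * E := by ring
      _ ≤ K ^ 2 * 1 * E := by gcongr
      _ ≤ (2 * Real.pi * Cq * (J : ℝ)⁻¹) ^ 2 * 1 * E := by gcongr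
      _ = 4 * Real.pi ^ 2 * Cq ^ 2 * (J : ℝ)⁻¹ ^ 2 * E := by ring
      _ ≤ 4 * Real.pi ^ 2 * Cq ^ 2 * (J : ℝ) ^ (-cw) * E := by gcongr
  calc _ ≤ 2 * ∫ x, ‖S1 x‖ ^ 2 ∂μ + 2 * (K ^ 2 * ((N : ℝ)⁻¹ ^ 2 * m)) * (m * E) := hbig
    _ = 2 * ∫ x, ‖S1 x‖ ^ 2 ∂μ + 2 * (K ^ 2 * ((N : ℝ)⁻¹ ^ 2 * m) * (m * E)) := by ring
    _ ≤ 2 * (Cw * (J : ℝ) ^ (-cw) * E) + 2 * ((4 * Real.pi ^ 2 * Cq ^ 2) * (J : ℝ) ^ (-cw) * E) := by
        linarith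
    _ = _ := by ring

theorem basQ {X : Type*} [MeasurableSpace X] {μ : Measure X} [IsFiniteMeasure μ] {φ : ℝ → X → X} (hφ : IsFlow μ φ)
    {g : ℕ → X → X} (hg : GG μ φ g) (q : Polynomial ℝ) (hq : 1 ≤ q.natDegree) :
    ∃ c C : ℝ, 0 < c ∧ c ≤ 1 ∧ 1 ≤ C ∧ ∃ N₀ : ℕ, ∀ N a' b' : ℕ, N₀ ≤ N → 1 ≤ N → N ≤ a' → b' ≤ 2 * N → ∀ J : ℕ, 1 ≤ J →
      C * (J : ℝ) ^ 3 ≤ N → ∀ M : ℝ, 0 ≤ M → (J : ℝ) ^ 5 * M ≤ (N : ℝ) ^ q.natDegree →
      ∀ (f : X → ℂ) (B : ℝ), Measurable f → (∀ x, ‖f x‖ ≤ B) →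
      ∀ a : ℕ → X → ℂ, (∀ n, Measurable (a n)) → (∀ n x, ‖a n x‖ ≤ 1) →
        ∫ z, ‖BB φ g (fun n => q.eval (n : ℝ)) a N (Finset.Ioc a' b') (fun y => f y - f (φ M y)) z.2 z.1‖ ^ 2
          ∂(μ.prod (volume.restrict (Set.Icc (1 : ℝ) 2))) ≤ C * (J : ℝ) ^ (-c) * ∫ x, ‖f x‖ ^ 2 ∂μ := by
  obtain ⟨Cq, κ, hCq, Nq, hpoly⟩ := poly q hq
  obtain ⟨cw, Cw, hcw, hcw1, hCw, hwst⟩ := hg.wst
  have hCq0 : 0 < Cq := by linarith
  obtain ⟨Cb, hCb, hbasic⟩ := basic (1 / (9 * Cq ^ 2)) (1 / (9 * Cq ^ 2)) (by positivity) (by positivity)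
  set D : ℕ := q.natDegree with hD
  have hD1 : (1 : ℝ) ≤ D := by exact_mod_cast hq
  set C' : ℝ := 2 * Cw + 8 * Real.pi ^ 2 * Cq ^ 2 with hC'
  have hC'0 : 0 ≤ C' := by positivity
  refine ⟨cw / 3, Cw * D + Cb * (3 + C'), by positivity, by linarith, ?_, Nq, ?_⟩
  · have h1 : 1 ≤ Cw * D := one_le_mul_of_one_le_of_one_le hCw hD1
    have h2 : 0 ≤ Cb * (3 + C') := by positivity
    linarith
  intro N a' b' hNq hN ha hb J hJ hJN M hM hJM f B hf hfB a ham ha1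
  have hN0 : (0 : ℝ) < N := by exact_mod_cast hN
  have hJ1 : (1 : ℝ) ≤ J := by exact_mod_cast hJ
  have hJ0 : (0 : ℝ) < J := by linarith
  have hND : (0 : ℝ) < (N : ℝ) ^ D := by positivity
  obtain ⟨hp1, hp2⟩ := hpoly N hNq hN
  set W : ℝ := 9 * Cq * (N : ℝ) ^ D with hW
  have hW0 : 0 < W := by positivity
  have hJN1 : Cw * D * (J : ℝ) ^ 3 ≤ N := by
    refine le_trans ?_ hJN
    have h2 : 0 ≤ Cb * (3 + C') := by positivity
    exact mul_le_mul_of_nonneg_right (by linarith) (by positivity)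
  have hJN2 : (J : ℝ) ^ 3 ≤ N := by
    refine le_trans ?_ hJN1
    have h1 : 1 ≤ Cw * D := one_le_mul_of_one_le_of_one_le hCw hD1
    exact le_mul_of_one_le_left (by positivity) h1
  have hmem : ∀ n ∈ Finset.Ioc a' b', N ≤ n ∧ n ≤ 2 * N := by
    intro n hn
    rw [Finset.mem_Ioc] at hn
    omega
  set p : ℕ → ℝ := fun n => q.eval (n : ℝ) / W with hp
  have hpabs : ∀ n, |p n| = |q.eval (n : ℝ)| / W := by
    intro n
    rw [hp]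
    dsimp only
    rw [abs_div, abs_of_pos hW0]
  set w : ℝ := C' * (J : ℝ) ^ (-cw) with hw
  have hw0 : 0 ≤ w := by positivity
  have key := hbasic μ (fun t => φ (W * t)) (hφ.scale W) g hg.mp (fun n s x => hg.comm n (W * s) x)
    f B hf hfB N (Finset.Ioc a' b') hN hmem p ?_ ?_ J hJ (M / W) (by positivity) ?_ w hw0 ?_
    ((J : ℝ) ^ (-(cw / 3))) (by positivity) a ham ha1
  · have e1 : ∀ z : X × ℝ, BB (fun t => φ (W * t)) g p a N (Finset.Ioc a' b')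
        (fun y => f y - f (φ (W * (M / W)) y)) z.2 z.1 =
        BB φ g (fun n => q.eval (n : ℝ)) a N (Finset.Ioc a' b') (fun y => f y - f (φ M y)) z.2 z.1 := by
      intro z
      unfold BB
      have h1 : W * (M / W) = M := by field_simp
      have h2 : ∀ n : ℕ, W * (z.2 * p n) = z.2 * q.eval (n : ℝ) := by
        intro n
        rw [hp]
        dsimp only
        field_simp
      simp only [h1, h2]
    simp only [e1] at key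
    refine key.trans (mul_le_mul_of_nonneg_right ?_ (integral_nonneg fun x => by positivity))
    have h1 : 1 / (N : ℝ) ≤ (J : ℝ) ^ (-(cw / 3)) := by
      have h2 : 1 / (N : ℝ) ≤ 1 / (J : ℝ) ^ 3 := one_div_le_one_div_of_le (by positivity) hJN2
      refine h2.trans ?_
      have h3 : 1 / (J : ℝ) ^ 3 = (J : ℝ) ^ (-3 : ℝ) := by
        rw [Real.rpow_neg hJ0.le, one_div]
        norm_num
      rw [h3]
      exact Real.rpow_le_rpow_of_exponent_le hJ1 (by linarith)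
    have h4 : 1 / (J : ℝ) ≤ (J : ℝ) ^ (-cw) := by
      have h3 : 1 / (J : ℝ) = (J : ℝ) ^ (-1 : ℝ) := by
        rw [Real.rpow_neg hJ0.le, one_div, Real.rpow_one]
      rw [h3]
      exact Real.rpow_le_rpow_of_exponent_le hJ1 (by linarith)
    have h5 : (1 / (J : ℝ) + w) / ((J : ℝ) ^ (-(cw / 3))) ^ 2 ≤ (1 + C') * (J : ℝ) ^ (-(cw / 3)) := by
      rw [div_le_iff₀ (by positivity)]
      have h6 : (J : ℝ) ^ (-cw) = (J : ℝ) ^ (-(cw / 3)) * ((J : ℝ) ^ (-(cw / 3))) ^ 2 := by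
        rw [← pow_succ', ← Real.rpow_natCast, ← Real.rpow_mul hJ0.le]
        congr 1
        push_cast
        ring
      calc 1 / (J : ℝ) + w ≤ (J : ℝ) ^ (-cw) + C' * (J : ℝ) ^ (-cw) := by
            rw [hw]
            linarith
        _ = (1 + C') * (J : ℝ) ^ (-cw) := by ring
        _ = _ := by rw [h6]; ring
    have h7 : 0 ≤ Cw * D * (J : ℝ) ^ (-(cw / 3)) := by positivity
    calc Cb * (1 / (N : ℝ) + (J : ℝ) ^ (-(cw / 3)) +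
          (1 / (J : ℝ) + w) / ((J : ℝ) ^ (-(cw / 3))) ^ 2) ≤
          Cb * ((J : ℝ) ^ (-(cw / 3)) + (J : ℝ) ^ (-(cw / 3)) + (1 + C') * (J : ℝ) ^ (-(cw / 3))) := by
          gcongr
      _ = Cb * (3 + C') * (J : ℝ) ^ (-(cw / 3)) := by ring
      _ ≤ (Cw * D + Cb * (3 + C')) * (J : ℝ) ^ (-(cw / 3)) := by linarith
  · intro n hn
    obtain ⟨h1, h2⟩ := hmem n hn
    obtain ⟨h3, h4, -⟩ := hp1 n h1 h2
    rw [hpabs]
    constructor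
    · rw [le_div_iff₀ hW0]
      refine le_trans (le_of_eq ?_) h3
      rw [hW]
      field_simp
    · rw [div_le_iff₀ hW0]
      refine h4.trans (le_of_eq ?_)
      rw [hW]
      ring
  · intro n hn m hm
    obtain ⟨h1, h2⟩ := hmem n hn
    obtain ⟨h3, h4⟩ := hmem m hm
    have h5 := hp2 n m h1 h2 h3 h4
    have h6 : p n - p m = (q.eval (n : ℝ) - q.eval (m : ℝ)) / W := by
      rw [hp]
      dsimp only
      rw [sub_div]
    rw [h6, abs_div, abs_of_pos hW0, le_div_iff₀ hW0]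
    refine le_trans (le_of_eq ?_) h5
    rw [hW]
    have h7 : (N : ℝ) ^ D = (N : ℝ) ^ (D - 1) * N := by
      rw [← pow_succ, Nat.sub_add_cancel hq]
    rw [h7]
    field_simp
  · rw [mul_div_assoc', div_le_one hW0]
    refine hJM.trans ?_
    rw [hW]
    nlinarith
  · intro j j' hj hj' hjj v hv hvb
    have hlog : ∀ n ∈ Finset.Ioc a' b', |Real.log |p n| - (D : ℝ) * Real.log n - (κ - Real.log W)| ≤
        Cq / N := by
      intro n hn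
      obtain ⟨h1, h2⟩ := hmem n hn
      obtain ⟨h3, h4, h5⟩ := hp1 n h1 h2
      have h6 : 0 < |q.eval (n : ℝ)| := lt_of_lt_of_le (by positivity) h3
      rw [hpabs, Real.log_div h6.ne' hW0.ne']
      have h7 : Real.log |q.eval (n : ℝ)| - Real.log W - (D : ℝ) * Real.log n - (κ - Real.log W) =
          Real.log |q.eval (n : ℝ)| - (D : ℝ) * Real.log n - κ := by ring
      rw [h7]
      exact h5
    have hjj1 : (1 : ℝ) ≤ |(j : ℝ) - j'| := by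
      have h1 : ((j : ℤ) - (j' : ℤ)) ≠ 0 := by omega
      have h2 : 1 ≤ |(j : ℤ) - (j' : ℤ)| := Int.one_le_abs h1
      exact_mod_cast h2
    have hjj2 : |(j : ℝ) - j'| ≤ J := by
      have h1 : |(j : ℤ) - (j' : ℤ)| ≤ J := by
        rw [abs_le]
        omega
      exact_mod_cast h1
    have h8 : |((j : ℝ) - j') * J| = |(j : ℝ) - j'| * J := by
      rw [abs_mul, abs_of_pos hJ0]
    exact BasQ_w hg.mp hcw hcw1 hCw hCq0.le hD1 hwst hN ha hb hJ hJN2 hJN1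
      (fun n => Real.log |p n|) (κ - Real.log W) hlog
      (by rw [h8]; exact le_mul_of_one_le_left hJ0.le hjj1)
      (by rw [h8, sq]; exact mul_le_mul_of_nonneg_right hjj2 hJ0.le) hv hvb

end Pool.Agent.GTP
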