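import Mathlib
import Pool.Agent.GTP.Defs
import Pool.Agent.GT.Ops

set_option autoImplicit false

/-!
# GTP/InvL: the limit of the smoothed functions is invariant

PROOF.  `Kop φ M f = avg φ M h`, `h = avg (rev φ) M f`, nice, bounded by `B`.  `avg φ M h (φ s y) - avg φ M h y = M⁻¹ (∫_M^{M+s} h(φ u y) du - ∫_0^s h(φ u y) du)` (as in `GT/Osc.lean`, private lemma `Osc_diff`, and `avg_shift` in
`GT/Appr.lean`), so its norm is at most `2 |s| B/M`.  With `M = 2^k → ∞`: for almost every `x` both `Kop φ (2^k) f x → fs x` and `Kop φ (2^k) f (φ s x) → fs (φ s x)` (pull back the null set by the measure preserving map `φ s`), and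
their difference tends to zero.
-/

namespace Pool.Agent.GTP

open MeasureTheory Filter Topology Pool.Agent.GT

section
variable {X : Type*} [MeasurableSpace X] {μ : Measure X} [IsFiniteMeasure μ] {φ : ℝ → X → X}

/-- the difference of an average along the orbit -/
private theorem InvL_diff (hφ : IsFlow μ φ) {g : X → ℂ} (hg : ∀ x, Continuous fun t => g (φ t x)) (M t : ℝ) (x : X) :
    avg φ M g (φ t x) - avg φ M g x =
      ((M⁻¹ : ℝ) : ℂ) * ((∫ s in M..(M + t), g (φ s x)) - ∫ s in (0 : ℝ)..t, g (φ s x)) := by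
  have hi : ∀ a b : ℝ, IntervalIntegrable (fun s => g (φ s x)) volume a b := fun a b =>
    (hg x).intervalIntegrable a b
  unfold avg
  rw [← mul_sub]
  congr 1
  have h1 : ∫ s in (0 : ℝ)..M, g (φ s (φ t x)) = ∫ s in t..(M + t), g (φ s x) := by
    have h2 := intervalIntegral.integral_comp_add_right (a := (0 : ℝ)) (b := M)
      (fun s => g (φ s x)) t
    rw [zero_add] at h2
    rw [← h2]
    refine intervalIntegral.integral_congr fun s _ => ?_
    show g (φ s (φ t x)) = g (φ (s + t) x)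
    rw [hφ.add]
  rw [h1]
  have h3 := intervalIntegral.integral_add_adjacent_intervals (hi 0 t) (hi t (M + t))
  have h4 := intervalIntegral.integral_add_adjacent_intervals (hi 0 M) (hi M (M + t))
  rw [← h4] at h3
  linear_combination h3

private theorem InvL_le (hφ : IsFlow μ φ) {f : X → ℂ} {B L : ℝ} (hf : Nice φ B L f) {M : ℝ} (hM : 0 < M) (s : ℝ)
    (x : X) : ‖Kop φ M f (φ s x) - Kop φ M f x‖ ≤ M⁻¹ * (2 * B * |s|) := by
  have hh := avg_rev_nice hφ hf hM
  unfold Kop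
  rw [InvL_diff hφ hh.cont, norm_mul]
  have e1 : ‖((M⁻¹ : ℝ) : ℂ)‖ = M⁻¹ := by
    rw [Complex.norm_real, Real.norm_of_nonneg (inv_nonneg.2 hM.le)]
  rw [e1]
  refine mul_le_mul_of_nonneg_left ?_ (inv_nonneg.2 hM.le)
  refine (norm_sub_le _ _).trans ?_
  have h1 : ‖∫ u in M..(M + s), avg (rev φ) M f (φ u x)‖ ≤ B * |M + s - M| :=
    intervalIntegral.norm_integral_le_of_norm_le_const fun u _ => hh.bd _
  have h2 : ‖∫ u in (0 : ℝ)..s, avg (rev φ) M f (φ u x)‖ ≤ B * |s - 0| :=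
    intervalIntegral.norm_integral_le_of_norm_le_const fun u _ => hh.bd _
  rw [add_sub_cancel_left] at h1
  rw [sub_zero] at h2
  linarith

end

theorem fs_inv {X : Type*} [MeasurableSpace X] {μ : Measure X} [IsFiniteMeasure μ] {φ : ℝ → X → X} (hφ : IsFlow μ φ)
    {f : X → ℂ} {B L : ℝ} (hf : Nice φ B L f) {fs : X → ℂ}
    (hlim : ∀ᵐ x ∂μ, Tendsto (fun k : ℕ => Kop φ (2 ^ k) f x) atTop (𝓝 (fs x))) (s : ℝ) :
    ∀ᵐ x ∂μ, fs (φ s x) = fs x := by
  filter_upwards [hlim, (hφ.mp s).quasiMeasurePreserving.ae hlim] with x hx hxs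
  have h1 : Tendsto (fun k : ℕ => Kop φ (2 ^ k) f (φ s x) - Kop φ (2 ^ k) f x) atTop (𝓝 0) := by
    refine squeeze_zero_norm (fun k => InvL_le hφ hf (M := (2 : ℝ) ^ k) (by positivity) s x) ?_
    have h2 : Tendsto (fun k : ℕ => ((2 : ℝ) ^ k)⁻¹) atTop (𝓝 0) :=
      (tendsto_pow_atTop_atTop_of_one_lt (by norm_num : (1 : ℝ) < 2)).inv_tendsto_atTop
    have h3 := h2.mul_const (2 * B * |s|)
    rwa [zero_mul] at h3
  have h4 := tendsto_nhds_unique h1 (hxs.sub hx)
  exact (sub_eq_zero.1 h4.symm)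

end Pool.Agent.GTP
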