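import Mathlib
import Pool.Agent.GTP.Defs
import Pool.Agent.GTP.InvL
import Pool.Agent.GT.Ops

set_option autoImplicit false

/-!
# GTP/CE: the limit of the smoothed functions is the conditional expectation on the invariant sets

`invS μ φ` = the σ-algebra of the measurable sets `A` with `φ_t⁻¹(A) = A` mod null sets for every `t`.

PROOFS.
* `ce`: `fs` is measurable with respect to `invS μ φ`: for a Borel set `E`, `fs⁻¹(E)` is measurable and `φ_t⁻¹(fs⁻¹ E) = (fs ∘ φ_t)⁻¹ E = fs⁻¹ E` mod null sets by `InvL.fs_inv`.  For `A ∈ invS`: `∫_A f(φ_u x) dμ = ∫ 1_A(φ_u x) f(φ_u x) dμ = ∫_A f dμ`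
  (`A = φ_u⁻¹ A` mod null sets, invariance of `μ`), so by Fubini `∫_A Kop φ M f = ∫_A f` (two averages), and by dominated convergence (`‖Kop φ (2^k) f‖ ≤ B`) `∫_A fs = ∫_A f`.  Conclude with
  `ae_eq_condExp_of_integrable_setIntegral_eq` (name may vary: `MeasureTheory.ae_eq_condExp_of_forall_setIntegral_eq`).
* `ce_erg`: `g = μ[h | invS μ φ]` is strongly measurable with respect to `invS μ φ`; every set of this σ-algebra has measure `0` or full measure, so `g` is almost everywhere constant (real and imaginary part; e.g.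
  `Filter.exists_eventuallyEq_const_of_forall_separating` / `eventuallyEq_const_of_forall_..` or by distribution functions), and the constant is `∫ g = ∫ h` (`integral_condExp`).
-/

namespace Pool.Agent.GTP

open MeasureTheory Filter Topology Pool.Agent.GT

/-- the σ-algebra of invariant sets of a flow -/
@[reducible] def invS {X : Type*} [MeasurableSpace X] (μ : Measure X) (φ : ℝ → X → X) : MeasurableSpace X where
  MeasurableSet' A := MeasurableSet A ∧ ∀ t, φ t ⁻¹' A =ᵐ[μ] A
  measurableSet_empty := ⟨MeasurableSet.empty, fun _ => Filter.EventuallyEq.rfl⟩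
  measurableSet_compl A hA := ⟨hA.1.compl, fun t => (hA.2 t).compl⟩
  measurableSet_iUnion A hA := ⟨MeasurableSet.iUnion fun i => (hA i).1, fun t => by
    rw [Set.preimage_iUnion]
    exact Filter.EventuallyEq.countable_iUnion fun i => (hA i).2 t⟩

theorem invS_le {X : Type*} [mX : MeasurableSpace X] (μ : Measure X) (φ : ℝ → X → X) : invS μ φ ≤ mX :=
  fun _ hA => hA.1

/-- translation does not change the integral over an invariant set -/
private theorem CE_shift {X : Type*} [MeasurableSpace X] {μ : Measure X} {φ : ℝ → X → X}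
    (hφ : IsFlow μ φ) {F : X → ℂ} (hF : Measurable F) {A : Set X} (hA : MeasurableSet A)
    (hAi : ∀ t, φ t ⁻¹' A =ᵐ[μ] A) (t : ℝ) : ∫ x in A, F (φ t x) ∂μ = ∫ x in A, F x ∂μ := by
  have h1 := setIntegral_map (μ := μ) (g := φ t) (f := F) hA hF.aestronglyMeasurable
    (hφ.mp t).measurable.aemeasurable
  rw [(hφ.mp t).map_eq] at h1
  rw [h1]
  exact (setIntegral_congr_set (hAi t)).symm

private theorem CE_avg {X : Type*} [MeasurableSpace X] {μ : Measure X} [IsFiniteMeasure μ] {φ : ℝ → X → X}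
    (hφ : IsFlow μ φ) {B L : ℝ} {F : X → ℂ} (hF : Nice φ B L F) {A : Set X} (hA : MeasurableSet A)
    (hAi : ∀ t, φ t ⁻¹' A =ᵐ[μ] A) {M : ℝ} (hM : 0 < M) :
    ∫ x in A, avg φ M F x ∂μ = ∫ x in A, F x ∂μ := by
  have hmeas : Measurable (Function.uncurry fun (t : ℝ) (x : X) => F (φ t x)) :=
    hF.meas.comp hφ.meas
  have hint : Integrable (Function.uncurry fun (t : ℝ) (x : X) => F (φ t x))
      ((volume.restrict (Set.uIoc (0 : ℝ) M)).prod (μ.restrict A)) := by
    haveI : IsFiniteMeasure (volume.restrict (Set.uIoc (0 : ℝ) M)) := by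
      rw [Set.uIoc_of_le hM.le]
      infer_instance
    refine Integrable.of_bound hmeas.aestronglyMeasurable B
      (Filter.Eventually.of_forall fun z => ?_)
    exact hF.bd _
  unfold avg
  rw [integral_const_mul, ← intervalIntegral_integral_swap hint]
  have h1 : ∀ t : ℝ, ∫ x in A, F (φ t x) ∂μ = ∫ x in A, F x ∂μ := CE_shift hφ hF.meas hA hAi
  simp only [h1]
  rw [intervalIntegral.integral_const, sub_zero]
  have hM0 : (M : ℂ) ≠ 0 := by exact_mod_cast hM.ne'
  rw [Complex.real_smul, ← mul_assoc, Complex.ofReal_inv, inv_mul_cancel₀ hM0, one_mul]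

private theorem CE_Kop {X : Type*} [MeasurableSpace X] {μ : Measure X} [IsFiniteMeasure μ] {φ : ℝ → X → X}
    (hφ : IsFlow μ φ) {B L : ℝ} {F : X → ℂ} (hF : Nice φ B L F) {A : Set X} (hA : MeasurableSet A)
    (hAi : ∀ t, φ t ⁻¹' A =ᵐ[μ] A) {M : ℝ} (hM : 0 < M) :
    ∫ x in A, Kop φ M F x ∂μ = ∫ x in A, F x ∂μ := by
  unfold Kop
  rw [CE_avg hφ (avg_rev_nice hφ hF hM) hA hAi hM]
  exact CE_avg hφ.rev hF.rev hA (fun t => hAi (-t)) hM

theorem ce {X : Type*} [MeasurableSpace X] {μ : Measure X} [IsFiniteMeasure μ] {φ : ℝ → X → X} (hφ : IsFlow μ φ)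
    {f : X → ℂ} {B L : ℝ} (hf : Nice φ B L f) {fs : X → ℂ} (hfs : Measurable fs) (hfsb : ∀ x, ‖fs x‖ ≤ B)
    (hlim : ∀ᵐ x ∂μ, Tendsto (fun k : ℕ => Kop φ (2 ^ k) f x) atTop (𝓝 (fs x))) :
    fs =ᵐ[μ] μ[f | invS μ φ] := by
  have hfi : Integrable f μ := Integrable.of_bound hf.meas.aestronglyMeasurable B
    (Filter.Eventually.of_forall hf.bd)
  have hfsi : Integrable fs μ := Integrable.of_bound hfs.aestronglyMeasurable B
    (Filter.Eventually.of_forall hfsb)
  refine ae_eq_condExp_of_forall_setIntegral_eq (invS_le μ φ) hfi (fun s _ _ => hfsi.integrableOn)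
    (fun s hs _ => ?_) ?_
  · have hs' : MeasurableSet s ∧ ∀ t, φ t ⁻¹' s =ᵐ[μ] s := hs
    have h1 : Tendsto (fun k : ℕ => ∫ x in s, Kop φ (2 ^ k) f x ∂μ) atTop (𝓝 (∫ x in s, fs x ∂μ)) := by
      refine tendsto_integral_of_dominated_convergence (fun _ => B)
        (fun k => (Kop_nice hφ hf (by positivity)).meas.aestronglyMeasurable) (integrable_const B)
        (fun k => Filter.Eventually.of_forall (Kop_nice hφ hf (by positivity)).bd)
        (ae_restrict_of_ae hlim)
    have h2 : ∀ k : ℕ, ∫ x in s, Kop φ (2 ^ k) f x ∂μ = ∫ x in s, f x ∂μ := fun k =>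
      CE_Kop hφ hf hs'.1 hs'.2 (by positivity)
    simp only [h2] at h1
    exact tendsto_nhds_unique h1 tendsto_const_nhds |>.symm ▸ rfl
  · have h3 : @Measurable X ℂ (invS μ φ) _ fs := by
      intro E hE
      refine ⟨hfs hE, fun t => ?_⟩
      filter_upwards [fs_inv hφ hf hlim t] with x hx
      have h4 : (fs (φ t x) ∈ E) = (fs x ∈ E) := by rw [hx]
      exact h4
    exact (Measurable.stronglyMeasurable h3).aestronglyMeasurable

theorem ce_erg {X : Type*} [MeasurableSpace X] {μ : Measure X} [IsProbabilityMeasure μ] {φ : ℝ → X → X}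
    (herg : ∀ A : Set X, MeasurableSet A → (∀ t, φ t ⁻¹' A =ᵐ[μ] A) → μ A = 0 ∨ μ Aᶜ = 0)
    {h : X → ℂ} (hh : Integrable h μ) : μ[h | invS μ φ] =ᵐ[μ] fun _ => ∫ x, h x ∂μ := by
  have h1 : @Measurable X ℂ (invS μ φ) _ (μ[h | invS μ φ]) :=
    (stronglyMeasurable_condExp (f := h) (m := invS μ φ) (μ := μ)).measurable
  obtain ⟨c, hc⟩ := Filter.exists_eventuallyEq_const_of_forall_separating (l := ae μ)
    (f := μ[h | invS μ φ]) MeasurableSet (fun U hU => by
      have h2 : MeasurableSet (μ[h | invS μ φ] ⁻¹' U) ∧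
        ∀ t, φ t ⁻¹' (μ[h | invS μ φ] ⁻¹' U) =ᵐ[μ] (μ[h | invS μ φ] ⁻¹' U) := h1 hU
      rcases herg _ h2.1 h2.2 with h3 | h3
      · right
        rw [ae_iff]
        simp only [not_not]
        exact h3
      · left
        rw [ae_iff]
        exact h3)
  have h4 : ∫ x, (μ[h | invS μ φ]) x ∂μ = ∫ x, h x ∂μ := integral_condExp (invS_le μ φ)
  rw [integral_congr_ae hc] at h4
  simp only [Function.const_apply, integral_const, probReal_univ, one_smul] at h4
  rw [← h4]
  exact hc

end Pool.Agent.GTP
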