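import Mathlib
import Pool.Agent.GTP.Defs

set_option autoImplicit false

/-!
# GTP/KL: exponential sums with monotone increments

`f : ℕ → ℝ`, `λ ≤ f(n+1) - f(n) ≤ 1/2` and the increments decrease, for `a < n < b`: `‖∑_{a < n ≤ b} e(f n)‖ ≤ C/λ`.

PROOF.  Let `δ_n = f(n+1) - f(n)` for `a < n < b`.  `‖ee δ - 1‖ = 2 sin(π δ) ≥ 4 δ` for `0 ≤ δ ≤ 1/2` (Jordan: `Real.mul_le_sin` or `Real.two_div_pi_mul_le_sin`-type lemma).  With `c_n = (ee δ_n - 1)⁻¹`: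
`ee(f n) = c_n (ee(f(n+1)) - ee(f n))`.  Abel summation: `∑_{n=a+1}^{b-1} ee(f n) = c_{b-1} ee(f b) - c_{a+1} ee(f(a+1)) - ∑_{n=a+2}^{b-1} (c_n - c_{n-1}) ee(f n)`.
`‖c_n‖ ≤ 1/(4λ)`; `‖c_n - c_{n-1}‖ = ‖ee δ_n - ee δ_{n-1}‖ / (‖ee δ_n - 1‖ ‖ee δ_{n-1} - 1‖) ≤ 2π (δ_{n-1} - δ_n)/(16 δ_n δ_{n-1}) = (π/8)(1/δ_n - 1/δ_{n-1})` (`norm_ee_sub`), which telescopes to at most
`(π/8)/λ`.  The last term `n = b` contributes at most `1 ≤ 1/(2λ)`.  (Suggestion: prove by induction on `b` the statement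
`‖∑_{n=a+1}^{b-1} ee(f n) - c_{b-1} ee(f b)‖ ≤ 1/(4λ) + (π/8)(1/δ_{b-1})` for `b ≥ a + 2`.)
-/

namespace Pool.Agent.GTP

open Finset

private theorem KL_low {δ : ℝ} (h0 : 0 ≤ δ) (h1 : δ ≤ 1 / 2) : 4 * δ ≤ ‖ee δ - 1‖ := by
  unfold ee
  rw [mul_comm _ Complex.I, Complex.norm_exp_I_mul_ofReal_sub_one]
  have h2 : 2 * Real.pi * δ / 2 = Real.pi * δ := by ring
  rw [h2]
  have h3 := Real.mul_le_sin (x := Real.pi * δ) (by positivity) (by nlinarith [Real.pi_pos])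
  rw [Real.norm_eq_abs]
  refine le_trans ?_ (le_abs_self _)
  have h4 : 2 / Real.pi * (Real.pi * δ) = 2 * δ := by
    have := Real.pi_ne_zero
    field_simp
  linarith

private theorem KL_ne {δ : ℝ} (h0 : 0 < δ) (h1 : δ ≤ 1 / 2) : ee δ - 1 ≠ 0 := by
  intro h
  have h2 := KL_low h0.le h1
  rw [h, norm_zero] at h2
  linarith

private theorem KL_inv {δ : ℝ} (h0 : 0 < δ) (h1 : δ ≤ 1 / 2) : ‖(ee δ - 1)⁻¹‖ ≤ 1 / (4 * δ) := by
  rw [norm_inv, ← one_div]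
  exact one_div_le_one_div_of_le (by positivity) (KL_low h0.le h1)

private theorem KL_sub {δ δ' : ℝ} (h0 : 0 < δ') (h : δ' ≤ δ) (h1 : δ ≤ 1 / 2) :
    ‖(ee δ - 1)⁻¹ - (ee δ' - 1)⁻¹‖ ≤ Real.pi / 8 * (1 / δ' - 1 / δ) := by
  have hδ : 0 < δ := by linarith
  have h2 := KL_low hδ.le h1
  have h3 := KL_low h0.le (h.trans h1)
  rw [inv_sub_inv (KL_ne hδ h1) (KL_ne h0 (h.trans h1)), norm_div, norm_mul]
  have h4 : ‖ee δ' - 1 - (ee δ - 1)‖ ≤ 2 * Real.pi * (δ - δ') := by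
    have h5 := norm_ee_sub δ' δ
    rw [abs_sub_comm, abs_of_nonneg (by linarith : 0 ≤ δ - δ')] at h5
    have h6 : ee δ' - 1 - (ee δ - 1) = ee δ' - ee δ := by ring
    rw [h6]
    exact h5
  have h7 : Real.pi / 8 * (1 / δ' - 1 / δ) = 2 * Real.pi * (δ - δ') / ((4 * δ) * (4 * δ')) := by
    field_simp
    ring
  rw [h7]
  apply div_le_div₀ _ h4 (by positivity)
  · exact mul_le_mul h2 h3 (by positivity) (norm_nonneg _)
  · have : 0 ≤ δ - δ' := by linarith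
    positivity

private theorem KL_ind (f : ℕ → ℝ) (a : ℕ) (lam : ℝ) (hl : 0 < lam) (m : ℕ)
    (h1 : ∀ n, a < n → n ≤ a + 1 + m → lam ≤ f (n + 1) - f n ∧ f (n + 1) - f n ≤ 1 / 2)
    (h2 : ∀ n, a < n → n + 1 ≤ a + 1 + m → f (n + 2) - f (n + 1) ≤ f (n + 1) - f n) :
    ‖∑ n ∈ Ioc a (a + 1 + m), ee (f n) -
      (ee (f (a + 1 + m + 1) - f (a + 1 + m)) - 1)⁻¹ * ee (f (a + 1 + m + 1))‖ ≤
      1 / (4 * lam) + Real.pi / 8 * (1 / (f (a + 1 + m + 1) - f (a + 1 + m))) := by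
  have key : ∀ n, ee (f (n + 1) - f n) - 1 ≠ 0 → ee (f n) =
      (ee (f (n + 1) - f n) - 1)⁻¹ * (ee (f (n + 1)) - ee (f n)) := by
    intro n hn
    have h3 : ee (f (n + 1)) - ee (f n) = (ee (f (n + 1) - f n) - 1) * ee (f n) := by
      rw [sub_mul, ← ee_add, one_mul]
      congr 2
      ring
    rw [h3, inv_mul_cancel_left₀ hn]
  induction m with
  | zero =>
    obtain ⟨h3, h4⟩ := h1 (a + 1) (by omega) (by omega)
    have h5 : 0 < f (a + 1 + 1) - f (a + 1) := by linarith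
    have h6 : Ioc a (a + 1 + 0) = {a + 1} := by
      ext n
      simp only [mem_Ioc, mem_singleton]
      omega
    rw [h6, sum_singleton]
    simp only [add_zero]
    have h7 : ee (f (a + 1)) - (ee (f (a + 1 + 1) - f (a + 1)) - 1)⁻¹ * ee (f (a + 1 + 1)) =
        -((ee (f (a + 1 + 1) - f (a + 1)) - 1)⁻¹ * ee (f (a + 1))) := by
      have := key (a + 1) (KL_ne h5 h4)
      rw [mul_sub] at this
      linear_combination this
    rw [h7, norm_neg, norm_mul, norm_ee, mul_one]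
    have h8 := KL_inv h5 h4
    have h9 : 1 / (4 * (f (a + 1 + 1) - f (a + 1))) ≤ 1 / (4 * lam) :=
      one_div_le_one_div_of_le (by positivity) (by linarith)
    have h10 : 0 ≤ Real.pi / 8 * (1 / (f (a + 1 + 1) - f (a + 1))) := by positivity
    linarith
  | succ m ih =>
    have ih' := ih (fun n hn hn' => h1 n hn (by omega)) (fun n hn hn' => h2 n hn (by omega))
    obtain ⟨h3, h4⟩ := h1 (a + 1 + m) (by omega) (by omega)
    obtain ⟨h3', h4'⟩ := h1 (a + 1 + m + 1) (by omega) (by omega)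
    have h5 := h2 (a + 1 + m) (by omega) (by omega)
    have e1 : a + 1 + (m + 1) = a + 1 + m + 1 := by ring
    rw [e1]
    set k := a + 1 + m with hk
    have hd : 0 < f (k + 1) - f k := by linarith
    have hd' : 0 < f (k + 1 + 1) - f (k + 1) := by linarith
    have h6 : ∑ n ∈ Ioc a (k + 1), ee (f n) = ∑ n ∈ Ioc a k, ee (f n) + ee (f (k + 1)) :=
      Finset.sum_Ioc_succ_top (by omega) _
    have h7 := key (k + 1) (KL_ne hd' h4')
    rw [mul_sub] at h7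
    have h8 : ∑ n ∈ Ioc a (k + 1), ee (f n) -
        (ee (f (k + 1 + 1) - f (k + 1)) - 1)⁻¹ * ee (f (k + 1 + 1)) =
        (∑ n ∈ Ioc a k, ee (f n) - (ee (f (k + 1) - f k) - 1)⁻¹ * ee (f (k + 1))) +
        ((ee (f (k + 1) - f k) - 1)⁻¹ - (ee (f (k + 1 + 1) - f (k + 1)) - 1)⁻¹) *
          ee (f (k + 1)) := by
      rw [h6]
      linear_combination h7
    rw [h8]
    refine (norm_add_le _ _).trans ?_
    rw [norm_mul, norm_ee, mul_one]
    have h9 := KL_sub hd' h5 h4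
    have h10 : Real.pi / 8 * (1 / (f (k + 1 + 1) - f (k + 1)) - 1 / (f (k + 1) - f k)) =
        Real.pi / 8 * (1 / (f (k + 1 + 1) - f (k + 1))) - Real.pi / 8 * (1 / (f (k + 1) - f k)) := by
      ring
    rw [h10] at h9
    linarith

theorem kl : ∃ C : ℝ, 0 < C ∧ ∀ (f : ℕ → ℝ) (a b : ℕ) (lam : ℝ), 0 < lam →
    (∀ n, a < n → n < b → lam ≤ f (n + 1) - f n ∧ f (n + 1) - f n ≤ 1 / 2) →
    (∀ n, a < n → n + 1 < b → f (n + 2) - f (n + 1) ≤ f (n + 1) - f n) →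
      lam ≤ 1 / 2 → ‖∑ n ∈ Ioc a b, ee (f n)‖ ≤ C / lam := by
  refine ⟨2, by norm_num, fun f a b lam hl h1 h2 hl2 => ?_⟩
  have h1l : 1 ≤ 1 / 2 / lam := by
    rw [le_div_iff₀ hl]
    linarith
  rcases Nat.lt_or_ge b (a + 2) with hb | hb
  · have h3 : ‖∑ n ∈ Ioc a b, ee (f n)‖ ≤ 1 := by
      refine (norm_sum_le _ _).trans ?_
      simp only [norm_ee, sum_const, Nat.card_Ioc, nsmul_eq_mul, mul_one]
      have : b - a ≤ 1 := by omega
      exact_mod_cast this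
    have h4 : 1 / 2 / lam ≤ 2 / lam := by gcongr; norm_num
    linarith
  · obtain ⟨m, rfl⟩ := Nat.exists_eq_add_of_le hb
    have h3 := KL_ind f a lam hl m (fun n hn hn' => h1 n hn (by omega))
      (fun n hn hn' => h2 n hn (by omega))
    obtain ⟨h4, h5⟩ := h1 (a + 1 + m) (by omega) (by omega)
    set k := a + 1 + m with hk
    have e1 : a + 2 + m = k + 1 := by omega
    rw [e1, Finset.sum_Ioc_succ_top (by omega)]
    have hd : 0 < f (k + 1) - f k := by linarith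
    have h6 := KL_inv hd h5
    have h7 : ‖(ee (f (k + 1) - f k) - 1)⁻¹ * ee (f (k + 1))‖ ≤ 1 / (4 * lam) := by
      rw [norm_mul, norm_ee, mul_one]
      refine h6.trans (one_div_le_one_div_of_le (by positivity) (by linarith))
    have h8 : Real.pi / 8 * (1 / (f (k + 1) - f k)) ≤ 1 / 2 * (1 / lam) := by
      apply mul_le_mul _ (one_div_le_one_div_of_le hl h4) (by positivity) (by norm_num)
      have := Real.pi_lt_four
      linarith
    have h9 : ‖∑ n ∈ Ioc a k, ee (f n) + ee (f (k + 1))‖ ≤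
        ‖∑ n ∈ Ioc a k, ee (f n) - (ee (f (k + 1) - f k) - 1)⁻¹ * ee (f (k + 1))‖ +
          ‖(ee (f (k + 1) - f k) - 1)⁻¹ * ee (f (k + 1))‖ + ‖ee (f (k + 1))‖ := by
      have e2 : ∑ n ∈ Ioc a k, ee (f n) + ee (f (k + 1)) =
          (∑ n ∈ Ioc a k, ee (f n) - (ee (f (k + 1) - f k) - 1)⁻¹ * ee (f (k + 1))) +
          (ee (f (k + 1) - f k) - 1)⁻¹ * ee (f (k + 1)) + ee (f (k + 1)) := by ring
      rw [e2]
      exact norm_add₃_le
    rw [norm_ee] at h9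
    have h10 : 1 / (4 * lam) = 1 / 4 / lam := by field_simp
    have h11 : 1 / 2 * (1 / lam) = 1 / 2 / lam := by ring
    have h12 : (2 : ℝ) / lam = 1 / 4 / lam + 1 / 2 / lam + 1 / 4 / lam + 1 / 2 / lam + 1 / 2 / lam := by
      ring
    have h13 : 0 < 1 / 2 / lam := by positivity
    rw [h12]
    linarith

end Pool.Agent.GTP
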