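import Mathlib
import Pool.Agent.GTP.Defs

set_option autoImplicit false

/-!
# GTP/LogD: iterated differences of the logarithm

`dl [h_1, .., h_s] f = Δ_{h_s} .. Δ_{h_1} f`, `Δ_h f(x) = f(x + h) - f(x)`.

PROOFS.
* `dl_shift`: induction on the list (generalise `f`): `dl l (fun x => f (x+h) - f x) x = dl l f (x + h) - dl l f x`; both sides are additive in `f` and commute with translations (it is convenient to prove first
  `dl l (fun x => f (x + t)) x = dl l f (x + t)` and `dl l (fun x => f x - g x) x = dl l f x - dl l g x`).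
* `dl_bound` (mean value theorem): `F 0, F 1, ..` functions with `HasDerivAt (F j) (F (j+1) x) x` for `x > 0`.  If `m ≤ F s (y) ≤ M` for all `y ∈ [x, x + l.sum]`, `s = l.length`, `x > 0`, then
  `m ∏ h ≤ dl l (F 0) x ≤ M ∏ h`.  Induction on `l = h :: l'`: apply the induction hypothesis to `G j (y) = F j (y + h) - F j (y)` (again a chain of derivatives on `x > 0`), `length l' = s - 1`:
  `G (s-1) (y) = F (s-1) (y + h) - F (s-1) (y) = h F s (ζ)`, `ζ ∈ (y, y + h)` (`exists_hasDerivAt_eq_slope`), which is in `[h m, h M]`; `y ∈ [x, x + l'.sum]`, so `ζ ∈ [x, x + l.sum]`.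
* `logD`: `F 0 = Real.log`, `F (j+1) (x) = (-1)^j j! / x^(j+1)` (for `x ≠ 0`; `HasDerivAt` of `x ↦ (x^(j+1))⁻¹`).  On `[x, x + l.sum] ⊆ [N, (s + 3) N]` (`x ≤ 3 N`, all `h ≤ N`):
  `(s-1)!/((s+3) N)^s ≤ (-1)^(s-1) F s ≤ (s-1)!/N^s`, and `∏ h / N^s = ∏ (h/N)`.  Apply `dl_bound` to `F` or `-F` according to the parity of `s` (`dl l (-f) = - dl l f`).
  `(-1)^(s+1) = (-1)^(s-1)` for `s ≥ 1`.
-/

namespace Pool.Agent.GTP

theorem logD_dl_trans (l : List ℕ) (f : ℝ → ℝ) (t x : ℝ) :
    dl l (fun y => f (y + t)) x = dl l f (x + t) := by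
  induction l generalizing f x with
  | nil => rfl
  | cons h l ih =>
    have h1 := ih (fun y => f (y + h) - f y) x
    simp only [dl]
    rw [← h1]
    congr 1
    funext y
    congr 2
    ring

theorem logD_dl_sub (l : List ℕ) (f g : ℝ → ℝ) (x : ℝ) :
    dl l (fun y => f y - g y) x = dl l f x - dl l g x := by
  induction l generalizing f g x with
  | nil => rfl
  | cons h l ih =>
    have h1 := ih (fun y => f (y + h) - f y) (fun y => g (y + h) - g y) x
    simp only [dl]
    rw [← h1]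
    congr 1
    funext y
    ring

theorem logD_dl_mul (l : List ℕ) (c : ℝ) (f : ℝ → ℝ) (x : ℝ) :
    dl l (fun y => c * f y) x = c * dl l f x := by
  induction l generalizing f x with
  | nil => rfl
  | cons h l ih =>
    have h1 := ih (fun y => f (y + h) - f y) x
    simp only [dl]
    rw [← h1]
    congr 1
    funext y
    ring

theorem dl_shift (l : List ℕ) (f : ℝ → ℝ) (h x : ℝ) :
    dl l (fun y => f (y + h) - f y) x = dl l f (x + h) - dl l f x := by
  rw [logD_dl_sub l (fun y => f (y + h)) f x, logD_dl_trans]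

theorem dl_bound (l : List ℕ) (F : ℕ → ℝ → ℝ) (hF : ∀ j, ∀ x : ℝ, 0 < x → HasDerivAt (F j) (F (j + 1) x) x)
    {x m M : ℝ} (hx : 0 < x) (hm : ∀ y, x ≤ y → y ≤ x + ((l.sum : ℕ) : ℝ) → m ≤ F l.length y ∧ F l.length y ≤ M) :
    m * (l.map (fun h : ℕ => (h : ℝ))).prod ≤ dl l (F 0) x ∧
      dl l (F 0) x ≤ M * (l.map (fun h : ℕ => (h : ℝ))).prod := by
  induction l generalizing F m M with
  | nil =>
    have h1 := hm x le_rfl (by simp)
    simpa [dl] using h1
  | cons h l ih =>
    have hh0 : (0 : ℝ) ≤ h := Nat.cast_nonneg h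
    have hG : ∀ j, ∀ y : ℝ, 0 < y → HasDerivAt (fun z => F j (z + h) - F j z)
        (F (j + 1) (y + h) - F (j + 1) y) y := by
      intro j y hy
      exact ((hF j (y + h) (by linarith)).comp_add_const y h).sub (hF j y hy)
    have h1 := ih (fun j z => F j (z + h) - F j z) hG (m := m * h) (M := M * h) (by
      intro y hy1 hy2
      have hy0 : 0 < y := lt_of_lt_of_le hx hy1
      rcases Nat.eq_zero_or_pos h with h0 | h0
      · subst h0
        simp
      · have hhp : (0 : ℝ) < h := by exact_mod_cast h0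
        obtain ⟨ζ, hζ, hs⟩ := exists_hasDerivAt_eq_slope (F l.length) (F (l.length + 1))
          (show y < y + h by linarith)
          (fun z hz => (hF _ z (lt_of_lt_of_le hy0 hz.1)).continuousAt.continuousWithinAt)
          (fun z hz => hF _ z (hy0.trans hz.1))
        have h2 : F l.length (y + h) - F l.length y = F (l.length + 1) ζ * h := by
          rw [hs, add_sub_cancel_left]
          field_simp
        have h3 := hm ζ (hy1.trans hζ.1.le) (by
          rw [List.sum_cons, Nat.cast_add]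
          linarith [hζ.2])
        rw [List.length_cons] at h3
        simp only [h2]
        exact ⟨mul_le_mul_of_nonneg_right h3.1 hh0, mul_le_mul_of_nonneg_right h3.2 hh0⟩)
    simp only [dl, List.map_cons, List.prod_cons]
    rw [← mul_assoc, ← mul_assoc]
    exact h1

/-- the derivatives of the logarithm -/
noncomputable def logD_F : ℕ → ℝ → ℝ
  | 0 => Real.log
  | j + 1 => fun x => (-1) ^ j * (j.factorial : ℝ) * (x ^ (j + 1))⁻¹

theorem logD_F_deriv (j : ℕ) (x : ℝ) (hx : 0 < x) : HasDerivAt (logD_F j) (logD_F (j + 1) x) x := by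
  cases j with
  | zero =>
    have h1 := Real.hasDerivAt_log hx.ne'
    simpa [logD_F] using h1
  | succ j =>
    have h1 : HasDerivAt (fun y : ℝ => (y ^ (j + 1))⁻¹)
        (-(((j + 1 : ℕ) : ℝ) * x ^ j) / (x ^ (j + 1)) ^ 2) x := by
      exact (hasDerivAt_pow (j + 1) x).fun_inv (pow_ne_zero _ hx.ne')
    have h3 := h1.const_mul ((-1) ^ j * (j.factorial : ℝ))
    refine h3.congr_deriv ?_
    simp only [logD_F]
    rw [Nat.factorial_succ]
    push_cast
    field_simp
    ring

theorem logD_prod (l : List ℕ) (N : ℝ) :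
    (l.map (fun h : ℕ => (h : ℝ) / N)).prod = (l.map (fun h : ℕ => (h : ℝ))).prod / N ^ l.length := by
  induction l with
  | nil => simp
  | cons h l ih =>
    simp only [List.map_cons, List.prod_cons, List.length_cons, ih, pow_succ]
    ring

theorem logD_sum (l : List ℕ) (N : ℕ) (h : ∀ x ∈ l, x ≤ N) : l.sum ≤ l.length * N := by
  have := List.sum_le_card_nsmul l N h
  simpa using this

theorem logD (s : ℕ) (hs : 1 ≤ s) : ∃ c C : ℝ, 0 < c ∧ 0 < C ∧ ∀ l : List ℕ, l.length = s → ∀ N : ℕ, 1 ≤ N →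
    (∀ h ∈ l, 1 ≤ h ∧ h ≤ N) → ∀ x : ℝ, (N : ℝ) ≤ x → x ≤ 3 * N →
      c * (l.map (fun h : ℕ => (h : ℝ) / N)).prod ≤ (-1) ^ (s + 1) * dl l Real.log x ∧
      (-1) ^ (s + 1) * dl l Real.log x ≤ C * (l.map (fun h : ℕ => (h : ℝ) / N)).prod := by
  obtain ⟨t, rfl⟩ : ∃ t, s = t + 1 := ⟨s - 1, by omega⟩
  refine ⟨(t.factorial : ℝ) / ((t : ℝ) + 4) ^ (t + 1), t.factorial, by positivity, by positivity, ?_⟩
  intro l hl N hN hh x hx1 hx2
  have hN0 : (0 : ℝ) < N := by exact_mod_cast hN
  have hx0 : 0 < x := lt_of_lt_of_le hN0 hx1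
  have hsum : ((l.sum : ℕ) : ℝ) ≤ ((t : ℝ) + 1) * N := by
    have h1 := logD_sum l N fun y hy => (hh y hy).2
    rw [hl] at h1
    exact_mod_cast h1
  have hsgn : ((-1 : ℝ) ^ (t + 1 + 1)) * (-1) ^ t = 1 := by
    rw [← pow_add]
    exact Even.neg_one_pow ⟨t + 1, by ring⟩
  have key := dl_bound l (fun j y => (-1) ^ (t + 1 + 1) * logD_F j y)
    (fun j y hy => (logD_F_deriv j y hy).const_mul _) hx0
    (m := (t.factorial : ℝ) / ((t : ℝ) + 4) ^ (t + 1) / (N : ℝ) ^ (t + 1))
    (M := (t.factorial : ℝ) / (N : ℝ) ^ (t + 1)) (by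
      intro y hy1 hy2
      have hyN : (N : ℝ) ≤ y := hx1.trans hy1
      have hy0 : 0 < y := lt_of_lt_of_le hx0 hy1
      have hy4 : y ≤ ((t : ℝ) + 4) * N := by nlinarith
      have h1 : (-1 : ℝ) ^ (t + 1 + 1) * logD_F l.length y = (t.factorial : ℝ) / y ^ (t + 1) := by
        rw [hl]
        simp only [logD_F]
        rw [← mul_assoc, ← mul_assoc, hsgn, one_mul, div_eq_mul_inv]
      simp only [h1]
      constructor
      · rw [div_div, ← mul_pow]
        gcongr
      · gcongr)
  have h2 : dl l (fun y => (-1 : ℝ) ^ (t + 1 + 1) * logD_F 0 y) x =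
      (-1) ^ (t + 1 + 1) * dl l Real.log x := logD_dl_mul l _ _ x
  simp only [h2] at key
  rw [logD_prod, hl]
  refine ⟨le_of_eq_of_le ?_ key.1, key.2.trans_eq ?_⟩
  · ring
  · ring

end Pool.Agent.GTP
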