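import Mathlib
import Pool.Agent.GTP.Defs
import Pool.Agent.GTP.KL
import Pool.Agent.GTP.LogD
import Pool.Agent.Nil.Filt

set_option autoImplicit false

/-!
# GTP/Wabs: van der Corput in a unitary representation, with logarithmic phases

`k : ℤ → G` a polynomial sequence of level `i` (`Pool.Nil.IsSeq F i k`, `dz k n = (k n)⁻¹ * k (n+1)`), `F (i + r) = ⊥`, `l` a list of `s` differences in `[1, N]`, `Y = |ω| ∏ (h/N) > 0` (`≤ |ω|`).
CLAIM: `‖∑_{a < n ≤ b} e(ω D_l log n) U(k n) v‖ ≤ C N Y^(-1/2^(r+1)) ‖v‖`.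

PROOF.  Induction on `r` (for all `s`); trivially the sum is at most `(#Ioc a b) ‖v‖ ≤ N ‖v‖` (if `a ≤ b`; else it is empty).
* `r = 0`: `F i = ⊥`, so `k n = 1` (`IsSeq.val`), `U 1 = 1` and the sum is `(∑ e(f n)) • v`, `f n = ω dl l log n`.  By `dl_shift` `f(n+1) - f(n) = ω dl (1 :: l) log n` (`dl (1 :: l) log x = dl l (Δ_1 log) x`), by
  `LogD.logD (s+1)` it has absolute value between `c Y/N` and `C Y/N ≤ C |ω|/N ≤ 1/2` (the constant of the theorem is large; `l`-product for `1 :: l` is `(1/N) ∏ (h/N)`; `x = n ∈ [N, 3N]`) and constant sign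
  `σ = (-1)^s sign ω`.  The second difference `f(n+2) - 2 f(n+1) + f(n) = ω dl (1 :: 1 :: l) log n` has the sign `-σ` (`logD (s+2)`).  So `σ f` satisfies the hypotheses of `KL.kl` with `lam = min (c Y/N) (1/2)`
  (if `σ = -1` take complex conjugates: `‖∑ e(f n)‖ = ‖∑ e(-f n)‖`), hence the sum is at most `C N/Y` (`c Y/N ≤ 1/2` as it is a lower bound for a quantity `≤ 1/2`, if the range is nonempty), and also at most `N`:
  `min(1, 1/Y) ≤ Y^(-1/2)`.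
* `r - 1 ⇒ r`: `u_n = e(f n) U(k n) v`.  `‖∑ u_n‖² = ∑ ‖u_n‖² + 2 Re ∑_{h=1}^{N-1} ∑_{a < n ≤ b - h} ⟪u_n, u_{n+h}⟫` (`n, n + h ∈ Ioc a b`, `b - a ≤ N`) and
  `⟪u_n, u_{n+h}⟫ = e(f(n+h) - f(n)) ⟪v, U((k n)⁻¹ k(n+h)) v⟫`, `f(n+h) - f(n) = ω dl (h :: l) log n` (`dl_shift`; the list `h :: l` has length `s + 1`, its `Y` is `Y h/N`).  The sequence `n ↦ (k n)⁻¹ k(n+h)` is the product
  of the `dz k (n + j)`, `j < h`, so it is of level `i + 1` (`IsSeq.diff`, shifts of `IsSeq` are `IsSeq` (prove by induction on the order from the definition `SQ`), `IsSeq.mul`), and `F (i + 1 + (r - 1)) = ⊥`.  By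
  induction (Cauchy–Schwarz): `|∑_n ⟪u_n, u_{n+h}⟫| ≤ C' N (Y h/N)^(-c) ‖v‖²`, `c = 1/2^r ≤ 1/2`.  `∑_{h=1}^{N-1} (h/N)^(-c) ≤ 2 N` (`(h/N)^(-c) ≤ (h/N)^(-1/2)` and `∑_{h ≤ N} h^(-1/2) ≤ 2 √N`).  So
  `‖∑ u_n‖² ≤ N ‖v‖² + 4 C' N² Y^(-c) ‖v‖² ≤ (1 + 4 C') N² Y^(-c) ‖v‖²` since `Y ≤ |ω| ≤ N` gives `Y^(-c) ≥ N^(-c) ≥ N^(-1)`.  Take square roots.
(The constant for `(r, s)` is built from the one for `(r - 1, s + 1)`.)
-/

namespace Pool.Agent.GTP

open Finset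

universe u v

/-! ### auxiliary lemmas -/

/-- `∑_{1 ≤ h ≤ N} h^(-1/2) ≤ 2 √N` -/
private theorem Wabs_sqrt (N : ℕ) : ∑ h ∈ Ico 1 (N + 1), (Real.sqrt h)⁻¹ ≤ 2 * Real.sqrt N := by
  induction N with
  | zero => simp
  | succ N ih =>
    rw [Finset.sum_Ico_succ_top (by omega)]
    have h0 : (0 : ℝ) ≤ N := Nat.cast_nonneg N
    have h1 : 0 < Real.sqrt ((N + 1 : ℕ) : ℝ) := Real.sqrt_pos.2 (by positivity)
    have h2 : Real.sqrt ((N + 1 : ℕ) : ℝ) ^ 2 = (N : ℝ) + 1 := by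
      rw [Real.sq_sqrt (by positivity)]
      push_cast
      ring
    have h3 : Real.sqrt (N : ℝ) ^ 2 = N := Real.sq_sqrt h0
    have h4 : (Real.sqrt ((N + 1 : ℕ) : ℝ))⁻¹ ≤ 2 * Real.sqrt ((N + 1 : ℕ) : ℝ) - 2 * Real.sqrt (N : ℝ) := by
      rw [inv_le_iff_one_le_mul₀ h1]
      nlinarith [sq_nonneg (Real.sqrt ((N + 1 : ℕ) : ℝ) - Real.sqrt (N : ℝ))]
    linarith

/-- the sum of the weights of van der Corput -/
private theorem Wabs_sum {N : ℕ} (hN : 1 ≤ N) {c : ℝ} (hc : c ≤ 1 / 2) :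
    ∑ h ∈ Ico 1 N, ((h : ℝ) / N) ^ (-c) ≤ 2 * N := by
  have hN0 : (0 : ℝ) < N := by exact_mod_cast hN
  have h1 : ∀ h ∈ Ico 1 N, ((h : ℝ) / N) ^ (-c) ≤ Real.sqrt N * (Real.sqrt h)⁻¹ := by
    intro h hh
    rw [mem_Ico] at hh
    have h0 : (0 : ℝ) < h := by exact_mod_cast hh.1
    have h2 : (h : ℝ) / N ≤ 1 := (div_le_one hN0).2 (by exact_mod_cast hh.2.le)
    have h3 : ((h : ℝ) / N) ^ (-c) ≤ ((h : ℝ) / N) ^ (-(1 / 2) : ℝ) :=
      Real.rpow_le_rpow_of_exponent_ge (by positivity) h2 (by linarith)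
    refine h3.trans (le_of_eq ?_)
    rw [Real.rpow_neg (by positivity), ← Real.sqrt_eq_rpow, Real.sqrt_div h0.le, inv_div, div_eq_mul_inv]
  have h2 : ∑ h ∈ Ico 1 N, (Real.sqrt h)⁻¹ ≤ 2 * Real.sqrt N := by
    refine le_trans ?_ (Wabs_sqrt N)
    refine Finset.sum_le_sum_of_subset_of_nonneg (Ico_subset_Ico_right (Nat.le_succ N)) fun h _ _ => ?_
    exact inv_nonneg.2 (Real.sqrt_nonneg _)
  calc ∑ h ∈ Ico 1 N, ((h : ℝ) / N) ^ (-c) ≤ ∑ h ∈ Ico 1 N, Real.sqrt N * (Real.sqrt h)⁻¹ := sum_le_sum h1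
    _ = Real.sqrt N * ∑ h ∈ Ico 1 N, (Real.sqrt h)⁻¹ := by rw [mul_sum]
    _ ≤ Real.sqrt N * (2 * Real.sqrt N) := mul_le_mul_of_nonneg_left h2 (Real.sqrt_nonneg _)
    _ = 2 * N := by
        have := Real.mul_self_sqrt hN0.le
        linear_combination 2 * this

section
variable {H : Type*} [NormedAddCommGroup H] [InnerProductSpace ℂ H]

/-- the square of the norm of a sum -/
private theorem Wabs_sq (u : ℕ → H) (a m : ℕ) :
    ‖∑ n ∈ Ioc a (a + m), u n‖ ^ 2 = ∑ n ∈ Ioc a (a + m), ‖u n‖ ^ 2 +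
      2 * (∑ j ∈ Ioc a (a + m), ∑ n ∈ Ioc a (j - 1), inner ℂ (u n) (u j)).re := by
  induction m with
  | zero => simp
  | succ m ih =>
    rw [← add_assoc, Finset.sum_Ioc_succ_top (by omega), Finset.sum_Ioc_succ_top (by omega),
      Finset.sum_Ioc_succ_top (by omega), norm_add_sq (𝕜 := ℂ), ih, sum_inner, Nat.add_sub_cancel,
      Complex.add_re]
    change _ + 2 * (∑ n ∈ Ioc a (a + m), inner ℂ (u n) (u (a + m + 1))).re + _ = _
    ring

private theorem Wabs_re (u : ℕ → H) (a b M : ℕ) (hM : b ≤ a + M) :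
    ∑ j ∈ Ioc a b, ∑ n ∈ Ioc a (j - 1), inner ℂ (u n) (u j) =
      ∑ h ∈ Ico 1 M, ∑ n ∈ Ioc a (b - h), inner ℂ (u n) (u (n + h)) := by
  rw [Finset.sum_sigma', Finset.sum_sigma']
  refine Finset.sum_nbij' (fun p => ⟨p.1 - p.2, p.2⟩) (fun p => ⟨p.2 + p.1, p.2⟩) ?_ ?_ ?_ ?_ ?_
  · rintro ⟨j, n⟩ hp
    simp only [mem_sigma, mem_Ioc, mem_Ico] at hp ⊢
    omega
  · rintro ⟨h, n⟩ hp
    simp only [mem_sigma, mem_Ioc, mem_Ico] at hp ⊢
    omega
  · rintro ⟨j, n⟩ hp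
    simp only [mem_sigma, mem_Ioc] at hp
    have h1 : n + (j - n) = j := by omega
    simp only [h1]
  · rintro ⟨h, n⟩ hp
    have h1 : n + h - n = h := by omega
    simp only [h1]
  · rintro ⟨j, n⟩ hp
    simp only [mem_sigma, mem_Ioc] at hp
    have h1 : n + (j - n) = j := by omega
    simp only [h1]

/-- van der Corput -/
private theorem Wabs_vdc (u : ℕ → H) (a b M : ℕ) (hM : b ≤ a + M) (K : ℝ) (hK : ∀ n ∈ Ioc a b, ‖u n‖ ≤ K) :
    ‖∑ n ∈ Ioc a b, u n‖ ^ 2 ≤ M * K ^ 2 +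
      2 * ∑ h ∈ Ico 1 M, ‖∑ n ∈ Ioc a (b - h), inner ℂ (u n) (u (n + h))‖ := by
  rcases Nat.lt_or_ge b a with hb | hb
  · have h1 : Ioc a b = ∅ := Ioc_eq_empty_of_le hb.le
    rw [h1, sum_empty, norm_zero]
    have : 0 ≤ ∑ h ∈ Ico 1 M, ‖∑ n ∈ Ioc a (b - h), inner ℂ (u n) (u (n + h))‖ :=
      sum_nonneg fun h _ => norm_nonneg _
    rw [zero_pow two_ne_zero]
    positivity
  · obtain ⟨m, rfl⟩ := Nat.exists_eq_add_of_le hb
    rw [Wabs_sq, Wabs_re u a (a + m) M hM]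
    refine add_le_add ?_ (mul_le_mul_of_nonneg_left ?_ (by norm_num))
    · calc ∑ n ∈ Ioc a (a + m), ‖u n‖ ^ 2 ≤ ∑ n ∈ Ioc a (a + m), K ^ 2 :=
            sum_le_sum fun n hn => pow_le_pow_left₀ (norm_nonneg _) (hK n hn) 2
        _ = m * K ^ 2 := by
            rw [sum_const, Nat.card_Ioc, Nat.add_sub_cancel_left, nsmul_eq_mul]
        _ ≤ M * K ^ 2 := by
            have : (m : ℝ) ≤ M := by exact_mod_cast (by omega : m ≤ M)
            exact mul_le_mul_of_nonneg_right this (sq_nonneg _)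
    · exact (Complex.re_le_norm _).trans (norm_sum_le _ _)

end

/-- translates of polynomial sequences -/
private theorem Wabs_shift {G : Type*} [Group G] {F : ℕ → Subgroup G} {i : ℕ} {f : ℤ → G}
    (hf : Pool.Nil.IsSeq F i f) (c : ℤ) : Pool.Nil.IsSeq F i (fun n => f (n + c)) := by
  rw [Pool.Nil.isSeq_iff] at hf ⊢
  exact hf.shift (fun _ => c)

/-- long differences of polynomial sequences -/
private theorem Wabs_diff {G : Type*} [Group G] {F : ℕ → Subgroup G} (hF : Pool.Nil.Filt F) {i : ℕ} {k : ℤ → G}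
    (hk : Pool.Nil.IsSeq F i k) (h : ℕ) : Pool.Nil.IsSeq F (i + 1) (fun n => (k n)⁻¹ * k (n + h)) := by
  induction h with
  | zero =>
    have e : (fun n => (k n)⁻¹ * k (n + (0 : ℕ))) = fun _ => 1 := by
      funext n
      rw [Nat.cast_zero, add_zero, inv_mul_cancel]
    rw [e]
    exact Pool.Nil.IsSeq.const (one_mem _)
  | succ h ih =>
    have h1 := ih.mul hF (Wabs_shift hk.diff (h : ℤ))
    have e : (fun n => (k n)⁻¹ * k (n + (h + 1 : ℕ))) =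
        (fun n => (k n)⁻¹ * k (n + h)) * fun n => Pool.Nil.dz k (n + h) := by
      funext n
      simp only [Pi.mul_apply, Pool.Nil.dz]
      push_cast
      rw [← add_assoc]
      group
    rw [e]
    exact h1

private theorem Wabs_prod {N : ℕ} (hN : 1 ≤ N) (l : List ℕ) (hl : ∀ h ∈ l, 1 ≤ h ∧ h ≤ N) :
    0 < (l.map (fun h : ℕ => (h : ℝ) / N)).prod ∧ (l.map (fun h : ℕ => (h : ℝ) / N)).prod ≤ 1 := by
  have hN0 : (0 : ℝ) < N := by exact_mod_cast hN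
  induction l with
  | nil => simp
  | cons h l ih =>
    obtain ⟨h1, h2⟩ := ih fun x hx => hl x (List.mem_cons_of_mem _ hx)
    obtain ⟨h3, h4⟩ := hl h List.mem_cons_self
    have h5 : (0 : ℝ) < h := by exact_mod_cast h3
    have h6 : (h : ℝ) / N ≤ 1 := (div_le_one hN0).2 (by exact_mod_cast h4)
    rw [List.map_cons, List.prod_cons]
    exact ⟨by positivity, mul_le_one₀ h6 h1.le h2⟩

private theorem Wabs_cons (l : List ℕ) (h : ℕ) (x : ℝ) :
    dl (h :: l) Real.log x = dl l Real.log (x + h) - dl l Real.log x := dl_shift l Real.log h x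

/-- change of the sign of the phase -/
private theorem Wabs_sgn (I : Finset ℕ) (f : ℕ → ℝ) (σ : ℝ) (hσ : σ = 1 ∨ σ = -1) :
    ‖∑ n ∈ I, ee (σ * f n)‖ = ‖∑ n ∈ I, ee (f n)‖ := by
  rcases hσ with rfl | rfl
  · simp only [one_mul]
  · rw [← Complex.norm_conj (∑ n ∈ I, ee (f n)), map_sum]
    congr 1
    refine sum_congr rfl fun n _ => ?_
    rw [ee_conj]
    congr 1
    ring

/-- the scalar sum -/
private theorem Wabs_base (s : ℕ) : ∃ C : ℝ, 1 ≤ C ∧ ∀ l : List ℕ, l.length = s → ∀ N : ℕ, 1 ≤ N →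
    (∀ h ∈ l, 1 ≤ h ∧ h ≤ N) → ∀ a b : ℕ, N ≤ a → b ≤ 2 * N → ∀ ω : ℝ, ω ≠ 0 → C * |ω| ≤ N →
      ‖∑ n ∈ Ioc a b, ee (ω * dl l Real.log n)‖ ≤
        C * N * (|ω| * (l.map (fun h : ℕ => (h : ℝ) / N)).prod) ^ (-(1 / 2) : ℝ) := by
  obtain ⟨C₀, hC₀, hkl⟩ := kl
  obtain ⟨c₁, C₁, hc₁, hC₁, hl₁⟩ := logD (s + 1) (by omega)
  obtain ⟨c₂, C₂, hc₂, hC₂, hl₂⟩ := logD (s + 2) (by omega)
  set c : ℝ := min c₁ C₁ with hc
  have hc0 : 0 < c := lt_min hc₁ hC₁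
  refine ⟨1 + 2 * C₁ + C₀ / c, ?_, ?_⟩
  · have : 0 < C₀ / c := by positivity
    linarith
  intro l hl N hN hh a b ha hb ω hω hωN
  have hN0 : (0 : ℝ) < N := by exact_mod_cast hN
  obtain ⟨hP0, hP1⟩ := Wabs_prod hN l hh
  set P : ℝ := (l.map (fun h : ℕ => (h : ℝ) / N)).prod with hP
  have hω0 : 0 < |ω| := abs_pos.2 hω
  set Y : ℝ := |ω| * P with hY
  have hY0 : 0 < Y := by positivity
  have hYω : Y ≤ |ω| := by
    rw [hY]
    exact mul_le_of_le_one_right hω0.le hP1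
  have hCω : 2 * C₁ * |ω| ≤ N := by
    refine le_trans ?_ hωN
    refine mul_le_mul_of_nonneg_right ?_ hω0.le
    have : 0 < C₀ / c := by positivity
    linarith
  -- the trivial bound
  have htriv : ‖∑ n ∈ Ioc a b, ee (ω * dl l Real.log n)‖ ≤ N := by
    refine (norm_sum_le _ _).trans ?_
    simp only [norm_ee, sum_const, Nat.card_Ioc, nsmul_eq_mul, mul_one]
    exact_mod_cast (by omega : b - a ≤ N)
  -- the lists
  have hh1 : ∀ h ∈ 1 :: l, 1 ≤ h ∧ h ≤ N := by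
    intro h hm
    rcases List.mem_cons.1 hm with rfl | hm
    · exact ⟨le_rfl, hN⟩
    · exact hh h hm
  have hh2 : ∀ h ∈ 1 :: 1 :: l, 1 ≤ h ∧ h ≤ N := by
    intro h hm
    rcases List.mem_cons.1 hm with rfl | hm
    · exact ⟨le_rfl, hN⟩
    · exact hh1 h hm
  have hP1' : ((1 :: l).map (fun h : ℕ => (h : ℝ) / N)).prod = P / N := by
    rw [List.map_cons, List.prod_cons, ← hP]
    push_cast
    ring
  have hP2' : 0 < ((1 :: 1 :: l).map (fun h : ℕ => (h : ℝ) / N)).prod := (Wabs_prod hN _ hh2).1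
  -- the sign
  obtain ⟨σ, hσ1, hσ2⟩ : ∃ σ : ℝ, (σ = 1 ∨ σ = -1) ∧ σ * ω = (-1) ^ s * |ω| := by
    rcases lt_or_gt_of_ne hω with h | h
    · refine ⟨-(-1) ^ s, ?_, ?_⟩
      · rcases neg_one_pow_eq_or ℝ s with h1 | h1 <;> simp [h1]
      · rw [abs_of_neg h]
        ring
    · refine ⟨(-1) ^ s, neg_one_pow_eq_or ℝ s, ?_⟩
      rw [abs_of_pos h]
  set f : ℕ → ℝ := fun n => σ * (ω * dl l Real.log n) with hf
  have hinc : ∀ n : ℕ, f (n + 1) - f n = |ω| * ((-1) ^ (s + 1 + 1) * dl (1 :: l) Real.log n) := by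
    intro n
    have h1 := Wabs_cons l 1 (n : ℝ)
    rw [h1]
    simp only [hf]
    have h2 : (-1 : ℝ) ^ (s + 1 + 1) = (-1) ^ s := by ring
    rw [h2]
    push_cast
    linear_combination (dl l Real.log ((n : ℝ) + 1) - dl l Real.log n) * hσ2
  have hinc2 : ∀ n : ℕ, (f (n + 2) - f (n + 1)) - (f (n + 1) - f n) =
      -(|ω| * ((-1) ^ (s + 2 + 1) * dl (1 :: 1 :: l) Real.log n)) := by
    intro n
    have h1 : f (n + 2) - f (n + 1) = _ := hinc (n + 1)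
    rw [h1, hinc n, Wabs_cons (1 :: l) 1 (n : ℝ)]
    have h2 : (-1 : ℝ) ^ (s + 2 + 1) = -(-1) ^ (s + 1 + 1) := by ring
    rw [h2]
    push_cast
    ring
  have hrange : ∀ n : ℕ, a < n → n < b → (N : ℝ) ≤ n ∧ (n : ℝ) ≤ 3 * N := by
    intro n h1 h2
    constructor
    · exact_mod_cast (by omega : N ≤ n)
    · exact_mod_cast (by omega : n ≤ 3 * N)
  have hlam : c * Y / N ≤ 1 / 2 := by
    rw [div_le_iff₀ hN0]
    have h1 : c ≤ C₁ := min_le_right _ _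
    have h2 : c * Y ≤ C₁ * |ω| := mul_le_mul h1 hYω hY0.le hC₁.le
    linarith
  have hk := hkl f a b (c * Y / N) (by positivity) (by
    intro n h1 h2
    obtain ⟨h3, h4⟩ := hrange n h1 h2
    obtain ⟨h5, h6⟩ := hl₁ (1 :: l) (by rw [List.length_cons, hl]) N hN hh1 n h3 h4
    rw [hP1'] at h5 h6
    rw [hinc n]
    constructor
    · have h7 : c * (P / N) ≤ (-1) ^ (s + 1 + 1) * dl (1 :: l) Real.log n :=
        le_trans (mul_le_mul_of_nonneg_right (min_le_left _ _) (by positivity)) h5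
      calc c * Y / N = |ω| * (c * (P / N)) := by rw [hY]; ring
        _ ≤ _ := mul_le_mul_of_nonneg_left h7 hω0.le
    · calc |ω| * ((-1) ^ (s + 1 + 1) * dl (1 :: l) Real.log n) ≤ |ω| * (C₁ * (P / N)) :=
            mul_le_mul_of_nonneg_left h6 hω0.le
        _ = C₁ * Y / N := by rw [hY]; ring
        _ ≤ 1 / 2 := by
            rw [div_le_iff₀ hN0]
            have h8 : C₁ * Y ≤ C₁ * |ω| := mul_le_mul_of_nonneg_left hYω hC₁.le
            linarith)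
    (by
      intro n h1 h2
      obtain ⟨h3, h4⟩ := hrange n h1 (by omega)
      obtain ⟨h5, _⟩ := hl₂ (1 :: 1 :: l) (by rw [List.length_cons, List.length_cons, hl]) N hN hh2 n h3 h4
      have h6 : 0 ≤ |ω| * ((-1) ^ (s + 2 + 1) * dl (1 :: 1 :: l) Real.log n) :=
        mul_nonneg hω0.le (le_trans (by positivity) h5)
      have h7 := hinc2 n
      linarith)
    hlam
  rw [Wabs_sgn (Ioc a b) (fun n => ω * dl l Real.log n) σ hσ1] at hk
  have hk' : ‖∑ n ∈ Ioc a b, ee (ω * dl l Real.log n)‖ ≤ C₀ / c * (N / Y) := by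
    refine hk.trans (le_of_eq ?_)
    field_simp
  have hrp : Y ^ (-(1 / 2) : ℝ) = (Real.sqrt Y)⁻¹ := by
    rw [Real.rpow_neg hY0.le, ← Real.sqrt_eq_rpow]
  have hsq : 0 < Real.sqrt Y := Real.sqrt_pos.2 hY0
  rw [hrp]
  have hCc : 0 < C₀ / c := by positivity
  rcases le_total Y 1 with h1 | h1
  · have h2 : 1 ≤ (Real.sqrt Y)⁻¹ := (one_le_inv₀ hsq).2 (Real.sqrt_le_one.2 h1)
    calc ‖∑ n ∈ Ioc a b, ee (ω * dl l Real.log n)‖ ≤ 1 * N * 1 := by rw [one_mul, mul_one]; exact htriv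
      _ ≤ (1 + 2 * C₁ + C₀ / c) * N * (Real.sqrt Y)⁻¹ := by
          gcongr
          linarith
  · have h2 : N / Y ≤ N * (Real.sqrt Y)⁻¹ := by
      rw [div_eq_mul_inv]
      refine mul_le_mul_of_nonneg_left ?_ hN0.le
      refine inv_anti₀ hsq ?_
      have h3 : 1 ≤ Real.sqrt Y := Real.one_le_sqrt.2 h1
      have h4 := Real.mul_self_sqrt hY0.le
      nlinarith
    calc ‖∑ n ∈ Ioc a b, ee (ω * dl l Real.log n)‖ ≤ C₀ / c * (N / Y) := hk'
      _ ≤ C₀ / c * (N * (Real.sqrt Y)⁻¹) := mul_le_mul_of_nonneg_left h2 hCc.le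
      _ = C₀ / c * N * (Real.sqrt Y)⁻¹ := by ring
      _ ≤ (1 + 2 * C₁ + C₀ / c) * N * (Real.sqrt Y)⁻¹ := by
          gcongr
          linarith

theorem wabs (r s : ℕ) : ∃ C : ℝ, 1 ≤ C ∧ ∀ {G : Type u} [Group G] {F : ℕ → Subgroup G}, Pool.Nil.Filt F →
    ∀ {H : Type v} [NormedAddCommGroup H] [InnerProductSpace ℂ H] (U : G →* (H ≃ₗᵢ[ℂ] H)) (i : ℕ), F (i + r) = ⊥ →
    ∀ k : ℤ → G, Pool.Nil.IsSeq F i k → ∀ l : List ℕ, l.length = s → ∀ N : ℕ, 1 ≤ N → (∀ h ∈ l, 1 ≤ h ∧ h ≤ N) →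
    ∀ a b : ℕ, N ≤ a → b ≤ 2 * N → ∀ ω : ℝ, ω ≠ 0 → C * |ω| ≤ N → ∀ v : H,
      ‖∑ n ∈ Ioc a b, ee (ω * dl l Real.log n) • U (k n) v‖ ≤
        C * N * (|ω| * (l.map (fun h : ℕ => (h : ℝ) / N)).prod) ^ (-(1 / 2 ^ (r + 1)) : ℝ) * ‖v‖ := by
  induction r generalizing s with
  | zero =>
    obtain ⟨C, hC, h⟩ := Wabs_base s
    refine ⟨C, hC, ?_⟩
    intro G _ F hF H _ _ U i hi k hk l hl N hN hh a b ha hb ω hω hωN v
    have hk1 : ∀ n : ℤ, k n = 1 := by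
      intro n
      have h1 := hk.val n
      rw [add_zero] at hi
      rw [hi] at h1
      exact Subgroup.mem_bot.1 h1
    have h1 : ∑ n ∈ Ioc a b, ee (ω * dl l Real.log n) • U (k n) v =
        (∑ n ∈ Ioc a b, ee (ω * dl l Real.log n)) • v := by
      rw [sum_smul]
      refine sum_congr rfl fun n _ => ?_
      rw [hk1, map_one]
      rfl
    rw [h1, norm_smul, zero_add, pow_one]
    exact mul_le_mul_of_nonneg_right (h l hl N hN hh a b ha hb ω hω hωN) (norm_nonneg _)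
  | succ r ih =>
    obtain ⟨C', hC', h⟩ := ih (s + 1)
    refine ⟨1 + 4 * C', by linarith, ?_⟩
    intro G _ F hF H _ _ U i hi k hk l hl N hN hh a b ha hb ω hω hωN v
    have hN0 : (0 : ℝ) < N := by exact_mod_cast hN
    have hN1 : (1 : ℝ) ≤ N := by exact_mod_cast hN
    obtain ⟨hP0, hP1⟩ := Wabs_prod hN l hh
    set P : ℝ := (l.map (fun h : ℕ => (h : ℝ) / N)).prod with hP
    have hω0 : 0 < |ω| := abs_pos.2 hω
    set Y : ℝ := |ω| * P with hY
    have hY0 : 0 < Y := by positivity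
    have hYω : Y ≤ |ω| := by
      rw [hY]
      exact mul_le_of_le_one_right hω0.le hP1
    have hωN' : C' * |ω| ≤ N := le_trans (mul_le_mul_of_nonneg_right (by linarith) hω0.le) hωN
    have hYN : Y ≤ N := by
      have h1 : 1 * |ω| ≤ C' * |ω| := mul_le_mul_of_nonneg_right hC' hω0.le
      linarith
    set c : ℝ := 1 / 2 ^ (r + 1) with hc
    have hc0 : 0 < c := by positivity
    have hc1 : c ≤ 1 / 2 := by
      rw [hc]
      refine one_div_le_one_div_of_le (by norm_num) ?_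
      calc (2 : ℝ) = 2 ^ 1 := (pow_one _).symm
        _ ≤ 2 ^ (r + 1) := pow_le_pow_right₀ (by norm_num) (by omega)
    set u : ℕ → H := fun n => ee (ω * dl l Real.log n) • U (k n) v with hu
    have hun : ∀ n, ‖u n‖ = ‖v‖ := by
      intro n
      simp only [hu]
      rw [norm_smul, norm_ee, one_mul, LinearIsometryEquiv.norm_map]
    have hin : ∀ (n h : ℕ), inner ℂ (u n) (u (n + h)) =
        inner ℂ v (ee (ω * dl (h :: l) Real.log n) • U ((k n)⁻¹ * k (n + h)) v) := by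
      intro n h
      simp only [hu]
      rw [inner_smul_left, inner_smul_right, inner_smul_right, ← mul_assoc, ee_conj, ← ee_add,
        Wabs_cons]
      congr 1
      · congr 1
        push_cast
        ring
      · have h1 : U (k ((n + h : ℕ) : ℤ)) v = U (k n) (U ((k n)⁻¹ * k (n + h)) v) := by
          have h2 : k ((n + h : ℕ) : ℤ) = k n * ((k n)⁻¹ * k (n + h)) := by
            rw [mul_inv_cancel_left]
            push_cast
            rfl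
          rw [h2, map_mul]
          rfl
        rw [h1, LinearIsometryEquiv.inner_map_map]
    have hterm : ∀ h ∈ Ico 1 N, ‖∑ n ∈ Ioc a (b - h), inner ℂ (u n) (u (n + h))‖ ≤
        C' * N * Y ^ (-c) * ‖v‖ ^ 2 * ((h : ℝ) / N) ^ (-c) := by
      intro h' hh'
      rw [mem_Ico] at hh'
      have h0 : (0 : ℝ) < h' := by exact_mod_cast hh'.1
      have h1 : ∑ n ∈ Ioc a (b - h'), inner ℂ (u n) (u (n + h')) =
          inner ℂ v (∑ n ∈ Ioc a (b - h'), ee (ω * dl (h' :: l) Real.log n) •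
            U ((k n)⁻¹ * k (n + h')) v) := by
        rw [inner_sum]
        exact sum_congr rfl fun n _ => hin n h'
      rw [h1]
      refine (norm_inner_le_norm _ _).trans ?_
      have h2 := h hF U (i + 1) (by rw [← hi]; congr 1; omega) (fun n => (k n)⁻¹ * k (n + h'))
        (Wabs_diff hF hk h') (h' :: l) (by rw [List.length_cons, hl]) N hN (by
          intro x hx
          rcases List.mem_cons.1 hx with rfl | hx
          · exact ⟨hh'.1, hh'.2.le⟩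
          · exact hh x hx) a (b - h') ha (by omega) ω hω hωN' v
      have h3 : |ω| * ((h' :: l).map (fun h : ℕ => (h : ℝ) / N)).prod = Y * ((h' : ℝ) / N) := by
        rw [List.map_cons, List.prod_cons, ← hP, hY]
        ring
      rw [h3, Real.mul_rpow hY0.le (by positivity)] at h2
      refine (mul_le_mul_of_nonneg_left h2 (norm_nonneg v)).trans (le_of_eq ?_)
      ring
    have hvdc := Wabs_vdc u a b N (by omega) ‖v‖ (fun n _ => (hun n).le)
    have hS := Wabs_sum hN hc1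
    have hYc : 0 < Y ^ (-c) := Real.rpow_pos_of_pos hY0 _
    have hYc1 : 1 ≤ N * Y ^ (-c) := by
      have h1 : (N : ℝ) ^ (-(1 : ℝ)) ≤ N ^ (-c) := Real.rpow_le_rpow_of_exponent_le hN1 (by linarith)
      have h2 : (N : ℝ) ^ (-c) ≤ Y ^ (-c) := Real.rpow_le_rpow_of_nonpos hY0 hYN (by linarith)
      rw [Real.rpow_neg_one] at h1
      calc (1 : ℝ) = N * (N : ℝ)⁻¹ := (mul_inv_cancel₀ hN0.ne').symm
        _ ≤ N * Y ^ (-c) := mul_le_mul_of_nonneg_left (h1.trans h2) hN0.le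
    have hsq : ‖∑ n ∈ Ioc a b, u n‖ ^ 2 ≤ (1 + 4 * C') * (N ^ 2 * Y ^ (-c) * ‖v‖ ^ 2) := by
      refine hvdc.trans ?_
      have h1 : ∑ h ∈ Ico 1 N, ‖∑ n ∈ Ioc a (b - h), inner ℂ (u n) (u (n + h))‖ ≤
          C' * N * Y ^ (-c) * ‖v‖ ^ 2 * (2 * N) := by
        refine (sum_le_sum hterm).trans ?_
        rw [← mul_sum]
        exact mul_le_mul_of_nonneg_left hS (by positivity)
      have h2 : (N : ℝ) * ‖v‖ ^ 2 ≤ N ^ 2 * Y ^ (-c) * ‖v‖ ^ 2 := by
        refine mul_le_mul_of_nonneg_right ?_ (sq_nonneg _)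
        nlinarith
      nlinarith
    have hfin : ‖∑ n ∈ Ioc a b, u n‖ ≤ (1 + 4 * C') * N * Y ^ (-(1 / 2 ^ (r + 1 + 1)) : ℝ) * ‖v‖ := by
      have e1 : Y ^ (-c) = (Y ^ (-(1 / 2 ^ (r + 1 + 1)) : ℝ)) ^ 2 := by
        rw [← Real.rpow_natCast, ← Real.rpow_mul hY0.le]
        congr 1
        rw [hc, pow_succ (2 : ℝ) (r + 1)]
        push_cast
        field_simp
      have h1 : 0 ≤ (1 + 4 * C') * N * Y ^ (-(1 / 2 ^ (r + 1 + 1)) : ℝ) * ‖v‖ := by
        have := Real.rpow_pos_of_pos hY0 (-(1 / 2 ^ (r + 1 + 1)) : ℝ)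
        positivity
      refine le_trans (le_abs_self _) (abs_le_of_sq_le_sq ?_ h1)
      refine hsq.trans ?_
      rw [e1]
      have h2 : 0 ≤ (N : ℝ) ^ 2 * (Y ^ (-(1 / 2 ^ (r + 1 + 1)) : ℝ)) ^ 2 * ‖v‖ ^ 2 := by positivity
      have h3 : (1 + 4 * C') ≤ (1 + 4 * C') ^ 2 := by nlinarith
      calc (1 + 4 * C') * ((N : ℝ) ^ 2 * (Y ^ (-(1 / 2 ^ (r + 1 + 1)) : ℝ)) ^ 2 * ‖v‖ ^ 2)
          ≤ (1 + 4 * C') ^ 2 * ((N : ℝ) ^ 2 * (Y ^ (-(1 / 2 ^ (r + 1 + 1)) : ℝ)) ^ 2 * ‖v‖ ^ 2) :=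
            mul_le_mul_of_nonneg_right h3 h2
        _ = _ := by ring
    exact hfin

end Pool.Agent.GTP
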