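import Mathlib
import Pool.Agent.GTP.Defs
import Pool.Agent.GTP.Wabs
import Pool.Agent.Nil.Final
import Pool.Agent.Nil.Koop

set_option autoImplicit false

/-!
# GTP/Wst: averages with logarithmic phases along polynomial orbits

PROOF.  As in `Pool.Nil.exists_setup` (`Pool/Agent/Nil/Final.lean`): `G` = the subgroup of `Equiv.Perm X` generated by the `T i` (nilpotent), `T'` = the `T i` in `G`, `(pseq T' P n : Equiv.Perm X) = orb T P n`.
`F = Pool.Lib.PolySeq.lcF G p` with `p` a bound for the degrees: `NilSeq.filt_lcF`, `NilSeq.lcF_bot` (`F M = ⊥`), `NilSeq.isSeq_pseq` (`NilSeq.lcF_self`), so `k n = (pseq T' P n)⁻¹` satisfies `IsSeq F 0 k`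
(`IsSeq.inv`).  `U = Pool.Nil.koop` for `G → Equiv.Perm X` (`Subgroup.subtype`), `koop_ae`: `U (k n) v = v ∘ (k n)⁻¹ = v ∘ orb T P n` almost everywhere.  `v` bounded measurable on a finite measure space: an element
of `Lp ℂ 2 μ`, `‖v‖² = ∫ ‖v x‖²`.  `Wabs.wabs M 0` with `i = 0`, `l = []` (`dl [] log = log`, empty product `1`):
`∫ ‖∑_{a < n ≤ b} e(ω log n) v(orb T P n x)‖² ≤ C² N² |ω|^(-1/2^M) ∫ ‖v‖²`; divide by `N²`.  So `c = 1/2^M ≤ 1`, constant `C²` (`C ≤ C²`).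
-/

namespace Pool.Agent.GTP

open MeasureTheory Pool.Agent.GT

private theorem Wst_inner_self (x : ℂ) : inner ℂ x x = ((‖x‖ ^ 2 : ℝ) : ℂ) := by
  rw [inner_self_eq_norm_sq_to_K]
  norm_cast

private theorem Wst_norm_sq {X : Type*} [MeasurableSpace X] {μ : Measure X} (f : Lp ℂ 2 μ) :
    ‖f‖ ^ 2 = ∫ a, ‖f a‖ ^ 2 ∂μ := by
  have h := MeasureTheory.L2.inner_def (𝕜 := ℂ) f f
  have h2 : inner ℂ f f = ((‖f‖ ^ 2 : ℝ) : ℂ) := by
    rw [inner_self_eq_norm_sq_to_K]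
    norm_cast
  simp only [Wst_inner_self] at h
  rw [integral_complex_ofReal, h2] at h
  exact_mod_cast h

theorem wst {X : Type*} [MeasurableSpace X] {μ : Measure X} [IsFiniteMeasure μ] {d : ℕ} (T : Fin d → Equiv.Perm X)
    (hT : ∀ i, MeasurePreserving (T i) μ μ) (hT' : ∀ i, MeasurePreserving (T i).symm μ μ)
    (hnil : Group.IsNilpotent (Subgroup.closure (Set.range T))) (P : Fin d → Polynomial ℤ) :
    WstP μ (fun n : ℕ => ⇑(Pool.Nil.orb T P (n : ℤ))) := by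
  have := hnil
  set T' : Fin d → Subgroup.closure (Set.range T) := fun i =>
    ⟨T i, Subgroup.subset_closure ⟨i, rfl⟩⟩ with hT'def
  have ho : ∀ n, (Subgroup.closure (Set.range T)).subtype (Pool.Nil.pseq T' P n) =
      Pool.Nil.orb T P n := by
    intro n
    unfold Pool.Nil.pseq Pool.Nil.orb
    rw [map_list_prod, List.map_ofFn]
    congr 2
  set p := Finset.univ.sup fun i => (P i).natDegree with hp
  have hPp : ∀ i, (P i).natDegree ≤ p := fun i =>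
    Finset.le_sup (f := fun i => (P i).natDegree) (Finset.mem_univ i)
  have hF := Pool.Nil.NilSeq.filt_lcF (G := Subgroup.closure (Set.range T)) p
  have hseq := (Pool.Nil.NilSeq.isSeq_pseq hF (Pool.Nil.NilSeq.lcF_self p) T' P hPp).inv hF
  set M := (p + 1) * 2 ^ Group.nilpotencyClass (Subgroup.closure (Set.range T)) with hM
  have hbot : Pool.Lib.PolySeq.lcF (Subgroup.closure (Set.range T)) p (0 + M) = ⊥ := by
    rw [zero_add]
    exact Pool.Nil.NilSeq.lcF_bot p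
  have hφ : ∀ x : Subgroup.closure (Set.range T),
      MeasurePreserving ((Subgroup.closure (Set.range T)).subtype x) μ μ := fun x =>
    (Pool.Nil.mem_mpS_of_closure T hT hT' x.2).1
  obtain ⟨C0, hC0, hw⟩ := wabs M 0
  refine ⟨1 / 2 ^ M, C0 ^ 2, by positivity, ?_, one_le_pow₀ hC0, ?_⟩
  · rw [div_le_one (by positivity)]
    exact one_le_pow₀ one_le_two
  intro N a b hN haN hbN ω hω hCω v hv hvB
  obtain ⟨B, hvB⟩ := hvB
  have hvL : MemLp v 2 μ :=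
    MemLp.of_bound hv.aestronglyMeasurable B (Filter.Eventually.of_forall hvB)
  have hω0 : ω ≠ 0 := by
    rintro rfl
    rw [abs_zero] at hω
    linarith
  have hC1 : C0 * |ω| ≤ N := by
    refine le_trans ?_ hCω
    have h1 : C0 ≤ C0 ^ 2 := by nlinarith
    exact mul_le_mul_of_nonneg_right h1 (abs_nonneg _)
  have h1 := hw hF (Pool.Nil.koop (Subgroup.closure (Set.range T)).subtype hφ) 0 hbot _ hseq []
    rfl N hN (by intro h hh; exact absurd hh List.not_mem_nil) a b haN hbN ω hω0 hC1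
    (hvL.toLp v)
  simp only [dl, List.map_nil, List.prod_nil, mul_one] at h1
  have hae : ∀ n ∈ Finset.Ioc a b, ∀ᵐ x ∂μ,
      (ee (ω * Real.log n) • Pool.Nil.koop (Subgroup.closure (Set.range T)).subtype hφ
        ((Pool.Nil.pseq T' P)⁻¹ (n : ℤ)) (hvL.toLp v) : Lp ℂ 2 μ) x =
        ee (ω * Real.log n) * v (Pool.Nil.orb T P (n : ℤ) x) := by
    intro n _
    have hmp : MeasurePreserving (Pool.Nil.orb T P (n : ℤ)) μ μ := by
      rw [← ho]
      exact hφ _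
    filter_upwards [Lp.coeFn_smul (ee (ω * Real.log n))
      (Pool.Nil.koop (Subgroup.closure (Set.range T)).subtype hφ
        ((Pool.Nil.pseq T' P)⁻¹ (n : ℤ)) (hvL.toLp v)),
      Pool.Nil.koop_ae (Subgroup.closure (Set.range T)).subtype hφ
        ((Pool.Nil.pseq T' P)⁻¹ (n : ℤ)) (hvL.toLp v),
      hmp.quasiMeasurePreserving.ae hvL.coeFn_toLp] with x e1 e2 e3
    rw [e1, Pi.smul_apply, e2, Pi.inv_apply, inv_inv, ho, e3, smul_eq_mul]
  have hsum := Pool.Nil.KoopAux.sum_apply_ae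
    (fun n : ℕ => (ee (ω * Real.log n) • Pool.Nil.koop (Subgroup.closure (Set.range T)).subtype hφ
        ((Pool.Nil.pseq T' P)⁻¹ (n : ℤ)) (hvL.toLp v) : Lp ℂ 2 μ))
    (fun (n : ℕ) x => ee (ω * Real.log n) * v (Pool.Nil.orb T P (n : ℤ) x)) (Finset.Ioc a b) hae
  have hint : ∫ x, ‖(N : ℂ)⁻¹ * ∑ n ∈ Finset.Ioc a b, ee (ω * Real.log n) *
      v (Pool.Nil.orb T P (n : ℤ) x)‖ ^ 2 ∂μ = ((N : ℝ)⁻¹) ^ 2 *
      ‖∑ n ∈ Finset.Ioc a b, (ee (ω * Real.log n) •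
        Pool.Nil.koop (Subgroup.closure (Set.range T)).subtype hφ
        ((Pool.Nil.pseq T' P)⁻¹ (n : ℤ)) (hvL.toLp v) : Lp ℂ 2 μ)‖ ^ 2 := by
    rw [Wst_norm_sq, ← integral_const_mul]
    refine integral_congr_ae ?_
    filter_upwards [hsum] with x hx
    rw [hx, norm_mul, norm_inv, Complex.norm_natCast, mul_pow]
  have hvn : ‖hvL.toLp v‖ ^ 2 = ∫ x, ‖v x‖ ^ 2 ∂μ := by
    rw [Wst_norm_sq]
    refine integral_congr_ae ?_
    filter_upwards [hvL.coeFn_toLp] with x hx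
    rw [hx]
  change ∫ x, ‖(N : ℂ)⁻¹ * ∑ n ∈ Finset.Ioc a b, ee (ω * Real.log n) *
      v (Pool.Nil.orb T P (n : ℤ) x)‖ ^ 2 ∂μ ≤ _
  rw [hint, ← hvn]
  have hN0 : (0 : ℝ) < N := by exact_mod_cast hN
  have hpow : (|ω| ^ (-(1 / 2 ^ (M + 1)) : ℝ)) ^ 2 = |ω| ^ (-(1 / 2 ^ M) : ℝ) := by
    rw [← Real.rpow_natCast, ← Real.rpow_mul (abs_nonneg ω)]
    congr 1
    rw [pow_succ]
    push_cast
    field_simp
  have h2 := pow_le_pow_left₀ (norm_nonneg _) h1 2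
  calc ((N : ℝ)⁻¹) ^ 2 * _ ≤ ((N : ℝ)⁻¹) ^ 2 *
        (C0 * N * |ω| ^ (-(1 / 2 ^ (M + 1)) : ℝ) * ‖hvL.toLp v‖) ^ 2 :=
        mul_le_mul_of_nonneg_left h2 (by positivity)
    _ = C0 ^ 2 * (|ω| ^ (-(1 / 2 ^ (M + 1)) : ℝ)) ^ 2 * ‖hvL.toLp v‖ ^ 2 := by
        field_simp
    _ = C0 ^ 2 * |ω| ^ (-(1 / 2 ^ M) : ℝ) * ‖hvL.toLp v‖ ^ 2 := by rw [hpow]

end Pool.Agent.GTP
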