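import Mathlib
import Pool.Agent.GTP.Defs
import Pool.Agent.GTP.Wst
import Pool.Agent.Nil.Final

set_option autoImplicit false

/-!
# GTP/GgO: polynomial orbits are good sequences

PROOF.  `mp`: `Pool.Nil.orb_mem` (an element of `Pool.PolyMax.mpS μ`, see `Nil/Final.lean`).  `comm`: the set of permutations commuting with all `φ s` is a subgroup containing the `T i` (`orb` is a product of powers; prove it for
`T i ^ k`, `k ∈ ℤ`, and for list products).  `max`: `Pool.Nil.orb_max` (`MaxL2` is literally `MaxP`).  `wst`: `Wst.wst`.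
-/

namespace Pool.Agent.GTP

open MeasureTheory Pool.Agent.GT

/-- permutations commuting with a map -/
private def GgO_S {X : Type*} (ψ : X → X) : Subgroup (Equiv.Perm X) where
  carrier := {g | ∀ x, g (ψ x) = ψ (g x)}
  mul_mem' := fun {a b} ha hb x => by
    rw [Equiv.Perm.mul_apply, hb x, ha (b x), Equiv.Perm.mul_apply]
  one_mem' := fun _ => rfl
  inv_mem' := fun {a} ha x => by
    have h1 : a (a⁻¹ x) = x := a.apply_symm_apply x
    rw [Equiv.Perm.inv_eq_iff_eq, ha, h1]

theorem orb_comm {X : Type*} {φ : ℝ → X → X} {d : ℕ} (T : Fin d → Equiv.Perm X)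
    (hcomm : ∀ i s x, T i (φ s x) = φ s (T i x)) (P : Fin d → Polynomial ℤ) (n : ℤ) (s : ℝ) (x : X) :
    Pool.Nil.orb T P n (φ s x) = φ s (Pool.Nil.orb T P n x) := by
  have h : Pool.Nil.orb T P n ∈ GgO_S (φ s) := by
    unfold Pool.Nil.orb
    apply Subgroup.list_prod_mem
    intro y hy
    rw [List.mem_ofFn] at hy
    obtain ⟨i, rfl⟩ := hy
    have h1 : T i ∈ GgO_S (φ s) := fun x => hcomm i s x
    exact Subgroup.zpow_mem _ h1 _
  exact h x

theorem ggO {X : Type*} [MeasurableSpace X] {μ : Measure X} [IsFiniteMeasure μ] {φ : ℝ → X → X} {d : ℕ}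
    (T : Fin d → Equiv.Perm X) (hT : ∀ i, MeasurePreserving (T i) μ μ) (hT' : ∀ i, MeasurePreserving (T i).symm μ μ)
    (hnil : Group.IsNilpotent (Subgroup.closure (Set.range T)))
    (hcomm : ∀ i s x, T i (φ s x) = φ s (T i x)) (P : Fin d → Polynomial ℤ) :
    GG μ φ (fun n : ℕ => ⇑(Pool.Nil.orb T P (n : ℤ))) :=
  ⟨fun n => (Pool.Nil.orb_mem T hT hT' P n).1, fun n s x => orb_comm T hcomm P n s x,
    Pool.Nil.orb_max T hT hT' hnil P, wst T hT hT' hnil P⟩

end Pool.Agent.GTP
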