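import Mathlib
import Pool.Agent.GTP.Defs

set_option autoImplicit false

/-!
# GTP/LimG: averages of functions tending to zero

PROOF.  `E_K(x) = ⨆_{k ≥ K} ENNReal.ofReal (e k x)`: measurable, at most `B`, and for almost every `x` it decreases to `0` as `K → ∞`; by dominated convergence `∫⁻ E_K² → 0`.
`M_K(x) = ⨆_N (N+1)⁻¹ ∑_{n ≤ N} E_K(g n x)`: `∫⁻ M_K² ≤ C ∫⁻ E_K² → 0` (`hmax`), and `M_K` is decreasing in `K`, so `inf_K M_K(x) = 0` for almost every `x`.  For `k ≥ K`: `I k ⊆ range (2·2^k + 1)`, so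
`(2^k)⁻¹ ∑_{n ∈ I k} e k (g n x) ≤ (2^k)⁻¹ (2·2^k + 1) (2·2^k + 1)⁻¹ ∑_{n < 2·2^k + 1} E_K(g n x) ≤ 3 M_K(x)`.
-/

namespace Pool.Agent.GTP

open MeasureTheory Filter Topology Pool.Agent.GT

private theorem LimG_block {X : Type*} {g : ℕ → X → X} {e : ℕ → X → ℝ} (he0 : ∀ k x, 0 ≤ e k x)
    {I : ℕ → Finset ℕ} (hI : IsBlk I) (E : X → ENNReal) (k : ℕ) (x : X)
    (hE : ∀ y, ENNReal.ofReal (e k y) ≤ E y) :
    ENNReal.ofReal (((2 : ℝ) ^ k)⁻¹ * ∑ n ∈ I k, e k (g n x)) ≤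
      3 * ⨆ N : ℕ, ((N + 1 : ℕ) : ENNReal)⁻¹ * ∑ n ∈ Finset.range (N + 1), E (g n x) := by
  set M : ENNReal := ⨆ N : ℕ, ((N + 1 : ℕ) : ENNReal)⁻¹ * ∑ n ∈ Finset.range (N + 1), E (g n x) with hM
  obtain ⟨a, b, hab, -, hb⟩ := hI k
  have hsub : I k ⊆ Finset.range (2 * 2 ^ k + 1) := by
    intro n hn
    rw [hab, Finset.mem_Ioc] at hn
    rw [Finset.mem_range]
    omega
  have h1 : ENNReal.ofReal (∑ n ∈ I k, e k (g n x)) ≤ ∑ n ∈ Finset.range (2 * 2 ^ k + 1), E (g n x) := by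
    rw [ENNReal.ofReal_sum_of_nonneg (fun n _ => he0 k _)]
    exact (Finset.sum_le_sum (fun n _ => hE _)).trans (Finset.sum_le_sum_of_subset hsub)
  have h2 : ((2 * 2 ^ k + 1 : ℕ) : ENNReal)⁻¹ * ∑ n ∈ Finset.range (2 * 2 ^ k + 1), E (g n x) ≤ M :=
    le_iSup (fun N : ℕ => ((N + 1 : ℕ) : ENNReal)⁻¹ * ∑ n ∈ Finset.range (N + 1), E (g n x)) (2 * 2 ^ k)
  have h3 : ∑ n ∈ Finset.range (2 * 2 ^ k + 1), E (g n x) ≤ ((2 * 2 ^ k + 1 : ℕ) : ENNReal) * M := by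
    have h0 : ((2 * 2 ^ k + 1 : ℕ) : ENNReal) ≠ 0 := Nat.cast_ne_zero.2 (Nat.succ_ne_zero _)
    have ht : ((2 * 2 ^ k + 1 : ℕ) : ENNReal) ≠ ⊤ := ENNReal.natCast_ne_top _
    calc ∑ n ∈ Finset.range (2 * 2 ^ k + 1), E (g n x)
        = ((2 * 2 ^ k + 1 : ℕ) : ENNReal) * (((2 * 2 ^ k + 1 : ℕ) : ENNReal)⁻¹ *
            ∑ n ∈ Finset.range (2 * 2 ^ k + 1), E (g n x)) := by
          rw [← mul_assoc, ENNReal.mul_inv_cancel h0 ht, one_mul]
      _ ≤ _ := mul_le_mul_right h2 _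
  have h4 : ((2 * 2 ^ k + 1 : ℕ) : ENNReal) ≤ 3 * (2 : ENNReal) ^ k := by
    have : (2 * 2 ^ k + 1 : ℕ) ≤ 3 * 2 ^ k := by
      have := Nat.one_le_two_pow (n := k)
      omega
    calc ((2 * 2 ^ k + 1 : ℕ) : ENNReal) ≤ ((3 * 2 ^ k : ℕ) : ENNReal) := by exact_mod_cast this
      _ = 3 * (2 : ENNReal) ^ k := by push_cast; rfl
  have h5 : ENNReal.ofReal (((2 : ℝ) ^ k)⁻¹) = ((2 : ENNReal) ^ k)⁻¹ := by
    rw [ENNReal.ofReal_inv_of_pos (by positivity), ENNReal.ofReal_pow (by norm_num)]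
    norm_num
  have hp0 : (2 : ENNReal) ^ k ≠ 0 := by positivity
  have hpt : (2 : ENNReal) ^ k ≠ ⊤ := ENNReal.pow_ne_top (by norm_num)
  calc ENNReal.ofReal (((2 : ℝ) ^ k)⁻¹ * ∑ n ∈ I k, e k (g n x))
      = ((2 : ENNReal) ^ k)⁻¹ * ENNReal.ofReal (∑ n ∈ I k, e k (g n x)) := by
        rw [ENNReal.ofReal_mul (by positivity), h5]
    _ ≤ ((2 : ENNReal) ^ k)⁻¹ * (3 * (2 : ENNReal) ^ k * M) :=
        mul_le_mul_right (h1.trans (h3.trans (mul_le_mul_left h4 _))) _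
    _ = (((2 : ENNReal) ^ k)⁻¹ * (2 : ENNReal) ^ k) * (3 * M) := by ring
    _ = 3 * M := by rw [ENNReal.inv_mul_cancel hp0 hpt, one_mul]

theorem limG {X : Type*} [MeasurableSpace X] {μ : Measure X} [IsFiniteMeasure μ] {g : ℕ → X → X}
    (hg : ∀ n, MeasurePreserving (g n) μ μ) (hmax : MaxP μ g) {e : ℕ → X → ℝ} (he : ∀ k, Measurable (e k)) {B : ℝ}
    (he0 : ∀ k x, 0 ≤ e k x) (heB : ∀ k x, e k x ≤ B) (hlim : ∀ᵐ x ∂μ, Tendsto (fun k => e k x) atTop (𝓝 0))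
    {I : ℕ → Finset ℕ} (hI : IsBlk I) :
    ∀ᵐ x ∂μ, Tendsto (fun k : ℕ => ((2 : ℝ) ^ k)⁻¹ * ∑ n ∈ I k, e k (g n x)) atTop (𝓝 0) := by
  obtain ⟨C, hC⟩ := hmax
  set E : ℕ → X → ENNReal := fun K x => ⨆ k : ℕ, ENNReal.ofReal (e (K + k) x) with hEdef
  have hEm : ∀ K, Measurable (E K) := fun K => Measurable.iSup (fun k => (he _).ennreal_ofReal)
  have hEB : ∀ K x, E K x ≤ ENNReal.ofReal B := fun K x =>
    iSup_le (fun k => ENNReal.ofReal_le_ofReal (heB _ _))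
  have hElim : ∀ᵐ x ∂μ, Tendsto (fun K => E K x ^ 2) atTop (𝓝 0) := by
    filter_upwards [hlim] with x hx
    have h1 : Tendsto (fun K => E K x) atTop (𝓝 0) := by
      rw [ENNReal.tendsto_atTop_zero]
      intro ε hε
      rcases eq_or_ne ε ⊤ with h | h
      · exact ⟨0, fun n _ => by rw [h]; exact le_top⟩
      · have h2 : 0 < ε.toReal := ENNReal.toReal_pos hε.ne' h
        obtain ⟨K, hK⟩ := Filter.eventually_atTop.1 (hx.eventually (gt_mem_nhds h2))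
        refine ⟨K, fun n hn => iSup_le (fun k => ?_)⟩
        rw [← ENNReal.ofReal_toReal h]
        exact ENNReal.ofReal_le_ofReal (hK (n + k) (by omega)).le
    have h3 := ENNReal.Tendsto.pow (n := 2) h1
    simpa using h3
  have hEint : Tendsto (fun K => ∫⁻ x, E K x ^ 2 ∂μ) atTop (𝓝 0) := by
    have h := tendsto_lintegral_of_dominated_convergence (μ := μ) (F := fun K x => E K x ^ 2) (f := fun _ => 0)
      (fun _ => ENNReal.ofReal B ^ 2) (fun K => (hEm K).pow_const 2)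
      (fun K => Eventually.of_forall (fun x => pow_le_pow_left' (hEB K x) 2)) (by
        rw [lintegral_const]
        exact ENNReal.mul_ne_top (ENNReal.pow_ne_top ENNReal.ofReal_ne_top) (measure_ne_top _ _)) hElim
    simpa using h
  set M : ℕ → X → ENNReal := fun K x =>
    ⨆ N : ℕ, ((N + 1 : ℕ) : ENNReal)⁻¹ * ∑ n ∈ Finset.range (N + 1), E K (g n x) with hMdef
  have hMm : ∀ K, Measurable (M K) := fun K => Measurable.iSup (fun N =>
    (Finset.measurable_sum _ (fun n _ => (hEm K).comp (hg n).measurable)).const_mul _)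
  have hMint : Tendsto (fun K => ∫⁻ x, M K x ^ 2 ∂μ) atTop (𝓝 0) := by
    have h1 : Tendsto (fun K => (C : ENNReal) * ∫⁻ x, E K x ^ 2 ∂μ) atTop (𝓝 0) := by
      have := ENNReal.Tendsto.const_mul (a := (C : ENNReal)) hEint (Or.inr ENNReal.coe_ne_top)
      simpa using this
    exact tendsto_of_tendsto_of_tendsto_of_le_of_le tendsto_const_nhds h1 (fun _ => zero_le)
      (fun K => hC (E K) (hEm K))
  have hinf : ∀ᵐ x ∂μ, (⨅ K, M K x) = 0 := by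
    have h0 : ∫⁻ x, (⨅ K, M K x) ^ 2 ∂μ = 0 := by
      refine le_antisymm (ge_of_tendsto' hMint (fun K => ?_)) zero_le
      exact lintegral_mono (fun x => pow_le_pow_left' (iInf_le _ K) 2)
    have h1 := (lintegral_eq_zero_iff ((Measurable.iInf hMm).pow_const 2)).1 h0
    filter_upwards [h1] with x hx
    have : (⨅ K, M K x) ^ 2 = 0 := hx
    exact pow_eq_zero_iff (two_ne_zero) |>.1 this
  filter_upwards [hinf] with x hx
  rw [Metric.tendsto_atTop]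
  intro ε hε
  have h1 : (⨅ K, M K x) < ENNReal.ofReal (ε / 3) := by
    rw [hx]
    exact ENNReal.ofReal_pos.2 (by positivity)
  obtain ⟨K, hK⟩ := iInf_lt_iff.1 h1
  refine ⟨K, fun k hk => ?_⟩
  have h2 : ENNReal.ofReal (((2 : ℝ) ^ k)⁻¹ * ∑ n ∈ I k, e k (g n x)) ≤ 3 * M K x := by
    refine LimG_block he0 hI (E K) k x (fun y => ?_)
    have : k = K + (k - K) := by omega
    rw [this]
    exact le_iSup (fun j : ℕ => ENNReal.ofReal (e (K + j) y)) (k - K)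
  have h3 : 3 * M K x < ENNReal.ofReal ε := by
    have h4 : ENNReal.ofReal ε = 3 * ENNReal.ofReal (ε / 3) := by
      have : ε = 3 * (ε / 3) := by ring
      conv_lhs => rw [this]
      rw [ENNReal.ofReal_mul (by norm_num)]
      norm_num
    rw [h4]
    exact ENNReal.mul_lt_mul_right (by norm_num) (by norm_num) hK
  have h5 : 0 ≤ ((2 : ℝ) ^ k)⁻¹ * ∑ n ∈ I k, e k (g n x) :=
    mul_nonneg (by positivity) (Finset.sum_nonneg (fun n _ => he0 _ _))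
  rw [Real.dist_eq, sub_zero, abs_of_nonneg h5]
  exact (ENNReal.ofReal_lt_ofReal_iff hε).1 (h2.trans_lt h3)

end Pool.Agent.GTP
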