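import Mathlib
import Pool.Agent.GTP.Defs
import Pool.Agent.GTP.Poly
import Pool.Agent.GT.Ops
import Pool.Agent.GT.OpsB
import Pool.Agent.GT.Osc

set_option autoImplicit false

/-!
# GTP/OscG: the smoothed function is almost constant on the relevant pieces of orbits

PROOF.  `D = natDegree q`, `U_k = (2^k)^D`.  By `Poly.poly`, `|q(n)| ≤ C U_k` for `n ∈ I k` (`2^k ≤ n ≤ 2·2^k`) and `k ≥ k₀`, so `|β q(n)| ≤ 2 C U_k ≤ 2^(d+1) U_k` for a suitable `d` and all `β ∈ [1, 2]`.  Apply `GT.osc d` for every `k` to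
the flow `φ` and to the reversed flow `rev φ` (`IsFlow.rev`, `Nice.rev`; `Kop (rev φ) M f = Kop φ M f` by `Kop_rev`), with `U = U_k`: functions `Δ_i^k`, `Δ'_i^k`; `Ψ_k = ∑_i (Δ_i^k + Δ'_i^k)` (in `ENNReal`), measurable, with
`‖Kop φ U_k f (φ t y) - Kop φ U_k f y‖ₑ ≤ Ψ_k(y)` for `|t| ≤ 2^(d+1) U_k` (for `t < 0` write `φ t = rev φ (-t)`).
`∑_k ∫ Ψ_k² < ∞`: `(∑_i Δ_i)² ≤ 2 ∑_i 2^i Δ_i²`-type Cauchy–Schwarz inequality (see `GT/Blk.lean`, which does exactly this, or use `Ψ ≤ e + e⁻¹ ..` as there), so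
`∫ (∑_i Δ_i^k)² ≤ 2 ∑_i 2^i C 4^(-i) (al (2^i U_k) - al (2^(i+1) U_k))`, and for fixed `i` the sum over `k` is at most `C' 2^(-i) ∫ ‖f‖²` (telescoping: `U_(k+1) ≥ 2 U_k`, `al` is nonincreasing on the powers of `2` by `zz_l2` and
`≤ ∫ ‖f‖²`); the same for `rev φ`.
`Θ_k(x) = (2^k)⁻¹ ∑_{n ∈ I k} Ψ_k(g n x)`: `Θ_k² ≤ (2^k)⁻² #(I k) ∑_n Ψ_k(g n x)²` and `#(I k) ≤ 2·2^k`, so `∫ Θ_k² ≤ 4 ∫ Ψ_k²` (`hg.mp`), `∑_k ∫ Θ_k² < ∞` and `Θ_k(x) → 0` for almost every `x`; for `k ≥ k₀` and all `β ∈ [1, 2]` the quantity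
of the theorem is at most `Θ_k(x)`.
-/

namespace Pool.Agent.GTP

open MeasureTheory Filter Topology Pool.Agent.GT

private theorem OscG_le {c : ENNReal} (hc : c ≠ 0) (hc' : c ≠ ⊤) (a : ENNReal) : a ≤ c + c⁻¹ * a ^ 2 := by
  rcases le_total a c with h | h
  · exact h.trans le_self_add
  · refine le_trans ?_ le_add_self
    calc a = c⁻¹ * (c * a) := by rw [← mul_assoc, ENNReal.inv_mul_cancel hc hc', one_mul]
      _ ≤ c⁻¹ * a ^ 2 := by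
        rw [sq]
        gcongr

private theorem OscG_sum {e : ENNReal} (he0 : e ≠ 0) (he1 : e ≠ ⊤) (Δ : ℕ → ENNReal) :
    ∑' i, Δ i ≤ e * 2 + e⁻¹ * ∑' i, 2 ^ i * Δ i ^ 2 := by
  have hc0 : ∀ i : ℕ, e * 2⁻¹ ^ i ≠ 0 := fun i =>
    mul_ne_zero he0 (pow_ne_zero _ (ENNReal.inv_ne_zero.2 (by norm_num)))
  have hc1 : ∀ i : ℕ, e * 2⁻¹ ^ i ≠ ⊤ := fun i =>
    ENNReal.mul_ne_top he1 (ENNReal.pow_ne_top (ENNReal.inv_ne_top.2 (by norm_num)))
  have hinv : ∀ i : ℕ, (e * 2⁻¹ ^ i)⁻¹ = e⁻¹ * 2 ^ i := by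
    intro i
    rw [ENNReal.mul_inv (Or.inl he0) (Or.inl he1), ENNReal.inv_pow, inv_inv]
  calc ∑' i, Δ i ≤ ∑' i, (e * 2⁻¹ ^ i + (e * 2⁻¹ ^ i)⁻¹ * Δ i ^ 2) :=
        ENNReal.tsum_le_tsum fun i => OscG_le (hc0 i) (hc1 i) _
    _ = e * 2 + e⁻¹ * ∑' i, 2 ^ i * Δ i ^ 2 := by
        rw [ENNReal.tsum_add, ENNReal.tsum_mul_left, ENNReal.tsum_geometric, ENNReal.one_sub_inv_two,
          inv_inv, ← ENNReal.tsum_mul_left]
        congr 2
        funext i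
        rw [hinv, mul_assoc]

/-- telescoping -/
private theorem OscG_tele {α : ℕ → ℝ} (hanti : Antitone α) (h0 : ∀ j, 0 ≤ α j) {d : ℕ} (hd : 1 ≤ d) (i : ℕ)
    {A : ℝ} (hA : α i ≤ A) :
    ∑' k : ℕ, ENNReal.ofReal (α (i + d * k) - α (i + d * k + 1)) ≤ ENNReal.ofReal A := by
  refine ENNReal.tsum_le_of_sum_range_le fun n => ?_
  rw [← ENNReal.ofReal_sum_of_nonneg (fun k _ => sub_nonneg.2 (hanti (Nat.le_succ _)))]
  refine ENNReal.ofReal_le_ofReal ?_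
  have h1 : ∀ n : ℕ, ∑ k ∈ Finset.range n, (α (i + d * k) - α (i + d * k + 1)) ≤ α i - α (i + d * n) := by
    intro n
    induction n with
    | zero => simp
    | succ n ih =>
      rw [Finset.sum_range_succ]
      have h2 : α (i + d * (n + 1)) ≤ α (i + d * n + 1) := hanti (by
        rw [mul_add, mul_one]
        omega)
      linarith
  have h3 := h1 n
  have h4 := h0 (i + d * n)
  linarith

section
variable {X : Type*} [MeasurableSpace X] {μ : Measure X} [IsFiniteMeasure μ]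

/-- the functions for one flow -/
private theorem OscG_one {φ : ℝ → X → X} (hφ : IsFlow μ φ) {f : X → ℂ} {B L : ℝ} (hf : Nice φ B L f) (d : ℕ)
    {D : ℕ} (hD : 1 ≤ D) :
    ∃ S : ℕ → X → ENNReal, (∀ k, Measurable (S k)) ∧ (∫⁻ x, ∑' k, S k x ∂μ ≠ ⊤) ∧
      ∀ e : ENNReal, e ≠ 0 → e ≠ ⊤ → ∀ k x t, 0 ≤ t → t ≤ 2 ^ (d + 1) * ((2 : ℝ) ^ k) ^ D →
        ‖Kop φ (((2 : ℝ) ^ k) ^ D) f (φ t x) - Kop φ (((2 : ℝ) ^ k) ^ D) f x‖ₑ ≤ e * 2 + e⁻¹ * S k x := by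
  have hU : ∀ k : ℕ, (0 : ℝ) < ((2 : ℝ) ^ k) ^ D := fun k => by positivity
  have hUe : ∀ k i : ℕ, (2 : ℝ) ^ i * ((2 : ℝ) ^ k) ^ D = 2 ^ (i + D * k) := by
    intro k i
    rw [← pow_mul, pow_add, mul_comm k D]
  obtain ⟨C, hC, ho⟩ := osc d
  choose Δ hΔm hΔ1 hΔ2 using fun k : ℕ => ho X μ φ hφ f B L hf _ (hU k)
  -- the sequence of energies
  have hanti : Antitone fun j : ℕ => al μ φ f (2 ^ j) := by
    refine antitone_nat_of_succ_le fun j => ?_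
    have h1 := zz_l2 hφ hf (M := (2 : ℝ) ^ j) (by positivity)
    have h2 : 0 ≤ ∫ x, ‖zz φ ((2 : ℝ) ^ j) f x‖ ^ 2 ∂μ := integral_nonneg fun x => sq_nonneg _
    have h3 : (2 : ℝ) ^ (j + 1) = 2 * 2 ^ j := by ring
    show al μ φ f (2 ^ (j + 1)) ≤ al μ φ f (2 ^ j)
    rw [h3]
    linarith
  have hA : ∀ j : ℕ, al μ φ f (2 ^ j) ≤ ∫ x, ‖f x‖ ^ 2 ∂μ := fun j => al_le hφ hf (by positivity)
  have hm : ∀ k i, Measurable fun x => (2 : ENNReal) ^ i * Δ k i x ^ 2 := fun k i =>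
    ((hΔm k i).pow_const 2).const_mul _
  refine ⟨fun k x => ∑' i, 2 ^ i * Δ k i x ^ 2, fun k => Measurable.tsum fun i => hm k i, ?_, ?_⟩
  · rw [lintegral_tsum fun k => (Measurable.tsum fun i => hm k i).aemeasurable]
    have h1 : ∀ k, ∫⁻ x, ∑' i, 2 ^ i * Δ k i x ^ 2 ∂μ ≤ ∑' i : ℕ, ENNReal.ofReal (C * (1 / 2) ^ i) *
        ENNReal.ofReal (al μ φ f (2 ^ (i + D * k)) - al μ φ f (2 ^ (i + D * k + 1))) := by
      intro k
      rw [lintegral_tsum fun i => (hm k i).aemeasurable]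
      refine ENNReal.tsum_le_tsum fun i => ?_
      rw [lintegral_const_mul _ ((hΔm k i).pow_const 2)]
      have h2 := hΔ2 k i
      have h3 : (2 : ℝ) ^ (i + 1) * ((2 : ℝ) ^ k) ^ D = 2 ^ (i + D * k + 1) := by
        rw [hUe, show i + 1 + D * k = i + D * k + 1 by omega]
      rw [hUe, h3] at h2
      calc (2 : ENNReal) ^ i * ∫⁻ x, Δ k i x ^ 2 ∂μ
          ≤ 2 ^ i * ENNReal.ofReal (C * (1 / 4) ^ i *
            (al μ φ f (2 ^ (i + D * k)) - al μ φ f (2 ^ (i + D * k + 1)))) := by gcongr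
        _ = ENNReal.ofReal (C * (1 / 2) ^ i) *
            ENNReal.ofReal (al μ φ f (2 ^ (i + D * k)) - al μ φ f (2 ^ (i + D * k + 1))) := by
            have h4 : (2 : ENNReal) ^ i = ENNReal.ofReal (2 ^ i) := by
              rw [ENNReal.ofReal_pow (by norm_num), ENNReal.ofReal_ofNat]
            rw [h4, ← ENNReal.ofReal_mul (by positivity), ← ENNReal.ofReal_mul (by positivity)]
            congr 1
            have h5 : (1 / 2 : ℝ) ^ i = 2 ^ i * (1 / 4) ^ i := by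
              rw [← mul_pow]
              norm_num
            rw [h5]
            ring
    have h6 : ∑' k, ∫⁻ x, ∑' i, 2 ^ i * Δ k i x ^ 2 ∂μ ≤
        ∑' i : ℕ, ENNReal.ofReal (C * (1 / 2) ^ i) * ENNReal.ofReal (∫ x, ‖f x‖ ^ 2 ∂μ) := by
      refine (ENNReal.tsum_le_tsum h1).trans ?_
      rw [ENNReal.tsum_comm]
      refine ENNReal.tsum_le_tsum fun i => ?_
      rw [ENNReal.tsum_mul_left]
      gcongr
      exact OscG_tele hanti (fun j => al_nonneg f _) hD i (hA i)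
    refine (h6.trans_lt ?_).ne
    rw [ENNReal.tsum_mul_right]
    refine ENNReal.mul_lt_top ?_ ENNReal.ofReal_lt_top
    have h7 : Summable fun i : ℕ => C * (1 / 2 : ℝ) ^ i := summable_geometric_two.mul_left C
    rw [← ENNReal.ofReal_tsum_of_nonneg (fun i => by positivity) h7]
    exact ENNReal.ofReal_lt_top
  · intro e he0 he1 k x t ht htU
    exact (hΔ1 k x t ht htU).trans (OscG_sum he0 he1 _)

/-- transfer along the maps -/
private theorem OscG_tr {g : ℕ → X → X} (hg : ∀ n, MeasurePreserving (g n) μ μ) {I : ℕ → Finset ℕ}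
    (hcard : ∀ k, (I k).card ≤ 2 * 2 ^ k) {S : ℕ → X → ENNReal} (hm : ∀ k, Measurable (S k))
    (hS : ∫⁻ x, ∑' k, S k x ∂μ ≠ ⊤) :
    ∀ᵐ x ∂μ, Tendsto (fun k => ((2 : ENNReal) ^ k)⁻¹ * ∑ n ∈ I k, S k (g n x)) atTop (𝓝 0) := by
  have hmT : ∀ k, Measurable fun x => ((2 : ENNReal) ^ k)⁻¹ * ∑ n ∈ I k, S k (g n x) := by
    intro k
    refine Measurable.const_mul (Finset.measurable_fun_sum _ fun n _ => (hm k).comp (hg n).measurable) _
  have h1 : ∀ k, ∫⁻ x, ((2 : ENNReal) ^ k)⁻¹ * ∑ n ∈ I k, S k (g n x) ∂μ ≤ 2 * ∫⁻ x, S k x ∂μ := by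
    intro k
    have hmk : ∀ n ∈ I k, Measurable fun x => S k (g n x) := fun n _ => (hm k).comp (hg n).measurable
    rw [lintegral_const_mul _ (Finset.measurable_fun_sum _ hmk), lintegral_finsetSum _ hmk]
    have h2 : ∀ n ∈ I k, ∫⁻ x, S k (g n x) ∂μ = ∫⁻ x, S k x ∂μ := fun n _ => (hg n).lintegral_comp (hm k)
    rw [Finset.sum_congr rfl h2, Finset.sum_const, nsmul_eq_mul]
    have h3 : ((I k).card : ENNReal) ≤ 2 ^ k * 2 := by
      have := hcard k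
      rw [mul_comm] at this
      exact_mod_cast this
    calc ((2 : ENNReal) ^ k)⁻¹ * ((I k).card * ∫⁻ x, S k x ∂μ)
        ≤ ((2 : ENNReal) ^ k)⁻¹ * ((2 ^ k * 2) * ∫⁻ x, S k x ∂μ) := by gcongr
      _ = (((2 : ENNReal) ^ k)⁻¹ * 2 ^ k) * (2 * ∫⁻ x, S k x ∂μ) := by ring
      _ = 2 * ∫⁻ x, S k x ∂μ := by
        rw [ENNReal.inv_mul_cancel (pow_ne_zero _ (by norm_num)) (ENNReal.pow_ne_top (by norm_num)), one_mul]
  have h4 : ∫⁻ x, ∑' k, ((2 : ENNReal) ^ k)⁻¹ * ∑ n ∈ I k, S k (g n x) ∂μ ≠ ⊤ := by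
    rw [lintegral_tsum fun k => (hmT k).aemeasurable]
    refine ((ENNReal.tsum_le_tsum h1).trans_lt ?_).ne
    rw [ENNReal.tsum_mul_left, ← lintegral_tsum fun k => (hm k).aemeasurable]
    exact ENNReal.mul_lt_top (by norm_num) hS.lt_top
  filter_upwards [ae_lt_top (Measurable.tsum hmT) h4] with x hx
  exact ENNReal.tendsto_atTop_zero_of_tsum_ne_top hx.ne

end

theorem oscG {X : Type*} [MeasurableSpace X] {μ : Measure X} [IsFiniteMeasure μ] {φ : ℝ → X → X} (hφ : IsFlow μ φ)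
    {g : ℕ → X → X} (hg : GG μ φ g) (q : Polynomial ℝ) (hq : 1 ≤ q.natDegree) {f : X → ℂ} {B L : ℝ}
    (hf : Nice φ B L f) {I : ℕ → Finset ℕ} (hI : IsBlk I) :
    ∀ᵐ x ∂μ, ∀ β ∈ Set.Icc (1 : ℝ) 2, Tendsto (fun k : ℕ => ((2 : ℝ) ^ k)⁻¹ * ∑ n ∈ I k,
      ‖Kop φ (((2 : ℝ) ^ k) ^ q.natDegree) f (φ (β * q.eval (n : ℝ)) (g n x)) -
        Kop φ (((2 : ℝ) ^ k) ^ q.natDegree) f (g n x)‖) atTop (𝓝 0) := by
  have hIk : ∀ k, ∀ n ∈ I k, 2 ^ k ≤ n ∧ n ≤ 2 * 2 ^ k := by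
    intro k n hn
    obtain ⟨a, b, hab, ha, hb⟩ := hI k
    rw [hab, Finset.mem_Ioc] at hn
    exact ⟨ha.trans hn.1.le, hn.2.trans hb⟩
  have hcard : ∀ k, (I k).card ≤ 2 * 2 ^ k := by
    intro k
    have h1 : I k ⊆ Finset.Icc (2 ^ k) (2 * 2 ^ k) := fun n hn => Finset.mem_Icc.2 (hIk k n hn)
    have h2 := Finset.card_le_card h1
    rw [Nat.card_Icc] at h2
    have h3 : 1 ≤ 2 ^ k := Nat.one_le_two_pow
    omega
  obtain ⟨C, κ, hC, N₀, hP⟩ := poly q hq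
  obtain ⟨d, hd⟩ : ∃ d : ℕ, 2 * C ≤ 2 ^ (d + 1) := by
    obtain ⟨d, hd⟩ := pow_unbounded_of_one_lt (2 * C) (by norm_num : (1 : ℝ) < 2)
    exact ⟨d, hd.le.trans (pow_le_pow_right₀ (by norm_num) (Nat.le_succ d))⟩
  obtain ⟨S, hSm, hSf, hS⟩ := OscG_one hφ hf d hq
  obtain ⟨S', hSm', hSf', hS'⟩ := OscG_one hφ.rev (hf.rev) d hq
  filter_upwards [OscG_tr hg.mp hcard hSm hSf, OscG_tr hg.mp hcard hSm' hSf'] with x hx hx' β hβ
  have hT := hx.add hx'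
  rw [add_zero] at hT
  rw [tendsto_zero_iff_enorm_tendsto_zero, ENNReal.tendsto_nhds_zero]
  rw [ENNReal.tendsto_nhds_zero] at hT
  intro ε hε
  obtain ⟨e, he0, he1, heε⟩ : ∃ e : ENNReal, e ≠ 0 ∧ e ≠ ⊤ ∧ 5 * e ≤ ε := by
    refine ⟨min ε 1 / 5, ?_, ?_, ?_⟩
    · refine (ENNReal.div_pos ?_ (by norm_num)).ne'
      exact (lt_min hε one_pos).ne'
    · refine (ENNReal.div_lt_top ?_ (by norm_num)).ne
      exact ((min_le_right _ _).trans_lt ENNReal.one_lt_top).ne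
    · rw [ENNReal.mul_div_cancel (by norm_num) (by norm_num)]
      exact min_le_left _ _
  filter_upwards [hT (e * e) (pos_iff_ne_zero.2 (mul_ne_zero he0 he0)), eventually_ge_atTop N₀] with k hk hkN
  have hk2 : k ≤ 2 ^ k := Nat.lt_two_pow_self.le
  obtain ⟨hP1, -⟩ := hP (2 ^ k) (hkN.trans hk2) Nat.one_le_two_pow
  have hterm : ∀ n ∈ I k, ‖Kop φ (((2 : ℝ) ^ k) ^ q.natDegree) f (φ (β * q.eval (n : ℝ)) (g n x)) -
        Kop φ (((2 : ℝ) ^ k) ^ q.natDegree) f (g n x)‖ₑ ≤ e * 2 + e⁻¹ * (S k (g n x) + S' k (g n x)) := by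
    intro n hn
    have e1 := (hP1 n (hIk k n hn).1 (hIk k n hn).2).2.1
    rw [Nat.cast_pow, Nat.cast_ofNat] at e1
    have e2 : |β * q.eval (n : ℝ)| ≤ 2 ^ (d + 1) * ((2 : ℝ) ^ k) ^ q.natDegree := by
      rw [abs_mul, abs_of_nonneg (by linarith [hβ.1] : (0 : ℝ) ≤ β)]
      calc β * |q.eval (n : ℝ)| ≤ 2 * (C * ((2 : ℝ) ^ k) ^ q.natDegree) := by
            gcongr
            exact hβ.2
        _ = (2 * C) * ((2 : ℝ) ^ k) ^ q.natDegree := by ring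
        _ ≤ _ := by gcongr
    rcases le_total 0 (β * q.eval (n : ℝ)) with h0 | h0
    · rw [abs_of_nonneg h0] at e2
      refine (hS e he0 he1 k (g n x) _ h0 e2).trans ?_
      gcongr
      exact le_self_add
    · rw [abs_of_nonpos h0] at e2
      have e3 := hS' e he0 he1 k (g n x) (-(β * q.eval (n : ℝ))) (neg_nonneg.2 h0) e2
      rw [Kop_rev hφ hf (by positivity), Kop_rev hφ hf (by positivity)] at e3
      have e4 : rev φ (-(β * q.eval (n : ℝ))) (g n x) = φ (β * q.eval (n : ℝ)) (g n x) := by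
        show φ (- -(β * q.eval (n : ℝ))) (g n x) = _
        rw [neg_neg]
      rw [e4] at e3
      refine e3.trans ?_
      gcongr
      exact le_add_self
  have hpw0 : (2 : ENNReal) ^ k ≠ 0 := pow_ne_zero _ (by norm_num)
  have hpw1 : (2 : ENNReal) ^ k ≠ ⊤ := ENNReal.pow_ne_top (by norm_num)
  have hinv : ‖((2 : ℝ) ^ k)⁻¹‖ₑ = ((2 : ENNReal) ^ k)⁻¹ := by
    rw [enorm_inv (by positivity), enorm_pow]
    congr 2
    rw [← ofReal_norm, Real.norm_of_nonneg (by norm_num), ENNReal.ofReal_ofNat]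
  have hsum : ‖∑ n ∈ I k, ‖Kop φ (((2 : ℝ) ^ k) ^ q.natDegree) f (φ (β * q.eval (n : ℝ)) (g n x)) -
        Kop φ (((2 : ℝ) ^ k) ^ q.natDegree) f (g n x)‖‖ₑ ≤
      2 ^ k * (4 * e) + e⁻¹ * (∑ n ∈ I k, S k (g n x) + ∑ n ∈ I k, S' k (g n x)) := by
    refine (enorm_sum_le _ _).trans ?_
    simp only [enorm_norm]
    refine (Finset.sum_le_sum hterm).trans ?_
    rw [Finset.sum_add_distrib, Finset.sum_const, nsmul_eq_mul, ← Finset.mul_sum, Finset.sum_add_distrib]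
    refine add_le_add ?_ le_rfl
    have h3 : ((I k).card : ENNReal) ≤ 2 ^ k * 2 := by
      have := hcard k
      rw [mul_comm] at this
      exact_mod_cast this
    calc ((I k).card : ENNReal) * (e * 2) ≤ (2 ^ k * 2) * (e * 2) := by gcongr
      _ = 2 ^ k * (4 * e) := by ring
  rw [enorm_mul, hinv]
  calc ((2 : ENNReal) ^ k)⁻¹ * _ ≤ ((2 : ENNReal) ^ k)⁻¹ *
        (2 ^ k * (4 * e) + e⁻¹ * (∑ n ∈ I k, S k (g n x) + ∑ n ∈ I k, S' k (g n x))) := by gcongr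
    _ = (((2 : ENNReal) ^ k)⁻¹ * 2 ^ k) * (4 * e) + e⁻¹ * (((2 : ENNReal) ^ k)⁻¹ * ∑ n ∈ I k, S k (g n x) +
          ((2 : ENNReal) ^ k)⁻¹ * ∑ n ∈ I k, S' k (g n x)) := by ring
    _ ≤ 4 * e + e⁻¹ * (e * e) := by
        rw [ENNReal.inv_mul_cancel hpw0 hpw1, one_mul]
        gcongr
    _ = 5 * e := by
        rw [← mul_assoc, ENNReal.inv_mul_cancel he0 he1, one_mul]
        ring
    _ ≤ ε := heε

end Pool.Agent.GTP
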