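import Mathlib
import Pool.Agent.GTP.Defs
import Pool.Agent.GTP.BasQ
import Pool.Agent.GT.Ops

set_option autoImplicit false

/-!
# GTP/ScalA: all scales of one block

`D = natDegree q`, `N = 2^k`, `U = (2^k)^D`, `M_i = U 2^(-i)` (in the statement `U / 2^i`), `m = (D+1) k`, so `M_m = 2^(-k)`; `I = Ioc a' b' ⊆ [N, 2N]`, `#I ≤ N + 1 ≤ 2N`.

PROOF.  `f - Kop U f = (f - Kop M_m f) + ∑_{i=1}^m (Kop M_i f - Kop M_(i-1) f)` and `M_(i-1) = 2 M_i`, so by `Kop_sub` `Kop M_i f - Kop (2 M_i) f = gg_i - gg_i ∘ φ_{M_i}`, `gg_i = gg φ M_i f`, which is nice (`gg_nice`) and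
`∫ ‖gg_i‖² ≤ (1/4)(al M_i - al (2 M_i))` (`gg_l2`).
* `‖f - Kop M_m f‖ ≤ L 2^(-k)` (`Kop_near`), so `‖BB(f - Kop M_m f)‖ ≤ 2 L 2^(-k)` pointwise.
* With `c, C, N₀` of `BasQ.basQ`: `J_i = 2^(min(i,k)/5)` (natural division).  `J_i^5 ≤ 2^i`, so `J_i^5 M_i ≤ U`; `C J_i³ ≤ C 2^(3k/5) ≤ 2^k` for `k ≥ k₀`.  `J_i^(-c) ≤ 2^(-c (min(i,k)/5 - 1)) ≤ 2^c 2^(-(c/5) min(i,k))` (real
  division).  So `E_i := ∫ ‖BB(gg_i - gg_i ∘ φ_{M_i})‖² ≤ C' 2^(-(c/5) min(i,k)) (al M_i - al (2 M_i))`.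
* Cauchy–Schwarz: `‖∑_{i=1}^m z_i‖² ≤ (∑ λ_i)(∑ λ_i⁻¹ ‖z_i‖²)`, `λ_i = 2^(-(c/10) min(i,k))`, `∑_{i=1}^m λ_i ≤ ∑_i 2^(-(c/10) i) + (D+1) k 2^(-(c/10) k) ≤ C''` (a constant independent of `k`; `x e^(-x)` is bounded).
Together (`(x+y)² ≤ 2x² + 2y²`, the total mass of the product measure is `μ(X)`): the left side is at most `8 L² 4^(-k) μ(X) + 2 C'' C' ∑_i 2^(-(c/10) min(i,k)) (al M_i - al (2 M_i))`.  `BB` is additive in the function.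
The exponent of the theorem is `c/10`; the constant of the theorem may depend on `L`, `μ(X)` etc.
-/

namespace Pool.Agent.GTP

open MeasureTheory Pool.Agent.GT

private theorem ScalA_tel {X : Type*} [MeasurableSpace X] {μ : Measure X} [IsFiniteMeasure μ] {φ : ℝ → X → X} (hφ : IsFlow μ φ)
    {f : X → ℂ} {B L : ℝ} (hf : Nice φ B L f) {U : ℝ} (hU : 0 < U) (m : ℕ) (y : X) :
    f y - Kop φ U f y = (f y - Kop φ (U / 2 ^ m) f y) +
      ∑ i ∈ Finset.Icc 1 m, (gg φ (U / 2 ^ i) f y - gg φ (U / 2 ^ i) f (φ (U / 2 ^ i) y)) := by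
  induction m with
  | zero => simp
  | succ m ih =>
    rw [Finset.sum_Icc_succ_top (by omega), ← Kop_sub hφ hf (by positivity)]
    have h1 : 2 * (U / 2 ^ (m + 1)) = U / 2 ^ m := by
      rw [pow_succ]
      field_simp
    rw [h1, ih]
    ring

private theorem ScalA_BB {X : Type*} (φ : ℝ → X → X) (g : ℕ → X → X) (p : ℕ → ℝ) (a : ℕ → X → ℂ) (N : ℕ)
    (I : Finset ℕ) (m : ℕ) (F G : X → ℂ) (H : ℕ → X → ℂ)
    (h : ∀ y, F y = G y + ∑ i ∈ Finset.Icc 1 m, H i y) (β : ℝ) (x : X) :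
    BB φ g p a N I F β x = BB φ g p a N I G β x + ∑ i ∈ Finset.Icc 1 m, BB φ g p a N I (H i) β x := by
  unfold BB
  rw [← Finset.mul_sum, ← mul_add, Finset.sum_comm, ← Finset.sum_add_distrib]
  congr 1
  refine Finset.sum_congr rfl fun n _ => ?_
  rw [h, mul_add, Finset.mul_sum]

private theorem ScalA_bd {X : Type*} (φ : ℝ → X → X) (g : ℕ → X → X) (p : ℕ → ℝ) (a : ℕ → X → ℂ)
    (ha : ∀ n x, ‖a n x‖ ≤ 1) {N a' b' : ℕ} (hN : 1 ≤ N) (ha' : N ≤ a') (hb' : b' ≤ 2 * N) (F : X → ℂ)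
    {K : ℝ} (hK : 0 ≤ K) (hF : ∀ y, ‖F y‖ ≤ K) (β : ℝ) (x : X) :
    ‖BB φ g p a N (Finset.Ioc a' b') F β x‖ ≤ K := by
  have hN0 : (0 : ℝ) < N := by exact_mod_cast hN
  unfold BB
  rw [norm_mul, norm_inv, Complex.norm_natCast, inv_mul_le_iff₀ hN0]
  refine (norm_sum_le _ _).trans ?_
  have h1 : ∑ n ∈ Finset.Ioc a' b', ‖a n x * F (φ (β * p n) (g n x))‖ ≤
      ∑ n ∈ Finset.Ioc a' b', K := by
    refine Finset.sum_le_sum fun n _ => ?_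
    rw [norm_mul]
    calc ‖a n x‖ * ‖F (φ (β * p n) (g n x))‖ ≤ 1 * K :=
          mul_le_mul (ha n x) (hF _) (norm_nonneg _) zero_le_one
      _ = K := one_mul K
  refine h1.trans ?_
  rw [Finset.sum_const, Nat.card_Ioc, nsmul_eq_mul]
  have h2 : ((b' - a' : ℕ) : ℝ) ≤ N := by
    have : b' - a' ≤ N := by omega
    exact_mod_cast this
  exact mul_le_mul_of_nonneg_right h2 hK

private theorem ScalA_meas {X : Type*} [MeasurableSpace X] {μ : Measure X} {φ : ℝ → X → X} (hφ : IsFlow μ φ)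
    {g : ℕ → X → X} (hg : ∀ n, Measurable (g n)) (p : ℕ → ℝ) (a : ℕ → X → ℂ)
    (ha : ∀ n, Measurable (a n)) (N : ℕ) (I : Finset ℕ) {F : X → ℂ} (hF : Measurable F) :
    Measurable (fun z : X × ℝ => BB φ g p a N I F z.2 z.1) := by
  unfold BB
  refine measurable_const.mul (Finset.measurable_fun_sum _ fun n _ => ?_)
  have h0 : Measurable (fun z : X × ℝ => (z.2 * p n, g n z.1)) :=
    (measurable_snd.mul_const _).prodMk ((hg n).comp measurable_fst)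
  have h1 : Measurable (fun z : X × ℝ => φ (z.2 * p n) (g n z.1)) := hφ.meas.comp h0
  exact ((ha n).comp measurable_fst).mul (hF.comp h1)

private theorem ScalA_int {Y : Type*} [MeasurableSpace Y] {ν : Measure Y} [IsFiniteMeasure ν]
    {v : Y → ℂ} (hv : Measurable v) {B : ℝ} (hB : ∀ x, ‖v x‖ ≤ B) :
    Integrable (fun x => ‖v x‖ ^ 2) ν := by
  refine Integrable.of_bound (hv.norm.pow_const 2).aestronglyMeasurable (B ^ 2)
    (Filter.Eventually.of_forall fun x => ?_)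
  rw [Real.norm_of_nonneg (by positivity)]
  exact pow_le_pow_left₀ (norm_nonneg _) (hB x) 2

private theorem ScalA_cs (s : Finset ℕ) (z : ℕ → ℂ) (l : ℕ → ℝ) (hl : ∀ i, 0 < l i) :
    ‖∑ i ∈ s, z i‖ ^ 2 ≤ (∑ i ∈ s, l i) * ∑ i ∈ s, (l i)⁻¹ * ‖z i‖ ^ 2 := by
  have h1 : ‖∑ i ∈ s, z i‖ ^ 2 ≤ (∑ i ∈ s, ‖z i‖) ^ 2 :=
    pow_le_pow_left₀ (norm_nonneg _) (norm_sum_le _ _) 2
  refine h1.trans (Finset.sum_sq_le_sum_mul_sum_of_sq_le_mul s (fun i _ => (hl i).le)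
    (fun i _ => mul_nonneg (inv_nonneg.2 (hl i).le) (by positivity)) fun i _ => le_of_eq ?_)
  rw [← mul_assoc, mul_inv_cancel₀ (hl i).ne', one_mul]

/-- the sum of the weights -/
private theorem ScalA_lam {c : ℝ} (hc : 0 < c) (D : ℕ) : ∃ C : ℝ, 0 < C ∧ ∀ k : ℕ,
    ∑ i ∈ Finset.Icc 1 ((D + 1) * k), (2 : ℝ) ^ (-(c * (min i k : ℕ))) ≤ C := by
  set r : ℝ := (2 : ℝ) ^ (-c) with hr
  have hr0 : 0 < r := by positivity
  have hr1 : r < 1 := Real.rpow_lt_one_of_one_lt_of_neg (by norm_num) (by linarith)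
  have hpow : ∀ n : ℕ, (2 : ℝ) ^ (-(c * (n : ℝ))) = r ^ n := by
    intro n
    rw [hr, ← Real.rpow_natCast, ← Real.rpow_mul (by norm_num)]
    congr 1
    ring
  have hgeo : ∀ n : ℕ, ∑ i ∈ Finset.range n, r ^ i ≤ (1 - r)⁻¹ := by
    intro n
    rw [← tsum_geometric_of_lt_one hr0.le hr1]
    exact (summable_geometric_of_lt_one hr0.le hr1).sum_le_tsum _ fun i _ => by positivity
  have h1r : 0 < 1 - r := by linarith
  refine ⟨(D + 2) * (1 - r)⁻¹, by positivity, fun k => ?_⟩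
  have h1 : ∑ i ∈ Finset.Icc 1 ((D + 1) * k), (2 : ℝ) ^ (-(c * (min i k : ℕ))) ≤
      ∑ i ∈ Finset.Icc 1 ((D + 1) * k), (r ^ i + r ^ k) := by
    refine Finset.sum_le_sum fun i _ => ?_
    rw [hpow]
    rcases le_total i k with h | h
    · rw [min_eq_left h]
      have : 0 < r ^ k := by positivity
      linarith
    · rw [min_eq_right h]
      have : 0 < r ^ i := by positivity
      linarith
  refine h1.trans ?_
  rw [Finset.sum_add_distrib, Finset.sum_const, Nat.card_Icc, nsmul_eq_mul]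
  have h2 : ∑ i ∈ Finset.Icc 1 ((D + 1) * k), r ^ i ≤ (1 - r)⁻¹ := by
    refine le_trans (Finset.sum_le_sum_of_subset_of_nonneg (t := Finset.range ((D + 1) * k + 1)) ?_
      fun i _ _ => by positivity) (hgeo _)
    intro i hi
    rw [Finset.mem_Icc] at hi
    rw [Finset.mem_range]
    omega
  have h3 : (k : ℝ) * r ^ k ≤ (1 - r)⁻¹ := by
    refine le_trans ?_ (hgeo k)
    have h4 : ∑ i ∈ Finset.range k, r ^ k ≤ ∑ i ∈ Finset.range k, r ^ i := by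
      refine Finset.sum_le_sum fun i hi => ?_
      rw [Finset.mem_range] at hi
      exact pow_le_pow_of_le_one hr0.le hr1.le hi.le
    rw [Finset.sum_const, Finset.card_range, nsmul_eq_mul] at h4
    exact h4
  have h5 : (((D + 1) * k + 1 - 1 : ℕ) : ℝ) * r ^ k = (D + 1) * (k * r ^ k) := by
    rw [Nat.add_sub_cancel]
    push_cast
    ring
  rw [h5]
  have h6 : ((D : ℝ) + 1) * (k * r ^ k) ≤ (D + 1) * (1 - r)⁻¹ :=
    mul_le_mul_of_nonneg_left h3 (by positivity)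
  linarith

theorem scalA {X : Type*} [MeasurableSpace X] {μ : Measure X} [IsFiniteMeasure μ] {φ : ℝ → X → X} (hφ : IsFlow μ φ)
    {g : ℕ → X → X} (hg : GG μ φ g) (q : Polynomial ℝ) (hq : 1 ≤ q.natDegree) {f : X → ℂ} {B L : ℝ}
    (hf : Nice φ B L f) (hL : 0 ≤ L) :
    ∃ c C : ℝ, 0 < c ∧ 0 < C ∧ ∃ k₀ : ℕ, ∀ k a' b' : ℕ, k₀ ≤ k → 2 ^ k ≤ a' → b' ≤ 2 * 2 ^ k →
      ∀ a : ℕ → X → ℂ, (∀ n, Measurable (a n)) → (∀ n x, ‖a n x‖ ≤ 1) →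
        ∫ z, ‖BB φ g (fun n => q.eval (n : ℝ)) a (2 ^ k) (Finset.Ioc a' b')
          (fun y => f y - Kop φ (((2 : ℝ) ^ k) ^ q.natDegree) f y) z.2 z.1‖ ^ 2
            ∂(μ.prod (volume.restrict (Set.Icc (1 : ℝ) 2))) ≤
          C * ((1 / 4) ^ k + ∑ i ∈ Finset.Icc 1 ((q.natDegree + 1) * k), (2 : ℝ) ^ (-(c * (min i k : ℕ))) *
            (al μ φ f (((2 : ℝ) ^ k) ^ q.natDegree / 2 ^ i) - al μ φ f (2 * (((2 : ℝ) ^ k) ^ q.natDegree / 2 ^ i)))) := by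
  obtain ⟨c₀, C₀, hc₀, hc₀1, hC₀, N₀, hbas⟩ := basQ hφ hg q hq
  set D : ℕ := q.natDegree with hD
  obtain ⟨C₂, hC₂, hlam⟩ := ScalA_lam (c := c₀ / 10) (by positivity) D
  obtain ⟨k₁, hk₁⟩ := pow_unbounded_of_one_lt C₀ (one_lt_two : (1 : ℝ) < 2)
  set ν : Measure (X × ℝ) := μ.prod (volume.restrict (Set.Icc (1 : ℝ) 2)) with hν
  set mm : ℝ := ν.real Set.univ with hmm
  have hmm0 : 0 ≤ mm := measureReal_nonneg
  refine ⟨c₀ / 10, 2 * L ^ 2 * mm + C₂ * C₀, by positivity, by positivity, max N₀ (3 * k₁), ?_⟩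
  intro k a' b' hk ha' hb' a ham ha1
  have hkN : N₀ ≤ 2 ^ k := ((le_max_left _ _).trans hk).trans (Nat.lt_two_pow_self).le
  have hk1 : 3 * k₁ ≤ k := (le_max_right _ _).trans hk
  have hN1 : 1 ≤ 2 ^ k := Nat.one_le_two_pow
  set U : ℝ := ((2 : ℝ) ^ k) ^ D with hU
  have hU0 : 0 < U := by positivity
  set m : ℕ := (D + 1) * k with hm
  set p : ℕ → ℝ := fun n => q.eval (n : ℝ) with hp
  have hMpos : ∀ i : ℕ, 0 < U / 2 ^ i := fun i => by positivity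
  have hgg : ∀ i : ℕ, Nice φ B L (gg φ (U / 2 ^ i) f) := fun i => gg_nice hφ hf (hMpos i)
  set H : ℕ → X → ℂ := fun i y => gg φ (U / 2 ^ i) f y - gg φ (U / 2 ^ i) f (φ (U / 2 ^ i) y) with hH
  set Δ : ℕ → ℝ := fun i => al μ φ f (U / 2 ^ i) - al μ φ f (2 * (U / 2 ^ i)) with hΔ
  have hΔ0 : ∀ i, ∫ x, ‖gg φ (U / 2 ^ i) f x‖ ^ 2 ∂μ ≤ 1 / 4 * Δ i := fun i => gg_l2 hφ hf (hMpos i)
  have hΔ1 : ∀ i, 0 ≤ Δ i := by
    intro i
    have h1 : 0 ≤ ∫ x, ‖gg φ (U / 2 ^ i) f x‖ ^ 2 ∂μ := integral_nonneg fun x => by positivity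
    have h2 := hΔ0 i
    linarith
  set lam : ℕ → ℝ := fun i => (2 : ℝ) ^ (-(c₀ / 10 * (min i k : ℕ))) with hlamdef
  have hlam0 : ∀ i, 0 < lam i := fun i => by positivity
  set Z : ℕ → X × ℝ → ℂ := fun i z => BB φ g p a (2 ^ k) (Finset.Ioc a' b') (H i) z.2 z.1 with hZ
  have hB0 : 0 ≤ 2 * |B| := by positivity
  have hHb : ∀ i y, ‖H i y‖ ≤ 2 * |B| := by
    intro i y
    have h1 := (hgg i).bd y
    have h2 := (hgg i).bd (φ (U / 2 ^ i) y)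
    have h3 := norm_sub_le (gg φ (U / 2 ^ i) f y) (gg φ (U / 2 ^ i) f (φ (U / 2 ^ i) y))
    have h4 := le_abs_self B
    calc ‖H i y‖ ≤ _ := h3
      _ ≤ 2 * |B| := by linarith
  have hHm : ∀ i, Measurable (H i) := by
    intro i
    exact (hgg i).meas.sub ((hgg i).meas.comp (hφ.mp _).measurable)
  have hZi : ∀ i, Integrable (fun z => ‖Z i z‖ ^ 2) ν := fun i =>
    ScalA_int (ScalA_meas hφ (fun n => (hg.mp n).measurable) p a ham _ _ (hHm i))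
      fun z => ScalA_bd φ g p a ha1 hN1 ha' hb' (H i) hB0 (hHb i) z.2 z.1
  -- one scale
  have hone : ∀ i ∈ Finset.Icc 1 m, (lam i)⁻¹ * ∫ z, ‖Z i z‖ ^ 2 ∂ν ≤ C₀ / 2 * (lam i * Δ i) := by
    intro i _
    set n : ℕ := min i k with hn
    have hni : n ≤ i := min_le_left _ _
    have hnk : n ≤ k := min_le_right _ _
    have hJ5 : (((2 ^ (n / 5) : ℕ) : ℝ)) ^ 5 ≤ 2 ^ i := by
      push_cast
      rw [← pow_mul]
      exact pow_le_pow_right₀ (by norm_num) (by omega)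
    have hJ3 : C₀ * (((2 ^ (n / 5) : ℕ) : ℝ)) ^ 3 ≤ ((2 ^ k : ℕ) : ℝ) := by
      push_cast
      rw [← pow_mul]
      calc C₀ * 2 ^ (n / 5 * 3) ≤ 2 ^ k₁ * 2 ^ (n / 5 * 3) :=
            mul_le_mul_of_nonneg_right hk₁.le (by positivity)
        _ = 2 ^ (k₁ + n / 5 * 3) := (pow_add _ _ _).symm
        _ ≤ 2 ^ k := pow_le_pow_right₀ (by norm_num) (by omega)
    have h1 := hbas (2 ^ k) a' b' hkN hN1 ha' hb' (2 ^ (n / 5)) Nat.one_le_two_pow hJ3 (U / 2 ^ i)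
      (hMpos i).le (by
        rw [mul_div_assoc', div_le_iff₀ (by positivity)]
        calc (((2 ^ (n / 5) : ℕ) : ℝ)) ^ 5 * U ≤ 2 ^ i * U := mul_le_mul_of_nonneg_right hJ5 hU0.le
          _ = ((2 ^ k : ℕ) : ℝ) ^ D * 2 ^ i := by
              rw [hU]
              push_cast
              ring)
      (gg φ (U / 2 ^ i) f) B (hgg i).meas (hgg i).bd a ham ha1
    have h2 : ∫ z, ‖Z i z‖ ^ 2 ∂ν ≤ C₀ * ((2 ^ (n / 5) : ℕ) : ℝ) ^ (-c₀) *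
        ∫ x, ‖gg φ (U / 2 ^ i) f x‖ ^ 2 ∂μ := h1
    have h3 : ((2 ^ (n / 5) : ℕ) : ℝ) ^ (-c₀) ≤ 2 * (lam i * lam i) := by
      have e1 : ((2 ^ (n / 5) : ℕ) : ℝ) ^ (-c₀) = (2 : ℝ) ^ (((n / 5 : ℕ) : ℝ) * (-c₀)) := by
        push_cast
        rw [← Real.rpow_natCast, ← Real.rpow_mul (by norm_num)]
      have e2 : 2 * (lam i * lam i) = (2 : ℝ) ^ (1 + -(c₀ / 5 * n)) := by
        rw [hlamdef]
        dsimp only
        rw [← Real.rpow_add (by norm_num), Real.rpow_add (by norm_num) 1, Real.rpow_one]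
        congr 2
        ring
      rw [e1, e2]
      refine Real.rpow_le_rpow_of_exponent_le (by norm_num) ?_
      have e3 : (n : ℝ) ≤ 5 * ((n / 5 : ℕ) : ℝ) + 4 := by
        have : n ≤ 5 * (n / 5) + 4 := by omega
        exact_mod_cast this
      nlinarith
    have h4 : ∫ z, ‖Z i z‖ ^ 2 ∂ν ≤ C₀ * (2 * (lam i * lam i)) * (1 / 4 * Δ i) := by
      refine h2.trans ?_
      have h5 : 0 ≤ ∫ x, ‖gg φ (U / 2 ^ i) f x‖ ^ 2 ∂μ := integral_nonneg fun x => by positivity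
      exact mul_le_mul (mul_le_mul_of_nonneg_left h3 (by linarith)) (hΔ0 i) h5
        (by have := hlam0 i; positivity)
    calc (lam i)⁻¹ * ∫ z, ‖Z i z‖ ^ 2 ∂ν ≤ (lam i)⁻¹ * (C₀ * (2 * (lam i * lam i)) * (1 / 4 * Δ i)) :=
          mul_le_mul_of_nonneg_left h4 (inv_nonneg.2 (hlam0 i).le)
      _ = ((lam i)⁻¹ * lam i) * (C₀ / 2 * (lam i * Δ i)) := by ring
      _ = C₀ / 2 * (lam i * Δ i) := by rw [inv_mul_cancel₀ (hlam0 i).ne', one_mul]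
  -- the small scale
  have hsmall : ∀ z : X × ℝ, ‖BB φ g p a (2 ^ k) (Finset.Ioc a' b')
      (fun y => f y - Kop φ (U / 2 ^ m) f y) z.2 z.1‖ ≤ L * (1 / 2) ^ k := by
    intro z
    refine ScalA_bd φ g p a ha1 hN1 ha' hb' _ (by positivity) (fun y => ?_) z.2 z.1
    refine (Kop_near hφ hf hL (hMpos m) y).trans (le_of_eq ?_)
    congr 1
    rw [hU, hm, div_eq_iff (by positivity), ← pow_mul, add_mul, one_mul, pow_add, mul_comm k D,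
      one_div, inv_pow]
    field_simp
  have hpt : ∀ z : X × ℝ, ‖BB φ g p a (2 ^ k) (Finset.Ioc a' b')
      (fun y => f y - Kop φ U f y) z.2 z.1‖ ^ 2 ≤
      2 * L ^ 2 * (1 / 4) ^ k + 2 * C₂ * ∑ i ∈ Finset.Icc 1 m, (lam i)⁻¹ * ‖Z i z‖ ^ 2 := by
    intro z
    have h1 := ScalA_BB φ g p a (2 ^ k) (Finset.Ioc a' b') m (fun y => f y - Kop φ U f y)
      (fun y => f y - Kop φ (U / 2 ^ m) f y) H (ScalA_tel hφ hf hU0 m) z.2 z.1
    have h2 : ‖BB φ g p a (2 ^ k) (Finset.Ioc a' b') (fun y => f y - Kop φ U f y) z.2 z.1‖ ≤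
        L * (1 / 2) ^ k + ‖∑ i ∈ Finset.Icc 1 m, Z i z‖ := by
      rw [h1]
      exact (norm_add_le _ _).trans (add_le_add (hsmall z) le_rfl)
    have h3 := ScalA_cs (Finset.Icc 1 m) (fun i => Z i z) lam hlam0
    have h4 : 0 ≤ ∑ i ∈ Finset.Icc 1 m, (lam i)⁻¹ * ‖Z i z‖ ^ 2 :=
      Finset.sum_nonneg fun i _ => mul_nonneg (inv_nonneg.2 (hlam0 i).le) (by positivity)
    have h5 : ‖∑ i ∈ Finset.Icc 1 m, Z i z‖ ^ 2 ≤
        C₂ * ∑ i ∈ Finset.Icc 1 m, (lam i)⁻¹ * ‖Z i z‖ ^ 2 :=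
      h3.trans (mul_le_mul_of_nonneg_right (hlam k) h4)
    have h6 : ((1 / 2 : ℝ) ^ k) ^ 2 = (1 / 4) ^ k := by
      rw [← pow_mul, mul_comm, pow_mul]
      norm_num
    calc _ ≤ (L * (1 / 2) ^ k + ‖∑ i ∈ Finset.Icc 1 m, Z i z‖) ^ 2 :=
          pow_le_pow_left₀ (norm_nonneg _) h2 2
      _ ≤ 2 * (L * (1 / 2) ^ k) ^ 2 + 2 * ‖∑ i ∈ Finset.Icc 1 m, Z i z‖ ^ 2 := by
          have := add_sq_le (a := L * (1 / 2) ^ k) (b := ‖∑ i ∈ Finset.Icc 1 m, Z i z‖)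
          linarith
      _ = 2 * L ^ 2 * (1 / 4) ^ k + 2 * ‖∑ i ∈ Finset.Icc 1 m, Z i z‖ ^ 2 := by
          rw [mul_pow, h6]
          ring
      _ ≤ 2 * L ^ 2 * (1 / 4) ^ k + 2 * (C₂ * ∑ i ∈ Finset.Icc 1 m, (lam i)⁻¹ * ‖Z i z‖ ^ 2) := by
          linarith
      _ = _ := by ring
  have hTi : Integrable (fun z => ∑ i ∈ Finset.Icc 1 m, (lam i)⁻¹ * ‖Z i z‖ ^ 2) ν :=
    integrable_finsetSum _ fun i _ => (hZi i).const_mul _
  have hbig : ∫ z, ‖BB φ g p a (2 ^ k) (Finset.Ioc a' b') (fun y => f y - Kop φ U f y) z.2 z.1‖ ^ 2 ∂ν ≤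
      mm * (2 * L ^ 2 * (1 / 4) ^ k) +
        2 * C₂ * ∑ i ∈ Finset.Icc 1 m, (lam i)⁻¹ * ∫ z, ‖Z i z‖ ^ 2 ∂ν := by
    have h1 : ∫ z, (2 * L ^ 2 * (1 / 4) ^ k + 2 * C₂ * ∑ i ∈ Finset.Icc 1 m, (lam i)⁻¹ * ‖Z i z‖ ^ 2) ∂ν =
        mm * (2 * L ^ 2 * (1 / 4) ^ k) +
        2 * C₂ * ∑ i ∈ Finset.Icc 1 m, (lam i)⁻¹ * ∫ z, ‖Z i z‖ ^ 2 ∂ν := by
      rw [integral_add (integrable_const _) (hTi.const_mul _), integral_const, integral_const_mul,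
        integral_finsetSum _ fun i _ => (hZi i).const_mul _, smul_eq_mul]
      simp only [integral_const_mul]
      rfl
    rw [← h1]
    exact integral_mono_of_nonneg (Filter.Eventually.of_forall fun z => by positivity)
      ((integrable_const _).add (hTi.const_mul _)) (Filter.Eventually.of_forall hpt)
  have hS0 : 0 ≤ ∑ i ∈ Finset.Icc 1 m, lam i * Δ i :=
    Finset.sum_nonneg fun i _ => mul_nonneg (hlam0 i).le (hΔ1 i)
  have hsum : ∑ i ∈ Finset.Icc 1 m, (lam i)⁻¹ * ∫ z, ‖Z i z‖ ^ 2 ∂ν ≤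
      C₀ / 2 * ∑ i ∈ Finset.Icc 1 m, lam i * Δ i := by
    rw [Finset.mul_sum]
    exact Finset.sum_le_sum hone
  calc _ ≤ mm * (2 * L ^ 2 * (1 / 4) ^ k) +
        2 * C₂ * ∑ i ∈ Finset.Icc 1 m, (lam i)⁻¹ * ∫ z, ‖Z i z‖ ^ 2 ∂ν := hbig
    _ ≤ mm * (2 * L ^ 2 * (1 / 4) ^ k) + 2 * C₂ * (C₀ / 2 * ∑ i ∈ Finset.Icc 1 m, lam i * Δ i) :=
        add_le_add le_rfl (mul_le_mul_of_nonneg_left hsum (by positivity))
    _ = (2 * L ^ 2 * mm) * (1 / 4) ^ k + (C₂ * C₀) * ∑ i ∈ Finset.Icc 1 m, lam i * Δ i := by ring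
    _ ≤ (2 * L ^ 2 * mm + C₂ * C₀) * (1 / 4) ^ k +
        (2 * L ^ 2 * mm + C₂ * C₀) * ∑ i ∈ Finset.Icc 1 m, lam i * Δ i := by
        refine add_le_add (mul_le_mul_of_nonneg_right ?_ (by positivity))
          (mul_le_mul_of_nonneg_right ?_ hS0)
        · have : 0 ≤ C₂ * C₀ := by positivity
          linarith
        · have : 0 ≤ 2 * L ^ 2 * mm := by positivity
          linarith
    _ = _ := by ring

end Pool.Agent.GTP
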