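import Mathlib
import Pool.Agent.GTP.Defs
import Pool.Agent.GTP.ScalA

set_option autoImplicit false

/-!
# GTP/ScalB: the averages of `f - Kop U f` over the blocks tend to zero almost everywhere

PROOF.  Let `α(j) = al μ φ f (2^j)`, `j ∈ ℤ` (`zpow`): nonincreasing (`zz_l2`: `al M - al (2M) = 4 ∫ ‖zz‖² ≥ 0`), `0 ≤ α ≤ E = ∫ ‖f‖²` (`al_nonneg`, `al_le`); `D = natDegree q ≥ 1`.  By `ScalA.scalA` for `k ≥ k₀`
`e_k := ∫ ‖BB_k‖² ≤ C (4^(-k) + ∑_{i=1}^{(D+1)k} 2^(-c min(i,k)) (α(Dk - i) - α(Dk - i + 1)))`.  `∑_k e_k < ∞`: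
* `i ≤ k`: for fixed `i` the intervals `[Dk - i, Dk - i + 1]` do not overlap for different `k` (`D ≥ 1`), so `∑_{k ≤ K} (α(Dk - i) - α(Dk - i + 1)) ≤ E` (prove by induction on `K`:
  `∑_{k ≤ K} (..) ≤ E - α(DK - i + 1)`, since `DK - i + 1 ≤ D(K+1) - i`); times `2^(-c i)`, summable in `i`.
* `k < i ≤ (D+1)k`: `∑_i (α(Dk - i) - α(Dk - i + 1)) ≤ E` (telescoping in `i`), times `2^(-c k)`, summable in `k`.
Hence `∑_k ∫ ‖BB_k(z)‖² < ∞`, so `∑_k ‖BB_k(z)‖² < ∞` and `BB_k(z) → 0` for almost every `z` (`lintegral_tsum`, `ae_lt_top`, `ENNReal.tendsto_cofinite_zero_of_tsum_ne_top`, or the lemma used in `GT/High.lean`).  For `k < k₀` nothing is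
needed.  The integrands are bounded and measurable on a finite measure space (`BB` is jointly measurable: `hφ.meas`, `hg.mp`; `Kop_nice`).
-/

namespace Pool.Agent.GTP

open MeasureTheory Filter Topology Pool.Agent.GT

/-- the energy is nonincreasing along the dyadic scales -/
private theorem ScalB_anti {X : Type*} [MeasurableSpace X] {μ : Measure X} [IsFiniteMeasure μ]
    {φ : ℝ → X → X} (hφ : IsFlow μ φ) {f : X → ℂ} {B L : ℝ} (hf : Nice φ B L f) :
    Antitone (fun j : ℤ => al μ φ f ((2 : ℝ) ^ j)) := by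
  refine antitone_int_of_succ_le fun j => ?_
  have hM : (0 : ℝ) < 2 ^ j := by positivity
  have h1 := zz_l2 hφ hf hM
  have h2 : 0 ≤ ∫ x, ‖zz φ (2 ^ j) f x‖ ^ 2 ∂μ := integral_nonneg fun x => sq_nonneg _
  have h3 : (2 : ℝ) ^ (j + 1) = 2 * 2 ^ j := by
    rw [zpow_add₀ (by norm_num : (2 : ℝ) ≠ 0), zpow_one, mul_comm]
  show al μ φ f ((2 : ℝ) ^ (j + 1)) ≤ al μ φ f ((2 : ℝ) ^ j)
  rw [h3]
  linarith

/-- telescoping with gaps -/
private theorem ScalB_tel {α : ℤ → ℝ} (hα : Antitone α) {E : ℝ} (hE : ∀ j, α j ≤ E) {d : ℕ} (hd : 1 ≤ d)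
    (i K : ℕ) :
    ∑ k ∈ Finset.range K, (α ((d : ℤ) * k - i) - α ((d : ℤ) * k - i + 1)) ≤
      E - α ((d : ℤ) * K - i) := by
  induction K with
  | zero =>
    have := hE ((d : ℤ) * (0 : ℕ) - i)
    simp only [Finset.range_zero, Finset.sum_empty]
    linarith
  | succ K ih =>
    rw [Finset.sum_range_succ]
    have hd' : (1 : ℤ) ≤ d := by exact_mod_cast hd
    have h1 : α ((d : ℤ) * (K + 1 : ℕ) - i) ≤ α ((d : ℤ) * K - i + 1) := by
      apply hα
      push_cast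
      nlinarith
    linarith

/-- telescoping in the scale -/
private theorem ScalB_tel' (α : ℤ → ℝ) (x : ℤ) (m : ℕ) :
    ∑ i ∈ Finset.Icc 1 m, (α (x - i) - α (x - i + 1)) = α (x - m) - α x := by
  induction m with
  | zero => simp
  | succ m ih =>
    rw [Finset.sum_Icc_succ_top (by omega), ih]
    have h1 : x - ((m + 1 : ℕ) : ℤ) + 1 = x - m := by push_cast; ring
    rw [h1]
    ring

private theorem ScalB_sum {α : ℤ → ℝ} (hα : Antitone α) (h0 : ∀ j, 0 ≤ α j) {E : ℝ} (hE : ∀ j, α j ≤ E)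
    {d : ℕ} (hd : 1 ≤ d) {c : ℝ} (hc : 0 < c) :
    Summable (fun k : ℕ => ∑ i ∈ Finset.Icc 1 ((d + 1) * k), (2 : ℝ) ^ (-(c * (min i k : ℕ))) *
      (α ((d : ℤ) * k - i) - α ((d : ℤ) * k - i + 1))) := by
  set r : ℝ := (2 : ℝ) ^ (-c) with hr
  have hr0 : 0 < r := by positivity
  have hr1 : r < 1 := Real.rpow_lt_one_of_one_lt_of_neg (by norm_num) (by linarith)
  have hpow : ∀ n : ℕ, (2 : ℝ) ^ (-(c * (n : ℝ))) = r ^ n := by
    intro n
    rw [hr, ← Real.rpow_natCast, ← Real.rpow_mul (by norm_num)]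
    congr 1
    ring
  have hgeo := summable_geometric_of_lt_one hr0.le hr1
  have hgeo' : ∀ s : Finset ℕ, ∑ i ∈ s, r ^ i ≤ (1 - r)⁻¹ := by
    intro s
    rw [← tsum_geometric_of_lt_one hr0.le hr1]
    exact hgeo.sum_le_tsum _ fun i _ => by positivity
  have hE0 : 0 ≤ E := (h0 0).trans (hE 0)
  have hΔ : ∀ k i : ℕ, 0 ≤ α ((d : ℤ) * k - i) - α ((d : ℤ) * k - i + 1) := by
    intro k i
    refine sub_nonneg.2 (hα ?_)
    linarith
  refine summable_of_sum_range_le (c := (1 - r)⁻¹ * E + (1 - r)⁻¹ * E)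
    (fun k => Finset.sum_nonneg fun i _ => mul_nonneg (by positivity) (hΔ k i)) fun K => ?_
  have h1 : ∑ k ∈ Finset.range K, ∑ i ∈ Finset.Icc 1 ((d + 1) * k), (2 : ℝ) ^ (-(c * (min i k : ℕ))) *
        (α ((d : ℤ) * k - i) - α ((d : ℤ) * k - i + 1)) ≤
      ∑ k ∈ Finset.range K, ∑ i ∈ Finset.Icc 1 ((d + 1) * k), r ^ i *
        (α ((d : ℤ) * k - i) - α ((d : ℤ) * k - i + 1)) +
      ∑ k ∈ Finset.range K, r ^ k * ∑ i ∈ Finset.Icc 1 ((d + 1) * k),
        (α ((d : ℤ) * k - i) - α ((d : ℤ) * k - i + 1)) := by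
    rw [← Finset.sum_add_distrib]
    refine Finset.sum_le_sum fun k _ => ?_
    rw [Finset.mul_sum, ← Finset.sum_add_distrib]
    refine Finset.sum_le_sum fun i _ => ?_
    rw [← add_mul]
    refine mul_le_mul_of_nonneg_right ?_ (hΔ k i)
    rw [hpow]
    rcases le_total i k with h | h
    · rw [min_eq_left h]
      have : 0 < r ^ k := by positivity
      linarith
    · rw [min_eq_right h]
      have : 0 < r ^ i := by positivity
      linarith
  refine h1.trans (add_le_add ?_ ?_)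
  · calc ∑ k ∈ Finset.range K, ∑ i ∈ Finset.Icc 1 ((d + 1) * k), r ^ i *
          (α ((d : ℤ) * k - i) - α ((d : ℤ) * k - i + 1))
        ≤ ∑ k ∈ Finset.range K, ∑ i ∈ Finset.Icc 1 ((d + 1) * K), r ^ i *
          (α ((d : ℤ) * k - i) - α ((d : ℤ) * k - i + 1)) := by
          refine Finset.sum_le_sum fun k hk => ?_
          refine Finset.sum_le_sum_of_subset_of_nonneg ?_
            fun i _ _ => mul_nonneg (by positivity) (hΔ k i)
          refine Finset.Icc_subset_Icc le_rfl ?_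
          exact Nat.mul_le_mul_left _ (Finset.mem_range.1 hk).le
      _ = ∑ i ∈ Finset.Icc 1 ((d + 1) * K), r ^ i *
          ∑ k ∈ Finset.range K, (α ((d : ℤ) * k - i) - α ((d : ℤ) * k - i + 1)) := by
          rw [Finset.sum_comm]
          refine Finset.sum_congr rfl fun i _ => ?_
          rw [Finset.mul_sum]
      _ ≤ ∑ i ∈ Finset.Icc 1 ((d + 1) * K), r ^ i * E := by
          refine Finset.sum_le_sum fun i _ => ?_
          refine mul_le_mul_of_nonneg_left ?_ (by positivity)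
          have h1 := ScalB_tel hα hE hd i K
          have h2 := h0 ((d : ℤ) * K - i)
          linarith
      _ ≤ (1 - r)⁻¹ * E := by
          rw [← Finset.sum_mul]
          exact mul_le_mul_of_nonneg_right (hgeo' _) hE0
  · calc ∑ k ∈ Finset.range K, r ^ k * ∑ i ∈ Finset.Icc 1 ((d + 1) * k),
          (α ((d : ℤ) * k - i) - α ((d : ℤ) * k - i + 1))
        ≤ ∑ k ∈ Finset.range K, r ^ k * E := by
          refine Finset.sum_le_sum fun k _ => ?_
          refine mul_le_mul_of_nonneg_left ?_ (by positivity)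
          rw [ScalB_tel' α ((d : ℤ) * k) ((d + 1) * k)]
          have h1 := hE ((d : ℤ) * k - ((d + 1) * k : ℕ))
          have h2 := h0 ((d : ℤ) * k)
          linarith
      _ ≤ (1 - r)⁻¹ * E := by
          rw [← Finset.sum_mul]
          exact mul_le_mul_of_nonneg_right (hgeo' _) hE0

private theorem ScalB_meas {X : Type*} [MeasurableSpace X] {μ : Measure X} {φ : ℝ → X → X} (hφ : IsFlow μ φ)
    {g : ℕ → X → X} (hg : ∀ n, Measurable (g n)) (p : ℕ → ℝ) (a : ℕ → X → ℂ)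
    (ha : ∀ n, Measurable (a n)) (N : ℕ) (I : Finset ℕ) {F : X → ℂ} (hF : Measurable F) :
    Measurable (fun z : X × ℝ => BB φ g p a N I F z.2 z.1) := by
  unfold BB
  refine measurable_const.mul (Finset.measurable_fun_sum _ fun n _ => ?_)
  have h0 : Measurable (fun z : X × ℝ => (z.2 * p n, g n z.1)) :=
    (measurable_snd.mul_const _).prodMk ((hg n).comp measurable_fst)
  have h1 : Measurable (fun z : X × ℝ => φ (z.2 * p n) (g n z.1)) := hφ.meas.comp h0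
  exact ((ha n).comp measurable_fst).mul (hF.comp h1)

private theorem ScalB_bd {X : Type*} (φ : ℝ → X → X) (g : ℕ → X → X) (p : ℕ → ℝ) (a : ℕ → X → ℂ)
    (ha : ∀ n x, ‖a n x‖ ≤ 1) (N : ℕ) (I : Finset ℕ) (F : X → ℂ)
    {K : ℝ} (hF : ∀ y, ‖F y‖ ≤ K) (β : ℝ) (x : X) :
    ‖BB φ g p a N I F β x‖ ≤ (N : ℝ)⁻¹ * (I.card * K) := by
  unfold BB
  rw [norm_mul, norm_inv, Complex.norm_natCast]
  refine mul_le_mul_of_nonneg_left ?_ (by positivity)
  refine (norm_sum_le _ _).trans ?_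
  have h1 : ∑ n ∈ I, ‖a n x * F (φ (β * p n) (g n x))‖ ≤ ∑ n ∈ I, K := by
    refine Finset.sum_le_sum fun n _ => ?_
    rw [norm_mul]
    calc ‖a n x‖ * ‖F (φ (β * p n) (g n x))‖ ≤ 1 * K :=
          mul_le_mul (ha n x) (hF _) (norm_nonneg _) zero_le_one
      _ = K := one_mul K
  refine h1.trans ?_
  rw [Finset.sum_const, nsmul_eq_mul]

/-- summable mean squares give convergence to zero almost everywhere -/
private theorem ScalB_ae {Y : Type*} [MeasurableSpace Y] {ν : Measure Y} [IsFiniteMeasure ν]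
    {T : ℕ → Y → ℂ} (hT : ∀ k, Measurable (T k)) (hb : ∀ k, ∃ K : ℝ, ∀ y, ‖T k y‖ ≤ K)
    (hs : Summable (fun k => ∫ y, ‖T k y‖ ^ 2 ∂ν)) :
    ∀ᵐ y ∂ν, Tendsto (fun k => T k y) atTop (𝓝 0) := by
  have mT : ∀ k, Measurable (fun y => ‖T k y‖ₑ ^ 2) := fun k => (hT k).enorm.pow_const 2
  have hint : ∀ k, Integrable (fun y => ‖T k y‖ ^ 2) ν := by
    intro k
    obtain ⟨K, hK⟩ := hb k
    refine Integrable.of_bound ((hT k).norm.pow_const 2).aestronglyMeasurable (K ^ 2)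
      (Filter.Eventually.of_forall fun y => ?_)
    rw [Real.norm_of_nonneg (by positivity)]
    exact pow_le_pow_left₀ (norm_nonneg _) (hK y) 2
  have heq : ∀ k, ∫⁻ y, ‖T k y‖ₑ ^ 2 ∂ν = ENNReal.ofReal (∫ y, ‖T k y‖ ^ 2 ∂ν) := by
    intro k
    rw [ofReal_integral_eq_lintegral_ofReal (hint k)
      (Filter.Eventually.of_forall fun y => by positivity)]
    refine lintegral_congr fun y => ?_
    rw [ENNReal.ofReal_pow (norm_nonneg _), ofReal_norm]
  have hae : ∀ᵐ y ∂ν, ∑' k, ‖T k y‖ₑ ^ 2 < ⊤ := by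
    refine ae_lt_top (Measurable.tsum mT) ?_
    rw [lintegral_tsum fun k => (mT k).aemeasurable]
    simp only [heq]
    exact hs.tsum_ofReal_ne_top
  filter_upwards [hae] with p hp
  have h1 : Tendsto (fun k => ‖T k p‖ₑ ^ 2) atTop (𝓝 0) :=
    ENNReal.tendsto_atTop_zero_of_tsum_ne_top hp.ne
  rw [tendsto_zero_iff_norm_tendsto_zero]
  have h3 : Tendsto (fun k => ‖T k p‖ ^ 2) atTop (𝓝 0) := by
    have h4 := (ENNReal.tendsto_toReal ENNReal.zero_ne_top).comp h1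
    simpa [Function.comp_def, ENNReal.toReal_pow, toReal_enorm] using h4
  have h5 := (Real.continuous_sqrt.tendsto 0).comp h3
  simpa [Function.comp_def, Real.sqrt_sq (norm_nonneg _)] using h5

theorem scalB {X : Type*} [MeasurableSpace X] {μ : Measure X} [IsFiniteMeasure μ] {φ : ℝ → X → X} (hφ : IsFlow μ φ)
    {g : ℕ → X → X} (hg : GG μ φ g) (q : Polynomial ℝ) (hq : 1 ≤ q.natDegree) {f : X → ℂ} {B L : ℝ}
    (hf : Nice φ B L f) (hL : 0 ≤ L) {I : ℕ → Finset ℕ} (hI : IsBlk I) {a : ℕ → X → ℂ} (ha : ∀ n, Measurable (a n))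
    (ha1 : ∀ n x, ‖a n x‖ ≤ 1) :
    ∀ᵐ z ∂(μ.prod (volume.restrict (Set.Icc (1 : ℝ) 2))), Tendsto (fun k : ℕ =>
      BB φ g (fun n => q.eval (n : ℝ)) a (2 ^ k) (I k) (fun y => f y - Kop φ (((2 : ℝ) ^ k) ^ q.natDegree) f y) z.2 z.1)
      atTop (𝓝 0) := by
  obtain ⟨c, C, hc, hC, k₀, hA⟩ := scalA hφ hg q hq hf hL
  set D : ℕ := q.natDegree with hD
  set ν : Measure (X × ℝ) := μ.prod (volume.restrict (Set.Icc (1 : ℝ) 2)) with hν
  set T : ℕ → X × ℝ → ℂ := fun k z => BB φ g (fun n => q.eval (n : ℝ)) a (2 ^ k) (I k)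
    (fun y => f y - Kop φ (((2 : ℝ) ^ k) ^ D) f y) z.2 z.1 with hT
  have hU : ∀ k : ℕ, (0 : ℝ) < ((2 : ℝ) ^ k) ^ D := fun k => by positivity
  have hKn : ∀ k : ℕ, Nice φ B L (Kop φ (((2 : ℝ) ^ k) ^ D) f) := fun k => Kop_nice hφ hf (hU k)
  have hTm : ∀ k, Measurable (T k) := fun k =>
    ScalB_meas hφ (fun n => (hg.mp n).measurable) _ a ha _ _ (hf.meas.sub (hKn k).meas)
  have hTb : ∀ k, ∃ K : ℝ, ∀ z, ‖T k z‖ ≤ K := fun k =>
    ⟨_, fun z => ScalB_bd φ g _ a ha1 (2 ^ k) (I k) _ (K := B + B)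
      (fun y => (norm_sub_le _ _).trans (add_le_add (hf.bd y) ((hKn k).bd y))) z.2 z.1⟩
  refine ScalB_ae hTm hTb ?_
  set α : ℤ → ℝ := fun j => al μ φ f ((2 : ℝ) ^ j) with hα
  have hαa : Antitone α := ScalB_anti hφ hf
  have hα0 : ∀ j, 0 ≤ α j := fun j => al_nonneg f _
  have hαE : ∀ j, α j ≤ ∫ x, ‖f x‖ ^ 2 ∂μ := fun j => al_le hφ hf (by positivity)
  have hs1 := ScalB_sum hαa hα0 hαE hq hc
  have hs2 : Summable (fun k : ℕ => (1 / 4 : ℝ) ^ k) :=
    summable_geometric_of_lt_one (by norm_num) (by norm_num)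
  have hs3 := (hs2.add hs1).mul_left C
  have hpow : ∀ k i : ℕ, (((2 : ℝ) ^ k) ^ D / 2 ^ i) = (2 : ℝ) ^ ((D : ℤ) * k - i) := by
    intro k i
    rw [zpow_sub₀ (by norm_num : (2 : ℝ) ≠ 0), ← pow_mul, mul_comm k D]
    norm_cast
  have hpow' : ∀ k i : ℕ, (2 * (((2 : ℝ) ^ k) ^ D / 2 ^ i)) = (2 : ℝ) ^ ((D : ℤ) * k - i + 1) := by
    intro k i
    rw [hpow, zpow_add₀ (by norm_num : (2 : ℝ) ≠ 0), zpow_one, mul_comm]
  refine Summable.of_norm_bounded_eventually_nat hs3 ?_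
  filter_upwards [eventually_ge_atTop k₀] with k hk
  obtain ⟨a', b', hI', ha', hb'⟩ := hI k
  rw [Real.norm_of_nonneg (integral_nonneg fun z => by positivity)]
  have h1 := hA k a' b' hk ha' hb' a ha ha1
  rw [← hI'] at h1
  refine h1.trans (le_of_eq ?_)
  congr 2
  refine Finset.sum_congr rfl fun i _ => ?_
  rw [hpow', hpow]

end Pool.Agent.GTP
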