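import Mathlib
import Pool.Agent.GTP.Defs
import Pool.Agent.GTP.ScalB
import Pool.Agent.GTP.OscG
import Pool.Agent.GTP.LimG
import Pool.Agent.GT.Ces

set_option autoImplicit false

/-!
# GTP/OneG: one flow, one nice function, one sided averages, `β ∈ [1, 2]`

PROOF.  Replacing `a` by `a/(|C| + 1)` we may assume `‖a‖ ≤ 1`.  `GT.sb r i k` (see `GT/Ces.lean`) is `Ioc (2^k + i 2^(k-r)) (min (2^k + (i+1) 2^(k-r)) (2·2^k))`, so `IsBlk (sb r i)`.  `D = natDegree q`, `U_k = (2^k)^D`.  For almost every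
`z = (x, β)` and all `r`, `i < 2^r`, `I = sb r i`, the sum of three quantities tends to zero:
`(2^k)⁻¹ ∑_{n ∈ I k} a_n(x) (f - Kop U_k f)(φ(β q(n)) g_n x)` (`ScalB.scalB`; this is `BB`),
`(2^k)⁻¹ ∑_{n ∈ I k} a_n(x) (Kop U_k f (φ(β q(n)) g_n x) - Kop U_k f (g_n x))` (`OscG.oscG`, norms; the set of `x` is of full measure, so the set of `(x, β)`, `β ∈ [1,2]`, too),
`(2^k)⁻¹ ∑_{n ∈ I k} a_n(x) (Kop U_k f (g_n x) - fs (g_n x))` (`LimG.limG` for `e k x = ‖Kop φ U_k f x - fs x‖`, which tends to `0` a.e. because `U_k = 2^(Dk)` is a subsequence of `2^j` (`D ≥ 1`), and is at most `2B`).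
So `(2^k)⁻¹ ∑_{n ∈ sb r i k} h(n) → 0`, `h(n) = a_n(x) (f(φ(β q(n)) g_n x) - fs(g_n x))`, `‖h‖ ≤ 2 B`; `GT.ces` gives the claim.
-/

namespace Pool.Agent.GTP

open MeasureTheory Filter Topology Pool.Agent.GT

private theorem OneG_blk (r i : ℕ) : IsBlk (sb r i) := by
  intro k
  refine ⟨2 ^ k + i * 2 ^ (k - r), min (2 ^ k + (i + 1) * 2 ^ (k - r)) (2 * 2 ^ k), ?_,
    Nat.le_add_right _ _, min_le_right _ _⟩
  ext n
  unfold sb
  rw [Finset.mem_filter, Finset.mem_Ioc, Finset.mem_Ioc, le_min_iff, and_assoc]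

private theorem OneG_n {c : ℕ → ℂ} (hc : ∀ n, ‖c n‖ ≤ 1) {I : ℕ → Finset ℕ} {w : ℕ → ℕ → ℂ}
    (h : Tendsto (fun k : ℕ => ((2 : ℝ) ^ k)⁻¹ * ∑ n ∈ I k, ‖w k n‖) atTop (𝓝 0)) :
    Tendsto (fun k : ℕ => ((2 ^ k : ℕ) : ℂ)⁻¹ * ∑ n ∈ I k, c n * w k n) atTop (𝓝 0) := by
  refine squeeze_zero_norm (fun k => ?_) h
  rw [norm_mul, norm_inv, Complex.norm_natCast, Nat.cast_pow, Nat.cast_ofNat]
  refine mul_le_mul_of_nonneg_left ?_ (by positivity)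
  refine norm_sum_le_of_le (I k) (fun n _ => ?_)
  rw [norm_mul]
  exact mul_le_of_le_one_left (norm_nonneg _) (hc n)

private theorem OneG_sb {c : ℕ → ℂ} (hc : ∀ n, ‖c n‖ ≤ 1) {I : ℕ → Finset ℕ} {u v : ℕ → ℂ}
    {K K' : ℕ → ℕ → ℂ}
    (h1 : Tendsto (fun k : ℕ => ((2 ^ k : ℕ) : ℂ)⁻¹ * ∑ n ∈ I k, c n * (u n - K k n)) atTop (𝓝 0))
    (h2 : Tendsto (fun k : ℕ => ((2 : ℝ) ^ k)⁻¹ * ∑ n ∈ I k, ‖K k n - K' k n‖) atTop (𝓝 0))
    (h3 : Tendsto (fun k : ℕ => ((2 : ℝ) ^ k)⁻¹ * ∑ n ∈ I k, ‖K' k n - v n‖) atTop (𝓝 0)) :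
    Tendsto (fun k : ℕ => ((2 ^ k : ℕ) : ℂ)⁻¹ * ∑ n ∈ I k, c n * (u n - v n)) atTop (𝓝 0) := by
  have h6 := (h1.add (OneG_n hc h2)).add (OneG_n hc h3)
  rw [add_zero, add_zero] at h6
  refine h6.congr fun k => ?_
  rw [← mul_add, ← mul_add, ← Finset.sum_add_distrib, ← Finset.sum_add_distrib]
  congr 1
  apply Finset.sum_congr rfl
  intro n _
  ring

theorem oneG {X : Type*} [MeasurableSpace X] {μ : Measure X} [IsFiniteMeasure μ] {φ : ℝ → X → X} (hφ : IsFlow μ φ)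
    {g : ℕ → X → X} (hg : GG μ φ g) (q : Polynomial ℝ) (hq : 1 ≤ q.natDegree) {f : X → ℂ} {B L : ℝ}
    (hf : Nice φ B L f) (hL : 0 ≤ L) {fs : X → ℂ} (hfs : Measurable fs) (hfsb : ∀ x, ‖fs x‖ ≤ B)
    (hlim : ∀ᵐ x ∂μ, Tendsto (fun k : ℕ => Kop φ (2 ^ k) f x) atTop (𝓝 (fs x)))
    {a : ℕ → X → ℂ} (ha : ∀ n, Measurable (a n)) {C : ℝ} (ha1 : ∀ n x, ‖a n x‖ ≤ C) :
    ∀ᵐ z ∂(μ.prod (volume.restrict (Set.Icc (1 : ℝ) 2))), Tendsto (fun N : ℕ => ((2 * N + 1 : ℕ) : ℂ)⁻¹ *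
      ∑ n ∈ Finset.Icc 1 N, a n z.1 * (f (φ (z.2 * q.eval (n : ℝ)) (g n z.1)) - fs (g n z.1))) atTop (𝓝 0) := by
  have hCpos : 0 < |C| + 1 := by positivity
  set a' : ℕ → X → ℂ := fun n x => (((|C| + 1)⁻¹ : ℝ) : ℂ) * a n x with ha'
  have ha'm : ∀ n, Measurable (a' n) := fun n => (ha n).const_mul _
  have ha'1 : ∀ n x, ‖a' n x‖ ≤ 1 := by
    intro n x
    simp only [ha']
    rw [norm_mul, Complex.norm_real, Real.norm_of_nonneg (by positivity), inv_mul_le_iff₀ hCpos, mul_one]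
    exact (ha1 n x).trans ((le_abs_self C).trans (by linarith))
  have hU : ∀ k : ℕ, (0 : ℝ) < ((2 : ℝ) ^ k) ^ q.natDegree := fun k => by positivity
  have h1 : ∀ r i : ℕ, ∀ᵐ z ∂(μ.prod (volume.restrict (Set.Icc (1 : ℝ) 2))), Tendsto (fun k : ℕ =>
      BB φ g (fun n => q.eval (n : ℝ)) a' (2 ^ k) (sb r i k)
        (fun y => f y - Kop φ (((2 : ℝ) ^ k) ^ q.natDegree) f y) z.2 z.1) atTop (𝓝 0) :=
    fun r i => scalB hφ hg q hq hf hL (OneG_blk r i) ha'm ha'1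
  have h2 : ∀ r i : ℕ, ∀ᵐ x ∂μ, ∀ β ∈ Set.Icc (1 : ℝ) 2, Tendsto (fun k : ℕ => ((2 : ℝ) ^ k)⁻¹ *
      ∑ n ∈ sb r i k, ‖Kop φ (((2 : ℝ) ^ k) ^ q.natDegree) f (φ (β * q.eval (n : ℝ)) (g n x)) -
        Kop φ (((2 : ℝ) ^ k) ^ q.natDegree) f (g n x)‖) atTop (𝓝 0) :=
    fun r i => oscG hφ hg q hq hf (OneG_blk r i)
  have hk : Tendsto (fun k : ℕ => k * q.natDegree) atTop atTop :=
    tendsto_atTop_mono (fun k => Nat.le_mul_of_pos_right k hq) (tendsto_id (α := ℕ))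
  have h3 : ∀ r i : ℕ, ∀ᵐ x ∂μ, Tendsto (fun k : ℕ => ((2 : ℝ) ^ k)⁻¹ *
      ∑ n ∈ sb r i k, ‖Kop φ (((2 : ℝ) ^ k) ^ q.natDegree) f (g n x) - fs (g n x)‖) atTop (𝓝 0) := by
    intro r i
    refine limG (e := fun k x => ‖Kop φ (((2 : ℝ) ^ k) ^ q.natDegree) f x - fs x‖) (B := 2 * B) hg.mp
      hg.max ?_ ?_ ?_ ?_ (OneG_blk r i)
    · exact fun k => ((Kop_nice hφ hf (hU k)).meas.sub hfs).norm
    · exact fun k x => norm_nonneg _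
    · intro k x
      have h4 := norm_sub_le (Kop φ (((2 : ℝ) ^ k) ^ q.natDegree) f x) (fs x)
      have h5 := (Kop_nice hφ hf (hU k)).bd x
      have h6 := hfsb x
      linarith
    · filter_upwards [hlim] with x hx
      have h4 := (tendsto_iff_norm_sub_tendsto_zero.1 hx).comp hk
      refine h4.congr fun k => ?_
      show ‖Kop φ (2 ^ (k * q.natDegree)) f x - fs x‖ = ‖Kop φ ((2 ^ k) ^ q.natDegree) f x - fs x‖
      rw [pow_mul]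
  have h5 : ∀ᵐ z ∂(μ.prod (volume.restrict (Set.Icc (1 : ℝ) 2))), z.2 ∈ Set.Icc (1 : ℝ) 2 :=
    Measure.quasiMeasurePreserving_snd.ae (ae_restrict_mem measurableSet_Icc)
  have h2' := (Measure.quasiMeasurePreserving_fst (μ := μ) (ν := volume.restrict (Set.Icc (1 : ℝ) 2))).ae
    (ae_all_iff.2 fun r => ae_all_iff.2 (h2 r))
  have h3' := (Measure.quasiMeasurePreserving_fst (μ := μ) (ν := volume.restrict (Set.Icc (1 : ℝ) 2))).ae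
    (ae_all_iff.2 fun r => ae_all_iff.2 (h3 r))
  filter_upwards [ae_all_iff.2 fun r => ae_all_iff.2 (h1 r), h2', h3', h5] with z hz1 hz2 hz3 hz5
  have key : Tendsto (fun N : ℕ => ((2 * N + 1 : ℕ) : ℂ)⁻¹ * ∑ n ∈ Finset.Icc 1 N, a' n z.1 *
      (f (φ (z.2 * q.eval (n : ℝ)) (g n z.1)) - fs (g n z.1))) atTop (𝓝 0) := by
    refine ces (C := 2 * B)
      (g := fun n => a' n z.1 * (f (φ (z.2 * q.eval (n : ℝ)) (g n z.1)) - fs (g n z.1))) ?_ ?_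
    · intro n
      rw [norm_mul]
      have h6 := norm_sub_le (f (φ (z.2 * q.eval (n : ℝ)) (g n z.1))) (fs (g n z.1))
      have h7 := hf.bd (φ (z.2 * q.eval (n : ℝ)) (g n z.1))
      have h8 := hfsb (g n z.1)
      refine (mul_le_of_le_one_left (norm_nonneg _) (ha'1 n z.1)).trans ?_
      linarith
    · intro r i _
      exact OneG_sb (K := fun k n => Kop φ (((2 : ℝ) ^ k) ^ q.natDegree) f
          (φ (z.2 * q.eval (n : ℝ)) (g n z.1)))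
        (K' := fun k n => Kop φ (((2 : ℝ) ^ k) ^ q.natDegree) f (g n z.1))
        (fun n => ha'1 n z.1) (hz1 r i) (hz2 r i z.2 hz5) (hz3 r i)
  have h6 := key.const_mul (((|C| + 1 : ℝ)) : ℂ)
  rw [mul_zero] at h6
  refine h6.congr fun N => ?_
  have hne : (((|C| + 1 : ℝ)) : ℂ) ≠ 0 := by exact_mod_cast hCpos.ne'
  rw [← mul_assoc, mul_comm (((|C| + 1 : ℝ)) : ℂ), mul_assoc, Finset.mul_sum]
  congr 1
  refine Finset.sum_congr rfl fun n _ => ?_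
  simp only [ha']
  rw [Complex.ofReal_inv, ← mul_assoc, ← mul_assoc, mul_inv_cancel₀ hne, one_mul]

end Pool.Agent.GTP
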