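import Mathlib
import Pool.Agent.GTP.Defs
import Pool.Agent.Nil.Final

set_option autoImplicit false

/-!
# GTP/OrbF: polynomial orbits with polynomial times of a commuting flow are polynomial orbits

PROOFS.  `fperm hφ s` = the permutation `φ s` with inverse `φ (-s)`; `fperm s ^ k = fperm (s k)` for integers `k` (as `Max_zpow` in `Pool/Agent/GT/Max.lean`).
* `orbF`: `c = ∑_{l ≤ D} c_l X^l`, `φ (c(n)) = ∏_{l ≤ D} (fperm c_l)^(n^l)` (flow property).  Take `d' = (D + 1) + d`, `T' = Fin.append (fun l => fperm c_l) T`, `P' = Fin.append (fun l => X^l) P`; `orb T' P' n` is the product of the two lists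
  (`List.ofFn` of an appended family, `List.ofFn_fin_append` or similar; or induct, adding one permutation at the front at a time: `List.ofFn_succ`, `Fin.cons`, which may be simpler: prove the statement for
  `c = ` a sum over a list of monomials).  Nilpotency: let `Γ = closure (range T)` (nilpotent), `A` = the subgroup `{fperm s}` (commutative, range of the homomorphism `Multiplicative ℝ → Equiv.Perm X`); every element of `Γ`
  commutes with every `fperm s` (`hcomm`; centralizer).  The map `A × Γ → Equiv.Perm X`, `(a, γ) ↦ a γ` is a homomorphism (`MonoidHom.noncommCoprod`), `A × Γ` is nilpotent (`Group.isNilpotent_prod`), so is its range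
  (`Group.nilpotent_of_surjective`), and `closure (range T')` is a subgroup of the range (`Subgroup.isNilpotent` and an injective homomorphism, `Group.isNilpotent_of_injective`-type lemma).
* `maxOrb`: `Pool.Nil.orb_max_two` for `T'`, `P'`.
* `fperm_lit`: for `T'' i = fperm (b i) * T i`: `orb T'' P n x = φ (∑ b i P_i(n)) (orb T P n x)`: `(fperm (b i) * T i)^k = fperm (b i k) * (T i)^k` as the factors commute (`Commute.mul_zpow`), then move all the `fperm` to the left (induction
  on `d`).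
* `lit_nil`: `closure (range T'')` is nilpotent: it is contained in the range of the homomorphism above.
-/

namespace Pool.Agent.GTP

open MeasureTheory Pool.Agent.GT

section

variable {X : Type*} [MeasurableSpace X] {μ : Measure X} {φ : ℝ → X → X}

def fperm (hφ : IsFlow μ φ) (s : ℝ) : Equiv.Perm X where
  toFun := φ s
  invFun := φ (-s)
  left_inv x := by rw [← hφ.add, neg_add_cancel, hφ.zero]
  right_inv x := by rw [← hφ.add, add_neg_cancel, hφ.zero]

theorem fperm_add (hφ : IsFlow μ φ) (s t : ℝ) : fperm hφ (s + t) = fperm hφ s * fperm hφ t := by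
  ext x
  exact hφ.add s t x

/-- the flow as a homomorphism -/
def fhom (hφ : IsFlow μ φ) : Multiplicative ℝ →* Equiv.Perm X where
  toFun s := fperm hφ (Multiplicative.toAdd s)
  map_one' := by
    ext x
    exact hφ.zero x
  map_mul' s t := fperm_add hφ _ _

theorem fperm_zpow (hφ : IsFlow μ φ) (s : ℝ) (k : ℤ) : fperm hφ s ^ k = fperm hφ (s * k) := by
  have h := (map_zpow (fhom hφ) (Multiplicative.ofAdd s) k).symm
  have e : Multiplicative.toAdd (Multiplicative.ofAdd s ^ k) = s * k := by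
    rw [toAdd_zpow, toAdd_ofAdd, zsmul_eq_mul, mul_comm]
  change fperm hφ (Multiplicative.toAdd (Multiplicative.ofAdd s)) ^ k = fperm hφ (Multiplicative.toAdd (Multiplicative.ofAdd s ^ k)) at h
  rw [e, toAdd_ofAdd] at h
  exact h

theorem comm_of (hφ : IsFlow μ φ) {T : Equiv.Perm X} (h : ∀ s x, T (φ s x) = φ s (T x)) (s : ℝ) :
    Commute (fperm hφ s) T := by
  ext x
  exact (h s x).symm

theorem comm_closure (hφ : IsFlow μ φ) {d : ℕ} (T : Fin d → Equiv.Perm X)
    (hcomm : ∀ i s x, T i (φ s x) = φ s (T i x)) (s : ℝ) {x : Equiv.Perm X}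
    (hx : x ∈ Subgroup.closure (Set.range T)) : Commute (fperm hφ s) x := by
  have h : Subgroup.closure (Set.range T) ≤ Subgroup.centralizer {fperm hφ s} := by
    rw [Subgroup.closure_le]
    rintro _ ⟨i, rfl⟩
    rw [SetLike.mem_coe, Subgroup.mem_centralizer_singleton_iff]
    exact (comm_of hφ (hcomm i) s).symm
  have h2 := h hx
  rw [Subgroup.mem_centralizer_singleton_iff] at h2
  exact Commute.symm h2

/-- every subgroup of the group generated by the flow and commuting nilpotent group is nilpotent -/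
theorem nil_of (hφ : IsFlow μ φ) {d : ℕ} (T : Fin d → Equiv.Perm X)
    (hnil : Group.IsNilpotent (Subgroup.closure (Set.range T)))
    (hcomm : ∀ i s x, T i (φ s x) = φ s (T i x)) (K : Set (Equiv.Perm X))
    (hK : ∀ y ∈ K, ∃ (s : ℝ), ∃ x ∈ Subgroup.closure (Set.range T), y = fperm hφ s * x) :
    Group.IsNilpotent (Subgroup.closure K) := by
  have := hnil
  set f : Multiplicative ℝ × Subgroup.closure (Set.range T) →* Equiv.Perm X :=
    MonoidHom.noncommCoprod (fhom hφ) (Subgroup.closure (Set.range T)).subtype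
      (fun m n => comm_closure hφ T hcomm (Multiplicative.toAdd m) n.2) with hf
  have hle : Subgroup.closure K ≤ f.range := by
    rw [Subgroup.closure_le]
    intro y hy
    obtain ⟨s, x, hx, rfl⟩ := hK y hy
    exact ⟨(Multiplicative.ofAdd s, ⟨x, hx⟩), rfl⟩
  have h1 : Group.IsNilpotent f.range := Group.nilpotent_of_surjective f.rangeRestrict f.rangeRestrict_surjective
  have h2 : (Subgroup.inclusion hle).ker ≤ Subgroup.center _ := by
    rw [(MonoidHom.ker_eq_bot_iff _).2 (Subgroup.inclusion_injective hle)]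
    exact bot_le
  exact Subgroup.isNilpotent_of_ker_le_center (Subgroup.inclusion hle) h2

omit [MeasurableSpace X] in
theorem orb_succ {d : ℕ} (T : Fin (d + 1) → Equiv.Perm X) (P : Fin (d + 1) → Polynomial ℤ) (n : ℤ) :
    Pool.Nil.orb T P n = T 0 ^ (P 0).eval n * Pool.Nil.orb (fun i => T i.succ) (fun i => P i.succ) n := by
  unfold Pool.Nil.orb
  rw [List.ofFn_succ, List.prod_cons]

omit [MeasurableSpace X] in
theorem orb_mem_closure {d : ℕ} (T : Fin d → Equiv.Perm X) (P : Fin d → Polynomial ℤ) (n : ℤ) :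
    Pool.Nil.orb T P n ∈ Subgroup.closure (Set.range T) := by
  unfold Pool.Nil.orb
  apply Subgroup.list_prod_mem
  intro x hx
  rw [List.mem_ofFn] at hx
  obtain ⟨i, rfl⟩ := hx
  exact Subgroup.zpow_mem _ (Subgroup.subset_closure (Set.mem_range_self i)) _

theorem lit_aux (hφ : IsFlow μ φ) {d : ℕ} : ∀ (T : Fin d → Equiv.Perm X)
    (_ : ∀ i s x, T i (φ s x) = φ s (T i x)) (P : Fin d → Polynomial ℤ) (b : Fin d → ℝ) (n : ℤ),
    Pool.Nil.orb (fun i => fperm hφ (b i) * T i) P n =
      fperm hφ (∑ i, b i * (((P i).eval n : ℤ) : ℝ)) * Pool.Nil.orb T P n := by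
  induction d with
  | zero =>
    intro T _ P b n
    ext x
    simp only [Pool.Nil.orb, List.ofFn_zero, List.prod_nil, Finset.univ_eq_empty, Finset.sum_empty]
    exact (hφ.zero x).symm
  | succ d ih =>
    intro T hT P b n
    rw [orb_succ, orb_succ, ih (fun i => T i.succ) (fun i => hT i.succ) (fun i => P i.succ) (fun i => b i.succ) n,
      Fin.sum_univ_succ, fperm_add, (comm_of hφ (hT 0) (b 0)).mul_zpow, fperm_zpow]
    have hc := (comm_of hφ (hT 0) (∑ i : Fin d, b i.succ * (((P i.succ).eval n : ℤ) : ℝ))).zpow_right ((P 0).eval n)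
    rw [mul_assoc, ← mul_assoc (T 0 ^ _), ← hc.eq]
    simp only [mul_assoc]

theorem fperm_lit (hφ : IsFlow μ φ) {d : ℕ} (T : Fin d → Equiv.Perm X)
    (hcomm : ∀ i s x, T i (φ s x) = φ s (T i x)) (P : Fin d → Polynomial ℤ) (b : Fin d → ℝ) (n : ℤ) (x : X) :
    Pool.Nil.orb (fun i => fperm hφ (b i) * T i) P n x =
      φ (∑ i, b i * (((P i).eval n : ℤ) : ℝ)) (Pool.Nil.orb T P n x) := by
  rw [lit_aux hφ T hcomm]
  rfl

theorem lit_nil (hφ : IsFlow μ φ) {d : ℕ} (T : Fin d → Equiv.Perm X)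
    (hnil : Group.IsNilpotent (Subgroup.closure (Set.range T)))
    (hcomm : ∀ i s x, T i (φ s x) = φ s (T i x)) (b : Fin d → ℝ) :
    Group.IsNilpotent (Subgroup.closure (Set.range fun i => fperm hφ (b i) * T i)) := by
  refine nil_of hφ T hnil hcomm _ ?_
  rintro _ ⟨i, rfl⟩
  exact ⟨b i, T i, Subgroup.subset_closure ⟨i, rfl⟩, rfl⟩

theorem orbF (hφ : IsFlow μ φ) {d : ℕ} (T : Fin d → Equiv.Perm X)
    (hT : ∀ i, MeasurePreserving (T i) μ μ) (hT' : ∀ i, MeasurePreserving (T i).symm μ μ)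
    (hnil : Group.IsNilpotent (Subgroup.closure (Set.range T)))
    (hcomm : ∀ i s x, T i (φ s x) = φ s (T i x)) (P : Fin d → Polynomial ℤ) (c : Polynomial ℝ) :
    ∃ (d' : ℕ) (T' : Fin d' → Equiv.Perm X) (P' : Fin d' → Polynomial ℤ),
      (∀ i, MeasurePreserving (T' i) μ μ) ∧ (∀ i, MeasurePreserving (T' i).symm μ μ) ∧
      Group.IsNilpotent (Subgroup.closure (Set.range T')) ∧ (∀ i s x, T' i (φ s x) = φ s (T' i x)) ∧
      ∀ (n : ℤ) (x : X), Pool.Nil.orb T' P' n x = φ (c.eval (n : ℝ)) (Pool.Nil.orb T P n x) := by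
  -- first for the sum of the first `k` monomials
  have key : ∀ k : ℕ, ∃ (d' : ℕ) (T' : Fin d' → Equiv.Perm X) (P' : Fin d' → Polynomial ℤ),
      (∀ i, ∃ s : ℝ, ∃ x ∈ insert 1 (Set.range T), T' i = fperm hφ s * x) ∧
      ∀ n : ℤ, Pool.Nil.orb T' P' n = fperm hφ (∑ l ∈ Finset.range k, c.coeff l * (n : ℝ) ^ l) * Pool.Nil.orb T P n := by
    intro k
    induction k with
    | zero =>
      refine ⟨d, T, P, fun i => ⟨0, T i, Set.mem_insert_of_mem _ ⟨i, rfl⟩, ?_⟩, fun n => ?_⟩
      · ext x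
        exact (hφ.zero _).symm
      · ext x
        rw [Finset.range_zero, Finset.sum_empty]
        exact (hφ.zero _).symm
    | succ k ih =>
      obtain ⟨d', T', P', h1, h2⟩ := ih
      refine ⟨d' + 1, Fin.cons (fperm hφ (c.coeff k)) T', Fin.cons (Polynomial.X ^ k) P', ?_, fun n => ?_⟩
      · intro i
        refine Fin.cases ?_ (fun j => ?_) i
        · exact ⟨c.coeff k, 1, Set.mem_insert _ _, by simp⟩
        · simpa using h1 j
      · rw [orb_succ]
        simp only [Fin.cons_zero, Fin.cons_succ]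
        rw [h2 n, ← mul_assoc, Finset.sum_range_succ, add_comm, fperm_add, fperm_zpow]
        congr 3
        simp
  obtain ⟨d', T', P', h1, h2⟩ := key (c.natDegree + 1)
  have hx : ∀ x ∈ insert 1 (Set.range T), MeasurePreserving (⇑x) μ μ ∧ MeasurePreserving (⇑x.symm) μ μ ∧
      x ∈ Subgroup.closure (Set.range T) := by
    rintro x (rfl | ⟨i, rfl⟩)
    · exact ⟨MeasurePreserving.id μ, MeasurePreserving.id μ, one_mem _⟩
    · exact ⟨hT i, hT' i, Subgroup.subset_closure ⟨i, rfl⟩⟩
  refine ⟨d', T', P', fun i => ?_, fun i => ?_, ?_, fun i s x => ?_, fun n x => ?_⟩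
  · obtain ⟨s, y, hy, e⟩ := h1 i
    rw [e]
    exact (hφ.mp s).comp (hx y hy).1
  · obtain ⟨s, y, hy, e⟩ := h1 i
    rw [e]
    exact (hx y hy).2.1.comp (hφ.mp (-s))
  · refine nil_of hφ T hnil hcomm _ ?_
    rintro _ ⟨i, rfl⟩
    obtain ⟨s, y, hy, e⟩ := h1 i
    exact ⟨s, y, (hx y hy).2.2, e⟩
  · obtain ⟨t, y, hy, e⟩ := h1 i
    have hc : Commute (fperm hφ s) (fperm hφ t * y) := by
      refine Commute.mul_right ?_ (comm_closure hφ T hcomm s (hx y hy).2.2)
      show fperm hφ s * fperm hφ t = fperm hφ t * fperm hφ s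
      rw [← fperm_add, ← fperm_add, add_comm]
    rw [e]
    have := congrArg (fun z : Equiv.Perm X => z x) hc.eq
    exact this.symm
  · rw [h2 n, Polynomial.eval_eq_sum_range]
    rfl

theorem maxOrb (hφ : IsFlow μ φ) {d : ℕ} (T : Fin d → Equiv.Perm X)
    (hT : ∀ i, MeasurePreserving (T i) μ μ) (hT' : ∀ i, MeasurePreserving (T i).symm μ μ)
    (hnil : Group.IsNilpotent (Subgroup.closure (Set.range T)))
    (hcomm : ∀ i s x, T i (φ s x) = φ s (T i x)) (P : Fin d → Polynomial ℤ) (c : Polynomial ℝ) :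
    ∃ C : NNReal, ∀ v : X → ENNReal, Measurable v →
      ∫⁻ x, (⨆ N : ℕ, ((2 * N + 1 : ℕ) : ENNReal)⁻¹ * ∑ n ∈ Finset.Icc (-(N : ℤ)) (N : ℤ),
        v (φ (c.eval (n : ℝ)) (Pool.Nil.orb T P n x))) ^ 2 ∂μ ≤ C * ∫⁻ x, v x ^ 2 ∂μ := by
  obtain ⟨d', T', P', h1, h2, h3, h4, h5⟩ := orbF hφ T hT hT' hnil hcomm P c
  obtain ⟨C, hC⟩ := Pool.Nil.orb_max_two T' h1 h2 h3 P'
  refine ⟨C, fun v hv => ?_⟩
  have := hC v hv
  simp only [h5] at this
  exact this

end
end Pool.Agent.GTP
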