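import Mathlib
import Pool.Agent.GTP.Defs
import Pool.Agent.GTP.OneG
import Pool.Agent.GTP.OrbF
import Pool.Agent.GTP.GgO
import Pool.Agent.GTP.InvL

set_option autoImplicit false

/-!
# GTP/DirG: two sided averages, all real parameters, an additional polynomial time

PROOF.  Reduction to `c = 0`: by `OrbF.orbF` there are `T'`, `P'` with the same properties and `orb T' P' n x = φ(c(n)) (orb T P n x)`.  `φ(β q(n) + c(n)) (orb T P n x) = φ(β q(n)) (orb T' P' n x)` and by `InvL.fs_inv` for almost every `x`, for all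
`n ∈ ℤ` (countably many; `orb T P n` preserves `μ`, `Pool.Nil.orb_mem`): `fs (orb T' P' n x) = fs (φ(c(n)) (orb T P n x)) = fs (orb T P n x)`.
Case `c = 0`.  Every `β ≠ 0` is `s β'` with `β' ∈ [1, 2]` and `s` in the countable set `{±2^i : i ∈ ℤ}`; it is enough to treat the parameters `s β'`, `β' ∈ [1, 2]`, for a fixed `s ≠ 0` (`β ↦ s β` maps null sets to null sets; the set of
good `(x, β)` is measurable, `measurableSet_tendsto` and measurability of the terms; or transport `μ.prod (volume.restrict (Icc 1 2))` by the map `(x, β) ↦ (x, s β)`).  `s β' q(n) = β' (s q)(n)`, `s q = Polynomial.C s * q` has the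
same degree.  `OneG.oneG` for the good sequences `n ↦ orb T P n` and `n ↦ orb T P (-n) = orb T (P_i.comp (-X)) n` (`Pool.Nil.orb_neg`, `GgO.ggO`), the polynomials `s q` and `(s q).comp (-X)` (same degree) and the weights `a n`, `a (-n)`: the
sums over `1 ≤ n ≤ N` and `-N ≤ n ≤ -1`, times `(2N+1)⁻¹`, tend to zero.  The term `n = 0` is at most `C · 2B/(2N+1)`.  (`Pool.Nil.sum_Icc_split` in `Nil/Final.lean`, or see how `GT/One.lean` does it.)
-/

namespace Pool.Agent.GTP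

open MeasureTheory Filter Topology Pool.Agent.GT

private theorem DirG_split {E : Type*} [AddCommGroup E] (F : ℤ → E) (N : ℕ) :
    ∑ n ∈ Finset.Icc (-(N : ℤ)) N, F n =
      ∑ n ∈ Finset.Icc 1 N, F (n : ℤ) + ∑ n ∈ Finset.Icc 1 N, F (-(n : ℤ)) + F 0 := by
  induction N with
  | zero => simp
  | succ N ih =>
    have h1 : Finset.Icc (-((N + 1 : ℕ) : ℤ)) ((N + 1 : ℕ) : ℤ) =
        insert (-((N + 1 : ℕ) : ℤ)) (insert (((N + 1 : ℕ) : ℤ)) (Finset.Icc (-(N : ℤ)) N)) := by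
      ext z
      simp only [Finset.mem_Icc, Finset.mem_insert]
      push_cast
      omega
    rw [h1, Finset.sum_insert, Finset.sum_insert, ih, Finset.sum_Icc_succ_top (by omega),
      Finset.sum_Icc_succ_top (by omega)]
    · abel
    · simp only [Finset.mem_Icc, not_and, not_le]
      push_cast
      omega
    · simp only [Finset.mem_insert, Finset.mem_Icc]
      push_cast
      omega

/-- null sets under scaling -/
private theorem DirG_ex {P : ℝ → Prop} (h : ∀ (i : ℤ) (e : ℝ), e = 1 ∨ e = -1 →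
    ∀ᵐ w ∂(volume.restrict (Set.Icc (1 : ℝ) 2)), P (e * 2 ^ i * w)) :
    ∀ᵐ β ∂(volume : Measure ℝ), P β := by
  have h1 : ∀ (i : ℤ) (e : ℝ), e = 1 ∨ e = -1 → volume ((fun w => e * 2 ^ i * w) ''
      {w | w ∈ Set.Icc (1 : ℝ) 2 ∧ ¬ P (e * 2 ^ i * w)}) = 0 := by
    intro i e he
    refine addHaar_image_eq_zero_of_differentiableOn_of_addHaar_eq_zero volume ?_ ?_
    · exact (differentiable_id.const_mul _).differentiableOn
    · have h2 := h i e he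
      rw [ae_restrict_iff' measurableSet_Icc, ae_iff] at h2
      refine measure_mono_null ?_ h2
      intro w hw
      exact fun hc => hw.2 (hc hw.1)
  have h2 : volume (⋃ i : ℤ, (((fun w => (1 : ℝ) * 2 ^ i * w) ''
      {w | w ∈ Set.Icc (1 : ℝ) 2 ∧ ¬ P (1 * 2 ^ i * w)}) ∪ ((fun w => (-1 : ℝ) * 2 ^ i * w) ''
      {w | w ∈ Set.Icc (1 : ℝ) 2 ∧ ¬ P (-1 * 2 ^ i * w)}))) = 0 := by
    refine measure_iUnion_null fun i => measure_union_null (h1 i 1 (Or.inl rfl)) (h1 i (-1) (Or.inr rfl))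
  rw [ae_iff]
  refine measure_mono_null (t := {0} ∪ _) ?_ (measure_union_null Real.volume_singleton h2)
  intro β hβ
  rcases eq_or_ne β 0 with h0 | h0
  · exact Or.inl h0
  · right
    obtain ⟨i, hi1, hi2⟩ := exists_mem_Ico_zpow (abs_pos.2 h0) (by norm_num : (1 : ℝ) < 2)
    have hp : (0 : ℝ) < 2 ^ i := by positivity
    have hw : |β| = 2 ^ i * (|β| / 2 ^ i) := by
      field_simp
    have hw1 : |β| / 2 ^ i ∈ Set.Icc (1 : ℝ) 2 := by
      constructor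
      · rw [le_div_iff₀ hp, one_mul]
        exact hi1
      · rw [div_le_iff₀ hp]
        rw [zpow_add_one₀ (by norm_num)] at hi2
        linarith
    rw [Set.mem_iUnion]
    refine ⟨i, ?_⟩
    rcases lt_or_gt_of_ne h0 with hn | hn
    · right
      have h3 : -1 * 2 ^ i * (|β| / 2 ^ i) = β := by
        rw [mul_assoc, ← hw, abs_of_neg hn]
        ring
      exact ⟨|β| / 2 ^ i, ⟨hw1, by rw [h3]; exact hβ⟩, h3⟩
    · left
      have h3 : 1 * 2 ^ i * (|β| / 2 ^ i) = β := by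
        rw [mul_assoc, ← hw, abs_of_pos hn]
        ring
      exact ⟨|β| / 2 ^ i, ⟨hw1, by rw [h3]; exact hβ⟩, h3⟩

section

variable {X : Type*} [MeasurableSpace X] {μ : Measure X} {φ : ℝ → X → X}

private theorem DirG_meas (hφ : IsFlow μ φ) {d : ℕ} (T : Fin d → Equiv.Perm X)
    (hT : ∀ i, MeasurePreserving (T i) μ μ) (hT' : ∀ i, MeasurePreserving (T i).symm μ μ)
    (P : Fin d → Polynomial ℤ) (q : Polynomial ℝ) {f : X → ℂ} {B L : ℝ} (hf : Nice φ B L f)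
    {fs : X → ℂ} (hfs : Measurable fs) {a : ℤ → X → ℂ} (ha : ∀ n, Measurable (a n)) :
    MeasurableSet {z : X × ℝ | Tendsto (fun N : ℕ => ((2 * N + 1 : ℕ) : ℂ)⁻¹ *
      ∑ n ∈ Finset.Icc (-(N : ℤ)) N, a n z.1 *
        (f (φ (z.2 * q.eval (n : ℝ)) (Pool.Nil.orb T P n z.1)) - fs (Pool.Nil.orb T P n z.1)))
      atTop (𝓝 0)} := by
  refine measurableSet_tendsto (𝓝 (0 : ℂ)) fun N => ?_
  refine Measurable.const_mul ?_ _
  refine Finset.measurable_sum _ fun n _ => ?_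
  have ho : Measurable (Pool.Nil.orb T P n) := (Pool.Nil.orb_mem T hT hT' P n).1.measurable
  refine ((ha n).comp measurable_fst).mul ((hf.meas.comp ?_).sub (hfs.comp (ho.comp measurable_fst)))
  exact hφ.meas.comp ((measurable_snd.mul_const _).prodMk (ho.comp measurable_fst))

/-- the two sided statement for the parameters `s β`, `β ∈ [1, 2]`, `c = 0` -/
private theorem DirG_s [IsFiniteMeasure μ] (hφ : IsFlow μ φ)
    {d : ℕ} (T : Fin d → Equiv.Perm X) (hT : ∀ i, MeasurePreserving (T i) μ μ)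
    (hT' : ∀ i, MeasurePreserving (T i).symm μ μ) (hnil : Group.IsNilpotent (Subgroup.closure (Set.range T)))
    (hcomm : ∀ i s x, T i (φ s x) = φ s (T i x)) (P : Fin d → Polynomial ℤ) (q : Polynomial ℝ)
    (hq : 1 ≤ q.natDegree) {f : X → ℂ} {B L : ℝ} (hf : Nice φ B L f) (hL : 0 ≤ L) {fs : X → ℂ}
    (hfs : Measurable fs) (hfsb : ∀ x, ‖fs x‖ ≤ B)
    (hlim : ∀ᵐ x ∂μ, Tendsto (fun k : ℕ => Kop φ (2 ^ k) f x) atTop (𝓝 (fs x)))
    {a : ℤ → X → ℂ} (ha : ∀ n, Measurable (a n)) {C : ℝ} (ha1 : ∀ n x, ‖a n x‖ ≤ C) {s : ℝ} (hs : s ≠ 0) :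
    ∀ᵐ z ∂(μ.prod (volume.restrict (Set.Icc (1 : ℝ) 2))), Tendsto (fun N : ℕ => ((2 * N + 1 : ℕ) : ℂ)⁻¹ *
      ∑ n ∈ Finset.Icc (-(N : ℤ)) N, a n z.1 *
        (f (φ (s * z.2 * q.eval (n : ℝ)) (Pool.Nil.orb T P n z.1)) - fs (Pool.Nil.orb T P n z.1)))
      atTop (𝓝 0) := by
  have hq1 : 1 ≤ (Polynomial.C s * q).natDegree := by
    rwa [Polynomial.natDegree_C_mul hs]
  have hq2 : 1 ≤ ((Polynomial.C s * q).comp (-Polynomial.X)).natDegree := by
    rw [Polynomial.natDegree_comp, Polynomial.natDegree_neg, Polynomial.natDegree_X, mul_one]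
    exact hq1
  have h1 := oneG hφ (ggO T hT hT' hnil hcomm P) (Polynomial.C s * q) hq1 hf hL hfs hfsb hlim
    (a := fun n => a (n : ℤ)) (fun n => ha n) (fun n x => ha1 n x)
  have h2 := oneG hφ (ggO T hT hT' hnil hcomm fun i => (P i).comp (-Polynomial.X))
    ((Polynomial.C s * q).comp (-Polynomial.X)) hq2 hf hL hfs hfsb hlim
    (a := fun n => a (-(n : ℤ))) (fun n => ha _) (fun n x => ha1 _ x)
  filter_upwards [h1, h2] with z hz1 hz2
  have h0 : Tendsto (fun N : ℕ => ((2 * N + 1 : ℕ) : ℂ)⁻¹ * (a 0 z.1 *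
        (f (φ (s * z.2 * q.eval ((0 : ℤ) : ℝ)) (Pool.Nil.orb T P 0 z.1)) - fs (Pool.Nil.orb T P 0 z.1))))
        atTop (𝓝 0) := by
    have h3 : Tendsto (fun N : ℕ => ((2 * N + 1 : ℕ) : ℂ)⁻¹) atTop (𝓝 0) := by
      have h4 : Tendsto (fun N : ℕ => 2 * N + 1) atTop atTop :=
        tendsto_atTop_mono (fun N => (by omega : N ≤ 2 * N + 1)) (tendsto_id (α := ℕ))
      exact (tendsto_inv_atTop_nhds_zero_nat (𝕜 := ℂ)).comp h4
    simpa using h3.mul_const (a 0 z.1 *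
      (f (φ (s * z.2 * q.eval ((0 : ℤ) : ℝ)) (Pool.Nil.orb T P 0 z.1)) - fs (Pool.Nil.orb T P 0 z.1)))
  have h5 := (hz1.add hz2).add h0
  rw [add_zero, add_zero] at h5
  refine h5.congr fun N => ?_
  rw [DirG_split (fun n : ℤ => a n z.1 *
    (f (φ (s * z.2 * q.eval (n : ℝ)) (Pool.Nil.orb T P n z.1)) - fs (Pool.Nil.orb T P n z.1))) N,
    mul_add, mul_add]
  congr 2
  · congr 1
    apply Finset.sum_congr rfl
    intro n _
    have h6 : z.2 * (Polynomial.C s * q).eval (n : ℝ) = s * z.2 * q.eval (((n : ℤ)) : ℝ) := by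
      rw [Polynomial.eval_mul, Polynomial.eval_C, Int.cast_natCast]
      ring
    rw [h6]
  · congr 1
    apply Finset.sum_congr rfl
    intro n _
    have h6 : z.2 * ((Polynomial.C s * q).comp (-Polynomial.X)).eval (n : ℝ) =
        s * z.2 * q.eval (((-(n : ℤ) : ℤ)) : ℝ) := by
      rw [Polynomial.eval_comp, Polynomial.eval_mul, Polynomial.eval_C, Polynomial.eval_neg,
        Polynomial.eval_X, Int.cast_neg, Int.cast_natCast]
      ring
    rw [h6, Pool.Nil.orb_neg]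

/-- the case `c = 0` -/
private theorem DirG_zero [IsFiniteMeasure μ] (hφ : IsFlow μ φ)
    {d : ℕ} (T : Fin d → Equiv.Perm X) (hT : ∀ i, MeasurePreserving (T i) μ μ)
    (hT' : ∀ i, MeasurePreserving (T i).symm μ μ) (hnil : Group.IsNilpotent (Subgroup.closure (Set.range T)))
    (hcomm : ∀ i s x, T i (φ s x) = φ s (T i x)) (P : Fin d → Polynomial ℤ) (q : Polynomial ℝ)
    (hq : 1 ≤ q.natDegree) {f : X → ℂ} {B L : ℝ} (hf : Nice φ B L f) (hL : 0 ≤ L) {fs : X → ℂ}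
    (hfs : Measurable fs) (hfsb : ∀ x, ‖fs x‖ ≤ B)
    (hlim : ∀ᵐ x ∂μ, Tendsto (fun k : ℕ => Kop φ (2 ^ k) f x) atTop (𝓝 (fs x)))
    {a : ℤ → X → ℂ} (ha : ∀ n, Measurable (a n)) {C : ℝ} (ha1 : ∀ n x, ‖a n x‖ ≤ C) :
    ∀ᵐ z ∂(μ.prod (volume : Measure ℝ)), Tendsto (fun N : ℕ => ((2 * N + 1 : ℕ) : ℂ)⁻¹ *
      ∑ n ∈ Finset.Icc (-(N : ℤ)) N, a n z.1 *
        (f (φ (z.2 * q.eval (n : ℝ)) (Pool.Nil.orb T P n z.1)) - fs (Pool.Nil.orb T P n z.1)))
      atTop (𝓝 0) := by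
  rw [Measure.ae_prod_iff_ae_ae (DirG_meas hφ T hT hT' P q hf hfs ha)]
  have h1 : ∀ i : ℤ, ∀ᵐ x ∂μ, ∀ᵐ w ∂(volume.restrict (Set.Icc (1 : ℝ) 2)),
      Tendsto (fun N : ℕ => ((2 * N + 1 : ℕ) : ℂ)⁻¹ * ∑ n ∈ Finset.Icc (-(N : ℤ)) N, a n x *
        (f (φ (1 * 2 ^ i * w * q.eval (n : ℝ)) (Pool.Nil.orb T P n x)) - fs (Pool.Nil.orb T P n x)))
        atTop (𝓝 0) := fun i =>
    Measure.ae_ae_of_ae_prod (DirG_s hφ T hT hT' hnil hcomm P q hq hf hL hfs hfsb hlim ha ha1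
      (s := 1 * 2 ^ i) (by positivity))
  have h2 : ∀ i : ℤ, ∀ᵐ x ∂μ, ∀ᵐ w ∂(volume.restrict (Set.Icc (1 : ℝ) 2)),
      Tendsto (fun N : ℕ => ((2 * N + 1 : ℕ) : ℂ)⁻¹ * ∑ n ∈ Finset.Icc (-(N : ℤ)) N, a n x *
        (f (φ (-1 * 2 ^ i * w * q.eval (n : ℝ)) (Pool.Nil.orb T P n x)) - fs (Pool.Nil.orb T P n x)))
        atTop (𝓝 0) := fun i =>
    Measure.ae_ae_of_ae_prod (DirG_s hφ T hT hT' hnil hcomm P q hq hf hL hfs hfsb hlim ha ha1
      (s := -1 * 2 ^ i) (mul_ne_zero (by norm_num) (by positivity)))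
  filter_upwards [ae_all_iff.2 h1, ae_all_iff.2 h2] with x hx1 hx2
  refine DirG_ex (P := fun β => Tendsto (fun N : ℕ => ((2 * N + 1 : ℕ) : ℂ)⁻¹ *
    ∑ n ∈ Finset.Icc (-(N : ℤ)) N, a n x *
      (f (φ (β * q.eval (n : ℝ)) (Pool.Nil.orb T P n x)) - fs (Pool.Nil.orb T P n x))) atTop (𝓝 0)) ?_
  rintro i e (rfl | rfl)
  · exact hx1 i
  · exact hx2 i

end

theorem dirG {X : Type*} [MeasurableSpace X] {μ : Measure X} [IsFiniteMeasure μ] {φ : ℝ → X → X} (hφ : IsFlow μ φ)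
    {d : ℕ} (T : Fin d → Equiv.Perm X) (hT : ∀ i, MeasurePreserving (T i) μ μ)
    (hT' : ∀ i, MeasurePreserving (T i).symm μ μ) (hnil : Group.IsNilpotent (Subgroup.closure (Set.range T)))
    (hcomm : ∀ i s x, T i (φ s x) = φ s (T i x)) (P : Fin d → Polynomial ℤ) (q c : Polynomial ℝ)
    (hq : 1 ≤ q.natDegree) {f : X → ℂ} {B L : ℝ} (hf : Nice φ B L f) (hL : 0 ≤ L) {fs : X → ℂ}
    (hfs : Measurable fs) (hfsb : ∀ x, ‖fs x‖ ≤ B)
    (hlim : ∀ᵐ x ∂μ, Tendsto (fun k : ℕ => Kop φ (2 ^ k) f x) atTop (𝓝 (fs x)))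
    {a : ℤ → X → ℂ} (ha : ∀ n, Measurable (a n)) {C : ℝ} (ha1 : ∀ n x, ‖a n x‖ ≤ C) :
    ∀ᵐ z ∂(μ.prod (volume : Measure ℝ)), Tendsto (fun N : ℕ => ((2 * N + 1 : ℕ) : ℂ)⁻¹ *
      ∑ n ∈ Finset.Icc (-(N : ℤ)) N, a n z.1 *
        (f (φ (z.2 * q.eval (n : ℝ) + c.eval (n : ℝ)) (Pool.Nil.orb T P n z.1)) - fs (Pool.Nil.orb T P n z.1)))
      atTop (𝓝 0) := by
  obtain ⟨d', T', P', h1, h2, h3, h4, h5⟩ := orbF hφ T hT hT' hnil hcomm P c
  have h6 := DirG_zero hφ T' h1 h2 h3 h4 P' q hq hf hL hfs hfsb hlim ha ha1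
  have h7 : ∀ᵐ x ∂μ, ∀ n : ℤ, fs (φ (c.eval (n : ℝ)) (Pool.Nil.orb T P n x)) = fs (Pool.Nil.orb T P n x) :=
    ae_all_iff.2 fun n => (Pool.Nil.orb_mem T hT hT' P n).1.quasiMeasurePreserving.ae
      (fs_inv hφ hf hlim (c.eval (n : ℝ)))
  have h8 := (Measure.quasiMeasurePreserving_fst (μ := μ) (ν := (volume : Measure ℝ))).ae h7
  filter_upwards [h6, h8] with z hz hz8
  refine hz.congr fun N => ?_
  congr 1
  refine Finset.sum_congr rfl fun n _ => ?_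
  rw [h5, ← hφ.add, hz8 n]

end Pool.Agent.GTP
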