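import Mathlib

set_option autoImplicit false

/-!
# GTP/ExtG: extension from approximating sequences

`S j n`, `g j n` measure preserving with `L²` maximal inequalities; `D j l → h j` and `Ds j l → H j` in `L²` as `l → ∞`; everything bounded by `B`; convergence is known for the `D j l`.

PROOF (compare `Pool/Agent/GT/Ext.lean`, which is very similar).  We may assume `B ≥ 1` (replace `B` by `max B 1`).  Pass to a subsequence of `l` (common for all `j`) with `∑_l (∫⁻ ‖h j - D j l‖ₑ² + ∫⁻ ‖H j - Ds j l‖ₑ²) < ∞` for every `j`.  Put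
`M_j^l(x) = ⨆_N (2N+1)⁻¹ ∑_{|n| ≤ N} ‖(h j - D j l)(S j n x)‖ₑ`, `M'_j^l(x)` the same for `H j - Ds j l` and `g j n`.  By the maximal inequalities `∑_l ∫⁻ ((M_j^l)² + (M'_j^l)²) < ∞`, so for almost every `x` they tend to `0` as `l → ∞`.
`‖∏ u_j - ∏ v_j‖ ≤ B^m ∑ ‖u_j - v_j‖` for numbers bounded by `B ≥ 1` (`Ext_prod` there).  So the average of `a_n (∏ h j (S j n x) - ∏ H j (g j n x))` differs from that of `a_n (∏ D j l (S j n x) - ∏ Ds j l (g j n x))`, which tends to zero, by at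
most `|C| B^m ∑_j (M_j^l(x) + M'_j^l(x))`.  Let `l → ∞`.
-/

namespace Pool.Agent.GTP

open MeasureTheory Filter Topology

private lemma ExtG_enorm_prod_le {r : ℕ} {B : ENNReal} (v : Fin r → ℂ) (hv : ∀ i, ‖v i‖ₑ ≤ B) :
    ‖∏ i, v i‖ₑ ≤ B ^ r := by
  induction r with
  | zero => simp
  | succ r ih =>
    rw [Fin.prod_univ_succ, enorm_mul, pow_succ']
    exact mul_le_mul' (hv 0) (ih (fun i => v i.succ) fun i => hv i.succ)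

private lemma ExtG_prod {r : ℕ} {B : ENNReal} (hB : 1 ≤ B) (u v : Fin r → ℂ) (hu : ∀ i, ‖u i‖ₑ ≤ B)
    (hv : ∀ i, ‖v i‖ₑ ≤ B) : ‖∏ i, u i - ∏ i, v i‖ₑ ≤ B ^ r * ∑ i, ‖u i - v i‖ₑ := by
  induction r with
  | zero => simp
  | succ r ih =>
    rw [Fin.prod_univ_succ, Fin.prod_univ_succ, Fin.sum_univ_succ]
    have h1 : u 0 * ∏ i : Fin r, u i.succ - v 0 * ∏ i : Fin r, v i.succ =
        u 0 * (∏ i : Fin r, u i.succ - ∏ i : Fin r, v i.succ) +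
          (u 0 - v 0) * ∏ i : Fin r, v i.succ := by ring
    rw [h1]
    refine (enorm_add_le _ _).trans ?_
    rw [enorm_mul, enorm_mul]
    have h2 : ‖u 0‖ₑ * ‖∏ i : Fin r, u i.succ - ∏ i : Fin r, v i.succ‖ₑ ≤
        B ^ (r + 1) * ∑ i : Fin r, ‖u i.succ - v i.succ‖ₑ := by
      rw [pow_succ', mul_assoc]
      exact mul_le_mul' (hu 0) (ih _ _ (fun i => hu i.succ) fun i => hv i.succ)
    have h3 : ‖u 0 - v 0‖ₑ * ‖∏ i : Fin r, v i.succ‖ₑ ≤ B ^ (r + 1) * ‖u 0 - v 0‖ₑ := by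
      rw [mul_comm]
      refine mul_le_mul' ((ExtG_enorm_prod_le _ fun i => hv i.succ).trans ?_) le_rfl
      exact pow_le_pow_right₀ hB (Nat.le_succ r)
    calc _ ≤ _ := add_le_add h2 h3
      _ = _ := by rw [← mul_add, add_comm (∑ i : Fin r, ‖u i.succ - v i.succ‖ₑ)]

private lemma ExtG_avg (N : ℕ) (f g : ℤ → ℂ) :
    ‖((2 * N + 1 : ℕ) : ℂ)⁻¹ * ∑ n ∈ Finset.Icc (-(N : ℤ)) N, f n -
      ((2 * N + 1 : ℕ) : ℂ)⁻¹ * ∑ n ∈ Finset.Icc (-(N : ℤ)) N, g n‖ₑ ≤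
      ((2 * N + 1 : ℕ) : ENNReal)⁻¹ * ∑ n ∈ Finset.Icc (-(N : ℤ)) (N : ℤ), ‖f n - g n‖ₑ := by
  rw [← mul_sub, ← Finset.sum_sub_distrib, enorm_mul]
  have h1 : ‖((2 * N + 1 : ℕ) : ℂ)⁻¹‖ₑ = ((2 * N + 1 : ℕ) : ENNReal)⁻¹ := by
    rw [enorm_inv (by exact_mod_cast Nat.succ_ne_zero (2 * N))]
    congr 1
    rw [← ofReal_norm, Complex.norm_natCast, ENNReal.ofReal_natCast]
  rw [h1]
  exact mul_le_mul' le_rfl (enorm_sum_le _ _)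

private lemma ExtG_two {r : ℕ} {B C : ENNReal} (hB : 1 ≤ B) (hBt : B ≠ ⊤) (hCt : C ≠ ⊤) {a : ℤ → ℂ}
    (ha : ∀ n, ‖a n‖ₑ ≤ C) {u U : Fin r → ℤ → ℂ} {v V : ℕ → Fin r → ℤ → ℂ} {M M1 : ℕ → Fin r → ENNReal}
    (hu : ∀ i n, ‖u i n‖ₑ ≤ B) (hU : ∀ i n, ‖U i n‖ₑ ≤ B) (hv : ∀ l i n, ‖v l i n‖ₑ ≤ B)
    (hV : ∀ l i n, ‖V l i n‖ₑ ≤ B)
    (hM : ∀ l i (N : ℕ), ((2 * N + 1 : ℕ) : ENNReal)⁻¹ *
      ∑ n ∈ Finset.Icc (-(N : ℤ)) (N : ℤ), ‖u i n - v l i n‖ₑ ≤ M l i)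
    (hM1 : ∀ l i (N : ℕ), ((2 * N + 1 : ℕ) : ENNReal)⁻¹ *
      ∑ n ∈ Finset.Icc (-(N : ℤ)) (N : ℤ), ‖U i n - V l i n‖ₑ ≤ M1 l i)
    (hM0 : ∀ i, Tendsto (fun l => M l i) atTop (𝓝 0))
    (hM10 : ∀ i, Tendsto (fun l => M1 l i) atTop (𝓝 0))
    (hconv : ∀ l, Tendsto (fun N : ℕ => ((2 * N + 1 : ℕ) : ℂ)⁻¹ *
      ∑ n ∈ Finset.Icc (-(N : ℤ)) N, a n * (∏ i, v l i n - ∏ i, V l i n)) atTop (𝓝 0)) :
    Tendsto (fun N : ℕ => ((2 * N + 1 : ℕ) : ℂ)⁻¹ *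
      ∑ n ∈ Finset.Icc (-(N : ℤ)) N, a n * (∏ i, u i n - ∏ i, U i n)) atTop (𝓝 0) := by
  have key : ∀ l N : ℕ, ‖((2 * N + 1 : ℕ) : ℂ)⁻¹ *
      ∑ n ∈ Finset.Icc (-(N : ℤ)) N, a n * (∏ i, u i n - ∏ i, U i n)‖ₑ ≤
      ‖((2 * N + 1 : ℕ) : ℂ)⁻¹ *
        ∑ n ∈ Finset.Icc (-(N : ℤ)) N, a n * (∏ i, v l i n - ∏ i, V l i n)‖ₑ +
      C * B ^ r * ∑ i, (M l i + M1 l i) := by
    intro l N
    have h1 := ExtG_avg N (fun n => a n * (∏ i, u i n - ∏ i, U i n))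
      (fun n => a n * (∏ i, v l i n - ∏ i, V l i n))
    have h2 : ((2 * N + 1 : ℕ) : ENNReal)⁻¹ * ∑ n ∈ Finset.Icc (-(N : ℤ)) (N : ℤ),
        ‖a n * (∏ i, u i n - ∏ i, U i n) - a n * (∏ i, v l i n - ∏ i, V l i n)‖ₑ ≤
        C * B ^ r * ∑ i, (M l i + M1 l i) := by
      have h3 : ∀ n, ‖a n * (∏ i, u i n - ∏ i, U i n) - a n * (∏ i, v l i n - ∏ i, V l i n)‖ₑ ≤
          C * B ^ r * ∑ i, (‖u i n - v l i n‖ₑ + ‖U i n - V l i n‖ₑ) := by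
        intro n
        have h4 : a n * (∏ i, u i n - ∏ i, U i n) - a n * (∏ i, v l i n - ∏ i, V l i n) =
            a n * ((∏ i, u i n - ∏ i, v l i n) - (∏ i, U i n - ∏ i, V l i n)) := by ring
        rw [h4, enorm_mul, mul_assoc]
        refine mul_le_mul' (ha n) (enorm_sub_le.trans ?_)
        rw [Finset.sum_add_distrib, mul_add]
        exact add_le_add (ExtG_prod hB _ _ (fun i => hu i n) fun i => hv l i n)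
          (ExtG_prod hB _ _ (fun i => hU i n) fun i => hV l i n)
      calc ((2 * N + 1 : ℕ) : ENNReal)⁻¹ * ∑ n ∈ Finset.Icc (-(N : ℤ)) (N : ℤ),
          ‖a n * (∏ i, u i n - ∏ i, U i n) - a n * (∏ i, v l i n - ∏ i, V l i n)‖ₑ
          ≤ ((2 * N + 1 : ℕ) : ENNReal)⁻¹ * ∑ n ∈ Finset.Icc (-(N : ℤ)) (N : ℤ),
            C * B ^ r * ∑ i, (‖u i n - v l i n‖ₑ + ‖U i n - V l i n‖ₑ) :=
            mul_le_mul' le_rfl (Finset.sum_le_sum fun n _ => h3 n)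
        _ = C * B ^ r * ∑ i, (((2 * N + 1 : ℕ) : ENNReal)⁻¹ *
              ∑ n ∈ Finset.Icc (-(N : ℤ)) (N : ℤ), ‖u i n - v l i n‖ₑ +
              ((2 * N + 1 : ℕ) : ENNReal)⁻¹ *
              ∑ n ∈ Finset.Icc (-(N : ℤ)) (N : ℤ), ‖U i n - V l i n‖ₑ) := by
            rw [← Finset.mul_sum, Finset.sum_comm, mul_left_comm]
            congr 1
            rw [Finset.mul_sum]
            refine Finset.sum_congr rfl fun i _ => ?_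
            rw [Finset.sum_add_distrib, mul_add]
        _ ≤ C * B ^ r * ∑ i, (M l i + M1 l i) :=
            mul_le_mul' le_rfl (Finset.sum_le_sum fun i _ => add_le_add (hM l i N) (hM1 l i N))
    calc ‖((2 * N + 1 : ℕ) : ℂ)⁻¹ *
          ∑ n ∈ Finset.Icc (-(N : ℤ)) N, a n * (∏ i, u i n - ∏ i, U i n)‖ₑ
        = ‖((2 * N + 1 : ℕ) : ℂ)⁻¹ *
          ∑ n ∈ Finset.Icc (-(N : ℤ)) N, a n * (∏ i, v l i n - ∏ i, V l i n) +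
          (((2 * N + 1 : ℕ) : ℂ)⁻¹ *
          ∑ n ∈ Finset.Icc (-(N : ℤ)) N, a n * (∏ i, u i n - ∏ i, U i n) -
          ((2 * N + 1 : ℕ) : ℂ)⁻¹ *
          ∑ n ∈ Finset.Icc (-(N : ℤ)) N, a n * (∏ i, v l i n - ∏ i, V l i n))‖ₑ := by
          rw [add_sub_cancel]
      _ ≤ _ := (enorm_add_le _ _).trans (add_le_add le_rfl (h1.trans h2))
  rw [tendsto_zero_iff_enorm_tendsto_zero, ENNReal.tendsto_nhds_zero]
  intro ε hε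
  have hK : Tendsto (fun l => C * B ^ r * ∑ i, (M l i + M1 l i)) atTop (𝓝 0) := by
    have h1 : Tendsto (fun l => ∑ i, (M l i + M1 l i)) atTop (𝓝 (∑ i : Fin r, (0 + 0))) :=
      tendsto_finsetSum _ fun i _ => (hM0 i).add (hM10 i)
    have h2 := ENNReal.Tendsto.const_mul (a := C * B ^ r) h1
      (Or.inr (ENNReal.mul_ne_top hCt (ENNReal.pow_ne_top hBt)))
    simpa using h2
  have hε2 : 0 < ε / 2 := ENNReal.div_pos hε.ne' (by norm_num)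
  obtain ⟨l, hl⟩ := (hK.eventually_lt_const hε2).exists
  have h3 := (tendsto_zero_iff_enorm_tendsto_zero.1 (hconv l)).eventually_lt_const hε2
  filter_upwards [h3] with N hN
  calc _ ≤ _ := key l N
    _ ≤ ε / 2 + ε / 2 := add_le_add hN.le hl.le
    _ = ε := ENNReal.add_halves ε

private lemma ExtG_ae {X : Type*} [MeasurableSpace X] {μ : Measure X} {T : ℤ → X → X}
    (hT : ∀ n, MeasurePreserving (T n) μ μ) {C : NNReal}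
    (hmax : ∀ v : X → ENNReal, Measurable v →
      ∫⁻ x, (⨆ N : ℕ, ((2 * N + 1 : ℕ) : ENNReal)⁻¹ * ∑ n ∈ Finset.Icc (-(N : ℤ)) (N : ℤ), v (T n x)) ^ 2 ∂μ ≤
        C * ∫⁻ x, v x ^ 2 ∂μ)
    {E : ℕ → X → ENNReal} (hE : ∀ l, Measurable (E l))
    (hEb : ∀ l, ∫⁻ x, E l x ^ 2 ∂μ ≤ ENNReal.ofReal ((1 / 2) ^ l)) :
    ∀ᵐ x ∂μ, Tendsto (fun l => ⨆ N : ℕ, ((2 * N + 1 : ℕ) : ENNReal)⁻¹ *
      ∑ n ∈ Finset.Icc (-(N : ℤ)) (N : ℤ), E l (T n x)) atTop (𝓝 0) := by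
  have hmeas : ∀ l, Measurable (fun x => ⨆ N : ℕ, ((2 * N + 1 : ℕ) : ENNReal)⁻¹ *
      ∑ n ∈ Finset.Icc (-(N : ℤ)) (N : ℤ), E l (T n x)) := fun l =>
    Measurable.iSup fun N => (Finset.measurable_fun_sum _ fun n _ =>
      (hE l).comp (hT n).measurable).const_mul _
  have h1 : ∫⁻ x, ∑' l : ℕ, (⨆ N : ℕ, ((2 * N + 1 : ℕ) : ENNReal)⁻¹ *
      ∑ n ∈ Finset.Icc (-(N : ℤ)) (N : ℤ), E l (T n x)) ^ 2 ∂μ ≠ ⊤ := by
    rw [lintegral_tsum fun l => ((hmeas l).pow_const 2).aemeasurable]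
    have h2 : ∑' l : ℕ, ∫⁻ x, (⨆ N : ℕ, ((2 * N + 1 : ℕ) : ENNReal)⁻¹ *
        ∑ n ∈ Finset.Icc (-(N : ℤ)) (N : ℤ), E l (T n x)) ^ 2 ∂μ ≤
        ∑' l : ℕ, (C : ENNReal) * ENNReal.ofReal ((1 / 2) ^ l) :=
      ENNReal.tsum_le_tsum fun l => (hmax _ (hE l)).trans (mul_le_mul' le_rfl (hEb l))
    refine ne_top_of_le_ne_top ?_ h2
    rw [ENNReal.tsum_mul_left]
    refine ENNReal.mul_ne_top ENNReal.coe_ne_top ?_
    have h3 : ∑' l : ℕ, ENNReal.ofReal ((1 / 2) ^ l) = ENNReal.ofReal (∑' l : ℕ, (1 / 2 : ℝ) ^ l) :=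
      (ENNReal.ofReal_tsum_of_nonneg (fun l => by positivity) summable_geometric_two).symm
    rw [h3]
    exact ENNReal.ofReal_ne_top
  filter_upwards [ae_lt_top (Measurable.ennreal_tsum fun l => (hmeas l).pow_const 2) h1] with x hx
  have h4 := ENNReal.tendsto_atTop_zero_of_tsum_ne_top hx.ne
  rw [ENNReal.tendsto_nhds_zero] at h4 ⊢
  intro ε hε
  filter_upwards [h4 (ε ^ 2) (by positivity)] with l hl
  by_contra h5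
  rw [not_le] at h5
  exact absurd hl (not_le.2 (ENNReal.pow_lt_pow_left two_ne_zero h5))

theorem extG {X : Type*} [MeasurableSpace X] {μ : Measure X} [IsFiniteMeasure μ] {m : ℕ}
    {S g : Fin m → ℤ → X → X} (hS : ∀ j n, MeasurePreserving (S j n) μ μ) (hg : ∀ j n, MeasurePreserving (g j n) μ μ)
    (hmaxS : ∀ j, ∃ C : NNReal, ∀ v : X → ENNReal, Measurable v →
      ∫⁻ x, (⨆ N : ℕ, ((2 * N + 1 : ℕ) : ENNReal)⁻¹ * ∑ n ∈ Finset.Icc (-(N : ℤ)) (N : ℤ), v (S j n x)) ^ 2 ∂μ ≤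
        C * ∫⁻ x, v x ^ 2 ∂μ)
    (hmaxg : ∀ j, ∃ C : NNReal, ∀ v : X → ENNReal, Measurable v →
      ∫⁻ x, (⨆ N : ℕ, ((2 * N + 1 : ℕ) : ENNReal)⁻¹ * ∑ n ∈ Finset.Icc (-(N : ℤ)) (N : ℤ), v (g j n x)) ^ 2 ∂μ ≤
        C * ∫⁻ x, v x ^ 2 ∂μ)
    {a : ℤ → X → ℂ} {C : ℝ} (ha1 : ∀ n x, ‖a n x‖ ≤ C) {B : ℝ} {h H : Fin m → X → ℂ} (hh : ∀ j, Measurable (h j))
    (hH : ∀ j, Measurable (H j)) (hhb : ∀ j x, ‖h j x‖ ≤ B) (hHb : ∀ j x, ‖H j x‖ ≤ B)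
    {D Ds : Fin m → ℕ → X → ℂ} (hDm : ∀ j l, Measurable (D j l)) (hDsm : ∀ j l, Measurable (Ds j l))
    (hDb : ∀ j l x, ‖D j l x‖ ≤ B) (hDsb : ∀ j l x, ‖Ds j l x‖ ≤ B)
    (happ : ∀ j, Tendsto (fun l => ∫⁻ x, ‖h j x - D j l x‖ₑ ^ 2 ∂μ) atTop (𝓝 0))
    (happ' : ∀ j, Tendsto (fun l => ∫⁻ x, ‖H j x - Ds j l x‖ₑ ^ 2 ∂μ) atTop (𝓝 0))
    (hconv : ∀ l, ∀ᵐ x ∂μ, Tendsto (fun N : ℕ => ((2 * N + 1 : ℕ) : ℂ)⁻¹ * ∑ n ∈ Finset.Icc (-(N : ℤ)) N,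
      a n x * (∏ j, D j l (S j n x) - ∏ j, Ds j l (g j n x))) atTop (𝓝 0)) :
    ∀ᵐ x ∂μ, Tendsto (fun N : ℕ => ((2 * N + 1 : ℕ) : ℂ)⁻¹ * ∑ n ∈ Finset.Icc (-(N : ℤ)) N,
      a n x * (∏ j, h j (S j n x) - ∏ j, H j (g j n x))) atTop (𝓝 0) := by
  -- a common bound `≥ 1`
  have hB0 : ∀ {z : ℂ}, ‖z‖ ≤ B → ‖z‖ₑ ≤ ENNReal.ofReal (max B 1) := by
    intro z hz
    rw [← ofReal_norm]
    exact ENNReal.ofReal_le_ofReal (hz.trans (le_max_left _ _))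
  have hB1 : (1 : ENNReal) ≤ ENNReal.ofReal (max B 1) := by
    rw [← ENNReal.ofReal_one]
    exact ENNReal.ofReal_le_ofReal (le_max_right _ _)
  -- a subsequence
  have hsub : ∀ k : ℕ, ∃ l : ℕ, ∀ j, ∫⁻ x, ‖h j x - D j l x‖ₑ ^ 2 ∂μ ≤ ENNReal.ofReal ((1 / 2) ^ k) ∧
      ∫⁻ x, ‖H j x - Ds j l x‖ₑ ^ 2 ∂μ ≤ ENNReal.ofReal ((1 / 2) ^ k) := by
    intro k
    have hk : (0 : ENNReal) < ENNReal.ofReal ((1 / 2) ^ k) := ENNReal.ofReal_pos.2 (by positivity)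
    have h1 : ∀ᶠ l in atTop, ∀ j, ∫⁻ x, ‖h j x - D j l x‖ₑ ^ 2 ∂μ < ENNReal.ofReal ((1 / 2) ^ k) :=
      eventually_all.2 fun j => (happ j).eventually_lt_const hk
    have h2 : ∀ᶠ l in atTop, ∀ j, ∫⁻ x, ‖H j x - Ds j l x‖ₑ ^ 2 ∂μ < ENNReal.ofReal ((1 / 2) ^ k) :=
      eventually_all.2 fun j => (happ' j).eventually_lt_const hk
    obtain ⟨l, h3, h4⟩ := (h1.and h2).exists
    exact ⟨l, fun j => ⟨(h3 j).le, (h4 j).le⟩⟩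
  choose l hl using hsub
  choose CS hCS using hmaxS
  choose Cg hCg using hmaxg
  have hM0 : ∀ᵐ x ∂μ, ∀ j, Tendsto (fun k => ⨆ N : ℕ, ((2 * N + 1 : ℕ) : ENNReal)⁻¹ *
      ∑ n ∈ Finset.Icc (-(N : ℤ)) (N : ℤ), ‖h j (S j n x) - D j (l k) (S j n x)‖ₑ)
      atTop (𝓝 0) :=
    ae_all_iff.2 fun j => ExtG_ae (hS j) (hCS j) (E := fun k x => ‖h j x - D j (l k) x‖ₑ)
      (fun k => ((hh j).sub (hDm j (l k))).enorm) fun k => (hl k j).1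
  have hM10 : ∀ᵐ x ∂μ, ∀ j, Tendsto (fun k => ⨆ N : ℕ, ((2 * N + 1 : ℕ) : ENNReal)⁻¹ *
      ∑ n ∈ Finset.Icc (-(N : ℤ)) (N : ℤ), ‖H j (g j n x) - Ds j (l k) (g j n x)‖ₑ)
      atTop (𝓝 0) :=
    ae_all_iff.2 fun j => ExtG_ae (hg j) (hCg j) (E := fun k x => ‖H j x - Ds j (l k) x‖ₑ)
      (fun k => ((hH j).sub (hDsm j (l k))).enorm) fun k => (hl k j).2
  have hc : ∀ᵐ x ∂μ, ∀ k, Tendsto (fun N : ℕ => ((2 * N + 1 : ℕ) : ℂ)⁻¹ *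
      ∑ n ∈ Finset.Icc (-(N : ℤ)) N, a n x * (∏ j, D j (l k) (S j n x) -
        ∏ j, Ds j (l k) (g j n x))) atTop (𝓝 0) :=
    ae_all_iff.2 fun k => hconv (l k)
  filter_upwards [hM0, hM10, hc] with x h1 h2 h3
  refine ExtG_two (B := ENNReal.ofReal (max B 1)) (C := ENNReal.ofReal C) hB1 ENNReal.ofReal_ne_top
    ENNReal.ofReal_ne_top (a := fun n => a n x) (fun n => ?_)
    (u := fun j n => h j (S j n x)) (U := fun j n => H j (g j n x))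
    (v := fun k j n => D j (l k) (S j n x)) (V := fun k j n => Ds j (l k) (g j n x))
    (M := fun k j => ⨆ N : ℕ, ((2 * N + 1 : ℕ) : ENNReal)⁻¹ *
      ∑ n ∈ Finset.Icc (-(N : ℤ)) (N : ℤ), ‖h j (S j n x) - D j (l k) (S j n x)‖ₑ)
    (M1 := fun k j => ⨆ N : ℕ, ((2 * N + 1 : ℕ) : ENNReal)⁻¹ *
      ∑ n ∈ Finset.Icc (-(N : ℤ)) (N : ℤ), ‖H j (g j n x) - Ds j (l k) (g j n x)‖ₑ)
    (fun j n => hB0 (hhb j _)) (fun j n => hB0 (hHb j _)) (fun k j n => hB0 (hDb j _ _))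
    (fun k j n => hB0 (hDsb j _ _))
    (fun k j N => le_iSup (fun N : ℕ => ((2 * N + 1 : ℕ) : ENNReal)⁻¹ *
      ∑ n ∈ Finset.Icc (-(N : ℤ)) (N : ℤ), ‖h j (S j n x) - D j (l k) (S j n x)‖ₑ) N)
    (fun k j N => le_iSup (fun N : ℕ => ((2 * N + 1 : ℕ) : ENNReal)⁻¹ *
      ∑ n ∈ Finset.Icc (-(N : ℤ)) (N : ℤ), ‖H j (g j n x) - Ds j (l k) (g j n x)‖ₑ) N)
    h1 h2 h3
  rw [← ofReal_norm]
  exact ENNReal.ofReal_le_ofReal (ha1 n x)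

end Pool.Agent.GTP
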