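import Mathlib
import Pool.Agent.GTP.Defs
import Pool.Agent.GTP.ExtG
import Pool.Agent.GTP.OrbF
import Pool.Agent.GTC.Inv

set_option autoImplicit false

/-!
# GTP/FinG: from approximating nice functions to bounded functions, for fixed parameters
-/

namespace Pool.Agent.GTP

open MeasureTheory Filter Topology Pool.Agent.GT

private theorem lint_sq {X : Type*} [MeasurableSpace X] {μ : Measure X} (f : X → ℂ) :
    ∫⁻ x, ‖f x‖ₑ ^ 2 ∂μ = eLpNorm f 2 μ ^ 2 := by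
  rw [eLpNorm_eq_lintegral_rpow_enorm_toReal (by norm_num) (by norm_num)]
  rw [← ENNReal.rpow_natCast, ← ENNReal.rpow_mul]
  simp

private theorem ce_lip {X : Type*} {m : MeasurableSpace X} [mX : MeasurableSpace X] {μ : Measure X} [IsFiniteMeasure μ]
    {f g F G : X → ℂ} (hf : Integrable f μ) (hg : Integrable g μ)
    (hF : F =ᵐ[μ] μ[f | m]) (hG : G =ᵐ[μ] μ[g | m]) :
    ∫⁻ x, ‖F x - G x‖ₑ ^ 2 ∂μ ≤ ∫⁻ x, ‖f x - g x‖ₑ ^ 2 ∂μ := by
  have h1 : (fun x => F x - G x) =ᵐ[μ] μ[f - g | m] := by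
    filter_upwards [hF, hG, condExp_sub hf hg m] with x h1 h2 h3
    rw [h1, h2, h3]
    rfl
  rw [lint_sq, lint_sq, eLpNorm_congr_ae h1]
  gcongr
  exact eLpNorm_condExp_le_eLpNorm (f - g) (by norm_num)

theorem finG {X : Type*} [mX : MeasurableSpace X] {μ : Measure X} [IsFiniteMeasure μ] {m r : ℕ}
    {φ : Fin m → ℝ → X → X} (hφ : ∀ j, IsFlow μ (φ j)) {d : Fin m → ℕ} (T : ∀ j, Fin (d j) → Equiv.Perm X)
    (hT : ∀ j i, MeasurePreserving (T j i) μ μ) (hT' : ∀ j i, MeasurePreserving (T j i).symm μ μ)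
    (hnil : ∀ j, Group.IsNilpotent (Subgroup.closure (Set.range (T j))))
    (hcomm : ∀ j i s x, T j i (φ j s x) = φ j s (T j i x)) (P : ∀ j, Fin (d j) → Polynomial ℤ)
    (q : Fin m → Fin r → Polynomial ℝ) (β : Fin r → ℝ)
    {a : ℤ → X → ℂ} {C : ℝ} (ha1 : ∀ n x, ‖a n x‖ ≤ C)
    {h : Fin m → X → ℂ} {B : ℝ} (hh : ∀ j, Measurable (h j)) (hb : ∀ j x, ‖h j x‖ ≤ B)
    {D Ds : Fin m → ℕ → X → ℂ} (hD : ∀ j l, ∃ L, 0 ≤ L ∧ Nice (φ j) B L (D j l))
    (hDs : ∀ j l, Measurable (Ds j l)) (hDsb : ∀ j l x, ‖Ds j l x‖ ≤ B)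
    (hlim : ∀ j l, ∀ᵐ x ∂μ, Tendsto (fun k : ℕ => Kop (φ j) (2 ^ k) (D j l) x) atTop (𝓝 (Ds j l x)))
    (happ : ∀ j, Tendsto (fun l => ∫⁻ x, ‖h j x - D j l x‖ₑ ^ 2 ∂μ) atTop (𝓝 0))
    (hconv : ∀ l, ∀ᵐ x ∂μ, Tendsto (fun N : ℕ => ((2 * N + 1 : ℕ) : ℂ)⁻¹ * ∑ n ∈ Finset.Icc (-(N : ℤ)) N,
      a n x * (∏ j, D j l (φ j (∑ l, β l * (q j l).eval (n : ℝ)) (Pool.Nil.orb (T j) (P j) n x)) -
        ∏ j, Ds j l (Pool.Nil.orb (T j) (P j) n x))) atTop (𝓝 0)) :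
    ∀ᵐ x ∂μ, Tendsto (fun N : ℕ => ((2 * N + 1 : ℕ) : ℂ)⁻¹ * ∑ n ∈ Finset.Icc (-(N : ℤ)) N,
      a n x * (∏ j, h j (φ j (∑ l, β l * (q j l).eval (n : ℝ)) (Pool.Nil.orb (T j) (P j) n x)) -
        ∏ j, (μ[h j | GTC.inv (φ j)]) (Pool.Nil.orb (T j) (P j) n x))) atTop (𝓝 0) := by
  classical
  have horb : ∀ j (n : ℤ), MeasurePreserving (Pool.Nil.orb (T j) (P j) n) μ μ := fun j n =>
    (Pool.Nil.orb_mem (T j) (hT j) (hT' j) (P j) n).1
  choose L hL hN using hD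
  -- measurable bounded versions of the conditional expectations
  have hG : ∀ j, Measurable (μ[h j | GTC.inv (φ j)]) := fun j =>
    (stronglyMeasurable_condExp.mono (GTC.inv_le (φ j))).measurable
  have hGb : ∀ j, ∀ᵐ x ∂μ, ‖(μ[h j | GTC.inv (φ j)]) x‖ ≤ B := fun j =>
    ae_bdd_norm_condExp_of_ae_bdd_norm (ae_of_all _ (hb j))
  set H : Fin m → X → ℂ := fun j x => if ‖(μ[h j | GTC.inv (φ j)]) x‖ ≤ B then (μ[h j | GTC.inv (φ j)]) x else 0
    with hHdef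
  have hHm : ∀ j, Measurable (H j) := fun j =>
    Measurable.ite (measurableSet_le (hG j).norm measurable_const) (hG j) measurable_const
  have hHb : ∀ j x, ‖H j x‖ ≤ B := by
    intro j x
    have hB : 0 ≤ B := (norm_nonneg _).trans (hb j x)
    simp only [hHdef]
    split_ifs with h1
    · exact h1
    · simpa using hB
  have hHae : ∀ j, H j =ᵐ[μ] μ[h j | GTC.inv (φ j)] := by
    intro j
    filter_upwards [hGb j] with x hx
    simp only [hHdef, if_pos hx]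
  have hint : ∀ j, Integrable (h j) μ := fun j =>
    Integrable.of_bound (hh j).aestronglyMeasurable B (ae_of_all _ (hb j))
  have hintD : ∀ j l, Integrable (D j l) μ := fun j l =>
    Integrable.of_bound (hN j l).meas.aestronglyMeasurable B (ae_of_all _ (hN j l).bd)
  have happ' : ∀ j, Tendsto (fun l => ∫⁻ x, ‖H j x - Ds j l x‖ₑ ^ 2 ∂μ) atTop (𝓝 0) := by
    intro j
    refine tendsto_of_tendsto_of_tendsto_of_le_of_le tendsto_const_nhds (happ j) (fun _ => zero_le) fun l => ?_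
    exact ce_lip (hint j) (hintD j l) (hHae j) (GTC.lim_inv (hφ j) (hN j l) (hL j l) (hlim j l))
  have hc : ∀ j (n : ℤ), (∑ l, Polynomial.C (β l) * q j l).eval (n : ℝ) = ∑ l, β l * (q j l).eval (n : ℝ) := by
    intro j n
    rw [Polynomial.eval_finsetSum]
    simp
  have key := extG (S := fun j n x => φ j (∑ l, β l * (q j l).eval (n : ℝ)) (Pool.Nil.orb (T j) (P j) n x))
    (g := fun j n x => Pool.Nil.orb (T j) (P j) n x)
    (fun j n => ((hφ j).mp _).comp (horb j n)) (fun j n => horb j n)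
    (fun j => by
      obtain ⟨C, hC⟩ := maxOrb (hφ j) (T j) (hT j) (hT' j) (hnil j) (hcomm j) (P j)
        (∑ l, Polynomial.C (β l) * q j l)
      refine ⟨C, fun v hv => ?_⟩
      have := hC v hv
      simp only [hc] at this
      exact this)
    (fun j => Pool.Nil.orb_max_two (T j) (hT j) (hT' j) (hnil j) (P j))
    ha1 hh hHm hb hHb (fun j l => (hN j l).meas) hDs (fun j l => (hN j l).bd) hDsb happ happ' hconv
  have hall : ∀ᵐ x ∂μ, ∀ (j : Fin m) (n : ℤ), H j (Pool.Nil.orb (T j) (P j) n x) =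
      (μ[h j | GTC.inv (φ j)]) (Pool.Nil.orb (T j) (P j) n x) := by
    rw [ae_all_iff]
    intro j
    rw [ae_all_iff]
    intro n
    exact (horb j n).quasiMeasurePreserving.ae (hHae j)
  filter_upwards [key, hall] with x hx1 hx2
  refine hx1.congr fun N => ?_
  congr 1
  refine Finset.sum_congr rfl fun n _ => ?_
  congr 2
  exact Finset.prod_congr rfl fun j _ => hx2 j n

end Pool.Agent.GTP
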