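import Mathlib

set_option autoImplicit false

/-!
# GTP/FubV: Fubini along a direction

PROOF.  Let `K = Eᶜ`, `m = μ.prod volume` on `X × (Fin r → ℝ)`.  For every `t ∈ ℝ` the map `(x, β) ↦ (x, β + t v)` preserves `m` (translation invariance of the Lebesgue measure; `MeasurePreserving.prod`, `measurePreserving_add_right`), so
`m(K) = m {(x, β) : (x, β + t v) ∈ K}`.  Integrate over `t ∈ [0, 1]` and use Tonelli: `m(K) = ∫_0^1 ∫ ∫ 1_K(x, β + t v) dμ(x) dβ dt = ∫ (∫_0^1 ∫ 1_K(x, β + t v) dμ(x) dt) dβ = 0` because for every `β` the inner double integral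
vanishes by hypothesis.  (All measures are s-finite; `volume` on `Fin r → ℝ` is σ-finite.)
-/

namespace Pool.Agent.GTP

open MeasureTheory

theorem fubV {X : Type*} [MeasurableSpace X] {μ : Measure X} [IsFiniteMeasure μ] {r : ℕ}
    {E : Set (X × (Fin r → ℝ))} (hE : MeasurableSet E) (v : Fin r → ℝ)
    (h : ∀ β : Fin r → ℝ, ∀ᵐ z ∂(μ.prod (volume : Measure ℝ)), (z.1, β + z.2 • v) ∈ E) :
    ∀ᵐ w ∂(μ.prod (volume : Measure (Fin r → ℝ))), w ∈ E := by
  have hm : MeasurableSet Eᶜ := hE.compl
  let f : (X × (Fin r → ℝ)) × ℝ → X × (Fin r → ℝ) := fun p => (p.1.1, p.1.2 + p.2 • v)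
  have hf : Measurable f := by
    refine Measurable.prodMk (measurable_fst.comp measurable_fst) ?_
    exact (measurable_snd.comp measurable_fst).add (measurable_snd.smul_const v)
  have hS : MeasurableSet (f ⁻¹' Eᶜ) := hf hm
  have h1 : ((μ.prod (volume : Measure (Fin r → ℝ))).prod (volume : Measure ℝ)) (f ⁻¹' Eᶜ) = 0 := by
    rw [Measure.prod_apply hS, lintegral_prod_symm' _ (measurable_measure_prodMk_left hS)]
    refine lintegral_eq_zero_of_ae_eq_zero (Filter.Eventually.of_forall fun β => ?_)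
    have h3 := h β
    rw [ae_iff] at h3
    have hg : Measurable fun z : X × ℝ => (z.1, β + z.2 • v) :=
      measurable_fst.prodMk (measurable_const.add (measurable_snd.smul_const v))
    have h4 : MeasurableSet {z : X × ℝ | ¬ (z.1, β + z.2 • v) ∈ E} := hg hm
    rw [Measure.prod_apply h4] at h3
    exact h3
  have h2 : ((μ.prod (volume : Measure (Fin r → ℝ))).prod (volume : Measure ℝ)) (f ⁻¹' Eᶜ) =
      ∫⁻ _ : ℝ, (μ.prod (volume : Measure (Fin r → ℝ))) Eᶜ := by
    rw [Measure.prod_apply_symm hS]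
    refine lintegral_congr fun t => ?_
    have h5 : MeasurePreserving (fun w : X × (Fin r → ℝ) => (w.1, w.2 + t • v))
        (μ.prod (volume : Measure (Fin r → ℝ))) (μ.prod (volume : Measure (Fin r → ℝ))) :=
      (MeasurePreserving.id μ).prod (measurePreserving_add_right volume (t • v))
    exact h5.measure_preimage hm.nullMeasurableSet
  rw [h1, lintegral_const] at h2
  rw [ae_iff]
  rcases mul_eq_zero.1 h2.symm with h6 | h6
  · exact h6
  · simp at h6

end Pool.Agent.GTP
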