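import Mathlib
import Pool.Agent.GTP.Defs
import Pool.Agent.GTP.DirG
import Pool.Agent.GTP.FubV

set_option autoImplicit false

/-!
# GTP/TelG: several factors, nice functions

PROOF.  `u_j(n) = f_j(φ^j(∑_l β_l q_jl(n)) (orb (T j) (P j) n x))`, `v_j(n) = fs_j(orb (T j) (P j) n x)`, all bounded by `B`.  Telescoping: `∏_j u_j - ∏_j v_j = ∑_j (∏_{i<j} u_i) (u_j - v_j) (∏_{i>j} v_i)` (prove it by induction over initial
segments, e.g. for the products `Π_k = ∏_{i<k} u_i ∏_{i≥k} v_i`; or follow `GT/Tup.lean`: induction on `k ≤ m` for the statement with the finset `{i : i < k}`, `∏_{i ≤ k} u - ∏_{i ≤ k} v = (∏_{i<k} u_i)(u_k - v_k) + v_k (∏_{i<k} u - ∏_{i<k} v)` where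
now the second term has the bounded weights `a_n v_k(n)`, so state the induction for arbitrary bounded measurable weights `a`).
For fixed `j` let `E_j` = the set of `(x, β)` for which the averages of `a_n(x) (∏_{i<j} u_i(n)) (u_j(n) - v_j(n))` tend to zero (measurable set: `measurableSet_tendsto`, the terms are measurable in `(x, β)`: `hφ.meas`, `Pool.Nil.orb_mem`).
Let `v` be the direction of `hq j`.  For every `β` and almost every `(x, t)`, `(x, β + t v) ∈ E_j`: for `i < j` the time `∑_l (β_l + t v_l) q_il(n) = ∑_l β_l q_il(n)` does not depend on `t` (evaluate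
`∑_l C (v_l) * q_il = 0` at `n`), and the time of the factor `j` is `t q(n) + c(n)` with `q = ∑_l C (v_l) * q_jl`, `c = ∑_l C (β_l) * q_jl`; so this is `DirG.dirG` with the weights `a_n(x) ∏_{i<j} u_i(n)(x)` (measurable, bounded by
`|C| |B|^m`-like constants).  `FubV.fubV` gives `E_j` of full measure in `X × ℝ^r`; exchange the order (`Measure.prod_swap`, `Measure.ae_ae_of_ae_prod`): for almost every `β`, for almost every `x`.
-/

namespace Pool.Agent.GTP

open MeasureTheory Filter Topology Pool.Agent.GT

theorem telG {X : Type*} [MeasurableSpace X] {μ : Measure X} [IsFiniteMeasure μ] {m r : ℕ}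
    {φ : Fin m → ℝ → X → X} (hφ : ∀ j, IsFlow μ (φ j)) {d : Fin m → ℕ} (T : ∀ j, Fin (d j) → Equiv.Perm X)
    (hT : ∀ j i, MeasurePreserving (T j i) μ μ) (hT' : ∀ j i, MeasurePreserving (T j i).symm μ μ)
    (hnil : ∀ j, Group.IsNilpotent (Subgroup.closure (Set.range (T j))))
    (hcomm : ∀ j i s x, T j i (φ j s x) = φ j s (T j i x)) (P : ∀ j, Fin (d j) → Polynomial ℤ)
    (q : Fin m → Fin r → Polynomial ℝ)
    (hq : ∀ j, ∃ v : Fin r → ℝ, 1 ≤ (∑ l, Polynomial.C (v l) * q j l).natDegree ∧
      ∀ i < j, ∑ l, Polynomial.C (v l) * q i l = 0)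
    {f : Fin m → X → ℂ} {B : ℝ} (hf : ∀ j, ∃ L, 0 ≤ L ∧ Nice (φ j) B L (f j)) {fs : Fin m → X → ℂ}
    (hfs : ∀ j, Measurable (fs j)) (hfsb : ∀ j x, ‖fs j x‖ ≤ B)
    (hlim : ∀ j, ∀ᵐ x ∂μ, Tendsto (fun k : ℕ => Kop (φ j) (2 ^ k) (f j) x) atTop (𝓝 (fs j x)))
    {a : ℤ → X → ℂ} (ha : ∀ n, Measurable (a n)) {C : ℝ} (ha1 : ∀ n x, ‖a n x‖ ≤ C) :
    ∀ᵐ β ∂(volume : Measure (Fin r → ℝ)), ∀ᵐ x ∂μ, Tendsto (fun N : ℕ => ((2 * N + 1 : ℕ) : ℂ)⁻¹ *
      ∑ n ∈ Finset.Icc (-(N : ℤ)) N, a n x *
        (∏ j, f j (φ j (∑ l, β l * (q j l).eval (n : ℝ)) (Pool.Nil.orb (T j) (P j) n x)) -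
          ∏ j, fs j (Pool.Nil.orb (T j) (P j) n x))) atTop (𝓝 0) := by
  classical
  -- the factors
  set u : Fin m → ℤ → X × (Fin r → ℝ) → ℂ := fun j n w =>
    f j (φ j (∑ l, w.2 l * (q j l).eval (n : ℝ)) (Pool.Nil.orb (T j) (P j) n w.1)) with hu
  set v : Fin m → ℤ → X → ℂ := fun j n x => fs j (Pool.Nil.orb (T j) (P j) n x) with hv
  have horb : ∀ j n, Measurable (Pool.Nil.orb (T j) (P j) n) := fun j n =>
    (Pool.Nil.orb_mem (T j) (hT j) (hT' j) (P j) n).1.measurable
  have hfm : ∀ j, Measurable (f j) := fun j => by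
    obtain ⟨L, -, h⟩ := hf j
    exact h.meas
  have hfb : ∀ j x, ‖f j x‖ ≤ B := fun j => by
    obtain ⟨L, -, h⟩ := hf j
    exact h.bd
  have hum : ∀ j n, Measurable (u j n) := by
    intro j n
    have ht : Measurable fun w : X × (Fin r → ℝ) => ∑ l, w.2 l * (q j l).eval (n : ℝ) := by
      refine Finset.measurable_fun_sum _ fun l _ => ?_
      exact ((measurable_pi_apply l).comp measurable_snd).mul_const _
    exact (hfm j).comp ((hφ j).meas.comp (ht.prodMk ((horb j n).comp measurable_fst)))
  have hvm : ∀ j n, Measurable (v j n) := fun j n => (hfs j).comp (horb j n)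
  have key : ∀ k : ℕ, k ≤ m → ∀ (a : ℤ → X → ℂ), (∀ n, Measurable (a n)) → ∀ C : ℝ, (∀ n x, ‖a n x‖ ≤ C) →
      ∀ᵐ w ∂(μ.prod (volume : Measure (Fin r → ℝ))), Tendsto (fun N : ℕ => ((2 * N + 1 : ℕ) : ℂ)⁻¹ *
        ∑ n ∈ Finset.Icc (-(N : ℤ)) N, a n w.1 *
          (∏ i ∈ Finset.univ.filter (fun i : Fin m => (i : ℕ) < k), u i n w -
            ∏ i ∈ Finset.univ.filter (fun i : Fin m => (i : ℕ) < k), v i n w.1)) atTop (𝓝 0) := by
    intro k
    induction k with
    | zero =>
      intro _ a _ C _
      refine Eventually.of_forall fun w => ?_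
      simp
    | succ k ih =>
      intro hk a ha C ha1
      have hk' : k < m := hk
      set j : Fin m := ⟨k, hk'⟩ with hj
      set s : Finset (Fin m) := Finset.univ.filter (fun i : Fin m => (i : ℕ) < k) with hs
      have hjs : j ∉ s := by
        rw [hs, Finset.mem_filter]
        rintro ⟨-, h⟩
        exact lt_irrefl k h
      have hins : Finset.univ.filter (fun i : Fin m => (i : ℕ) < k + 1) = insert j s := by
        ext i
        rw [Finset.mem_insert, hs, Finset.mem_filter, Finset.mem_filter]
        simp only [Finset.mem_univ, true_and]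
        rw [Fin.ext_iff]
        change (i : ℕ) < k + 1 ↔ (i : ℕ) = k ∨ (i : ℕ) < k
        omega
      have hlt : ∀ i ∈ s, i < j := by
        intro i hi
        rw [hs, Finset.mem_filter] at hi
        exact Fin.lt_def.2 hi.2
      obtain ⟨L, hL, hfj⟩ := hf j
      obtain ⟨dir, hdir, hdir0⟩ := hq j
      -- the first term
      have hE : MeasurableSet {w : X × (Fin r → ℝ) | Tendsto (fun N : ℕ => ((2 * N + 1 : ℕ) : ℂ)⁻¹ *
          ∑ n ∈ Finset.Icc (-(N : ℤ)) N, (a n w.1 * ∏ i ∈ s, u i n w) * (u j n w - v j n w.1))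
          atTop (𝓝 0)} := by
        refine measurableSet_tendsto _ fun N => ?_
        refine (Finset.measurable_fun_sum _ fun n _ => ?_).const_mul _
        exact (((ha n).comp measurable_fst).mul (Finset.measurable_fun_prod _ fun i _ => hum i n)).mul
          ((hum j n).sub ((hvm j n).comp measurable_fst))
      have h1 := fubV (μ := μ) hE dir (fun β => by
        have h2 := dirG (hφ j) (T j) (hT j) (hT' j) (hnil j) (hcomm j) (P j)
          (∑ l, Polynomial.C (dir l) * q j l) (∑ l, Polynomial.C (β l) * q j l) hdir hfj hL (hfs j) (hfsb j)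
          (hlim j) (a := fun n x => a n x * ∏ i ∈ s, u i n (x, β))
          (fun n => (ha n).mul (Finset.measurable_fun_prod _ fun i _ =>
            (hum i n).comp (measurable_id.prodMk measurable_const)))
          (C := |C| * |B| ^ s.card) (fun n x => by
            rw [norm_mul, norm_prod]
            refine mul_le_mul ((ha1 n x).trans (le_abs_self C)) ?_
              (Finset.prod_nonneg fun i _ => norm_nonneg _) (abs_nonneg _)
            refine (Finset.prod_le_prod (g := fun _ => |B|) (fun i _ => norm_nonneg _) fun i _ => ?_).trans_eq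
              (Finset.prod_const _)
            exact (hfb i _).trans (le_abs_self B))
        filter_upwards [h2] with z hz
        show Tendsto _ _ _
        refine hz.congr fun N => ?_
        congr 1
        refine Finset.sum_congr rfl fun n _ => ?_
        have e1 : ∀ i ∈ s, u i n (z.1, β + z.2 • dir) = u i n (z.1, β) := by
          intro i hi
          have e3 : ∑ l, dir l * (q i l).eval (n : ℝ) = 0 := by
            have e4 := congrArg (Polynomial.eval (n : ℝ)) (hdir0 i (hlt i hi))
            simpa [Polynomial.eval_finsetSum] using e4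
          have e5 : ∑ l, (β + z.2 • dir) l * (q i l).eval (n : ℝ) = ∑ l, β l * (q i l).eval (n : ℝ) := by
            calc ∑ l, (β + z.2 • dir) l * (q i l).eval (n : ℝ)
                = ∑ l, β l * (q i l).eval (n : ℝ) + z.2 * ∑ l, dir l * (q i l).eval (n : ℝ) := by
                  rw [Finset.mul_sum, ← Finset.sum_add_distrib]
                  refine Finset.sum_congr rfl fun l _ => ?_
                  simp only [Pi.add_apply, Pi.smul_apply, smul_eq_mul]
                  ring
              _ = _ := by rw [e3, mul_zero, add_zero]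
          simp only [hu]
          rw [e5]
        have e2 : u j n (z.1, β + z.2 • dir) =
            f j (φ j (z.2 * (∑ l, Polynomial.C (dir l) * q j l).eval (n : ℝ) +
              (∑ l, Polynomial.C (β l) * q j l).eval (n : ℝ)) (Pool.Nil.orb (T j) (P j) n z.1)) := by
          simp only [hu]
          congr 2
          rw [Polynomial.eval_finsetSum, Polynomial.eval_finsetSum, Finset.mul_sum,
            ← Finset.sum_add_distrib]
          refine Finset.sum_congr rfl fun l _ => ?_
          simp only [Pi.add_apply, Pi.smul_apply, smul_eq_mul, Polynomial.eval_mul, Polynomial.eval_C]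
          ring
        rw [Finset.prod_congr rfl e1, e2])
      -- the second term
      have h3 := ih hk'.le (fun n x => a n x * v j n x) (fun n => (ha n).mul (hvm j n)) (|C| * |B|)
        (fun n x => by
          rw [norm_mul]
          exact mul_le_mul ((ha1 n x).trans (le_abs_self C)) ((hfsb j _).trans (le_abs_self B))
            (norm_nonneg _) (abs_nonneg _))
      filter_upwards [h1, h3] with w hw1 hw2
      have hw3 := (show Tendsto _ _ _ from hw1).add hw2
      rw [add_zero] at hw3
      refine hw3.congr fun N => ?_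
      rw [← mul_add, ← Finset.sum_add_distrib]
      congr 1
      refine Finset.sum_congr rfl fun n _ => ?_
      rw [hins, Finset.prod_insert hjs, Finset.prod_insert hjs]
      ring
  have h1 := key m le_rfl a ha C ha1
  have h2 : Finset.univ.filter (fun i : Fin m => (i : ℕ) < m) = Finset.univ :=
    Finset.filter_true_of_mem fun i _ => i.2
  simp only [h2] at h1
  rw [← Measure.prod_swap] at h1
  have h3 := ae_of_ae_map measurable_swap.aemeasurable h1
  exact Measure.ae_ae_of_ae_prod h3

end Pool.Agent.GTP
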