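import Mathlib
import Pool.Agent.GTP.Defs
import Pool.Agent.GTP.TelG
import Pool.Agent.GTP.FinG
import Pool.Agent.GT.Lim
import Pool.Agent.GT.Appr
import Pool.Agent.GT.Sep

set_option autoImplicit false

/-!
# GTP/Main: the main theorem for all bounded functions
-/

namespace Pool.Agent.GTP

open MeasureTheory Filter Topology Pool.Agent.GT

private lemma Main_repr {X : Type*} [MeasurableSpace X] {μ : Measure X} {h : X → ℂ}
    (hh : MemLp h ⊤ μ) : ∃ (B : ℕ) (h' : X → ℂ), Measurable h' ∧ (∀ x, ‖h' x‖ ≤ B) ∧ h =ᵐ[μ] h' := by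
  obtain ⟨B, hB⟩ := exists_nat_ge (eLpNormEssSup h μ).toReal
  have hfin : eLpNormEssSup h μ ≠ ⊤ := by
    have := hh.2
    rw [eLpNorm_exponent_top] at this
    exact this.ne
  have hb : ∀ᵐ x ∂μ, ‖h x‖ ≤ B := by
    filter_upwards [ae_le_eLpNormEssSup (f := h) (μ := μ)] with x hx
    refine le_trans ?_ hB
    rw [← toReal_enorm]
    exact ENNReal.toReal_mono hfin hx
  have hg : Measurable (hh.1.mk h) := hh.1.stronglyMeasurable_mk.measurable
  refine ⟨B, {x | ‖hh.1.mk h x‖ ≤ B}.indicator (hh.1.mk h), ?_, ?_, ?_⟩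
  · exact hg.indicator (measurableSet_le hg.norm measurable_const)
  · intro x
    by_cases hx : x ∈ {x | ‖hh.1.mk h x‖ ≤ B}
    · rw [Set.indicator_of_mem hx]; exact hx
    · rw [Set.indicator_of_notMem hx, norm_zero]; positivity
  · filter_upwards [hb, hh.1.ae_eq_mk] with x h1 h2
    rw [Set.indicator_of_mem, h2]
    show ‖hh.1.mk h x‖ ≤ B
    rwa [← h2]

private lemma Main_common {X : Type*} [MeasurableSpace X] {μ : Measure X} {m : ℕ} {h : Fin m → X → ℂ}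
    (hh : ∀ j, MemLp (h j) ⊤ μ) : ∃ (B : ℕ) (h' : Fin m → X → ℂ), (∀ j, Measurable (h' j)) ∧
      (∀ j x, ‖h' j x‖ ≤ B) ∧ ∀ j, h j =ᵐ[μ] h' j := by
  choose B0 h' hm' hb0 hae using fun i => Main_repr (hh i)
  refine ⟨Finset.univ.sup B0, h', hm', fun i x => ?_, hae⟩
  refine (hb0 i x).trans ?_
  exact_mod_cast Finset.le_sup (f := B0) (Finset.mem_univ i)

section

variable {X : Type*} [MeasurableSpace X] {μ : Measure X} [IsFiniteMeasure μ] {m r : ℕ}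
    {φ : Fin m → ℝ → X → X} (hφ : ∀ j, IsFlow μ (φ j)) {d : Fin m → ℕ} (T : ∀ j, Fin (d j) → Equiv.Perm X)
    (hT : ∀ j i, MeasurePreserving (T j i) μ μ) (hT' : ∀ j i, MeasurePreserving (T j i).symm μ μ)
    (hnil : ∀ j, Group.IsNilpotent (Subgroup.closure (Set.range (T j))))
    (hcomm : ∀ j i s x, T j i (φ j s x) = φ j s (T j i x)) (P : ∀ j, Fin (d j) → Polynomial ℤ)
    (q : Fin m → Fin r → Polynomial ℝ)

/-- the conclusion for the parameters `β` and the functions `h` -/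
def Cv (μ : Measure X) (φ : Fin m → ℝ → X → X) (T : ∀ j, Fin (d j) → Equiv.Perm X)
    (P : ∀ j, Fin (d j) → Polynomial ℤ) (q : Fin m → Fin r → Polynomial ℝ) (a : ℤ → X → ℂ) (β : Fin r → ℝ)
    (h : Fin m → X → ℂ) : Prop :=
  ∀ᵐ x ∂μ, Tendsto (fun N : ℕ => ((2 * N + 1 : ℕ) : ℂ)⁻¹ * ∑ n ∈ Finset.Icc (-(N : ℤ)) N,
      a n x * (∏ j, h j (φ j (∑ l, β l * (q j l).eval (n : ℝ)) (Pool.Nil.orb (T j) (P j) n x)) -
        ∏ j, (μ[h j | GTC.inv (φ j)]) (Pool.Nil.orb (T j) (P j) n x))) atTop (𝓝 0)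

include hφ hT hT' in
omit [IsFiniteMeasure μ] in
private lemma Cv_congr {a : ℤ → X → ℂ} {β : Fin r → ℝ} {h h' : Fin m → X → ℂ} (hae : ∀ j, h j =ᵐ[μ] h' j)
    (H : Cv μ φ T P q a β h') : Cv μ φ T P q a β h := by
  have horb : ∀ j (n : ℤ), MeasurePreserving (Pool.Nil.orb (T j) (P j) n) μ μ := fun j n =>
    (Pool.Nil.orb_mem (T j) (hT j) (hT' j) (P j) n).1
  have h1 : ∀ᵐ x ∂μ, ∀ (j : Fin m) (n : ℤ), h j (φ j (∑ l, β l * (q j l).eval (n : ℝ)) (Pool.Nil.orb (T j) (P j) n x)) =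
      h' j (φ j (∑ l, β l * (q j l).eval (n : ℝ)) (Pool.Nil.orb (T j) (P j) n x)) := by
    rw [ae_all_iff]
    intro j
    rw [ae_all_iff]
    intro n
    exact (((hφ j).mp _).comp (horb j n)).quasiMeasurePreserving.ae (hae j)
  have h2 : ∀ᵐ x ∂μ, ∀ (j : Fin m) (n : ℤ), (μ[h j | GTC.inv (φ j)]) (Pool.Nil.orb (T j) (P j) n x) =
      (μ[h' j | GTC.inv (φ j)]) (Pool.Nil.orb (T j) (P j) n x) := by
    rw [ae_all_iff]
    intro j
    rw [ae_all_iff]
    intro n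
    exact (horb j n).quasiMeasurePreserving.ae (condExp_congr_ae (hae j))
  filter_upwards [H, h1, h2] with x hx hx1 hx2
  refine hx.congr fun N => ?_
  congr 1
  refine Finset.sum_congr rfl fun n _ => ?_
  congr 2
  · exact Finset.prod_congr rfl fun j _ => (hx1 j n).symm
  · exact Finset.prod_congr rfl fun j _ => (hx2 j n).symm

include hφ hT hT' hnil hcomm in
theorem main_fix
    (hq : ∀ j, ∃ v : Fin r → ℝ, 1 ≤ (∑ l, Polynomial.C (v l) * q j l).natDegree ∧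
      ∀ i < j, ∑ l, Polynomial.C (v l) * q i l = 0)
    {a : ℤ → X → ℂ} (ha : ∀ n, Measurable (a n)) {C : ℝ} (ha1 : ∀ n x, ‖a n x‖ ≤ C)
    {h : Fin m → X → ℂ} (hh : ∀ j, MemLp (h j) ⊤ μ) :
    ∀ᵐ β ∂(volume : Measure (Fin r → ℝ)), Cv μ φ T P q a β h := by
  obtain ⟨B, h', hm', hb', hae⟩ := Main_common hh
  choose D L hL hN hD using fun (j : Fin m) (l : ℕ) => appr (hφ j) (hm' j) (hb' j) (Nat.cast_nonneg B)
    (ε := 1 / ((l : ℝ) + 1)) (by positivity)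
  choose Ds hDs hDsb hDlim using fun (j : Fin m) (l : ℕ) => lim_exists (hφ j) (hN j l) (hL j l)
  have hT1 : ∀ᵐ β ∂(volume : Measure (Fin r → ℝ)), ∀ l : ℕ, ∀ᵐ x ∂μ,
      Tendsto (fun N : ℕ => ((2 * N + 1 : ℕ) : ℂ)⁻¹ * ∑ n ∈ Finset.Icc (-(N : ℤ)) N,
      a n x * (∏ j, D j l (φ j (∑ l, β l * (q j l).eval (n : ℝ)) (Pool.Nil.orb (T j) (P j) n x)) -
        ∏ j, Ds j l (Pool.Nil.orb (T j) (P j) n x))) atTop (𝓝 0) := by
    rw [ae_all_iff]
    intro l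
    exact telG hφ T hT hT' hnil hcomm P q hq (fun j => ⟨L j l, hL j l, hN j l⟩) (fun j => hDs j l)
      (fun j => hDsb j l) (fun j => hDlim j l) ha ha1
  filter_upwards [hT1] with β hβ
  refine Cv_congr hφ T hT hT' P q hae ?_
  refine finG hφ T hT hT' hnil hcomm P q β ha1 hm' hb' (fun j l => ⟨L j l, hL j l, hN j l⟩) hDs hDsb hDlim ?_ hβ
  intro j
  refine tendsto_of_tendsto_of_tendsto_of_le_of_le tendsto_const_nhds ?_ (fun _ => zero_le) (hD j)
  rw [← ENNReal.ofReal_zero]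
  exact ENNReal.tendsto_ofReal tendsto_one_div_add_atTop_nhds_zero_nat

include hφ hT hT' hnil hcomm in
theorem main_sep [IsSeparable μ]
    (hq : ∀ j, ∃ v : Fin r → ℝ, 1 ≤ (∑ l, Polynomial.C (v l) * q j l).natDegree ∧
      ∀ i < j, ∑ l, Polynomial.C (v l) * q i l = 0)
    {a : ℤ → X → ℂ} (ha : ∀ n, Measurable (a n)) {C : ℝ} (ha1 : ∀ n x, ‖a n x‖ ≤ C) :
    ∀ᵐ β ∂(volume : Measure (Fin r → ℝ)), ∀ h : Fin m → X → ℂ, (∀ j, MemLp (h j) ⊤ μ) → Cv μ φ T P q a β h := by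
  choose D hD hdense using fun (j : Fin m) (B : ℕ) => sep (hφ j) (B := (B : ℝ)) (Nat.cast_nonneg B)
  choose L hL hN using hD
  choose Ds hDs hDsb hDlim using fun (j : Fin m) (B k : ℕ) => lim_exists (hφ j) (hN j B k) (hL j B k)
  have hT1 : ∀ᵐ β ∂(volume : Measure (Fin r → ℝ)), ∀ (B : ℕ) (k : Fin m → ℕ), ∀ᵐ x ∂μ,
      Tendsto (fun N : ℕ => ((2 * N + 1 : ℕ) : ℂ)⁻¹ * ∑ n ∈ Finset.Icc (-(N : ℤ)) N,
      a n x * (∏ j, D j B (k j) (φ j (∑ l, β l * (q j l).eval (n : ℝ)) (Pool.Nil.orb (T j) (P j) n x)) -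
        ∏ j, Ds j B (k j) (Pool.Nil.orb (T j) (P j) n x))) atTop (𝓝 0) := by
    rw [ae_all_iff]
    intro B
    rw [ae_all_iff]
    intro k
    exact telG hφ T hT hT' hnil hcomm P q hq (fun j => ⟨L j B (k j), hL j B (k j), hN j B (k j)⟩)
      (fun j => hDs j B (k j)) (fun j => hDsb j B (k j)) (fun j => hDlim j B (k j)) ha ha1
  filter_upwards [hT1] with β hβ
  intro h hh
  obtain ⟨B, h', hm', hb', hae⟩ := Main_common hh
  choose k hk using fun (j : Fin m) (l : ℕ) => hdense j B (h' j) (hm' j) (hb' j) (1 / ((l : ℝ) + 1)) (by positivity)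
  refine Cv_congr hφ T hT hT' P q hae ?_
  refine finG hφ T hT hT' hnil hcomm P q β ha1 hm' hb' (D := fun j l => D j B (k j l))
    (Ds := fun j l => Ds j B (k j l)) (fun j l => ⟨L j B (k j l), hL j B (k j l), hN j B (k j l)⟩)
    (fun j l => hDs j B (k j l)) (fun j l => hDsb j B (k j l)) (fun j l => hDlim j B (k j l)) ?_
    (fun l => hβ B (fun j => k j l))
  intro j
  refine tendsto_of_tendsto_of_tendsto_of_le_of_le tendsto_const_nhds ?_ (fun _ => zero_le) (hk j)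
  rw [← ENNReal.ofReal_zero]
  exact ENNReal.tendsto_ofReal tendsto_one_div_add_atTop_nhds_zero_nat

include hφ hT hT' hnil hcomm in
/-- **generic polynomial times**, all functions of a family which is countable, or arbitrary if `μ` is separable -/
theorem main_all {FF : Set (X → ℂ)} (hFF : IsSeparable μ ∨ FF.Countable)
    (hq : ∀ j, ∃ v : Fin r → ℝ, 1 ≤ (∑ l, Polynomial.C (v l) * q j l).natDegree ∧
      ∀ i < j, ∑ l, Polynomial.C (v l) * q i l = 0)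
    {a : ℤ → X → ℂ} (ha : ∀ n, Measurable (a n)) {C : ℝ} (ha1 : ∀ n x, ‖a n x‖ ≤ C) :
    ∀ᵐ β ∂(volume : Measure (Fin r → ℝ)), ∀ h : Fin m → X → ℂ, (∀ j, h j ∈ FF ∧ MemLp (h j) ⊤ μ) →
      Cv μ φ T P q a β h := by
  rcases hFF with hs | hc
  · filter_upwards [main_sep hφ T hT hT' hnil hcomm P q hq ha ha1] with β hβ
    exact fun h hh => hβ h fun j => (hh j).2
  · have hcc : {h : Fin m → X → ℂ | ∀ j, h j ∈ {f | f ∈ FF ∧ MemLp f ⊤ μ}}.Countable :=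
      Set.countable_pi fun _ => hc.mono fun f hf => hf.1
    have h1 : ∀ᵐ β ∂(volume : Measure (Fin r → ℝ)), ∀ h ∈ {h : Fin m → X → ℂ | ∀ j, h j ∈ {f | f ∈ FF ∧ MemLp f ⊤ μ}},
        Cv μ φ T P q a β h := by
      rw [ae_ball_iff hcc]
      intro h hh
      exact main_fix hφ T hT hT' hnil hcomm P q hq ha ha1 fun j => (hh j).2
    filter_upwards [h1] with β hβ
    exact fun h hh => hβ h fun j => hh j

end

end Pool.Agent.GTP
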