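import Mathlib
import Pool.Agent.GTP.Main
import Pool.Agent.GTP.OrbF

set_option autoImplicit false

/-!
# GTP/Final: perturbations `T_i ↦ φ_(b_i) T_i` of the data of Q1, for almost every `b`
-/

namespace Pool.Agent.GTP

open MeasureTheory Filter Topology Pool.Agent.GT

theorem erg_const {X : Type*} {m : MeasurableSpace X} [mX : MeasurableSpace X] {μ : Measure X} [IsProbabilityMeasure μ]
    (hm : m ≤ mX) (herg : ∀ A : Set X, MeasurableSet[m] A → μ A = 0 ∨ μ Aᶜ = 0)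
    {h : X → ℂ} : μ[h | m] =ᵐ[μ] fun _ => ∫ x, h x ∂μ := by
  have h1 : @Measurable X ℂ m _ (μ[h | m]) :=
    (stronglyMeasurable_condExp (f := h) (m := m) (μ := μ)).measurable
  obtain ⟨c, hc⟩ := Filter.exists_eventuallyEq_const_of_forall_separating (l := ae μ)
    (f := μ[h | m]) MeasurableSet (fun U hU => by
      have h2 : MeasurableSet[m] (μ[h | m] ⁻¹' U) := h1 hU
      rcases herg _ h2 with h3 | h3
      · right
        rw [ae_iff]
        simp only [not_not]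
        exact h3
      · left
        rw [ae_iff]
        exact h3)
  have h4 : ∫ x, (μ[h | m]) x ∂μ = ∫ x, h x ∂μ := integral_condExp hm
  rw [integral_congr_ae hc] at h4
  simp only [Function.const_apply, integral_const, probReal_univ, one_smul] at h4
  rw [← h4]
  exact hc

/-- real linear combinations of integer polynomials -/
noncomputable def lc {d : ℕ} (c : Fin d → ℝ) (P : Fin d → Polynomial ℤ) : Polynomial ℝ :=
  ∑ i, Polynomial.C (c i) * (P i).map (Int.castRingHom ℝ)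

theorem lc_eval {d : ℕ} (c : Fin d → ℝ) (P : Fin d → Polynomial ℤ) (n : ℤ) :
    (lc c P).eval (n : ℝ) = ∑ i, c i * (((P i).eval n : ℤ) : ℝ) := by
  unfold lc
  rw [Polynomial.eval_finsetSum]
  refine Finset.sum_congr rfl fun i _ => ?_
  rw [Polynomial.eval_mul, Polynomial.eval_C, Polynomial.eval_intCast_map]
  rfl

theorem lc_sum {d r : ℕ} (Λ : Fin d → Fin r → ℝ) (v : Fin r → ℝ) (P : Fin d → Polynomial ℤ) :
    ∑ l, Polynomial.C (v l) * lc (fun i => Λ i l) P = lc (fun i => ∑ l, Λ i l * v l) P := by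
  unfold lc
  simp only [Finset.mul_sum]
  rw [Finset.sum_comm]
  refine Finset.sum_congr rfl fun i _ => ?_
  rw [map_sum, Finset.sum_mul]
  refine Finset.sum_congr rfl fun l _ => ?_
  rw [← mul_assoc, ← Polynomial.C_mul, mul_comm (v l)]

theorem lc_deg {d : ℕ} (c : Fin d → ℝ) (P : Fin d → Polynomial ℤ) (h0 : ∀ l, (P l).eval 0 = 0)
    (hne : lc c P ≠ 0) : 1 ≤ (lc c P).natDegree := by
  by_contra hlt
  have hd : (lc c P).natDegree = 0 := by omega
  have he : (lc c P).eval ((0 : ℤ) : ℝ) = 0 := by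
    rw [lc_eval]
    refine Finset.sum_eq_zero fun l _ => ?_
    rw [h0, Int.cast_zero, mul_zero]
  rw [Polynomial.eq_C_of_natDegree_eq_zero hd, Polynomial.eval_C] at he
  apply hne
  rw [Polynomial.eq_C_of_natDegree_eq_zero hd, he, Polynomial.C_0]

theorem countable_poly : Countable (Polynomial ℤ) := by
  rw [← Cardinal.mk_le_aleph0_iff]
  refine Polynomial.cardinalMk_le_max.trans ?_
  simp

theorem final {X : Type*} [MeasurableSpace X] {μ : Measure X} [IsProbabilityMeasure μ] {d m r : ℕ}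
    {φ : Fin m → ℝ → X → X} {T : Fin m → Fin d → Equiv.Perm X} (hφ : ∀ j, IsFlow μ (φ j))
    (hT : ∀ j i, MeasurePreserving (T j i) μ μ) (hT' : ∀ j i, MeasurePreserving (T j i).symm μ μ)
    (hnil : ∀ j, Group.IsNilpotent (Subgroup.closure (Set.range (T j))))
    (hcomm : ∀ j i s x, T j i (φ j s x) = φ j s (T j i x)) (Λ : Fin m → Fin d → Fin r → ℝ)
    {a : ℤ → X → ℂ} (ha : ∀ n, Measurable (a n)) {C : ℝ} (ha1 : ∀ n x, ‖a n x‖ ≤ C)
    {FF : Set (X → ℂ)} (hFF : IsSeparable μ ∨ FF.Countable) :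
    ∀ᵐ b ∂(volume : Measure (Fin r → ℝ)), ∀ S : Fin m → Fin d → Equiv.Perm X,
      (∀ j i x, S j i x = φ j (∑ l, Λ j i l * b l) (T j i x)) →
      (∀ j, Group.IsNilpotent (Subgroup.closure (Set.range (S j)))) ∧
      ∀ P : Fin m → Fin d → Polynomial ℤ, (∀ j i, (P j i).eval 0 = 0) →
        (∀ j, ∃ v : Fin r → ℝ, lc (fun i => ∑ l, Λ j i l * v l) (P j) ≠ 0 ∧
          ∀ k < j, lc (fun i => ∑ l, Λ k i l * v l) (P k) = 0) →
        ∀ f : Fin m → X → ℂ, (∀ j, f j ∈ FF ∧ MemLp (f j) ⊤ μ) →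
          (∀ᵐ x ∂μ, Tendsto (fun N : ℕ => ((2 * N + 1 : ℕ) : ℂ)⁻¹ *
            ∑ n ∈ Finset.Icc (-(N : ℤ)) N, a n x * (∏ j, f j (Pool.Nil.orb (S j) (P j) n x) -
              ∏ j, (μ[f j | GTC.inv (φ j)]) (Pool.Nil.orb (T j) (P j) n x))) atTop (𝓝 0)) ∧
          ((∀ j, ∀ A : Set X, MeasurableSet A → (∀ t, φ j t ⁻¹' A = A) → μ A = 0 ∨ μ Aᶜ = 0) →
            ∀ᵐ x ∂μ, Tendsto (fun N : ℕ => ((2 * N + 1 : ℕ) : ℂ)⁻¹ *
              ∑ n ∈ Finset.Icc (-(N : ℤ)) N, a n x * (∏ j, f j (Pool.Nil.orb (S j) (P j) n x) -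
                ∏ j, ∫ y, f j y ∂μ)) atTop (𝓝 0)) := by
  have hall : ∀ᵐ b ∂(volume : Measure (Fin r → ℝ)), ∀ P : Fin m → Fin d → Polynomial ℤ,
      (∀ j i, (P j i).eval 0 = 0) → (∀ j, ∃ v : Fin r → ℝ, lc (fun i => ∑ l, Λ j i l * v l) (P j) ≠ 0 ∧
          ∀ k < j, lc (fun i => ∑ l, Λ k i l * v l) (P k) = 0) →
        ∀ f : Fin m → X → ℂ, (∀ j, f j ∈ FF ∧ MemLp (f j) ⊤ μ) →
          Cv μ φ T P (fun j l => lc (fun i => Λ j i l) (P j)) a b f := by
    have := countable_poly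
    rw [ae_all_iff]
    intro P
    by_cases hP0 : ∀ j i, (P j i).eval 0 = 0
    · by_cases hv : ∀ j, ∃ v : Fin r → ℝ, lc (fun i => ∑ l, Λ j i l * v l) (P j) ≠ 0 ∧
          ∀ k < j, lc (fun i => ∑ l, Λ k i l * v l) (P k) = 0
      · have h1 := main_all hφ T hT hT' hnil hcomm P (fun j l => lc (fun i => Λ j i l) (P j)) hFF
          (fun j => by
            obtain ⟨v, hv1, hv2⟩ := hv j
            refine ⟨v, ?_, fun k hk => ?_⟩
            · rw [lc_sum]
              exact lc_deg _ _ (hP0 j) hv1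
            · rw [lc_sum]
              exact hv2 k hk) ha ha1
        filter_upwards [h1] with b hb
        exact fun _ _ => hb
      · exact Eventually.of_forall fun b _ h => absurd h hv
    · exact Eventually.of_forall fun b h _ => absurd h hP0
  filter_upwards [hall] with b hb
  intro S hS
  have hS' : ∀ j, S j = fun i => fperm (hφ j) (∑ l, Λ j i l * b l) * T j i := by
    intro j
    funext i
    ext x
    rw [hS]
    rfl
  refine ⟨fun j => ?_, ?_⟩
  · rw [hS' j]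
    exact lit_nil (hφ j) (T j) (hnil j) (hcomm j) _
  intro P hP0 hv f hf
  have h1 := hb P hP0 hv f hf
  have horb : ∀ j (n : ℤ), MeasurePreserving (Pool.Nil.orb (T j) (P j) n) μ μ := fun j n =>
    (Pool.Nil.orb_mem (T j) (hT j) (hT' j) (P j) n).1
  have htime : ∀ j (n : ℤ), ∑ l, b l * (lc (fun i => Λ j i l) (P j)).eval (n : ℝ) =
      ∑ i, (∑ l, Λ j i l * b l) * (((P j i).eval n : ℤ) : ℝ) := by
    intro j n
    simp only [lc_eval, Finset.mul_sum, Finset.sum_mul]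
    rw [Finset.sum_comm]
    refine Finset.sum_congr rfl fun i _ => Finset.sum_congr rfl fun l _ => ?_
    ring
  have horbS : ∀ j (n : ℤ) (x : X), Pool.Nil.orb (S j) (P j) n x =
      φ j (∑ l, b l * (lc (fun i => Λ j i l) (P j)).eval (n : ℝ)) (Pool.Nil.orb (T j) (P j) n x) := by
    intro j n x
    rw [hS' j, fperm_lit (hφ j) (T j) (hcomm j), htime]
  have h3 : ∀ᵐ x ∂μ, Tendsto (fun N : ℕ => ((2 * N + 1 : ℕ) : ℂ)⁻¹ *
      ∑ n ∈ Finset.Icc (-(N : ℤ)) N, a n x * (∏ j, f j (Pool.Nil.orb (S j) (P j) n x) -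
        ∏ j, (μ[f j | GTC.inv (φ j)]) (Pool.Nil.orb (T j) (P j) n x))) atTop (𝓝 0) := by
    simp only [horbS]
    exact h1
  refine ⟨h3, fun herg => ?_⟩
  have h2 : ∀ᵐ x ∂μ, ∀ (j : Fin m) (n : ℤ), (μ[f j | GTC.inv (φ j)]) (Pool.Nil.orb (T j) (P j) n x) = ∫ y, f j y ∂μ := by
    rw [ae_all_iff]
    intro j
    rw [ae_all_iff]
    intro n
    exact (horb j n).quasiMeasurePreserving.ae (erg_const (GTC.inv_le (φ j)) (fun A hA => herg j A hA.1 hA.2))
  filter_upwards [h3, h2] with x hx1 hx2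
  refine hx1.congr fun N => ?_
  congr 1
  refine Finset.sum_congr rfl fun n _ => ?_
  congr 2
  exact Finset.prod_congr rfl fun j _ => hx2 j n

end Pool.Agent.GTP
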